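import Pool.Agent.H85.TG.NonRep

set_option autoImplicit false
set_option linter.unusedSectionVars false

/-!
# Grafts with four vertices: a missing linkage makes the graft graphic (Whitney twist)
-/

open Set Matroid Module Submodule
open scoped Matroid

namespace Pool.Agent.H85.TG

open Pool.Agent.H18.SG (vec linMat linMat_indep linMat_ground gr)
open Pool.Agent.H36.TX (IsRep Rep Regular ThreeConn)
open Pool.Agent.H85.TX (rk indepOn_iff eRk_eq Represents mem_closure_iff)

variable {V E : Type} [Fintype V] [DecidableEq V] [Finite E]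
variable {s t : E → V} {p : Fin 4 → V} {c : V → Fin 4}

/-- `N` is graphic: the elements are the edges (with the ends `a f` and `b f`) of a finite graph, and
a set is independent iff its incidence vectors are linearly independent over `ZMod 2`. -/
def Graphic {α : Type} (N : Matroid α) : Prop :=
  ∃ (U : Type) (_ : Fintype U) (_ : DecidableEq U) (a b : α → U),
    ∀ I ⊆ N.E, (N.Indep I ↔ LinearIndepOn (ZMod 2) (vec (ZMod 2) a b) I)

/-- `p i` and `p j` are joined in the subgraph induced on `side p c i j`: no set `Z` separates them -/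
def Linked (s t : E → V) (p : Fin 4 → V) (c : V → Fin 4) (i j : Fin 4) : Prop :=
  ∀ Z : Set V, p i ∈ Z → p j ∉ Z → ∃ f, s f ∈ side p c i j ∧ t f ∈ side p c i j ∧
    ((s f ∈ Z ∧ t f ∉ Z) ∨ (t f ∈ Z ∧ s f ∉ Z))

theorem Linked.mem {i j : Fin 4} (h : Linked s t p c i j) :
    (Pi.single (p i) 1 - Pi.single (p j) 1 : V → ZMod 2) ∈ span (ZMod 2) (vec (ZMod 2) s t ''
      {f | s f ∈ side p c i j ∧ t f ∈ side p c i j}) := by
  by_contra hcon
  obtain ⟨Z, hi, hj, hZ⟩ := cut hcon
  obtain ⟨f, h1, h2, h3⟩ := h Z hi hj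
  have h4 := hZ f ⟨h1, h2⟩
  rcases h3 with h3 | h3
  · exact h3.2 (h4.1 h3.1)
  · exact h3.2 (h4.2 h3.1)

theorem exists_Z (hp : Function.Injective p) (hcol : Coloured s t p c)
    {i j k l : Fin 4} (hij : i ≠ j) (hik : i ≠ k) (hil : i ≠ l) (hjk : j ≠ k) (hjl : j ≠ l)
    (hkl : k ≠ l) (hlink : ¬ Linked s t p c i j) : ∃ Z : Set V, p i ∈ Z ∧ p j ∉ Z ∧ p k ∉ Z ∧
      p l ∉ Z ∧ ∀ f, (s f ∈ Z ∨ t f ∈ Z) → (s f ∈ Z ∨ s f ∈ ({p k, p l} : Finset V)) ∧
        (t f ∈ Z ∨ t f ∈ ({p k, p l} : Finset V)) := by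
  have hall : ∀ m : Fin 4, m = i ∨ m = j ∨ m = k ∨ m = l := by
    clear hlink
    revert i j k l
    decide
  unfold Linked at hlink
  push Not at hlink
  obtain ⟨Y, hiY, hjY, hY'⟩ := hlink
  have hY : ∀ f ∈ {f | s f ∈ side p c i j ∧ t f ∈ side p c i j}, (s f ∈ Y ↔ t f ∈ Y) := by
    rintro f ⟨h1, h2⟩
    have h3 := hY' f h1 h2
    exact ⟨h3.1, h3.2⟩
  obtain ⟨Z, hZ⟩ : ∃ Z : Set V, Z = (Y ∩ side p c i j) ∪ {u | (∀ m, p m ≠ u) ∧ c u = j} :=
    ⟨_, rfl⟩
  -- adjacency: `u ∈ Z`, `u'` the other end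
  have hadj : ∀ u u' : V, ((∀ m, p m ≠ u) → (∀ m, p m ≠ u') → c u = c u') →
      (∀ m, p m = u → (∀ n, p n ≠ u') → c u' ≠ m) → (∀ m, p m = u' → (∀ n, p n ≠ u) → c u ≠ m) →
      (u ∈ side p c i j → u' ∈ side p c i j → (u ∈ Y → u' ∈ Y)) →
      u ∈ Z → u' ∈ Z ∨ u' ∈ ({p k, p l} : Finset V) := by
    intro u u' h1 h2 h4 h5 hu
    rw [Finset.mem_insert, Finset.mem_singleton]
    by_cases hk' : u' = p k
    · exact Or.inr (Or.inl hk')
    by_cases hl' : u' = p l
    · exact Or.inr (Or.inr hl')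
    left
    rw [hZ] at hu ⊢
    by_cases hT' : ∃ m, p m = u'
    · obtain ⟨m, hm⟩ := hT'
      have hmij : m = i ∨ m = j := by
        rcases hall m with h | h | h | h
        · exact Or.inl h
        · exact Or.inr h
        · exact absurd (h ▸ hm.symm) hk'
        · exact absurd (h ▸ hm.symm) hl'
      have hside' : u' ∈ side p c i j := by
        rcases hmij with h | h
        · exact Or.inl (h ▸ hm.symm)
        · exact Or.inr (Or.inl (h ▸ hm.symm))
      rcases hu with ⟨huY, huS⟩ | ⟨hun, huc⟩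
      · exact Or.inl ⟨h5 huS hside' huY, hside'⟩
      · rcases hmij with h | h
        · refine Or.inl ⟨?_, hside'⟩
          rw [← hm, h]
          exact hiY
        · exact absurd huc (fun h6 => h4 m hm hun (by rw [h]; exact h6))
    · push Not at hT'
      rcases hu with ⟨huY, huS⟩ | ⟨hun, huc⟩
      · by_cases hS' : u' ∈ side p c i j
        · exact Or.inl ⟨h5 huS hS' huY, hS'⟩
        · right
          refine ⟨hT', ?_⟩
          have h6 : c u' = i ∨ c u' = j := by
            by_contra h7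
            push Not at h7
            exact hS' (Or.inr (Or.inr ⟨hT', h7.1, h7.2⟩))
          rcases h6 with h6 | h6
          · exfalso
            rcases huS with h7 | h7 | h7
            · exact h2 i h7.symm hT' h6
            · exact hjY (h7 ▸ huY)
            · have h8 := h1 h7.1 hT'
              exact h7.2.1 (h8.trans h6)
          · exact h6
      · right
        exact ⟨hT', (h1 hun hT').symm.trans huc⟩
  have hends : ∀ f, (s f ∈ Z ∨ t f ∈ Z) →
      (s f ∈ Z ∨ s f ∈ ({p k, p l} : Finset V)) ∧ (t f ∈ Z ∨ t f ∈ ({p k, p l} : Finset V)) := by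
    intro f hf
    obtain ⟨h1, h2, h4⟩ := hcol f
    rcases hf with hf | hf
    · refine ⟨Or.inl hf, hadj (s f) (t f) h1 h2 h4 ?_ hf⟩
      intro h5 h6 h7
      exact (hY f ⟨h5, h6⟩).1 h7
    · refine ⟨hadj (t f) (s f) (fun h5 h6 => (h1 h6 h5).symm) h4 h2 ?_ hf, Or.inl hf⟩
      intro h5 h6 h7
      exact (hY f ⟨h6, h5⟩).2 h7
  have hside : ∀ m, m ≠ i → m ≠ j → p m ∉ side p c i j := by
    rintro m hmi hmj (h | h | h)
    · exact hmi (hp h)
    · exact hmj (hp h)
    · exact h.1 m rfl
  refine ⟨Z, hZ ▸ Or.inl ⟨hiY, Or.inl rfl⟩, ?_, ?_, ?_, hends⟩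
  · rw [hZ]
    rintro (h | h)
    · exact hjY h.1
    · exact h.1 j rfl
  · rw [hZ]
    rintro (h | h)
    · exact hside k hik.symm hjk.symm h.2
    · exact h.1 k rfl
  · rw [hZ]
    rintro (h | h)
    · exact hside l hil.symm hjl.symm h.2
    · exact h.1 l rfl

theorem sub_vec (x y : V → ZMod 2) : x - y = x + y := funext fun _ => sub_eq _ _

theorem add_self_vec (x : V → ZMod 2) : x + x = 0 := funext fun _ => two_eq _

theorem graphic_of_not_linked (hp : Function.Injective p) (hcol : Coloured s t p c)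
    {i j : Fin 4} (hij : i ≠ j) (hlink : ¬ Linked s t p c i j) : Graphic (graft s t p) := by
  classical
  obtain ⟨k, l, hik, hil, hjk, hjl, hkl⟩ : ∃ k l : Fin 4, i ≠ k ∧ i ≠ l ∧ j ≠ k ∧ j ≠ l ∧ k ≠ l := by
    clear hlink
    revert i j
    decide
  obtain ⟨Z, hi, hj, hk, hl, hends⟩ := exists_Z hp hcol hij hik hil hjk hjl hkl hlink
  obtain ⟨χ, hχ⟩ : ∃ χ : (V → ZMod 2) →ₗ[ZMod 2] ZMod 2,
      ∀ u, χ (Pi.single u 1) = if u ∈ Z then 1 else 0 := by
    refine ⟨∑ v ∈ Finset.univ.filter (· ∈ Z), LinearMap.proj v, fun u => ?_⟩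
    rw [LinearMap.sum_apply]
    simp only [LinearMap.proj_apply, Pi.single_apply]
    simp
  obtain ⟨d, hd⟩ : ∃ d : V → ZMod 2, d = Pi.single (p k) 1 + Pi.single (p l) 1 := ⟨_, rfl⟩
  have hχd : χ d = 0 := by
    rw [hd, map_add, hχ, hχ, if_neg hk, if_neg hl, add_zero]
  obtain ⟨Λ, hΛ⟩ : ∃ Λ : (V → ZMod 2) →ₗ[ZMod 2] (V → ZMod 2), ∀ x, Λ x = x + χ x • d :=
    ⟨LinearMap.id + χ.smulRight d, fun x => rfl⟩
  have hinj : Function.Injective Λ := by
    have h1 : ∀ x, Λ (Λ x) = x := by
      intro x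
      rw [hΛ (Λ x), hΛ x, map_add, map_smul, hχd, smul_zero, add_zero, add_assoc, add_self_vec,
        add_zero]
    intro x y h
    rw [← h1 x, h, h1]
  have hvec : ∀ o, ∃ a b : V, Λ (ev s t p o) = Pi.single a 1 - Pi.single b 1 := by
    rintro (_ | f)
    · refine ⟨p i, p j, ?_⟩
      have h1 : χ (ev s t p none) = 1 := by
        rw [ev_none_eq hij hik hil hjk hjl hkl, map_add, map_sub, map_sub, hχ, hχ, hχ, hχ,
          if_pos hi, if_neg hj, if_neg hk, if_neg hl]
        decide
      rw [hΛ, h1, one_smul, ev_none_eq hij hik hil hjk hjl hkl, hd, sub_vec (Pi.single (p k) 1),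
        add_assoc, add_self_vec, add_zero]
    · have h0 : ev s t p (some f) = Pi.single (s f) 1 - Pi.single (t f) 1 := rfl
      have h1 : χ (ev s t p (some f)) = (if s f ∈ Z then 1 else 0) - if t f ∈ Z then 1 else 0 := by
        rw [h0, map_sub, hχ, hχ]
      by_cases hs : s f ∈ Z
      · by_cases ht : t f ∈ Z
        · rw [if_pos hs, if_pos ht, sub_self] at h1
          exact ⟨s f, t f, by rw [hΛ, h1, zero_smul, add_zero, h0]⟩
        · rw [if_pos hs, if_neg ht, sub_zero] at h1
          have h2 := (hends f (Or.inl hs)).2.resolve_left ht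
          rw [Finset.mem_insert, Finset.mem_singleton] at h2
          rcases h2 with h2 | h2
          · refine ⟨s f, p l, ?_⟩
            rw [hΛ, h1, one_smul, h0, hd, h2, sub_vec _ (Pi.single (p l) 1)]
            abel
          · refine ⟨s f, p k, ?_⟩
            rw [hΛ, h1, one_smul, h0, hd, h2, sub_vec _ (Pi.single (p k) 1)]
            abel
      · by_cases ht : t f ∈ Z
        · have h3 : (0 : ZMod 2) - 1 = 1 := by decide
          rw [if_neg hs, if_pos ht, h3] at h1
          have h2 := (hends f (Or.inr ht)).1.resolve_left hs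
          rw [Finset.mem_insert, Finset.mem_singleton] at h2
          rcases h2 with h2 | h2
          · refine ⟨p l, t f, ?_⟩
            have h4 := add_self_vec (Pi.single (p k) 1 : V → ZMod 2)
            rw [hΛ, h1, one_smul, h0, hd, h2]
            calc (Pi.single (p k) 1 - Pi.single (t f) 1 : V → ZMod 2) +
                  (Pi.single (p k) 1 + Pi.single (p l) 1)
                = (Pi.single (p k) 1 + Pi.single (p k) 1) +
                  (Pi.single (p l) 1 - Pi.single (t f) 1) := by abel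
              _ = _ := by rw [h4, zero_add]
          · refine ⟨p k, t f, ?_⟩
            have h4 := add_self_vec (Pi.single (p l) 1 : V → ZMod 2)
            rw [hΛ, h1, one_smul, h0, hd, h2]
            calc (Pi.single (p l) 1 - Pi.single (t f) 1 : V → ZMod 2) +
                  (Pi.single (p k) 1 + Pi.single (p l) 1)
                = (Pi.single (p l) 1 + Pi.single (p l) 1) +
                  (Pi.single (p k) 1 - Pi.single (t f) 1) := by abel
              _ = _ := by rw [h4, zero_add]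
        · rw [if_neg hs, if_neg ht, sub_zero] at h1
          exact ⟨s f, t f, by rw [hΛ, h1, zero_smul, add_zero, h0]⟩
  choose a b hab using hvec
  refine ⟨V, inferInstance, inferInstance, a, b, fun I _ => ?_⟩
  rw [graft, linMat_indep, ← Λ.linearIndepOn_iff_of_injOn hinj.injOn]
  apply linearIndepOn_congr
  intro o _
  exact hab o

/-- in a 3-connected graft, `G - u` is connected -/
theorem off_of_three (h3 : ThreeConn (graft s t p)) (hc : Conn s t) (hE : 3 ≤ Nat.card E) :
    Off s t := by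
  -- no 1-separation of the graph
  have key : ∀ X Y : Set E, X ∪ Y = univ → Disjoint X Y → 1 ≤ X.ncard → 2 ≤ Y.ncard →
      (span (ZMod 2) (vec (ZMod 2) s t '' X) ⊓ span (ZMod 2) (vec (ZMod 2) s t '' Y) :
        Submodule (ZMod 2) (V → ZMod 2)) = ⊥ → False := by
    intro X Y hXY hd hX hY hinf
    have hn : none ∉ (some '' X : Set (Option E)) := by
      rintro ⟨f, _, hf⟩
      exact absurd hf (Option.some_ne_none f)
    have hnY : none ∉ (some '' Y : Set (Option E)) := by
      rintro ⟨f, _, hf⟩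
      exact absurd hf (Option.some_ne_none f)
    have h1 := three_nat ev_rep h3 2 (Or.inr rfl) (insert none (some '' X)) (some '' Y)
      (by
        rw [graft_E, Set.insert_union, ← Set.image_union, hXY]
        ext o
        rcases o with _ | f <;> simp)
      (by
        rw [Set.disjoint_insert_left]
        exact ⟨hnY, (Set.disjoint_image_iff (Option.some_injective E)).2 hd⟩)
      (by
        rw [Set.ncard_insert_of_notMem hn (Set.toFinite _), ncard_some]
        omega)
      (by rw [ncard_some]; exact hY)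
    have h2 : rk (ZMod 2) (ev s t p) (insert none (some '' X)) ≤
        rk (ZMod 2) (ev s t p) (some '' X) + 1 := by
      have h4 := rk_le_ncard (ev s t p) {none}
      rw [Set.ncard_singleton] at h4
      have h5 := Submodule.finrank_add_le_finrank_add_finrank
        (span (ZMod 2) (ev s t p '' {none})) (span (ZMod 2) (ev s t p '' (some '' X)))
      rw [← span_union, ← Set.image_union, Set.singleton_union] at h5
      unfold rk at h4 ⊢
      omega
    have h4 := Submodule.finrank_sup_add_finrank_inf_eq (span (ZMod 2) (vec (ZMod 2) s t '' X))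
      (span (ZMod 2) (vec (ZMod 2) s t '' Y))
    rw [hinf, finrank_bot, ← span_union, ← Set.image_union, hXY] at h4
    have h5 : rk (ZMod 2) (ev s t p) (some '' univ) ≤ rk (ZMod 2) (ev s t p) (graft s t p).E :=
      rk_mono (by rw [graft_E]; exact subset_univ _)
    rw [rk_some] at h5
    rw [rk_some] at h1 h2
    omega
  intro u a b ha hb
  by_contra hcon
  obtain ⟨Z, haZ, hbZ, hZ⟩ := cut hcon
  obtain ⟨Z1, hZ1⟩ : ∃ Z1 : Set V, Z1 = Z \ {u} := ⟨_, rfl⟩
  have haZ1 : a ∈ Z1 := hZ1 ▸ ⟨haZ, ha⟩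
  have hbZ1 : b ∉ Z1 := fun h => hbZ (hZ1 ▸ h : b ∈ Z \ {u}).1
  have hends : ∀ f, (s f ∈ Z1 ∨ t f ∈ Z1) →
      (s f ∈ Z1 ∨ s f ∈ ({u} : Finset V)) ∧ (t f ∈ Z1 ∨ t f ∈ ({u} : Finset V)) := by
    intro f hf
    rw [hZ1] at hf ⊢
    simp only [Finset.mem_singleton, mem_sdiff, mem_singleton_iff] at hf ⊢
    by_cases h1 : s f = u
    · by_cases h2 : t f = u
      · exact ⟨Or.inr h1, Or.inr h2⟩
      · refine ⟨Or.inr h1, Or.inl ?_⟩
        rcases hf with hf | hf
        · exact absurd h1 hf.2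
        · exact hf
    · by_cases h2 : t f = u
      · refine ⟨Or.inl ?_, Or.inr h2⟩
        rcases hf with hf | hf
        · exact hf
        · exact absurd h2 hf.2
      · have h4 := hZ f ⟨h1, h2⟩
        rcases hf with hf | hf
        · exact ⟨Or.inl hf, Or.inl ⟨h4.1 hf.1, h2⟩⟩
        · exact ⟨Or.inl ⟨h4.2 hf.1, h1⟩, Or.inl hf⟩
  have hX : 1 ≤ ({f | s f ∈ Z1 ∨ t f ∈ Z1} : Set E).ncard := by
    obtain ⟨f, hf⟩ := hc Z1 ⟨a, haZ1⟩ ⟨b, hbZ1⟩
    refine (Set.ncard_pos (Set.toFinite _)).2 ⟨f, ?_⟩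
    rcases hf with hf | hf
    · exact Or.inl hf.1
    · exact Or.inr hf.1
  have hY : 1 ≤ ({f | s f ∈ Z1 ∨ t f ∈ Z1}ᶜ : Set E).ncard := by
    obtain ⟨f, hf⟩ := hc {v | v ∉ Z1 ∧ v ≠ u} ⟨b, hbZ1, hb⟩ ⟨a, fun h => h.1 haZ1⟩
    refine (Set.ncard_pos (Set.toFinite _)).2 ⟨f, ?_⟩
    intro h4
    have h5 := hends f h4
    simp only [Finset.mem_singleton] at h5
    rcases hf with hf | hf
    · rcases h5.1 with h6 | h6
      · exact hf.1.1 h6
      · exact hf.1.2 h6
    · rcases h5.2 with h6 | h6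
      · exact hf.1.1 h6
      · exact hf.1.2 h6
  have hcomp : ({f | s f ∈ Z1 ∨ t f ∈ Z1} : Set E).ncard +
      ({f | s f ∈ Z1 ∨ t f ∈ Z1}ᶜ : Set E).ncard = Nat.card E := Set.ncard_add_ncard_compl _
  have h2 : (span (ZMod 2) (vec (ZMod 2) s t '' {f | s f ∈ Z1 ∨ t f ∈ Z1}) ⊓
      span (ZMod 2) (vec (ZMod 2) s t '' {f | s f ∈ Z1 ∨ t f ∈ Z1}ᶜ) :
        Submodule (ZMod 2) (V → ZMod 2)) = ⊥ := by
    rw [eq_bot_iff]
    intro x hx
    obtain ⟨h4, h5⟩ := inf_small Z1 {u} hends hx
    rw [Finset.sum_singleton] at h5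
    show x = 0
    funext v
    by_cases hv : v = u
    · rw [hv]
      exact h5
    · exact h4 v (by simpa using hv)
  by_cases h6 : 2 ≤ ({f | s f ∈ Z1 ∨ t f ∈ Z1}ᶜ : Set E).ncard
  · exact key _ _ (Set.union_compl_self _) disjoint_compl_right hX h6 h2
  · refine key _ _ (Set.compl_union_self _) disjoint_compl_left hY (by omega) ?_
    rw [inf_comm]
    exact h2

/-- a connected graph with four vertices has at least three edges -/
theorem three_le (hc : Conn s t) (hp : Function.Injective p) :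
    3 ≤ finrank (ZMod 2) (span (ZMod 2) (vec (ZMod 2) s t '' univ)) := by
  have h1 : LinearMap.ker (sumC (V := V)) ≤ span (ZMod 2) (vec (ZMod 2) s t '' univ) := by
    intro x hx
    have hx' : sumC x = 0 := hx
    have h1 : x = ∑ v, x v • (Pi.single v 1 - Pi.single (p 0) 1 : V → ZMod 2) := by
      simp only [smul_sub, Finset.sum_sub_distrib]
      rw [← Finset.sum_smul]
      have h2 : ∑ v, x v = 0 := by simpa [sumC, LinearMap.sum_apply] using hx'
      rw [h2, zero_smul, sub_zero]
      funext z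
      simp [Finset.sum_apply, Pi.single_apply]
    rw [h1]
    refine sum_mem fun v _ => smul_mem _ _ ?_
    by_contra hcon
    obtain ⟨Z, h3, h4, h5⟩ := cut hcon
    obtain ⟨f, hf⟩ := hc Z ⟨v, h3⟩ ⟨p 0, h4⟩
    have h6 := h5 f (mem_univ f)
    rcases hf with hf | hf
    · exact hf.2 (h6.1 hf.1)
    · exact hf.2 (h6.2 hf.1)
  have h2 := Submodule.finrank_mono h1
  have h4 := LinearMap.finrank_range_add_finrank_ker (sumC (V := V))
  have h5 : finrank (ZMod 2) (LinearMap.range (sumC (V := V))) ≤ 1 :=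
    (Submodule.finrank_le _).trans (by rw [finrank_self])
  rw [Module.finrank_pi] at h4
  have h6 := Fintype.card_le_of_injective p hp
  rw [Fintype.card_fin] at h6
  omega

theorem rk_vec_le (X : Set E) : finrank (ZMod 2) (span (ZMod 2) (vec (ZMod 2) s t '' X)) ≤
    X.ncard := rk_le_ncard (vec (ZMod 2) s t) X

theorem card_of_conn (hc : Conn s t) (hp : Function.Injective p) : 3 ≤ Nat.card E := by
  have h1 := three_le hc hp
  have h2 := rk_vec_le (s := s) (t := t) univ
  rw [Set.ncard_univ] at h2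
  omega

theorem card_of_three (h3 : ThreeConn (graft s t p ＼ {none})) (hc : Conn s t)
    (hp : Function.Injective p) : 4 ≤ Nat.card E := by
  have h1 := card_of_conn hc hp
  by_contra hcon
  obtain ⟨f⟩ : Nonempty E := (Nat.card_pos_iff.1 (by omega)).1
  have h2 : ({f} : Set E).ncard + ({f}ᶜ : Set E).ncard = Nat.card E :=
    Set.ncard_add_ncard_compl _
  rw [Set.ncard_singleton] at h2
  have h4 := tc h3 (Or.inl rfl) (X := {f}) (by rw [Set.ncard_singleton]) (by omega)
  have h5 := Submodule.finrank_sup_add_finrank_inf_eq (span (ZMod 2) (vec (ZMod 2) s t '' {f}))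
    (span (ZMod 2) (vec (ZMod 2) s t '' {f}ᶜ))
  rw [← span_union, ← Set.image_union, Set.union_compl_self] at h5
  have h6 := three_le hc hp
  have h7 := rk_vec_le (s := s) (t := t) {f}
  have h8 := rk_vec_le (s := s) (t := t) {f}ᶜ
  rw [Set.ncard_singleton] at h7
  omega

end Pool.Agent.H85.TG
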