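import Pool.Agent.H85.TG.Defs

/-!
# [H85 TG AA] subnormal series with cyclic factors, 80-120 lines

`PC K N`: there is `f : ℕ → Subgroup Γ` with `f 0 = K`, `f n = N` and for `i < n`: `f (i+1) ≤ f i`, `f i` normalises `f (i+1)`, `f i` is cyclic modulo `f (i+1)`.
* `PC.refl`: `n = 0`. `PC.cons`: shift the sequence (`fun i => Nat.casesOn i K f`). `PC.trans`: induction on the length of the first series with `cons` (generalise `K`),
  or gluing of sequences.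
* `cyc_pull`: the set of the integers `k` for which there is `x ∈ L` with `g ^ k * (φ x)⁻¹ ∈ N` is a subgroup of `ℤ` (`N` is normalised by `K`), so it consists of the multiples
  of some `k₀` (`Int.subgroup_cyclic`, or the least positive element); take `x₀ ∈ L` for `k₀`. For `x ∈ L` with `g ^ k * (φ x)⁻¹ ∈ N`, `k = m k₀`: modulo `N` one has
  `φ x = g ^ k = (g ^ k₀) ^ m = φ x₀ ^ m`. (It is convenient to work in the quotient group `K ⧸ N.subgroupOf K`, or with `QuotientGroup` of the group `K`; there `L` maps to a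
  subgroup of a cyclic group, `Subgroup.isCyclic`.)
* `PC.pull`: the series `L ⊓ (f i).comap φ` (`L.map φ ≤ K`); the step is `cyc_pull` for the subgroup `L ⊓ (f i).comap φ`. `PC.inf`: `φ = id`. `PC.comap`: `L = K.comap φ`.
* `PC.map`: the series `(f i).map φ`; all three properties are preserved (`map_zpow`, `map_mul`).
* `PC.le`.
-/

set_option autoImplicit false

universe u v

namespace H85.TG

variable {Γ : Type u} [Group Γ]

theorem PC.refl (K : Subgroup Γ) : PC K K :=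
  ⟨0, fun _ => K, rfl, rfl, fun i hi => absurd hi (Nat.not_lt_zero i)⟩

theorem PC.le {K N : Subgroup Γ} (h : PC K N) : N ≤ K := by
  obtain ⟨n, f, h0, hn, hf⟩ := h
  have h1 : ∀ m ≤ n, f m ≤ f 0 := by
    intro m
    induction m with
    | zero => intro _; exact le_rfl
    | succ m ih =>
      intro hm
      exact (hf m (by omega)).1.trans (ih (by omega))
  rw [← h0, ← hn]
  exact h1 n le_rfl

theorem PC.cons {K K' N : Subgroup Γ} (h1 : K' ≤ K) (h2 : ∀ x ∈ K, ∀ y ∈ K', x * y * x⁻¹ ∈ K')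
    (h3 : ∃ g ∈ K, ∀ x ∈ K, ∃ k : ℤ, g ^ k * x⁻¹ ∈ K') (h : PC K' N) : PC K N := by
  obtain ⟨n, f, h0, hn, hf⟩ := h
  refine ⟨n + 1, fun i => Nat.casesOn i K f, rfl, hn, ?_⟩
  intro i hi
  cases i with
  | zero =>
    change f 0 ≤ K ∧ (∀ x ∈ K, ∀ y ∈ f 0, x * y * x⁻¹ ∈ f 0) ∧
      ∃ g ∈ K, ∀ x ∈ K, ∃ k : ℤ, g ^ k * x⁻¹ ∈ f 0
    rw [h0]
    exact ⟨h1, h2, h3⟩
  | succ i => exact hf i (by omega)

theorem PC.trans {K L N : Subgroup Γ} (h : PC K L) (h' : PC L N) : PC K N := by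
  obtain ⟨n, f, h0, hn, hf⟩ := h
  induction n generalizing K f with
  | zero =>
    have h1 : K = L := by rw [← h0, hn]
    rw [h1]
    exact h'
  | succ n ih =>
    obtain ⟨h1, h2, h3⟩ := hf 0 (Nat.succ_pos n)
    rw [← h0]
    exact PC.cons h1 h2 h3 (ih (fun i => f (i + 1)) rfl hn fun i hi => hf (i + 1) (by omega))

theorem cyc_pull {Γ' : Type v} [Group Γ'] (φ : Γ →* Γ') {K N : Subgroup Γ'} (h1 : N ≤ K)
    (h2 : ∀ x ∈ K, ∀ y ∈ N, x * y * x⁻¹ ∈ N) (h3 : ∃ g ∈ K, ∀ x ∈ K, ∃ k : ℤ, g ^ k * x⁻¹ ∈ N)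
    (L : Subgroup Γ) (hL : L.map φ ≤ K) : ∃ g ∈ L, ∀ x ∈ L, ∃ k : ℤ, φ (g ^ k * x⁻¹) ∈ N := by
  obtain ⟨g, hg, hgen⟩ := h3
  haveI hn : (N.subgroupOf K).Normal := ⟨fun n hn x => by
    rw [Subgroup.mem_subgroupOf] at hn ⊢
    exact h2 x x.2 n hn⟩
  obtain ⟨π, hπd⟩ : ∃ π : K →* K ⧸ N.subgroupOf K, π = QuotientGroup.mk' (N.subgroupOf K) :=
    ⟨_, rfl⟩
  have hπ : ∀ a b : K, π a = π b ↔ (a : Γ') * (b : Γ')⁻¹ ∈ N := by
    intro a b
    rw [← mul_inv_eq_one, ← map_inv, ← map_mul, hπd, QuotientGroup.mk'_apply,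
      QuotientGroup.eq_one_iff, Subgroup.mem_subgroupOf]
    rfl
  haveI hcyc : IsCyclic (K ⧸ N.subgroupOf K) := by
    refine ⟨π ⟨g, hg⟩, fun q => ?_⟩
    obtain ⟨x, hx⟩ : ∃ x : K, π x = q := by
      rw [hπd]
      exact QuotientGroup.mk'_surjective _ q
    obtain ⟨k, hk⟩ := hgen x x.2
    refine ⟨k, ?_⟩
    change π ⟨g, hg⟩ ^ k = q
    rw [← map_zpow, ← hx, hπ]
    exact hk
  obtain ⟨ψ, hψ⟩ : ∃ ψ : L →* K ⧸ N.subgroupOf K, ∀ x : L, ∀ y : K, (y : Γ') = φ x → ψ x = π y := by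
    refine ⟨π.comp ((φ.comp L.subtype).codRestrict K
      (fun x => hL (Subgroup.mem_map_of_mem φ x.2))), ?_⟩
    intro x y hy
    change π _ = π y
    congr 1
    exact Subtype.ext hy.symm
  obtain ⟨⟨q, hq⟩, hqgen⟩ := IsCyclic.exists_generator (α := ψ.range)
  obtain ⟨x₀, rfl⟩ := hq
  refine ⟨x₀, x₀.2, fun x hx => ?_⟩
  obtain ⟨m, hm⟩ := hqgen ⟨ψ ⟨x, hx⟩, ⟨_, rfl⟩⟩
  refine ⟨m, ?_⟩
  have h4 : ψ (x₀ ^ m) = ψ ⟨x, hx⟩ := by
    have h5 := congrArg Subtype.val hm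
    rw [map_zpow]
    exact h5
  have hLK : ∀ y : L, φ y ∈ K := fun y => hL (Subgroup.mem_map_of_mem φ y.2)
  rw [hψ (x₀ ^ m) ⟨_, hLK _⟩ rfl, hψ ⟨x, hx⟩ ⟨_, hLK ⟨x, hx⟩⟩ rfl, hπ] at h4
  rw [map_mul, map_inv]
  exact h4

theorem PC.pull {Γ' : Type v} [Group Γ'] (φ : Γ →* Γ') {K N : Subgroup Γ'} (h : PC K N)
    (L : Subgroup Γ) (hL : L.map φ ≤ K) : PC L (L ⊓ N.comap φ) := by
  obtain ⟨n, f, h0, hn, hf⟩ := h
  refine ⟨n, fun i => L ⊓ (f i).comap φ, ?_, by simp only [hn], ?_⟩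
  · change L ⊓ (f 0).comap φ = L
    rw [h0, inf_eq_left]
    exact Subgroup.map_le_iff_le_comap.1 hL
  · intro i hi
    obtain ⟨h1, h2, h3⟩ := hf i hi
    refine ⟨inf_le_inf_left L (Subgroup.comap_mono h1), ?_, ?_⟩
    · rintro x ⟨hx1, hx2⟩ y ⟨hy1, hy2⟩
      refine ⟨L.mul_mem (L.mul_mem hx1 hy1) (L.inv_mem hx1), ?_⟩
      change φ (x * y * x⁻¹) ∈ f (i + 1)
      rw [map_mul, map_mul, map_inv]
      exact h2 _ hx2 _ hy2
    · obtain ⟨g, hg, hgen⟩ := cyc_pull φ h1 h2 h3 (L ⊓ (f i).comap φ)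
        ((Subgroup.map_mono inf_le_right).trans (Subgroup.map_comap_le φ _))
      refine ⟨g, hg, fun x hx => ?_⟩
      obtain ⟨k, hk⟩ := hgen x hx
      exact ⟨k, L.mul_mem (L.zpow_mem hg.1 k) (L.inv_mem hx.1), hk⟩

theorem PC.inf {K N : Subgroup Γ} (h : PC K N) (L : Subgroup Γ) : PC (K ⊓ L) (N ⊓ L) := by
  have h1 := h.pull (MonoidHom.id Γ) (K ⊓ L) (by
    rw [Subgroup.map_id]
    exact inf_le_left)
  rw [Subgroup.comap_id, inf_right_comm, inf_eq_right.2 h.le] at h1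
  exact h1

theorem PC.comap {Γ' : Type v} [Group Γ'] (φ : Γ →* Γ') {K N : Subgroup Γ'} (h : PC K N) :
    PC (K.comap φ) (N.comap φ) := by
  have h1 := h.pull φ (K.comap φ) (Subgroup.map_comap_le φ K)
  rw [← Subgroup.comap_inf, inf_eq_right.2 h.le] at h1
  exact h1

theorem PC.map {Γ' : Type v} [Group Γ'] (φ : Γ →* Γ') {K N : Subgroup Γ} (h : PC K N) :
    PC (K.map φ) (N.map φ) := by
  obtain ⟨n, f, h0, hn, hf⟩ := h
  refine ⟨n, fun i => (f i).map φ, by simp only [h0], by simp only [hn], ?_⟩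
  intro i hi
  obtain ⟨h1, h2, g, hg, hgen⟩ := hf i hi
  refine ⟨Subgroup.map_mono h1, ?_, φ g, Subgroup.mem_map_of_mem φ hg, ?_⟩
  · rintro _ ⟨x, hx, rfl⟩ _ ⟨y, hy, rfl⟩
    refine ⟨x * y * x⁻¹, h2 x hx y hy, ?_⟩
    rw [map_mul, map_mul, map_inv]
  · rintro _ ⟨x, hx, rfl⟩
    obtain ⟨k, hk⟩ := hgen x hx
    refine ⟨k, g ^ k * x⁻¹, hk, ?_⟩
    rw [map_mul, map_zpow, map_inv]

end H85.TG
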