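import Pool.Agent.H85.TG.Aa

/-!
# [H85 TG AB] rules for almost polycyclic (modulo a subgroup), 60-100 lines

`VP K N`: there is `A ≤ K` with `A.relIndex K ≠ 0` and `PC A (A ⊓ N)`. Compare the same rules for `VA` in `Pool/Agent/H85/TA/Va.lean`; most proofs can be copied.
* `VP.mono_left`: `A ⊓ K'`: `PC.inf` gives `PC (A ⊓ K') (A ⊓ N ⊓ K')`.
* `VP.congr`: same `A` (`A ⊓ N = A ⊓ (N ⊓ K)`).
* `VP.of_relIndex`: same `A`, `Subgroup.relIndex_ne_zero_trans`.
* `VP.of_finite`: `A = ⊥`. `VP.of_index`: `A = N`.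
* `VP.inf`: `A ⊓ A'`: `PC (A ⊓ A') (A ⊓ N ⊓ A')` and `PC (A' ⊓ (A ⊓ N)) ((A' ⊓ N') ⊓ (A ⊓ N))`, `PC.trans` and rearrangement.
* `VP.iInf`: induction over a finite set of indices with `VP.inf`; the start is `VP K ⊤` (`A = K`). (`Finite.induction_empty_option`, or
  `Finset.induction_on` for `⨅ i ∈ s, N i` and `s = Finset.univ`.)
* `VP.map`: `A.map φ`: `Subgroup.relIndex_map_map_of_injective`, `Subgroup.map_inf` for injective maps. `VP.comap`: `A.comap φ`, `Subgroup.relIndex_comap`: the index of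
  `A.comap φ` in `K.comap φ` is the relative index of `A` in `(K.comap φ).map φ ≤ K` (`Subgroup.relIndex_ne_zero...`, `relIndex_eq_zero_of_le_right`).
-/

set_option autoImplicit false

universe u v

namespace H85.TG

variable {Γ : Type u} [Group Γ]

theorem VP.mono_left {K K' N : Subgroup Γ} (h : VP K N) (hK : K' ≤ K) : VP K' N := by
  obtain ⟨A, hA, hi, hp⟩ := h
  refine ⟨A ⊓ K', inf_le_right, ?_, ?_⟩
  · rw [Subgroup.inf_relIndex_right]
    exact fun h0 => hi (Subgroup.relIndex_eq_zero_of_le_right hK h0)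
  · rw [inf_right_comm]
    exact hp.inf K'

theorem VP.congr {K N N' : Subgroup Γ} (h : VP K N) (hN : N ⊓ K = N' ⊓ K) : VP K N' := by
  obtain ⟨A, hA, hi, hp⟩ := h
  have h1 : ∀ M : Subgroup Γ, A ⊓ M = A ⊓ (M ⊓ K) := by
    intro M
    rw [inf_left_comm, inf_eq_left.2 hA, inf_comm]
  refine ⟨A, hA, hi, ?_⟩
  rw [h1 N', ← hN, ← h1 N]
  exact hp

theorem VP.of_relIndex {K K' N : Subgroup Γ} (h : VP K' N) (hK : K' ≤ K) (hi : K'.relIndex K ≠ 0) :
    VP K N := by
  obtain ⟨A, hA, hi', hp⟩ := h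
  exact ⟨A, hA.trans hK, Subgroup.relIndex_ne_zero_trans hi' hi, hp⟩

theorem VP.of_finite {K N : Subgroup Γ} (hK : (K : Set Γ).Finite) : VP K N := by
  have : Finite K := hK.to_subtype
  refine ⟨⊥, bot_le, ?_, ?_⟩
  · rw [Subgroup.relIndex_bot_left]
    exact Nat.card_pos.ne'
  · rw [bot_inf_eq]
    exact PC.refl ⊥

theorem VP.of_index {K N : Subgroup Γ} (hN : N ≤ K) (hi : N.relIndex K ≠ 0) : VP K N := by
  refine ⟨N, hN, hi, ?_⟩
  rw [inf_idem]
  exact PC.refl N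

theorem VP.inf {K N N' : Subgroup Γ} (h : VP K N) (h' : VP K N') : VP K (N ⊓ N') := by
  obtain ⟨A, hA, hi, hp⟩ := h
  obtain ⟨A', hA', hi', hp'⟩ := h'
  refine ⟨A ⊓ A', inf_le_left.trans hA, Subgroup.relIndex_inf_ne_zero hi hi', ?_⟩
  have h1 := hp.inf A'
  have h2 := hp'.inf (A ⊓ N)
  rw [inf_comm A' (A ⊓ N)] at h2
  have h3 : A' ⊓ N' ⊓ (A ⊓ N) = A ⊓ A' ⊓ (N ⊓ N') := by
    ext x
    simp only [Subgroup.mem_inf]
    tauto
  rw [h3] at h2
  exact h1.trans h2

theorem VP.iInf {ι : Type*} [Finite ι] {K : Subgroup Γ} {N : ι → Subgroup Γ}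
    (h : ∀ i, VP K (N i)) : VP K (⨅ i, N i) := by
  classical
  cases nonempty_fintype ι
  have h1 : ∀ s : Finset ι, VP K (⨅ i ∈ s, N i) := by
    intro s
    induction s using Finset.induction_on with
    | empty =>
      refine ⟨K, le_rfl, ?_, ?_⟩
      · rw [Subgroup.relIndex_self]
        exact one_ne_zero
      · have h2 : K ⊓ ⨅ i ∈ (∅ : Finset ι), N i = K := by simp
        rw [h2]
        exact PC.refl K
    | insert a s _ ih =>
      rw [Finset.iInf_insert]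
      exact (h a).inf ih
  have h2 := h1 Finset.univ
  simpa using h2

theorem VP.map {Γ' : Type v} [Group Γ'] (φ : Γ →* Γ') (hφ : Function.Injective φ) {K N : Subgroup Γ}
    (h : VP K N) : VP (K.map φ) (N.map φ) := by
  obtain ⟨A, hA, hi, hp⟩ := h
  refine ⟨A.map φ, Subgroup.map_mono hA, ?_, ?_⟩
  · rw [Subgroup.relIndex_map_map_of_injective A K hφ]
    exact hi
  · rw [← Subgroup.map_inf A N φ hφ]
    exact hp.map φ

theorem VP.comap {Γ' : Type v} [Group Γ'] (φ : Γ →* Γ') {K N : Subgroup Γ'} (h : VP K N) :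
    VP (K.comap φ) (N.comap φ) := by
  obtain ⟨A, hA, hi, hp⟩ := h
  refine ⟨A.comap φ, Subgroup.comap_mono hA, ?_, ?_⟩
  · rw [Subgroup.relIndex_comap]
    exact fun h0 => hi (Subgroup.relIndex_eq_zero_of_le_right (Subgroup.map_comap_le φ K) h0)
  · rw [← Subgroup.comap_inf]
    exact hp.comap φ

end H85.TG
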