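import Pool.Agent.H85.TG.Ab

/-!
# [H85 TG AC] extensions by cyclic groups, 90-130 lines

* `exists_char`: let `m = A.relIndex N ≠ 0`, and let `A'` be the set of the `x ∈ N` (a subgroup of `Γ`: the image under `N.subtype` of `⨅ ψ : N →* Equiv.Perm (Fin m), ψ.ker`) on which all
  homomorphisms `ψ : N →* Equiv.Perm (Fin m)` are trivial. There are only finitely many such `ψ`, because `N` is finitely generated (`ψ` is determined by its values on a finite
  generating set: `MonoidHom.eq_of_eqOn_dense`-like `MonoidHom.eqOn_closure`, `Finite.of_injective`), each kernel has finite index, so `A'` has finite index in `N`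
  (`Subgroup.finiteIndex_iInf`). `A' ≤ A`: the action of `N` on the `m` cosets of `A.subgroupOf N` (`MulAction.toPermHom`, transported to `Fin m` by
  `Equiv.permCongrHom`/`Equiv.Perm` conjugation; `Finite.equivFin`, `Nat.card`) has kernel in `A.subgroupOf N`. `A'` is normal in `Γ`: for `t : Γ` the conjugation by `t` is an
  automorphism of `N` (`N` normal, `MulAut.conjNormal`), and `ψ.comp (…)` is again a homomorphism.
* `vp_ext`: `VP N ⊥` gives `A ≤ N` of finite relative index with `PC A (A ⊓ ⊥)`; take `A'` from `exists_char`. `PC A' ⊥` by `PC.inf` with `A'`. Let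
  `B = A' ⊔ Subgroup.zpowers t`; the elements of `B` are `a * t ^ k` (`A'` normal: `Subgroup.mul_normal`/`Subgroup.mem_sup_of_normal_left`), so `PC B A'` by one step
  (`g = t`; `t ^ k * (a * t ^ k)⁻¹ ∈ A'`), `PC B ⊥` by `PC.trans`. `B` has finite index: every `x : Γ` is in `N t ^ k`, and so `x B = y B` with `y ∈ N`; the coset `y B` depends only on
  the coset `y A'`, of which there are finitely many in `N` (`Subgroup.index_ne_zero_of_finite`, a surjection onto `Γ ⧸ B` from `N ⧸ A'.subgroupOf N`).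
-/

set_option autoImplicit false

universe u v

namespace H85.TG

variable {Γ : Type u} [Group Γ]

private theorem finite_hom {N : Subgroup Γ} (hfg : N.FG) (P : Type*) [Group P] [Finite P] :
    Finite (N →* P) := by
  obtain ⟨S, hS⟩ := (Group.fg_iff_subgroup_fg N).2 hfg
  refine Finite.of_injective (fun (ψ : N →* P) (s : S) => ψ (s : N)) ?_
  intro ψ ψ' h
  refine MonoidHom.eq_of_eqOn_dense hS ?_
  intro x hx
  exact congrFun h ⟨x, hx⟩

theorem exists_char (N : Subgroup Γ) (hN : N.Normal) (hfg : N.FG) (A : Subgroup Γ) (hA : A ≤ N)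
    (hi : A.relIndex N ≠ 0) : ∃ A' : Subgroup Γ, A'.Normal ∧ A' ≤ A ∧ A'.relIndex N ≠ 0 := by
  set m : ℕ := A.relIndex N with hm
  set K : Subgroup N := ⨅ ψ : N →* Equiv.Perm (Fin m), ψ.ker with hK
  have hKmem : ∀ x : N, x ∈ K ↔ ∀ ψ : N →* Equiv.Perm (Fin m), ψ x = 1 := by
    intro x
    rw [hK, Subgroup.mem_iInf]
    rfl
  haveI hfin : Finite (N →* Equiv.Perm (Fin m)) := finite_hom hfg _
  have hKi : K.FiniteIndex := by
    rw [hK]
    exact Subgroup.finiteIndex_iInf fun ψ => Subgroup.finiteIndex_ker ψ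
  refine ⟨K.map N.subtype, ⟨?_⟩, ?_, ?_⟩
  · rintro _ ⟨y, hy, rfl⟩ t
    have hy' : y ∈ K := hy
    rw [hKmem] at hy'
    refine ⟨MulAut.conjNormal t y, ?_, ?_⟩
    · change MulAut.conjNormal t y ∈ K
      rw [hKmem]
      intro ψ
      exact hy' (ψ.comp (MulAut.conjNormal t : MulAut N).toMonoidHom)
    · simp
  · rintro _ ⟨y, hy, rfl⟩
    have hy' : y ∈ K := hy
    rw [hKmem] at hy'
    have hB0 : (A.subgroupOf N).index = m := rfl
    have hB1 : (A.subgroupOf N).index ≠ 0 := hi
    haveI : (A.subgroupOf N).FiniteIndex := ⟨hB1⟩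
    haveI : Finite (N ⧸ A.subgroupOf N) := inferInstance
    have e : (N ⧸ A.subgroupOf N) ≃ Fin m := Finite.equivFinOfCardEq hB0
    have h1 := hy' ((e.permCongrHom).toMonoidHom.comp
      (MulAction.toPermHom N (N ⧸ A.subgroupOf N)))
    have h2 : MulAction.toPermHom N (N ⧸ A.subgroupOf N) y = 1 := by
      refine (e.permCongrHom).injective ?_
      rw [map_one]
      exact h1
    have h3 : y ∈ (A.subgroupOf N).normalCore := by
      rw [Subgroup.normalCore_eq_ker]
      exact h2
    exact Subgroup.mem_subgroupOf.1 ((A.subgroupOf N).normalCore_le h3)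
  · have h1 : (K.map N.subtype).subgroupOf N = K :=
      Subgroup.comap_map_eq_self_of_injective N.subtype_injective K
    change ((K.map N.subtype).subgroupOf N).index ≠ 0
    rw [h1]
    exact hKi.index_ne_zero

theorem vp_ext (N : Subgroup Γ) (hN : N.Normal) (hfg : N.FG) (h : VP N ⊥) (t : Γ)
    (ht : ∀ x : Γ, ∃ k : ℤ, t ^ k * x⁻¹ ∈ N) : VP (⊤ : Subgroup Γ) ⊥ := by
  obtain ⟨A, hAN, hAi, hPC⟩ := h
  obtain ⟨A', hA'n, hA'A, hA'i⟩ := exists_char N hN hfg A hAN hAi
  have h1 : PC A' ⊥ := by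
    have h2 := hPC.inf A'
    rw [inf_eq_right.2 hA'A, inf_bot_eq, bot_inf_eq] at h2
    exact h2
  set B : Subgroup Γ := A' ⊔ Subgroup.zpowers t with hB
  have hA'B : A' ≤ B := le_sup_left
  have htB : t ∈ B := (le_sup_right : Subgroup.zpowers t ≤ B) (Subgroup.mem_zpowers t)
  have h2 : PC B ⊥ := by
    refine PC.cons hA'B (fun x _ y hy => hA'n.conj_mem y hy x) ⟨t, htB, fun x hx => ?_⟩ h1
    rw [hB, Subgroup.mem_sup_of_normal_left] at hx
    obtain ⟨a, ha, z, ⟨k, rfl⟩, rfl⟩ := hx
    refine ⟨k, ?_⟩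
    have h3 : t ^ k * (a * (fun k : ℤ => t ^ k) k)⁻¹ = a⁻¹ := by
      change t ^ k * (a * t ^ k)⁻¹ = a⁻¹
      group
    rw [h3]
    exact inv_mem ha
  refine ⟨B, le_top, ?_, ?_⟩
  · rw [Subgroup.relIndex_top_right]
    have hA'i' : (A'.subgroupOf N).index ≠ 0 := hA'i
    haveI : (A'.subgroupOf N).FiniteIndex := ⟨hA'i'⟩
    haveI : Finite (N ⧸ A'.subgroupOf N) := inferInstance
    haveI : Finite (Γ ⧸ B) := by
      refine Finite.of_surjective (α := N ⧸ A'.subgroupOf N)
        (Quotient.lift (fun y : N => (QuotientGroup.mk (y : Γ) : Γ ⧸ B)) ?_) ?_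
      · intro y y' hyy
        have h3 : y⁻¹ * y' ∈ A'.subgroupOf N := QuotientGroup.leftRel_apply.1 hyy
        refine QuotientGroup.eq.2 ?_
        exact hA'B (Subgroup.mem_subgroupOf.1 h3)
      · intro q
        obtain ⟨x, rfl⟩ := QuotientGroup.mk_surjective q
        obtain ⟨k, hk⟩ := ht x
        refine ⟨QuotientGroup.mk (⟨t ^ k * x⁻¹, hk⟩⁻¹ : N), ?_⟩
        change (QuotientGroup.mk ((t ^ k * x⁻¹)⁻¹) : Γ ⧸ B) = QuotientGroup.mk x
        refine QuotientGroup.eq.2 ?_
        have h3 : ((t ^ k * x⁻¹)⁻¹)⁻¹ * x = t ^ k := by group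
        rw [h3]
        exact zpow_mem htB k
    exact Subgroup.index_ne_zero_of_finite
  · rw [inf_bot_eq]
    exact h2

end H85.TG
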