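import Pool.Agent.H85.TG.Gb

/-!
# [H85 TG BB] the kernel of a homomorphism onto ℤ has smaller growth, 50-80 lines

Let `T` be a finite set of elements of `χ.ker`, `t : Q` with `χ t = ofAdd 1`, `T' = insert t (T.image (↑))`. For `n : ℕ` the products
`(x : Q) * t ^ i` with `x ∈ bp T n`, `i < n` are distinct (`χ (x t^i) = ofAdd i` determines `i`, then `x`) and they are in `bp T' (2 n)` (`bp_mono`, `bp_mul`; the image of
`bp T n` in `Q` is contained in `bp T' n`; `t ^ i ∈ bp T' i`). So `(bp T n).card * n ≤ (bp T' (2 n)).card`. With `C` from `PG Q (d + 1)` for `T'`: given `r₀` take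
`R ≥ 2 r₀ + 2` with `(bp T' R).card ≤ C R^(d+1)`, `n = R / 2 ≥ 1`: `2 n ≤ R ≤ 3 n`, so `(bp T n).card * n ≤ C (3 n)^(d+1)` and
`(bp T n).card ≤ C 3^(d+1) n^d`.
-/

set_option autoImplicit false

universe u v

namespace H85.TG

open Pointwise

variable {Q : Type u} [Group Q]

private theorem bb_zero {G : Type u} [Group G] (T : Finset G) (x : G) : x ∈ bp T 0 ↔ x = 1 := by
  classical
  unfold bp
  rw [pow_zero, Finset.mem_one]

private theorem bb_succ {G : Type u} [Group G] (T : Finset G) (n : ℕ) (x : G) :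
    x ∈ bp T (n + 1) ↔ ∃ y ∈ bp T n, ∃ z, (z = 1 ∨ z ∈ T ∨ z⁻¹ ∈ T) ∧ y * z = x := by
  classical
  unfold bp
  rw [pow_succ, Finset.mem_mul]
  refine exists_congr fun y => and_congr_right fun _ => exists_congr fun z =>
    and_congr_left fun _ => ?_
  unfold H85.TA.ball
  rw [Finset.mem_insert, Finset.mem_union, Finset.mem_inv']

private theorem bb_map {χ : Q →* Multiplicative ℤ} (T : Finset χ.ker) (T' : Finset Q)
    (h : ∀ x ∈ T, (x : Q) ∈ T') (n : ℕ) {x : χ.ker} (hx : x ∈ bp T n) : (x : Q) ∈ bp T' n := by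
  induction n generalizing x with
  | zero =>
    rw [bb_zero] at hx
    rw [bb_zero, hx]
    rfl
  | succ n ih =>
    rw [bb_succ] at hx
    rw [bb_succ]
    obtain ⟨y, hy, z, hz, rfl⟩ := hx
    refine ⟨y, ih hy, z, ?_, rfl⟩
    rcases hz with rfl | hz | hz
    · exact Or.inl rfl
    · exact Or.inr (Or.inl (h z hz))
    · exact Or.inr (Or.inr (h _ hz))

private theorem bb_pow (T : Finset Q) {t : Q} (ht : t ∈ T) (i : ℕ) : t ^ i ∈ bp T i := by
  classical
  unfold bp
  apply Finset.pow_mem_pow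
  unfold H85.TA.ball
  rw [Finset.mem_insert, Finset.mem_union]
  exact Or.inr (Or.inl ht)

theorem pg_ker {d : ℕ} (h : PG Q (d + 1)) (χ : Q →* Multiplicative ℤ)
    (hχ : Function.Surjective χ) : PG χ.ker d := by
  classical
  intro T
  obtain ⟨t, ht⟩ := hχ (Multiplicative.ofAdd 1)
  set T' : Finset Q := insert t (T.image Subtype.val) with hT'
  obtain ⟨C, hC⟩ := h T'
  have hsub : ∀ x ∈ T, (x : Q) ∈ T' := fun x hx =>
    Finset.mem_insert_of_mem (Finset.mem_image_of_mem _ hx)
  have hcount : ∀ n : ℕ, (bp T n).card * n ≤ (bp T' (2 * n)).card := by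
    intro n
    have h1 : (bp T n ×ˢ Finset.range n).card = (bp T n).card * n := by
      rw [Finset.card_product, Finset.card_range]
    rw [← h1]
    refine Finset.card_le_card_of_injOn (fun p => (p.1 : Q) * t ^ p.2) ?_ ?_
    · intro p hp
      rw [Finset.mem_coe, Finset.mem_product, Finset.mem_range] at hp
      have h2 := bp_mul T' (bb_map T T' hsub n hp.1)
        (bb_pow T' (Finset.mem_insert_self t _) p.2)
      exact bp_mono T' (by omega) h2
    · intro p hp q hq hpq
      have hpq' : (p.1 : Q) * t ^ p.2 = (q.1 : Q) * t ^ q.2 := hpq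
      have h3 := congrArg χ hpq'
      have h4 : ∀ r : χ.ker, χ (r : Q) = 1 := fun r => r.2
      rw [map_mul, map_mul, map_pow, map_pow, h4, h4, one_mul, one_mul, ht, ← ofAdd_nsmul,
        ← ofAdd_nsmul] at h3
      have h5 := Multiplicative.ofAdd.injective h3
      have h6 : p.2 = q.2 := by
        simp only [nsmul_eq_mul, mul_one] at h5
        exact_mod_cast h5
      rw [h6] at hpq'
      exact Prod.ext (Subtype.ext (mul_right_cancel hpq')) h6
  refine ⟨C * 3 ^ (d + 1), fun r₀ => ?_⟩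
  obtain ⟨R, hR, hRC⟩ := hC (2 * r₀ + 2)
  refine ⟨R / 2, by omega, ?_⟩
  set n := R / 2 with hn
  have hn1 : 1 ≤ n := by omega
  have h7 := hcount n
  have h8 : (bp T' (2 * n)).card ≤ (bp T' R).card :=
    Finset.card_le_card (bp_mono T' (by omega))
  have h9 : R ^ (d + 1) ≤ (3 * n) ^ (d + 1) := Nat.pow_le_pow_left (by omega) _
  have h10 : (bp T n).card * n ≤ C * (3 * n) ^ (d + 1) :=
    h7.trans (h8.trans (hRC.trans (Nat.mul_le_mul_left C h9)))
  have h11 : C * (3 * n) ^ (d + 1) = (C * 3 ^ (d + 1) * n ^ d) * n := by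
    rw [mul_pow, pow_succ n]
    ring
  rw [h11] at h10
  exact Nat.le_of_mul_le_mul_right h10 (by omega)

end H85.TG
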