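import Pool.Agent.H85.TG.Gb

/-!
# [H85 TG BA] growth of quotients, the walk of a generating set, 80-120 lines

* `bp_map`: `(ball T).image f = ball (T.image f)` (`Finset.image_insert`, `image_union`, inverses, `map_one`) and `Finset.image_pow`.
* `pg_quot`: for a finite set `T` of `Q'` choose preimages: `T = T₀.image f` (`Finset.subset_set_image_iff` or choose a section); `bp T r` is the
  image of `bp T₀ r` (`Finset.card_image_le`).
* `pg_zero`: `(bp T r).card ≤ C` for arbitrarily large `r`, so for all `r` (`bp_mono`); `Q` is the union of the `bp T r` (`H85.TA.exists_mem_pow`); if `Q` had more than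
  `C` elements (an injection of `Fin (C + 1)`, `Infinite.exists_subset_card_eq`), all of them would be in one `bp T r`.
* `pg_of_gen`: for another finite `T'` there is `m ≥ 1` with `ball T' ⊆ bp T m` (`H85.TA.exists_mem_pow`, `bp_mono`), so
  `bp T' r ⊆ bp T (m r)` (`Finset.pow_subset_pow_left`, `pow_mul`). Given `r₀` take `R ≥ m (r₀ + 1)` from the hypothesis, `r = R / m ≥ 1`: `m r ≤ R ≤ 2 m r`, so
  `(bp T' r).card ≤ (bp T R).card ≤ C R^d ≤ C (2 m)^d r^d`.
* `supp_walkOf`: induction, `Supp w (k + 1) = Supp w k * ball T` (`pow_succ`, `Finset.mem_mul`). `supp_sq`: induction, `bp_mul`.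
* `growth_sq`: given `r₀` take `R ≥ 2 r₀ + 2` from `PG` and `r = R / 2`: `2 r ≤ R ≤ 3 r`.
-/

set_option autoImplicit false

universe u v

namespace H85.TG

open Pointwise

variable {Q : Type u} [Group Q]

open Classical in
theorem bp_map {Q' : Type v} [Group Q'] (f : Q →* Q') (T : Finset Q) (r : ℕ) :
    bp (T.image f) r = (bp T r).image f := by
  have h1 : H85.TA.ball (T.image f) = (H85.TA.ball T).image f := by
    ext x
    simp only [H85.TA.ball, Finset.mem_insert, Finset.mem_union, Finset.mem_inv', Finset.mem_image]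
    constructor
    · rintro (rfl | ⟨a, ha, rfl⟩ | ⟨a, ha, hx⟩)
      · exact ⟨1, Or.inl rfl, map_one f⟩
      · exact ⟨a, Or.inr (Or.inl ha), rfl⟩
      · refine ⟨a⁻¹, Or.inr (Or.inr (by rwa [inv_inv])), ?_⟩
        rw [map_inv, hx, inv_inv]
    · rintro ⟨a, (rfl | ha | ha), rfl⟩
      · exact Or.inl (map_one f)
      · exact Or.inr (Or.inl ⟨a, ha, rfl⟩)
      · exact Or.inr (Or.inr ⟨a⁻¹, ha, map_inv f a⟩)
  unfold bp
  rw [h1]
  exact (Finset.image_pow f _ r).symm

theorem pg_quot {Q' : Type v} [Group Q'] (f : Q →* Q') (hf : Function.Surjective f) {d : ℕ}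
    (h : PG Q d) : PG Q' d := by
  classical
  intro T
  obtain ⟨C, hC⟩ := h (T.image (Function.surjInv hf))
  refine ⟨C, fun r₀ => ?_⟩
  obtain ⟨r, hr, hr'⟩ := hC r₀
  refine ⟨r, hr, le_trans ?_ hr'⟩
  have h1 : T = (T.image (Function.surjInv hf)).image f := by
    rw [Finset.image_image]
    have h2 : (f : Q → Q') ∘ Function.surjInv hf = id :=
      funext fun x => Function.surjInv_eq hf x
    rw [h2, Finset.image_id]
  have h3 : bp T r = (bp (T.image (Function.surjInv hf)) r).image f := by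
    rw [← bp_map, ← h1]
  rw [h3]
  exact Finset.card_image_le

theorem pg_zero (h : PG Q 0) (hfg : (⊤ : Subgroup Q).FG) : Finite Q := by
  classical
  obtain ⟨T, hT⟩ := hfg
  obtain ⟨C, hC⟩ := h T
  by_contra hinf
  rw [not_finite_iff_infinite] at hinf
  obtain ⟨s, hs⟩ := Infinite.exists_subset_card_eq Q (C + 1)
  have h1 : ∀ x : Q, ∃ r, x ∈ bp T r := fun x => by
    obtain ⟨r, hr⟩ := H85.TA.exists_mem_pow T (q := x) (by rw [hT]; trivial)
    exact ⟨r, hr⟩
  choose ρ hρ using h1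
  obtain ⟨r, hr, hr'⟩ := hC (s.sup ρ)
  have h2 : s ⊆ bp T r := fun x hx =>
    bp_mono T ((Finset.le_sup (f := ρ) hx).trans hr) (hρ x)
  have h3 := (Finset.card_le_card h2).trans hr'
  rw [hs, pow_zero, mul_one] at h3
  omega

theorem pg_of_gen (T : Finset Q) (hT : Subgroup.closure (T : Set Q) = ⊤) (C d : ℕ)
    (h : ∀ r₀ : ℕ, ∃ r ≥ r₀, (bp T r).card ≤ C * r ^ d) : PG Q d := by
  classical
  intro T'
  have h1 : ∀ x : Q, ∃ r, x ∈ bp T r := fun x => by
    obtain ⟨r, hr⟩ := H85.TA.exists_mem_pow T (q := x) (by rw [hT]; trivial)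
    exact ⟨r, hr⟩
  choose ρ hρ using h1
  obtain ⟨m, hm⟩ : ∃ m, m = (H85.TA.ball T').sup ρ + 1 := ⟨_, rfl⟩
  have h2 : H85.TA.ball T' ⊆ bp T m := fun x hx =>
    bp_mono T ((Finset.le_sup (f := ρ) hx).trans (by omega)) (hρ x)
  have h3 : ∀ r, bp T' r ⊆ bp T (m * r) := by
    intro r
    have h4 : (H85.TA.ball T') ^ r ⊆ ((H85.TA.ball T) ^ m) ^ r := by
      refine Finset.pow_subset_pow_left ?_
      intro x hx
      have h5 := h2 hx
      unfold bp at h5
      exact h5
    intro x hx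
    unfold bp at hx ⊢
    rw [pow_mul]
    exact h4 hx
  refine ⟨C * (2 * m) ^ d, fun r₀ => ?_⟩
  obtain ⟨R, hR, hR'⟩ := h (m * (r₀ + 1))
  have hm0 : 0 < m := by omega
  have h4 : r₀ + 1 ≤ R / m := (Nat.le_div_iff_mul_le hm0).2 (by rw [mul_comm]; exact hR)
  have h5 : m * (R / m) ≤ R := Nat.mul_div_le R m
  have h6 : R ≤ 2 * m * (R / m) := by
    have h7 : R < m * (R / m + 1) := Nat.lt_mul_div_succ R hm0
    have h8 : m * (R / m + 1) ≤ m * (2 * (R / m)) := Nat.mul_le_mul_left m (by omega)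
    calc R ≤ m * (2 * (R / m)) := h7.le.trans h8
      _ = 2 * m * (R / m) := by ring
  refine ⟨R / m, by omega, ?_⟩
  calc (bp T' (R / m)).card ≤ (bp T (m * (R / m))).card := Finset.card_le_card (h3 _)
    _ ≤ (bp T R).card := Finset.card_le_card (bp_mono T h5)
    _ ≤ C * R ^ d := hR'
    _ ≤ C * (2 * m * (R / m)) ^ d := Nat.mul_le_mul_left C (Nat.pow_le_pow_left h6 d)
    _ = C * (2 * m) ^ d * (R / m) ^ d := by rw [mul_pow, mul_assoc]

open Classical in
/-- the walk given by a finite generating set -/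
noncomputable def walkOf (T : Finset Q) (hT : Subgroup.closure (T : Set Q) = ⊤) : Walk Q where
  I := {x : Q // x ∈ H85.TA.ball T}
  s := fun x => x.1
  σ := ⟨fun x => ⟨x.1⁻¹, by
      rw [← Finset.mem_inv', H85.TA.inv_ball]
      exact x.2⟩, fun x => ⟨x.1⁻¹, by
      rw [← Finset.mem_inv', H85.TA.inv_ball]
      exact x.2⟩, fun x => Subtype.ext (inv_inv x.1), fun x => Subtype.ext (inv_inv x.1)⟩
  inv := fun _ => rfl
  gen := by
    rw [eq_top_iff, ← hT, Subgroup.closure_le]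
    intro t ht
    refine Subgroup.subset_closure ⟨⟨t, ?_⟩, rfl⟩
    simp only [H85.TA.ball, Finset.mem_insert, Finset.mem_union]
    exact Or.inr (Or.inl (by simpa using ht))
  hone := ⟨⟨1, H85.TA.one_mem_ball T⟩, rfl⟩

theorem supp_walkOf (T : Finset Q) (hT : Subgroup.closure (T : Set Q) = ⊤) (k : ℕ) :
    Supp (walkOf T hT) k ⊆ bp T k := by
  classical
  induction k with
  | zero =>
    intro x hx
    rw [Supp, Finset.mem_singleton] at hx
    rw [hx]
    exact bp_one T 0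
  | succ k ih =>
    intro x hx
    rw [Supp, Finset.mem_image] at hx
    obtain ⟨⟨g, i⟩, hg, rfl⟩ := hx
    refine bp_mul T (ih (Finset.mem_product.1 hg).1) ?_
    unfold bp
    rw [pow_one]
    exact i.2

theorem supp_sq (T : Finset Q) (hT : Subgroup.closure (T : Set Q) = ⊤) (k : ℕ) :
    Supp (walkOf T hT).sq k ⊆ bp T (2 * k) := by
  classical
  induction k with
  | zero =>
    intro x hx
    rw [Supp, Finset.mem_singleton] at hx
    rw [hx]
    exact bp_one T _
  | succ k ih =>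
    intro x hx
    rw [Supp, Finset.mem_image] at hx
    obtain ⟨⟨g, i⟩, hg, rfl⟩ := hx
    have h1 : ∀ j : (walkOf T hT).I, (walkOf T hT).s j ∈ bp T 1 := by
      intro j
      unfold bp
      rw [pow_one]
      exact j.2
    have h2 : (walkOf T hT).sq.s i ∈ bp T (1 + 1) := bp_mul T (h1 i.1) (h1 i.2)
    exact bp_mul T (ih (Finset.mem_product.1 hg).1) h2

theorem growth_sq {d : ℕ} (h : PG Q d) (T : Finset Q) (hT : Subgroup.closure (T : Set Q) = ⊤) :
    ∃ C : ℕ, ∀ r₀ : ℕ, ∃ r ≥ r₀, (Supp (walkOf T hT).sq r).card ≤ C * r ^ d := by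
  classical
  obtain ⟨C, hC⟩ := h T
  refine ⟨C * 3 ^ d, fun r₀ => ?_⟩
  obtain ⟨R, hR, hR'⟩ := hC (2 * r₀ + 2)
  refine ⟨R / 2, by omega, ?_⟩
  calc (Supp (walkOf T hT).sq (R / 2)).card ≤ (bp T (2 * (R / 2))).card :=
        Finset.card_le_card (supp_sq T hT _)
    _ ≤ (bp T R).card := Finset.card_le_card (bp_mono T (by omega))
    _ ≤ C * R ^ d := hR'
    _ ≤ C * (3 * (R / 2)) ^ d := Nat.mul_le_mul_left C (Nat.pow_le_pow_left (by omega) d)
    _ = C * 3 ^ d * (R / 2) ^ d := by rw [mul_pow, mul_assoc]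

theorem growth_walk {d : ℕ} (h : PG Q d) (T : Finset Q) (hT : Subgroup.closure (T : Set Q) = ⊤) :
    ∃ C : ℕ, ∀ r₀ : ℕ, ∃ r ≥ r₀, (Supp (walkOf T hT) r).card ≤ C * r ^ d := by
  obtain ⟨C, hC⟩ := h T
  refine ⟨C, fun r₀ => ?_⟩
  obtain ⟨r, hr, hr'⟩ := hC r₀
  exact ⟨r, hr, (Finset.card_le_card (supp_walkOf T hT r)).trans hr'⟩

end H85.TG
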