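import Mathlib

/-!
# [H85 TG DA] a Hilbert space from a positive semidefinite kernel, 50-90 lines

`K : X → X → ℝ` symmetric and positive semidefinite (finite sums). On `X →₀ ℝ` (use a type synonym if instances clash) the form
`⟪f, f'⟫ = ∑_g ∑_h f g * f' h * K g h` is a `PreInnerProductSpace.Core ℝ`; `InnerProductSpace.ofCore` and
`InnerProductSpace.Core.toSeminormedAddCommGroup` give a seminormed inner product space (compare `H₀` in
`Mathlib/Analysis/InnerProductSpace/Reproducing.lean`, lines 245-340), its completion (`UniformSpace.Completion`) is `E`; `δ x` is the image of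
`Finsupp.single x 1`. The span of the `δ x` is the image of `X →₀ ℝ`, which is dense (`UniformSpace.Completion.denseRange_coe`).
Alternative: apply the theory of `Reproducing.lean` (`OfKernel`, `kerFun`, `kernel_ofKernel`, `kerFun_dense`) to the matrix
`K g h • 1 : ℝ →L[ℝ] ℝ`.
-/

set_option autoImplicit false

universe u

namespace H85.TG

theorem exists_space {X : Type u} (K : X → X → ℝ) (hsym : ∀ x y, K x y = K y x)
    (hpsd : ∀ c : X →₀ ℝ, 0 ≤ ∑ x ∈ c.support, ∑ y ∈ c.support, c x * c y * K x y) :
    ∃ (E : Type u) (_ : NormedAddCommGroup E) (_ : InnerProductSpace ℝ E) (_ : CompleteSpace E)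
      (δ : X → E), (∀ x y, inner ℝ (δ x) (δ y) = K x y) ∧
        (Submodule.span ℝ (Set.range δ)).topologicalClosure = ⊤ := by
  classical
  let core : PreInnerProductSpace.Core ℝ (X →₀ ℝ) :=
    { inner := fun f g => f.sum fun y z => g.sum fun x w => z * w * K y x
      conj_inner_symm := by
        intro f g
        show (starRingEnd ℝ) (g.sum fun y z => f.sum fun x w => z * w * K y x) =
          f.sum fun y z => g.sum fun x w => z * w * K y x
        rw [conj_trivial, Finsupp.sum_comm]
        refine Finsupp.sum_congr fun y _ => Finsupp.sum_congr fun x _ => ?_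
        rw [hsym x y, mul_comm (g x)]
      re_inner_nonneg := by
        intro f
        show 0 ≤ RCLike.re (f.sum fun y z => f.sum fun x w => z * w * K y x)
        exact hpsd f
      add_left := by
        intro f g h
        show ((f + g).sum fun y z => h.sum fun x w => z * w * K y x) =
          (f.sum fun y z => h.sum fun x w => z * w * K y x) +
            g.sum fun y z => h.sum fun x w => z * w * K y x
        rw [Finsupp.sum_add_index'] <;> simp [← Finsupp.sum_add, add_mul]
      smul_left := by
        intro f g r
        show ((r • f).sum fun y z => g.sum fun x w => z * w * K y x) =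
          (starRingEnd ℝ) r * f.sum fun y z => g.sum fun x w => z * w * K y x
        rw [Finsupp.sum_smul_index] <;> simp [Finsupp.mul_sum, ← mul_assoc] }
  letI i1 : SeminormedAddCommGroup (X →₀ ℝ) :=
    @InnerProductSpace.Core.toSeminormedAddCommGroup ℝ _ _ _ _ core
  letI i2 : InnerProductSpace ℝ (X →₀ ℝ) := InnerProductSpace.ofCore core
  refine ⟨UniformSpace.Completion (X →₀ ℝ), inferInstance, inferInstance, inferInstance,
    fun x => ((Finsupp.single x 1 : X →₀ ℝ) : UniformSpace.Completion (X →₀ ℝ)), ?_, ?_⟩
  · intro x y
    rw [UniformSpace.Completion.inner_coe]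
    show ((Finsupp.single x (1 : ℝ)).sum fun y' z =>
      (Finsupp.single y (1 : ℝ)).sum fun x' w => z * w * K y' x') = K x y
    rw [Finsupp.sum_single_index, Finsupp.sum_single_index]
    · ring
    · ring
    · rw [Finsupp.sum_single_index] <;> ring
  · rw [← Submodule.dense_iff_topologicalClosure_eq_top]
    refine Dense.mono ?_ (UniformSpace.Completion.denseRange_coe (α := X →₀ ℝ))
    rintro _ ⟨f, rfl⟩
    induction f using Finsupp.induction_linear with
    | zero =>
      rw [UniformSpace.Completion.coe_zero]
      exact Submodule.zero_mem _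
    | add f g hf hg =>
      rw [UniformSpace.Completion.coe_add]
      exact Submodule.add_mem _ hf hg
    | single x r =>
      have h1 : (Finsupp.single x r : X →₀ ℝ) = r • Finsupp.single x 1 := by
        rw [Finsupp.smul_single, smul_eq_mul, mul_one]
      rw [h1, UniformSpace.Completion.coe_smul]
      exact Submodule.smul_mem _ _ (Submodule.subset_span ⟨x, rfl⟩)

end H85.TG
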