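import Mathlib

/-!
# [H85 TG DB] extension of isometries, 50-80 lines

`ext_iso`: two families `δ`, `δ'` with dense span and equal scalar products. Define `L₀ : span (range δ) → E` linear with `δ i ↦ δ' i`:
for `c : ι →₀ ℝ` one has `‖∑ c i δ i‖ = ‖∑ c i δ' i‖` (expand `⟪·,·⟫`), so the linear map `Finsupp.linearCombination ℝ δ'` factors through
`Finsupp.linearCombination ℝ δ` (kernel contained) and is isometric on the range; extend it to `E` by density
(`LinearMap.extend`, `ContinuousLinearMap.extend`, `LinearIsometry.extend` or `Submodule.topologicalClosure` with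
`DenseRange`/`IsDenseInducing.extend`), the extension is a linear isometry with closed and dense range, so it is surjective
(`LinearIsometryEquiv.ofSurjective`).
`iso_unique`: two continuous linear maps which agree on the `δ i` agree on the closure of the span.
-/

set_option autoImplicit false

namespace H85.TG

variable {ι E : Type*} [NormedAddCommGroup E] [InnerProductSpace ℝ E] [CompleteSpace E]

omit [CompleteSpace E] in
private theorem dense_lc (δ : ι → E)
    (h1 : (Submodule.span ℝ (Set.range δ)).topologicalClosure = ⊤) :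
    DenseRange (Finsupp.linearCombination ℝ δ) := by
  have h2 := (Submodule.dense_iff_topologicalClosure_eq_top).2 h1
  rw [← Finsupp.range_linearCombination] at h2
  intro x
  have h3 := h2 x
  rwa [LinearMap.coe_range] at h3

omit [CompleteSpace E] in
private theorem norm_lc (δ δ' : ι → E) (h : ∀ i j, inner ℝ (δ i) (δ j) = inner ℝ (δ' i) (δ' j))
    (c : ι →₀ ℝ) :
    ‖Finsupp.linearCombination ℝ δ' c‖ = ‖Finsupp.linearCombination ℝ δ c‖ := by
  have h1 : inner ℝ (Finsupp.linearCombination ℝ δ' c) (Finsupp.linearCombination ℝ δ' c) =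
      inner ℝ (Finsupp.linearCombination ℝ δ c) (Finsupp.linearCombination ℝ δ c) := by
    rw [Finsupp.linearCombination_apply, Finsupp.linearCombination_apply, Finsupp.sum,
      Finsupp.sum, sum_inner, sum_inner]
    refine Finset.sum_congr rfl fun i _ => ?_
    rw [inner_sum, inner_sum]
    refine Finset.sum_congr rfl fun j _ => ?_
    rw [inner_smul_left, inner_smul_right, inner_smul_left, inner_smul_right, h]
  rw [real_inner_self_eq_norm_sq, real_inner_self_eq_norm_sq] at h1
  exact (pow_left_inj₀ (norm_nonneg _) (norm_nonneg _) two_ne_zero).1 h1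

theorem ext_iso (δ δ' : ι → E) (h : ∀ i j, inner ℝ (δ i) (δ j) = inner ℝ (δ' i) (δ' j))
    (h1 : (Submodule.span ℝ (Set.range δ)).topologicalClosure = ⊤)
    (h2 : (Submodule.span ℝ (Set.range δ')).topologicalClosure = ⊤) :
    ∃ U : E ≃ₗᵢ[ℝ] E, ∀ i, U (δ i) = δ' i := by
  classical
  refine ⟨(LinearEquiv.refl ℝ (ι →₀ ℝ)).extendOfIsometry (Finsupp.linearCombination ℝ δ)
    (Finsupp.linearCombination ℝ δ') (dense_lc δ h1) (dense_lc δ' h2)
    (fun c => norm_lc δ δ' h c), fun i => ?_⟩
  have h3 := LinearEquiv.extendOfIsometry_eq (LinearEquiv.refl ℝ (ι →₀ ℝ))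
    (Finsupp.linearCombination ℝ δ) (Finsupp.linearCombination ℝ δ') (dense_lc δ h1)
    (dense_lc δ' h2) (fun c => norm_lc δ δ' h c) (Finsupp.single i 1)
  rw [Finsupp.linearCombination_single, one_smul, LinearEquiv.refl_apply,
    Finsupp.linearCombination_single, one_smul] at h3
  exact h3

theorem iso_unique (δ : ι → E) (h1 : (Submodule.span ℝ (Set.range δ)).topologicalClosure = ⊤)
    (U V : E ≃ₗᵢ[ℝ] E) (h : ∀ i, U (δ i) = V (δ i)) : U = V := by
  have h2 := (Submodule.dense_iff_topologicalClosure_eq_top).2 h1
  have h3 : (U : E → E) = V := by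
    refine Continuous.ext_on h2 U.continuous V.continuous ?_
    intro x hx
    have h4 : Set.EqOn (U.toLinearEquiv.toLinearMap) (V.toLinearEquiv.toLinearMap)
        (Submodule.span ℝ (Set.range δ)) := by
      refine LinearMap.eqOn_span ?_
      rintro _ ⟨i, rfl⟩
      exact h i
    exact h4 hx
  exact LinearIsometryEquiv.ext fun x => congrFun h3 x

end H85.TG
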