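import Pool.Agent.H85.TG.Defs
import Pool.Agent.H85.TG.Da
import Pool.Agent.H85.TG.Db

/-!
# [H85 TG DC] the affine isometric action of a function of negative type, 50-80 lines

`K g h = (ψ g + ψ h - ψ (g⁻¹ h)) / 2` is symmetric (`ψ (g⁻¹ h) = ψ (h⁻¹ g)`) and positive semidefinite. Take `E`, `δ` from `exists_space`,
`b = δ`. `K 1 1 = 0`, so `b 1 = 0` (`inner_self_eq_zero`). For `g : Q` let `δ' h = b (g h) - b g`: then
`⟪δ' h, δ' k⟫ = K (g h) (g k) - K (g h) g - K g (g k) + K g g = K h k` (`ring_nf` after cancelling `(g h)⁻¹ (g k) = h⁻¹ k`,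
`(g h)⁻¹ g = h⁻¹`, `g⁻¹ (g k) = k`), and the span of the `δ' h` is the span of the `b h`: `b g = - δ' g⁻¹` (as `b 1 = 0`) and
`b h = δ' (g⁻¹ h) + b g`. `ext_iso` gives `π g`, with `π g (b h) = b (g h) - b g`. `iso_unique`: `π (g g') = π g * π g'` and `π 1 = 1`
as they agree on the `b h` (`MonoidHom.mk'` or all three fields).
-/

set_option autoImplicit false

universe u

namespace H85.TG

variable {Q : Type u} [Group Q]

theorem gns (ψ : Q → ℝ) (h1 : ψ 1 = 0) (hinv : ∀ g, ψ g⁻¹ = ψ g)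
    (hpsd : ∀ c : Q →₀ ℝ, 0 ≤ ∑ g ∈ c.support, ∑ h ∈ c.support,
      c g * c h * (ψ g + ψ h - ψ (g⁻¹ * h))) :
    ∃ (E : Type u) (_ : NormedAddCommGroup E) (_ : InnerProductSpace ℝ E) (_ : CompleteSpace E)
      (π : Q →* (E ≃ₗᵢ[ℝ] E)) (b : Q → E), (∀ g h, b (g * h) = b g + π g (b h)) ∧
        ∀ g h, inner ℝ (b g) (b h) = (ψ g + ψ h - ψ (g⁻¹ * h)) / 2 := by
  obtain ⟨E, i1, i2, i3, b, hb, hd⟩ := exists_space
    (fun g h : Q => (ψ g + ψ h - ψ (g⁻¹ * h)) / 2)
    (fun x y => by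
      have h := hinv (y⁻¹ * x)
      rw [mul_inv_rev, inv_inv] at h
      rw [h]
      ring)
    (fun c => by
      have h := hpsd c
      have e : ∑ x ∈ c.support, ∑ y ∈ c.support,
          c x * c y * ((ψ x + ψ y - ψ (x⁻¹ * y)) / 2) =
          (∑ x ∈ c.support, ∑ y ∈ c.support,
            c x * c y * (ψ x + ψ y - ψ (x⁻¹ * y))) / 2 := by
        rw [Finset.sum_div]
        refine Finset.sum_congr rfl fun x _ => ?_
        rw [Finset.sum_div]
        refine Finset.sum_congr rfl fun y _ => ?_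
        ring
      show 0 ≤ ∑ x ∈ c.support, ∑ y ∈ c.support,
          c x * c y * ((ψ x + ψ y - ψ (x⁻¹ * y)) / 2)
      rw [e]
      linarith)
  have hb' : ∀ g h, (inner ℝ (b g) (b h) : ℝ) = (ψ g + ψ h - ψ (g⁻¹ * h)) / 2 := hb
  have hone : b 1 = 0 := by
    have h := hb' 1 1
    rw [inv_one, one_mul, h1] at h
    rw [← inner_self_eq_zero (𝕜 := ℝ), h]
    norm_num
  have hex : ∀ g : Q, ∃ U : E ≃ₗᵢ[ℝ] E, ∀ h, U (b h) = b (g * h) - b g := by
    intro g
    refine ext_iso b (fun h => b (g * h) - b g) ?_ hd ?_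
    · intro h k
      rw [inner_sub_left, inner_sub_right, inner_sub_right, hb', hb', hb', hb', hb']
      have e1 : (g * h)⁻¹ * (g * k) = h⁻¹ * k := by group
      have e2 : (g * h)⁻¹ * g = h⁻¹ := by group
      have e3 : g⁻¹ * (g * k) = k := by group
      rw [e1, e2, e3, inv_mul_cancel, hinv, h1]
      ring
    · rw [eq_top_iff, ← hd]
      apply Submodule.topologicalClosure_mono
      rw [Submodule.span_le]
      rintro _ ⟨h, rfl⟩
      have m1 : b (g * g⁻¹) - b g ∈ Submodule.span ℝ (Set.range fun h => b (g * h) - b g) :=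
        Submodule.subset_span ⟨g⁻¹, rfl⟩
      rw [mul_inv_cancel, hone] at m1
      have m2 : b (g * (g⁻¹ * h)) - b g ∈
          Submodule.span ℝ (Set.range fun h => b (g * h) - b g) :=
        Submodule.subset_span ⟨g⁻¹ * h, rfl⟩
      rw [mul_inv_cancel_left] at m2
      have m3 := Submodule.sub_mem _ m2 m1
      rw [show b h - b g - (0 - b g) = b h by abel] at m3
      exact m3
  choose U hU using hex
  refine ⟨E, i1, i2, i3, ⟨⟨U, ?_⟩, ?_⟩, b, ?_, hb'⟩
  · refine iso_unique b hd _ _ fun h => ?_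
    rw [hU, one_mul, hone, sub_zero]
    rfl
  · intro x y
    refine iso_unique b hd _ _ fun h => ?_
    show U (x * y) (b h) = U x (U y (b h))
    rw [hU, hU, map_sub, hU, hU, mul_assoc]
    abel
  · intro g h
    show b (g * h) = b g + U g (b h)
    rw [hU]
    abel

end H85.TG
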