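import Pool.Agent.H85.TG.Eb

/-!
# [H85 TG EC] concentration, 60-90 lines

* `seq_four` (real sequences): `M k ≤ ∑_{j < k} (4 q j + 2 j + L (1 + √ j))`. Given `ε > 0`: `q j ≤ (ε / 16) j` for `j ≥ J`, so
  `∑_{j < k} 4 q j ≤ C_J + (ε / 8) k^2`; `∑_{j < k} 2 j ≤ k^2`; `∑_{j < k} L (1 + √ j) ≤ |L| (k + k √ k)`; all the rest is `≤ ε k^2` for large `k`
  (`√ k / k → 0`).
* `concentration`: `Ex ((‖b g‖^2 - k)^2) = Ex ‖b g‖^4 - 2 k Ex ‖b g‖^2 + k^2 = Ex ‖b g‖^4 - k^2` (`ex_two`, `ex_add`, `ex_smul`, `ex_const`);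
  `M k = Ex w k ‖b g‖^4`, `M 0 = 0` (`b 1 = 0`).
-/

set_option autoImplicit false

universe u v

namespace H85.TG

theorem seq_four (M q : ℕ → ℝ) (L : ℝ) (h0 : M 0 ≤ 0)
    (h : ∀ k : ℕ, M (k + 1) ≤ M k + 4 * q k + 2 * k + L * (1 + √ k))
    (hq : Filter.Tendsto (fun k : ℕ => q k / k) Filter.atTop (nhds 0)) :
    ∀ ε > 0, ∃ K : ℕ, ∀ k ≥ K, M k ≤ (1 + ε) * (k : ℝ) ^ 2 := by
  intro ε hε
  have h8 : (0 : ℝ) < ε / 8 := by positivity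
  obtain ⟨J1, hJ1⟩ := Filter.eventually_atTop.1 (hq.eventually_lt_const h8)
  obtain ⟨J2, hJ2⟩ := exists_nat_ge ((4 * |L| / ε) ^ 2)
  -- beyond `J` the increments are at most `(2 + ε) j`
  set J := max (max J1 J2) 1 with hJ
  have hstep : ∀ j : ℕ, J ≤ j → M (j + 1) ≤ M j + (2 + ε) * j := by
    intro j hj
    have hj1 : J1 ≤ j := le_trans (le_trans (le_max_left _ _) (le_max_left _ _)) hj
    have hj2 : J2 ≤ j := le_trans (le_trans (le_max_right _ _) (le_max_left _ _)) hj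
    have hj3 : 1 ≤ j := le_trans (le_max_right _ _) hj
    have hjr : (1 : ℝ) ≤ j := by exact_mod_cast hj3
    have hj2r : (4 * |L| / ε) ^ 2 ≤ (j : ℝ) := hJ2.trans (by exact_mod_cast hj2)
    have hq1 : q j ≤ ε / 8 * j := by
      have h1 := (hJ1 j hj1).le
      rwa [div_le_iff₀ (by linarith)] at h1
    have hs1 : 1 ≤ √ (j : ℝ) := by
      rw [Real.one_le_sqrt]
      exact hjr
    have hs2 : 4 * |L| / ε ≤ √ (j : ℝ) := Real.le_sqrt_of_sq_le hj2r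
    have hs3 : √ (j : ℝ) * √ (j : ℝ) = j := Real.mul_self_sqrt (by linarith)
    have hL : L * (1 + √ (j : ℝ)) ≤ ε / 2 * j := by
      have h1 : L * (1 + √ (j : ℝ)) ≤ |L| * (2 * √ (j : ℝ)) :=
        mul_le_mul (le_abs_self L) (by linarith) (by positivity) (abs_nonneg L)
      have h2 : 4 * |L| ≤ √ (j : ℝ) * ε := by
        rwa [div_le_iff₀ hε] at hs2
      have h3 : |L| * (2 * √ (j : ℝ)) ≤ (√ (j : ℝ) * ε / 4) * (2 * √ (j : ℝ)) :=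
        mul_le_mul_of_nonneg_right (by linarith) (by positivity)
      have h4 : (√ (j : ℝ) * ε / 4) * (2 * √ (j : ℝ)) = ε / 2 * (√ (j : ℝ) * √ (j : ℝ)) := by ring
      rw [hs3] at h4
      linarith
    have h1 := h j
    nlinarith
  have hsum : ∀ j : ℕ, J ≤ j → M j ≤ M J + (1 + ε / 2) * ((j : ℝ) ^ 2 - (J : ℝ) ^ 2) := by
    intro j hj
    induction j, hj using Nat.le_induction with
    | base => simp
    | succ j hj ih =>
      have h1 := hstep j hj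
      have h2 : (0 : ℝ) ≤ j := Nat.cast_nonneg j
      push_cast
      nlinarith
  obtain ⟨K2, hK2⟩ := exists_nat_ge (2 * |M J| / ε)
  refine ⟨max (max J K2) 1, fun k hk => ?_⟩
  have hk1 : J ≤ k := le_trans (le_trans (le_max_left _ _) (le_max_left _ _)) hk
  have hk2 : K2 ≤ k := le_trans (le_trans (le_max_right _ _) (le_max_left _ _)) hk
  have hk3 : 1 ≤ k := le_trans (le_max_right _ _) hk
  have hkr : (1 : ℝ) ≤ k := by exact_mod_cast hk3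
  have h1 := hsum k hk1
  have h2 : 2 * |M J| / ε ≤ (k : ℝ) := hK2.trans (by exact_mod_cast hk2)
  rw [div_le_iff₀ hε] at h2
  have h3 : M J ≤ |M J| := le_abs_self _
  have h4 : (k : ℝ) ≤ (k : ℝ) ^ 2 := by nlinarith
  have h5 : (0 : ℝ) ≤ (J : ℝ) ^ 2 := by positivity
  have h6 : (k : ℝ) * ε ≤ (k : ℝ) ^ 2 * ε := mul_le_mul_of_nonneg_right h4 hε.le
  have h7 : (0 : ℝ) ≤ (1 + ε / 2) * (J : ℝ) ^ 2 := by positivity
  nlinarith

variable {Q : Type u} [Group Q] (w : Walk Q) {E : Type v} [NormedAddCommGroup E]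
  [InnerProductSpace ℝ E] {π : Q →* (E ≃ₗᵢ[ℝ] E)} {b : Q → E}

theorem concentration (hb : ∀ g h, b (g * h) = b g + π g (b h)) (hh : ∑ i, b (w.s i) = 0)
    (hn : av w (fun i => ‖b (w.s i)‖ ^ 2) = 1)
    (hq : Filter.Tendsto (fun k : ℕ => qq w b k / k) Filter.atTop (nhds 0)) :
    ∀ ε > 0, ∃ K : ℕ, ∀ k ≥ K, Ex w k (fun g => (‖b g‖ ^ 2 - k) ^ 2) ≤ ε * (k : ℝ) ^ 2 := by
  intro ε hε
  obtain ⟨L, hL⟩ := ex_four w hb hh hn
  obtain ⟨K, hK⟩ := seq_four (fun k => Ex w k (fun g => ‖b g‖ ^ 4)) (qq w b) L (by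
    change Ex w 0 (fun g => ‖b g‖ ^ 4) ≤ 0
    rw [ex_zero, coc_one hb]
    simp) hL hq ε hε
  refine ⟨K, fun k hk => ?_⟩
  have h1 := hK k hk
  change Ex w k (fun g => ‖b g‖ ^ 4) ≤ (1 + ε) * (k : ℝ) ^ 2 at h1
  have h2 := ex_two w hb hh hn k
  have h3 : (fun g : Q => (‖b g‖ ^ 2 - (k : ℝ)) ^ 2) =
      fun g => ‖b g‖ ^ 4 + ((-2 * (k : ℝ)) • ‖b g‖ ^ 2 + (k : ℝ) ^ 2) := by
    funext g
    rw [smul_eq_mul]
    ring
  rw [h3, ex_add w k (fun g => ‖b g‖ ^ 4) (fun g => (-2 * (k : ℝ)) • ‖b g‖ ^ 2 + (k : ℝ) ^ 2),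
    ex_add w k (fun g => (-2 * (k : ℝ)) • ‖b g‖ ^ 2) (fun _ => (k : ℝ) ^ 2), ex_const,
    ex_smul w k (-2 * (k : ℝ)) (fun g => ‖b g‖ ^ 2), h2, smul_eq_mul]
  nlinarith

end H85.TG
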