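import Mathlib

/-!
# [H85 TG CC] a lemma on sequences of polynomial decay, 40-60 lines

Let `a k = u k - u (k+1) ≥ 0`, antitone. Suppose the conclusion fails for some `ε > 0` (we may assume `ε < 1`) and `K`: for all `k ≥ K`, `a k = 0` or
`a (k+1) < (1 - ε) a k`; in both cases `a (k+1) ≤ (1 - ε) a k` (as `0 ≤ a (k+1) ≤ a k`). So `a (K + j) ≤ (1 - ε)^j a K` and, as `u → 0`,
`u (K + j) = ∑_{i ≥ j} a (K + i) ≤ (1 - ε)^j a K / ε` (or by induction for finite sums: `u (K + j) - u (K + j + n) ≤ (1 - ε)^j a K / ε` and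
`n → ∞`). With `1 ≤ C r^d u r` for arbitrarily large `r` this contradicts `r^d (1 - ε)^r → 0` (`tendsto_pow_const_mul_const_pow_of_lt_one`).

`decay_false`: take `m₀ ≥ 1` for `ε = 4^(-(d+1))`; then `u (4^j m₀) ≤ ε^j u m₀`. For `r ≥ m₀` as in `hlow` choose `j` with
`4^j m₀ ≤ r < 4^(j+1) m₀`: `1 ≤ C r^d u r ≤ C (4^(j+1) m₀)^d ε^j u m₀ = C (4 m₀)^d (u m₀) 4^(-j)`, impossible for large `j`, that is for large
`r` (`r₀ = 4^J m₀`; note `C > 0` by `hlow`).
-/

set_option autoImplicit false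

namespace H85.TG

theorem seq_lemma (u : ℕ → ℝ) (hpos : ∀ k, 0 < u k) (hanti : ∀ k, u (k + 1) ≤ u k)
    (hconv : ∀ k, u (k + 1) - u (k + 2) ≤ u k - u (k + 1))
    (hlim : Filter.Tendsto u Filter.atTop (nhds 0)) (C : ℝ) (d : ℕ)
    (hlow : ∀ r₀ : ℕ, ∃ r ≥ r₀, 1 ≤ C * (r : ℝ) ^ d * u r) :
    ∀ ε > 0, ∀ K : ℕ, ∃ k ≥ K, 0 < u k - u (k + 1) ∧
      (u k - u (k + 1)) - (u (k + 1) - u (k + 2)) ≤ ε * (u k - u (k + 1)) := by
  intro ε hε K
  by_contra hcon
  push Not at hcon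
  obtain ⟨a, ha⟩ : ∃ a : ℕ → ℝ, ∀ k, a k = u k - u (k + 1) := ⟨_, fun _ => rfl⟩
  obtain ⟨e, he⟩ : ∃ e : ℝ, e = min ε (1 / 2) := ⟨_, rfl⟩
  have he0 : 0 < e := by rw [he]; exact lt_min hε (by norm_num)
  have he1 : e ≤ 1 / 2 := by rw [he]; exact min_le_right _ _
  have heε : e ≤ ε := by rw [he]; exact min_le_left _ _
  have ha0 : ∀ k, 0 ≤ a k := fun k => by rw [ha]; linarith [hanti k]
  have hstep : ∀ k, K ≤ k → a (k + 1) ≤ (1 - e) * a k := by
    intro k hk
    have h1 := hconv k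
    have h2 := ha0 (k + 1)
    have e1 := ha k
    have e2 := ha (k + 1)
    rcases (ha0 k).lt_or_eq with h | h
    · have h3 := hcon k hk (by rw [← e1]; exact h)
      have h4 : e * a k ≤ ε * a k := mul_le_mul_of_nonneg_right heε h.le
      rw [e1] at h4 ⊢
      rw [e2]
      have : k + 1 + 1 = k + 2 := rfl
      rw [this]
      linarith
    · rw [← h, mul_zero]
      have : k + 1 + 1 = k + 2 := rfl
      rw [this] at e2
      linarith
  have hpow : ∀ j, a (K + j) ≤ (1 - e) ^ j * a K := by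
    intro j
    induction j with
    | zero => simp
    | succ j ih =>
      have h1 := hstep (K + j) (Nat.le_add_right _ _)
      have h2 : (1 - e) * a (K + j) ≤ (1 - e) * ((1 - e) ^ j * a K) :=
        mul_le_mul_of_nonneg_left ih (by linarith)
      rw [pow_succ]
      have h3 : K + (j + 1) = K + j + 1 := rfl
      rw [h3]
      linarith
  have hu : ∀ j, u (K + j) ≤ a (K + j) / e := by
    have hmono : Antitone (fun j => a (K + j) / e - u (K + j)) := by
      refine antitone_nat_of_succ_le fun j => ?_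
      have h1 := hstep (K + j) (Nat.le_add_right _ _)
      have h3 : K + (j + 1) = K + j + 1 := rfl
      rw [h3]
      have h4 : a (K + j + 1) / e ≤ a (K + j) / e - a (K + j) := by
        rw [div_le_iff₀ he0]
        have : (a (K + j) / e - a (K + j)) * e = (1 - e) * a (K + j) := by
          field_simp
        rw [this]
        exact h1
      have h5 := ha (K + j)
      linarith
    have hlim1 : Filter.Tendsto (fun j => a (K + j) / e - u (K + j)) Filter.atTop (nhds 0) := by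
      have h1 : Filter.Tendsto (fun j => u (K + j)) Filter.atTop (nhds 0) :=
        hlim.comp (Filter.tendsto_atTop_mono (fun j => Nat.le_add_left j K) Filter.tendsto_id)
      have h2 : Filter.Tendsto (fun j => u (K + j + 1)) Filter.atTop (nhds 0) :=
        hlim.comp (Filter.tendsto_atTop_mono (fun j => by simp only [id]; omega)
          Filter.tendsto_id)
      have h3 := ((h1.sub h2).div_const e).sub h1
      simp only [sub_zero, zero_div] at h3
      refine h3.congr fun j => ?_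
      rw [ha (K + j)]
    intro j
    have := hmono.le_of_tendsto hlim1 j
    linarith
  have hq0 : 0 < 1 - e := by linarith
  obtain ⟨M, hM⟩ : ∃ M : ℝ, M = a K / (e * (1 - e) ^ K) := ⟨_, rfl⟩
  have hM0 : 0 ≤ M := by
    rw [hM]
    exact div_nonneg (ha0 K) (by positivity)
  have hbound : ∀ r, K ≤ r → u r ≤ M * (1 - e) ^ r := by
    intro r hr
    obtain ⟨j, rfl⟩ := Nat.exists_eq_add_of_le hr
    refine (hu j).trans ?_
    have h1 : M * (1 - e) ^ (K + j) = (1 - e) ^ j * a K / e := by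
      rw [hM, pow_add]
      field_simp
    rw [h1]
    exact div_le_div_of_nonneg_right (hpow j) he0.le
  have htend := tendsto_pow_const_mul_const_pow_of_lt_one d hq0.le (by linarith : 1 - e < 1)
  have htend2 := htend.const_mul (|C| * M)
  rw [mul_zero] at htend2
  have hev := htend2.eventually (gt_mem_nhds (show (0 : ℝ) < 1 by norm_num))
  obtain ⟨N, hN⟩ := Filter.eventually_atTop.1 hev
  obtain ⟨r, hr, hr1⟩ := hlow (max N K)
  have h1 := hN r ((le_max_left _ _).trans hr)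
  have h2 := hbound r ((le_max_right _ _).trans hr)
  have h3 : C * (r : ℝ) ^ d * u r ≤ |C| * (r : ℝ) ^ d * (M * (1 - e) ^ r) := by
    have h4 : C * (r : ℝ) ^ d * u r ≤ |C| * (r : ℝ) ^ d * u r := by
      refine mul_le_mul_of_nonneg_right ?_ (hpos r).le
      exact mul_le_mul_of_nonneg_right (le_abs_self C) (by positivity)
    exact h4.trans (mul_le_mul_of_nonneg_left h2 (by positivity))
  have h5 : |C| * (r : ℝ) ^ d * (M * (1 - e) ^ r) = |C| * M * ((r : ℝ) ^ d * (1 - e) ^ r) := by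
    ring
  rw [h5] at h3
  linarith

/-- superpolynomial decay is impossible -/
theorem decay_false (u : ℕ → ℝ) (hpos : ∀ k, 0 < u k) (hanti : ∀ k, u (k + 1) ≤ u k)
    (hdec : ∀ ε > 0, ∃ m₀ : ℕ, ∀ m ≥ m₀, u (4 * m) ≤ ε * u m) (C : ℝ) (d : ℕ)
    (hlow : ∀ r₀ : ℕ, ∃ r ≥ r₀, 1 ≤ C * (r : ℝ) ^ d * u r) : False := by
  have hanti' : Antitone u := antitone_nat_of_succ_le hanti
  obtain ⟨m₀, hm₀⟩ := hdec ((1 / 4 : ℝ) ^ (d + 1)) (by positivity)
  obtain ⟨m, hm⟩ : ∃ m, m = max m₀ 1 := ⟨_, rfl⟩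
  have hm0 : m₀ ≤ m := by rw [hm]; exact le_max_left _ _
  have hm1 : 1 ≤ m := by rw [hm]; exact le_max_right _ _
  have hind : ∀ j, u (4 ^ j * m) ≤ ((1 / 4 : ℝ) ^ (d + 1)) ^ j * u m := by
    intro j
    induction j with
    | zero => simp
    | succ j ih =>
      have h1 : m₀ ≤ 4 ^ j * m := hm0.trans (Nat.le_mul_of_pos_left m (by positivity))
      have h2 := hm₀ (4 ^ j * m) h1
      have h3 : 4 ^ (j + 1) * m = 4 * (4 ^ j * m) := by ring
      rw [h3, pow_succ' ((1 / 4 : ℝ) ^ (d + 1)) j, mul_assoc]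
      exact h2.trans (mul_le_mul_of_nonneg_left ih (by positivity))
  have hC : 0 < C := by
    obtain ⟨r, _, hr⟩ := hlow 0
    by_contra hC
    push Not at hC
    have : C * (r : ℝ) ^ d * u r ≤ 0 :=
      mul_nonpos_of_nonpos_of_nonneg
        (mul_nonpos_of_nonpos_of_nonneg hC (by positivity)) (hpos r).le
    linarith
  obtain ⟨B, hB⟩ : ∃ B : ℝ, B = C * (4 * (m : ℝ)) ^ d * u m := ⟨_, rfl⟩
  have hum := hpos m
  have hB0 : 0 < B := by
    rw [hB]
    have : (0 : ℝ) < m := by exact_mod_cast hm1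
    positivity
  obtain ⟨J, hJ⟩ := exists_pow_lt_of_lt_one (show (0 : ℝ) < 1 / B by positivity)
    (show (1 / 4 : ℝ) < 1 by norm_num)
  obtain ⟨r, hr, hr1⟩ := hlow (4 ^ J * m)
  obtain ⟨s, hs⟩ : ∃ s, s = r / m := ⟨_, rfl⟩
  have hs1 : 4 ^ J ≤ s := by
    rw [hs, Nat.le_div_iff_mul_le (by omega)]
    exact hr
  have hs0 : s ≠ 0 := by
    have : 0 < 4 ^ J := by positivity
    omega
  obtain ⟨j, hj⟩ : ∃ j, j = Nat.log 4 s := ⟨_, rfl⟩
  have hj1 : 4 ^ j ≤ s := by rw [hj]; exact Nat.pow_log_le_self 4 hs0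
  have hj2 : s < 4 ^ (j + 1) := by rw [hj]; exact Nat.lt_pow_succ_log_self (by norm_num) s
  have hJj : J ≤ j := by
    rw [hj]
    exact Nat.le_log_of_pow_le (by norm_num) hs1
  have hsm : s * m ≤ r := by rw [hs]; exact Nat.div_mul_le_self r m
  have hrs : r < (s + 1) * m := by
    rw [hs]
    have h1 := Nat.div_add_mod r m
    have h2 := Nat.mod_lt r (show m > 0 by omega)
    nlinarith
  have hr2 : 4 ^ j * m ≤ r := (Nat.mul_le_mul_right m hj1).trans hsm
  have hr3 : r ≤ 4 ^ (j + 1) * m := hrs.le.trans (Nat.mul_le_mul_right m hj2)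
  have hr4 : (r : ℝ) ≤ 4 ^ (j + 1) * m := by exact_mod_cast hr3
  have h1 : u r ≤ ((1 / 4 : ℝ) ^ (d + 1)) ^ j * u m := (hanti' hr2).trans (hind j)
  have h2 : C * (r : ℝ) ^ d * u r ≤
      C * ((4 : ℝ) ^ (j + 1) * m) ^ d * (((1 / 4 : ℝ) ^ (d + 1)) ^ j * u m) := by
    refine mul_le_mul ?_ h1 (hpos r).le (by positivity)
    exact mul_le_mul_of_nonneg_left (pow_le_pow_left₀ (by positivity) hr4 d) hC.le
  have h3 : C * ((4 : ℝ) ^ (j + 1) * m) ^ d * (((1 / 4 : ℝ) ^ (d + 1)) ^ j * u m) =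
      B * (1 / 4 : ℝ) ^ j := by
    have e1 : ((4 : ℝ) ^ (j + 1) * m) ^ d = (4 * (m : ℝ)) ^ d * (4 ^ j) ^ d := by
      rw [← mul_pow]
      congr 1
      ring
    have e2 : ((1 / 4 : ℝ) ^ (d + 1)) ^ j = ((1 / 4 : ℝ) ^ j) ^ d * (1 / 4 : ℝ) ^ j := by
      rw [← pow_mul, ← pow_mul, ← pow_add]
      congr 1
      ring
    have e3 : ((4 : ℝ) ^ j) ^ d * ((1 / 4 : ℝ) ^ j) ^ d = 1 := by
      rw [← mul_pow, ← mul_pow]
      norm_num
    rw [e1, e2, hB]
    linear_combination (C * (4 * (m : ℝ)) ^ d * (1 / 4 : ℝ) ^ j * u m) * e3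
  have h4 : (1 / 4 : ℝ) ^ j ≤ (1 / 4 : ℝ) ^ J :=
    pow_le_pow_of_le_one (by norm_num) (by norm_num) hJj
  have h5 : B * (1 / 4 : ℝ) ^ j < 1 := by
    calc B * (1 / 4 : ℝ) ^ j ≤ B * (1 / 4 : ℝ) ^ J := mul_le_mul_of_nonneg_left h4 hB0.le
      _ < B * (1 / B) := mul_lt_mul_of_pos_left hJ hB0
      _ = 1 := by field_simp
  linarith

end H85.TG
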