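import Pool.Agent.H85.TG.Wb
import Pool.Agent.H85.TG.Cc

/-!
# [H85 TG ED] disjoint shells contradict polynomial growth, 60-100 lines

`f : Q → ℝ` (it will be `‖b g‖^2`) is concentrated near `k` at time `k`. `shell_decay`: let `A` be the set of the `x` with `f x ≤ 4 m`. By Markov's
inequality (`ex_mono` for `indicator ≤ (f - k)^2 / (2 m)^2`): at time `6 m` the probability of `A` is at most
`Ex (6m) ((f - 6m)^2) / (2m)^2 ≤ ε (6m)^2 / (2m)^2 = 9 ε`, and at time `2 m` the probability of the complement is at most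
`ε (2m)^2 / (2m)^2 = ε` (on the complement `f - 2m ≥ 2m`). Now `p w (8 m) 1 = Ex (2m) (p w (6m)) = ∑_{x ∈ B} p (2m) x * p (6m) x`
(`p_pair`, `ex_fin`, `B ⊇ Supp w (2m) ∪ Supp w (6m)`); for `x ∈ A` use `p (2m) x ≤ p (2m) 1` (`p_even_le`), for `x ∉ A` use
`p (6m) x ≤ p (6m) 1 ≤ p (2m) 1` (`p_even_le`, `p_anti` iterated): the sum is at most `(9 ε + ε) p (2m) 1`.
`no_concentration`: `decay_false` for `u m = p w (2m) 1` (`2 (4 m) = 8 m`; `p_pos`, `p_anti`, `p_low` and the growth hypothesis).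
-/

set_option autoImplicit false

universe u v

namespace H85.TG

variable {Q : Type u} [Group Q] (w : Walk Q)

theorem shell_decay (f : Q → ℝ)
    (hf : ∀ ε > 0, ∃ K : ℕ, ∀ k ≥ K, Ex w k (fun g => (f g - k) ^ 2) ≤ ε * (k : ℝ) ^ 2) :
    ∀ ε > 0, ∃ m₀ : ℕ, ∀ m ≥ m₀, p w (2 * (4 * m)) 1 ≤ ε * p w (2 * m) 1 := by
  classical
  intro ε hε
  obtain ⟨K, hK⟩ := hf (ε / 10) (by positivity)
  refine ⟨K + 1, fun m hm => ?_⟩
  have hm0 : (0 : ℝ) < m := by exact_mod_cast (by omega : 0 < m)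
  have h2 := hK (2 * m) (by omega)
  have h6 := hK (6 * m) (by omega)
  push_cast at h2 h6
  obtain ⟨P, hP⟩ : ∃ P, P = p w (2 * m) 1 := ⟨_, rfl⟩
  have hP0 : 0 ≤ P := by
    rw [hP]
    exact p_nonneg w _ _
  obtain ⟨a, ha⟩ : ∃ a : Q → ℝ, ∀ x, a x = if f x ≤ 4 * m then 1 else 0 := ⟨_, fun _ => rfl⟩
  have ma : Ex w (6 * m) a ≤ 9 * (ε / 10) := by
    have h1 : Ex w (6 * m) a ≤
        Ex w (6 * m) (fun x => (((2 * (m : ℝ)) ^ 2)⁻¹) • (f x - 6 * m) ^ 2) := by
      refine ex_mono w _ fun x => ?_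
      rw [ha, smul_eq_mul]
      split_ifs with h
      · rw [le_inv_mul_iff₀ (by positivity), mul_one]
        have h3 : 0 ≤ (4 * m - f x) * (8 * m - f x) :=
          mul_nonneg (by linarith) (by linarith)
        nlinarith
      · positivity
    rw [ex_smul, smul_eq_mul] at h1
    refine h1.trans ?_
    rw [inv_mul_le_iff₀ (by positivity)]
    exact h6.trans (le_of_eq (by ring))
  have mb : Ex w (2 * m) (fun x => 1 - a x) ≤ ε / 10 := by
    have h1 : Ex w (2 * m) (fun x => 1 - a x) ≤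
        Ex w (2 * m) (fun x => (((2 * (m : ℝ)) ^ 2)⁻¹) • (f x - 2 * m) ^ 2) := by
      refine ex_mono w _ fun x => ?_
      rw [ha, smul_eq_mul]
      split_ifs with h
      · rw [sub_self]
        positivity
      · rw [le_inv_mul_iff₀ (by positivity), sub_zero, mul_one]
        push Not at h
        have h3 : 0 ≤ (f x - 4 * m) * f x := mul_nonneg (by linarith) (by linarith)
        nlinarith
    rw [ex_smul, smul_eq_mul] at h1
    refine h1.trans ?_
    rw [inv_mul_le_iff₀ (by positivity)]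
    exact h2.trans (le_of_eq (by ring))
  have hanti : Antitone fun k => p w (2 * k) 1 := antitone_nat_of_succ_le fun k => p_anti w k
  have hx6 : ∀ x, p w (6 * m) x ≤ P := by
    intro x
    have e : 6 * m = 2 * (3 * m) := by ring
    rw [e, hP]
    exact (p_even_le w (3 * m) x).trans (hanti (by omega : m ≤ 3 * m))
  have hx2 : ∀ x, p w (2 * m) x ≤ P := by
    intro x
    rw [hP]
    exact p_even_le w m x
  obtain ⟨B, hB⟩ : ∃ B, B = Supp w (2 * m) ∪ Supp w (6 * m) := ⟨_, rfl⟩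
  have hB2 : Supp w (2 * m) ⊆ B := by
    rw [hB]
    exact Finset.subset_union_left
  have hB6 : Supp w (6 * m) ⊆ B := by
    rw [hB]
    exact Finset.subset_union_right
  have e1 : 2 * (4 * m) = 2 * m + 6 * m := by ring
  rw [e1, ← p_pair, ex_fin w (2 * m) _ B hB2, ← hP]
  rw [ex_fin w (6 * m) _ B hB6] at ma
  rw [ex_fin w (2 * m) _ B hB2] at mb
  have h3 : ∑ x ∈ B, p w (2 * m) x * p w (6 * m) x ≤
      ∑ x ∈ B, (P * (p w (6 * m) x * a x) + P * (p w (2 * m) x * (1 - a x))) := by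
    refine Finset.sum_le_sum fun x _ => ?_
    have q2 := p_nonneg w (2 * m) x
    have q6 := p_nonneg w (6 * m) x
    rw [ha]
    split_ifs with h
    · have := mul_le_mul_of_nonneg_right (hx2 x) q6
      linarith
    · have := mul_le_mul_of_nonneg_left (hx6 x) q2
      linarith
  rw [Finset.sum_add_distrib, ← Finset.mul_sum, ← Finset.mul_sum] at h3
  have h4 := mul_le_mul_of_nonneg_left ma hP0
  have h5 := mul_le_mul_of_nonneg_left mb hP0
  linarith

theorem no_concentration (C d : ℕ) (h : ∀ r₀ : ℕ, ∃ r ≥ r₀, (Supp w r).card ≤ C * r ^ d) (f : Q → ℝ)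
    (hf : ∀ ε > 0, ∃ K : ℕ, ∀ k ≥ K, Ex w k (fun g => (f g - k) ^ 2) ≤ ε * (k : ℝ) ^ 2) : False := by
  refine decay_false (fun m => p w (2 * m) 1) (p_pos w) (p_anti w) (shell_decay w f hf) C d ?_
  intro r₀
  obtain ⟨r, hr, hc⟩ := h r₀
  refine ⟨r, hr, (p_low w r).trans ?_⟩
  have h1 : ((Supp w r).card : ℝ) ≤ (C : ℝ) * (r : ℝ) ^ d := by exact_mod_cast hc
  exact mul_le_mul_of_nonneg_right h1 (p_nonneg w _ _)

end H85.TG
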