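import Pool.Agent.H85.TG.Wa

/-!
# [H85 TG FB] the tensor square, 60-100 lines

`HS E` is the completion of `E ⊗[ℝ] E` (a Hilbert space, `Mathlib/Analysis/InnerProductSpace/TensorProduct.lean` and `Completion.lean`).
* `tensor_rep`: for `f : E ≃ₗᵢ[ℝ] E` the isometry `TensorProduct.congrIsometry f f` of `E ⊗ E` extends to the completion (for example with
  `UniformSpace.Completion.map` / `ContinuousLinearMap` `.completion` / `LinearIsometry.extend`, or use `H85.TG.ext_iso` of module DB with
  `δ (x, y) = x ⊗ₜ y` and `δ' (x, y) = π g x ⊗ₜ π g y`: both have dense span, and equal scalar products; and `iso_unique` for the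
  homomorphism property; this is the shortest way, import `Pool.Agent.H85.TG.Db`).
* `exists_op`: for `T : HS E` the bilinear form `(x, y) ↦ ⟪T, x ⊗ₜ y⟫` is bounded by `‖T‖ ‖x‖ ‖y‖` (`inner_tmul`, `norm_tmul`), so it is
  `⟪op T x, y⟫` for a bounded operator (`InnerProductSpace.continuousLinearMapOfBilin` or `toDual.symm` and `LinearMap.mkContinuous₂`); linear
  in `T` with `‖op T‖ ≤ ‖T‖`.
* compactness: for `T = ∑ x_i ⊗ₜ y_i` (finite sum, in `E ⊗ E`) `op T x = ∑ ⟪x_i, x⟫ y_i` has finite rank, so it is compact
  (`isCompactOperator_of_locallyCompactSpace_rng` for the codomain restriction, or: compact operators are closed under sums, and rank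
  one operators `x ↦ ⟪a, x⟫ • c` factor through `ℝ`). `E ⊗ E` is dense in `HS E` and the set of compact operators is closed
  (`isClosed_setOfPred_isCompactOperator`).
-/

set_option autoImplicit false

universe u v

namespace H85.TG

open TensorProduct

/-- the Hilbert space tensor square -/
abbrev HS (E : Type v) [NormedAddCommGroup E] [InnerProductSpace ℝ E] : Type v :=
  UniformSpace.Completion (E ⊗[ℝ] E)

variable {Q : Type u} [Group Q] {E : Type v} [NormedAddCommGroup E] [InnerProductSpace ℝ E]

/-- the elementary tensors -/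
noncomputable def tm (x y : E) : HS E := ((x ⊗ₜ[ℝ] y : E ⊗[ℝ] E) : HS E)

theorem inner_tm (x y x' y' : E) : inner ℝ (tm x y) (tm x' y') = inner ℝ x x' * inner ℝ y y' := by
  rw [tm, tm, UniformSpace.Completion.inner_coe, TensorProduct.inner_tmul]

theorem tm_add_left (x x' y : E) : tm (x + x') y = tm x y + tm x' y := by
  rw [tm, TensorProduct.add_tmul, UniformSpace.Completion.coe_add, tm, tm]

theorem tm_add_right (x y y' : E) : tm x (y + y') = tm x y + tm x y' := by
  rw [tm, TensorProduct.tmul_add, UniformSpace.Completion.coe_add, tm, tm]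

theorem tm_smul_left (c : ℝ) (x y : E) : tm (c • x) y = c • tm x y := by
  rw [tm, ← TensorProduct.smul_tmul', UniformSpace.Completion.coe_smul, tm]

theorem tm_smul_right (c : ℝ) (x y : E) : tm x (c • y) = c • tm x y := by
  rw [tm, TensorProduct.tmul_smul, UniformSpace.Completion.coe_smul, tm]

section completion_aux

variable {F : Type*} [NormedAddCommGroup F] [InnerProductSpace ℝ F]

/-- the extension of an isometry to the completion, as a continuous linear map -/
noncomputable def fbL (f : F ≃ₗᵢ[ℝ] F) :
    UniformSpace.Completion F →L[ℝ] UniformSpace.Completion F :=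
  (f.toContinuousLinearEquiv : F →L[ℝ] F).completion

theorem fbL_coe (f : F ≃ₗᵢ[ℝ] F) (x : F) :
    fbL f (x : UniformSpace.Completion F) = ((f x : F) : UniformSpace.Completion F) := by
  rw [fbL, ContinuousLinearMap.completion_apply_coe]
  rfl

theorem fbL_norm (f : F ≃ₗᵢ[ℝ] F) (x : UniformSpace.Completion F) : ‖fbL f x‖ = ‖x‖ := by
  induction x using UniformSpace.Completion.induction_on with
  | hp => exact isClosed_eq (fbL f).continuous.norm continuous_norm
  | ih x => rw [fbL_coe, UniformSpace.Completion.norm_coe, UniformSpace.Completion.norm_coe,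
      f.norm_map]

theorem fbL_symm (f : F ≃ₗᵢ[ℝ] F) (x : UniformSpace.Completion F) :
    fbL f (fbL f.symm x) = x := by
  induction x using UniformSpace.Completion.induction_on with
  | hp => exact isClosed_eq ((fbL f).continuous.comp (fbL f.symm).continuous) continuous_id
  | ih x => rw [fbL_coe, fbL_coe, f.apply_symm_apply]

/-- the extension of an isometry to the completion -/
noncomputable def fbE (f : F ≃ₗᵢ[ℝ] F) :
    UniformSpace.Completion F ≃ₗᵢ[ℝ] UniformSpace.Completion F where
  toLinearEquiv := LinearEquiv.ofLinear (fbL f).toLinearMap (fbL f.symm).toLinearMap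
    (LinearMap.ext fun x => fbL_symm f x) (LinearMap.ext fun x => fbL_symm f.symm x)
  norm_map' := fun x => fbL_norm f x

theorem fbE_coe (f : F ≃ₗᵢ[ℝ] F) (x : F) :
    fbE f (x : UniformSpace.Completion F) = ((f x : F) : UniformSpace.Completion F) :=
  fbL_coe f x

theorem fbE_ext {U V : UniformSpace.Completion F ≃ₗᵢ[ℝ] UniformSpace.Completion F}
    (h : ∀ x : F, U (x : UniformSpace.Completion F) = V (x : UniformSpace.Completion F)) :
    U = V := by
  ext x
  induction x using UniformSpace.Completion.induction_on with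
  | hp => exact isClosed_eq U.continuous V.continuous
  | ih x => exact h x

end completion_aux

theorem fb_cong_one (t : E ⊗[ℝ] E) :
    TensorProduct.congrIsometry (1 : E ≃ₗᵢ[ℝ] E) (1 : E ≃ₗᵢ[ℝ] E) t = t := by
  induction t using TensorProduct.induction_on with
  | zero => rw [map_zero]
  | tmul x y => rfl
  | add x y hx hy => rw [map_add, hx, hy]

theorem fb_cong_mul (f g : E ≃ₗᵢ[ℝ] E) (t : E ⊗[ℝ] E) :
    TensorProduct.congrIsometry (f * g) (f * g) t =
      TensorProduct.congrIsometry f f (TensorProduct.congrIsometry g g t) := by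
  induction t using TensorProduct.induction_on with
  | zero => rw [map_zero, map_zero, map_zero]
  | tmul x y => rfl
  | add x y hx hy => rw [map_add, hx, hy, map_add, map_add]

theorem tensor_rep [CompleteSpace E] (π : Q →* (E ≃ₗᵢ[ℝ] E)) : ∃ ρ : Q →* (HS E ≃ₗᵢ[ℝ] HS E),
    ∀ g x y, ρ g (tm x y) = tm (π g x) (π g y) := by
  refine ⟨⟨⟨fun g => fbE (TensorProduct.congrIsometry (π g) (π g)), ?_⟩, ?_⟩, ?_⟩
  · refine fbE_ext fun t => ?_
    rw [fbE_coe, map_one, fb_cong_one]
    rfl
  · intro g h
    refine fbE_ext fun t => ?_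
    show _ = fbE _ (fbE _ _)
    rw [fbE_coe, map_mul, fb_cong_mul, fbE_coe, fbE_coe]
  · intro g x y
    exact fbE_coe _ _

/-- `y ↦ x ⊗ₜ y` -/
noncomputable def fbA (x : E) : E →L[ℝ] HS E :=
  UniformSpace.Completion.toComplL.comp (TensorProduct.mkL ℝ E E x)

theorem fbA_apply (x y : E) : fbA x y = tm x y := rfl

theorem norm_tm (x y : E) : ‖tm x y‖ = ‖x‖ * ‖y‖ := by
  rw [tm, UniformSpace.Completion.norm_coe, TensorProduct.norm_tmul]

theorem fbA_norm (x : E) : ‖fbA x‖ ≤ ‖x‖ := by
  refine ContinuousLinearMap.opNorm_le_bound _ (norm_nonneg _) fun y => ?_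
  rw [fbA_apply, norm_tm]

theorem exists_op [CompleteSpace E] : ∃ op : HS E →L[ℝ] (E →L[ℝ] E),
    (∀ T x y, inner ℝ (op T x) y = inner ℝ T (tm x y)) ∧ ∀ T, IsCompactOperator (op T) := by
  have key : ∀ (T : HS E) (x y : E),
      inner ℝ (ContinuousLinearMap.adjoint (fbA x) T) y = inner ℝ T (tm x y) := fun T x y =>
    ContinuousLinearMap.adjoint_inner_left (fbA x) y T
  let B : HS E →ₗ[ℝ] E →ₗ[ℝ] E :=
    LinearMap.mk₂ ℝ (fun T x => ContinuousLinearMap.adjoint (fbA x) T)
      (fun T T' x => map_add _ _ _)
      (fun c T x => map_smul _ _ _)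
      (fun T x x' => by
        refine ext_inner_right ℝ fun y => ?_
        rw [inner_add_left, key, key, key, tm_add_left, inner_add_right])
      (fun c T x => by
        refine ext_inner_right ℝ fun y => ?_
        rw [real_inner_smul_left, key, key, tm_smul_left, real_inner_smul_right])
  have hB : ∀ T x, ‖B T x‖ ≤ 1 * ‖T‖ * ‖x‖ := by
    intro T x
    show ‖ContinuousLinearMap.adjoint (fbA x) T‖ ≤ _
    refine (ContinuousLinearMap.le_opNorm _ _).trans ?_
    rw [LinearIsometryEquiv.norm_map, one_mul, mul_comm]
    exact mul_le_mul_of_nonneg_left (fbA_norm x) (norm_nonneg _)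
  let op : HS E →L[ℝ] (E →L[ℝ] E) := LinearMap.mkContinuous₂ B 1 hB
  have hop : ∀ T x y, inner ℝ (op T x) y = inner ℝ T (tm x y) := fun T x y => key T x y
  refine ⟨op, hop, ?_⟩
  intro T
  induction T using UniformSpace.Completion.induction_on with
  | hp => exact isClosed_setOfPred_isCompactOperator.preimage op.continuous
  | ih t =>
    induction t using TensorProduct.induction_on with
    | zero =>
      rw [UniformSpace.Completion.coe_zero, map_zero]
      exact isCompactOperator_zero
    | tmul a b =>
      have h1 : op (tm a b) = (ContinuousLinearMap.toSpanSingleton ℝ b).comp (innerSL ℝ a) := by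
        ext x
        refine ext_inner_right ℝ fun y => ?_
        rw [hop, inner_tm, ContinuousLinearMap.comp_apply,
          ContinuousLinearMap.toSpanSingleton_apply, real_inner_smul_left, innerSL_apply_apply]
      show IsCompactOperator (op (tm a b))
      rw [h1]
      exact (isCompactOperator_of_locallyCompactSpace_dom (innerSL ℝ a)).clm_comp
        (ContinuousLinearMap.toSpanSingleton ℝ b)
    | add s t hs ht =>
      rw [UniformSpace.Completion.coe_add, map_add]
      exact hs.add ht

end H85.TG
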