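import Pool.Agent.H85.TG.Ea
import Pool.Agent.H85.TG.Fb

/-!
# [H85 TG FC] the covariance tensors, 50-80 lines

`T₁ = av w fun i => tm (b (w.s i)) (b (w.s i))`.
* `cov_sum`: induction on `k`: `∑_{j < k} Ex w j (g ↦ ρ g T₁) = Ex w k (g ↦ tm (b g) (b g))`. `k = 0`: `b 1 = 0`, `tm 0 0 = 0`
  (`tm_smul_left`). Step: `tm (b (g s)) (b (g s)) = tm (b g) (b g) + tm (b g) (π g (b s)) + tm (π g (b s)) (b g) + ρ g (tm (b s) (b s))`;
  the averages over `s` of the two middle terms are `tm (b g) (π g (av b s)) = 0` (linearity in the second argument, `hh`), the average of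
  the last one is `ρ g T₁`.
* `cov_inner`: `⟪Ex w k (g ↦ tm (b g) (b g)), T₁⟫ = Ex w k (g ↦ av i, ⟪b g, b s_i⟫^2) = qq w b k` (`ex_lin` for the linear form
  `⟪·, T₁⟫`, `inner_tm`).
-/

set_option autoImplicit false

universe u v

namespace H85.TG

variable {Q : Type u} [Group Q] (w : Walk Q) {E : Type v} [NormedAddCommGroup E]
  [InnerProductSpace ℝ E] {π : Q →* (E ≃ₗᵢ[ℝ] E)} {b : Q → E}

theorem fc_av_lin {V : Type*} [AddCommGroup V] [Module ℝ V] {W : Type*} [AddCommGroup W]
    [Module ℝ W] (L : V →ₗ[ℝ] W) (f : w.I → V) : L (av w f) = av w fun i => L (f i) := by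
  rw [av, av, map_smul, map_sum]

theorem fc_av_ex {V : Type*} [AddCommGroup V] [Module ℝ V] (k : ℕ) (F : w.I → Q → V) :
    (av w fun i => Ex w k (F i)) = Ex w k fun g => av w fun i => F i g := by
  unfold av
  rw [ex_smul, ex_sum]

omit w in
/-- `y ↦ x ⊗ₜ y` -/
noncomputable def fcR (x : E) : E →ₗ[ℝ] HS E where
  toFun := fun y => tm x y
  map_add' := fun y y' => tm_add_right x y y'
  map_smul' := fun c y => tm_smul_right c x y

omit w in
/-- `x ↦ x ⊗ₜ y` -/
noncomputable def fcL (y : E) : E →ₗ[ℝ] HS E where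
  toFun := fun x => tm x y
  map_add' := fun x x' => tm_add_left x x' y
  map_smul' := fun c x => tm_smul_left c x y

theorem cov_sum (hb : ∀ g h, b (g * h) = b g + π g (b h)) (hh : ∑ i, b (w.s i) = 0)
    (ρ : Q →* (HS E ≃ₗᵢ[ℝ] HS E)) (hρ : ∀ g x y, ρ g (tm x y) = tm (π g x) (π g y)) (k : ℕ) :
    ∑ j ∈ Finset.range k, Ex w j (fun g => ρ g (av w fun i => tm (b (w.s i)) (b (w.s i)))) =
      Ex w k (fun g => tm (b g) (b g)) := by
  have hav : ∀ g, (av w fun i => π g (b (w.s i))) = 0 := by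
    intro g
    have h1 : π g (av w fun i => b (w.s i)) = av w fun i => π g (b (w.s i)) :=
      fc_av_lin w ((π g).toLinearEquiv : E →ₗ[ℝ] E) _
    rw [← h1]
    have h2 : (av w fun i => b (w.s i)) = 0 := by rw [av, hh, smul_zero]
    rw [h2, map_zero]
  induction k with
  | zero =>
    rw [Finset.range_zero, Finset.sum_empty, ex_zero, coc_one hb]
    exact (map_zero (fcR (0 : E))).symm
  | succ k ih =>
    rw [Finset.sum_range_succ, ih, ← ex_add, ex_succ, fc_av_ex]
    congr 1
    funext g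
    have h1 : ∀ i, tm (b (g * w.s i)) (b (g * w.s i)) =
        (tm (b g) (b g) + tm (b g) (π g (b (w.s i)))) +
          (tm (π g (b (w.s i))) (b g) + ρ g (tm (b (w.s i)) (b (w.s i)))) := by
      intro i
      rw [hb, tm_add_left, tm_add_right, tm_add_right, hρ]
    have h2 : (av w fun i => tm (b g) (π g (b (w.s i)))) = 0 := by
      have h3 := fc_av_lin w (fcR (b g)) (fun i => π g (b (w.s i)))
      rw [hav, map_zero] at h3
      exact h3.symm
    have h3 : (av w fun i => tm (π g (b (w.s i))) (b g)) = 0 := by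
      have h3 := fc_av_lin w (fcL (b g)) (fun i => π g (b (w.s i)))
      rw [hav, map_zero] at h3
      exact h3.symm
    have h4 : (av w fun i => ρ g (tm (b (w.s i)) (b (w.s i)))) =
        ρ g (av w fun i => tm (b (w.s i)) (b (w.s i))) :=
      (fc_av_lin w ((ρ g).toLinearEquiv : HS E →ₗ[ℝ] HS E) _).symm
    rw [show (fun i => tm (b (g * w.s i)) (b (g * w.s i))) = fun i =>
        (tm (b g) (b g) + tm (b g) (π g (b (w.s i)))) +
          (tm (π g (b (w.s i))) (b g) + ρ g (tm (b (w.s i)) (b (w.s i)))) from funext h1,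
      av_add w (fun i => tm (b g) (b g) + tm (b g) (π g (b (w.s i))))
        (fun i => tm (π g (b (w.s i))) (b g) + ρ g (tm (b (w.s i)) (b (w.s i)))),
      av_add w (fun _ => tm (b g) (b g)) (fun i => tm (b g) (π g (b (w.s i)))),
      av_add w (fun i => tm (π g (b (w.s i))) (b g))
        (fun i => ρ g (tm (b (w.s i)) (b (w.s i)))), av_const, h2, h3, h4, add_zero, zero_add]

theorem cov_inner (k : ℕ) : inner ℝ (Ex w k (fun g => tm (b g) (b g)))
    (av w fun i => tm (b (w.s i)) (b (w.s i))) = qq w b k := by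
  have h1 := ex_lin w (innerₛₗ ℝ (av w fun i => tm (b (w.s i)) (b (w.s i)))) k
    (fun g => tm (b g) (b g))
  rw [innerₛₗ_apply_apply] at h1
  rw [real_inner_comm, h1, qq]
  congr 1
  funext g
  rw [innerₛₗ_apply_apply, real_inner_comm]
  have h2 := fc_av_lin w (innerₛₗ ℝ (tm (b g) (b g))) (fun i => tm (b (w.s i)) (b (w.s i)))
  rw [innerₛₗ_apply_apply] at h2
  rw [h2]
  congr 1
  funext i
  rw [innerₛₗ_apply_apply, inner_tm, sq]

end H85.TG
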