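import Pool.Agent.H85.TG.Fa
import Pool.Agent.H85.TG.Fc

/-!
# [H85 TG FD] a finite dimensional invariant subspace, 90-140 lines

Let `ρ` be from `tensor_rep`, `T₁ = av w fun i => tm (b (w.s i)) (b (w.s i))`, `v'` from `mean_erg w ρ T₁`. By `cov_sum` and `cov_inner`
`qq w b k / k = ⟪(1/k) T_k, T₁⟫ → ⟪v', T₁⟫ = ‖v'‖^2` where `T_k = Ex w k (g ↦ tm (b g) (b g))`. If `v' = 0` then `qq / k → 0`, excluded.
Let `A = op v'` (`exists_op`). For all `x`, `y`: `⟪A x, y⟫ = ⟪v', tm x y⟫ = lim (1/k) Ex w k (g ↦ ⟪b g, x⟫ ⟪b g, y⟫)` (`ex_lin` for the form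
`⟪·, tm x y⟫`, `inner_tm`); so `A` is symmetric. `A ≠ 0`: `av i, ⟪A (b s_i), b s_i⟫ = ⟪v', T₁⟫ = ‖v'‖^2 ≠ 0`. `A (π g x) = π g (A x)`:
`⟪A (π g x), y⟫ = ⟪v', tm (π g x) (π g (π g⁻¹ y))⟫ = ⟪v', ρ g (tm x (π g⁻¹ y))⟫ = ⟪ρ g v', ρ g (…)⟫ = ⟪v', tm x (π g⁻¹ y)⟫ = ⟪A x, π g⁻¹ y⟫ =
⟪π g (A x), y⟫`. `A` is compact, so there is an eigenvalue `μ ≠ 0`
(`ContinuousLinearMap.eq_zero_of_forall_hasEigenvalue_eq_zero`) and its eigenspace `W` is finite dimensional
(`ContinuousLinearMap.finite_dimensional_eigenspace`), invariant under all `π g`. If `⟪b g, x⟫ = 0` for all `g` and `x ∈ W`: take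
`x ∈ W`, `x ≠ 0`: `μ ⟪x, x⟫ = ⟪A x, x⟫ = lim (1/k) Ex w k (g ↦ ⟪b g, x⟫^2) = 0`, a contradiction.
-/

set_option autoImplicit false

universe u v

namespace H85.TG

variable {Q : Type u} [Group Q] (w : Walk Q) {E : Type v} [NormedAddCommGroup E]
  [InnerProductSpace ℝ E] [CompleteSpace E] {π : Q →* (E ≃ₗᵢ[ℝ] E)} {b : Q → E}

omit [CompleteSpace E] in
private theorem Fd_ex (k : ℕ) (T : HS E) (f : Q → HS E) :
    inner ℝ (Ex w k f) T = Ex w k fun g => inner ℝ (f g) T := by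
  have h := ex_lin w ((innerSL ℝ T : HS E →L[ℝ] ℝ) : HS E →ₗ[ℝ] ℝ) k f
  have h1 : ∀ S : HS E, ((innerSL ℝ T : HS E →L[ℝ] ℝ) : HS E →ₗ[ℝ] ℝ) S = inner ℝ S T := by
    intro S
    rw [real_inner_comm]
    rfl
  simp only [h1] at h
  exact h

omit [CompleteSpace E] in
private theorem Fd_av (S : HS E) (f : w.I → HS E) :
    inner ℝ S (av w f) = av w fun i => inner ℝ S (f i) := by
  rw [av, inner_smul_right, inner_sum]
  rfl

theorem exists_fin_dim (hb : ∀ g h, b (g * h) = b g + π g (b h)) (hh : ∑ i, b (w.s i) = 0)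
    (hq : ¬ Filter.Tendsto (fun k : ℕ => qq w b k / k) Filter.atTop (nhds 0)) :
    ∃ W : Submodule ℝ E, FiniteDimensional ℝ W ∧ (∀ g, ∀ x ∈ W, π g x ∈ W) ∧
      ∃ g, ∃ x ∈ W, inner ℝ (b g) x ≠ 0 := by
  obtain ⟨ρ, hρ⟩ := tensor_rep π
  obtain ⟨v', hfix, hin, hlim⟩ := mean_erg w ρ (av w fun i => tm (b (w.s i)) (b (w.s i)))
  have hlim2 : ∀ T : HS E, Filter.Tendsto (fun k : ℕ => (k : ℝ)⁻¹ *
      inner ℝ (Ex w k (fun g => tm (b g) (b g))) T) Filter.atTop (nhds (inner ℝ v' T)) := by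
    intro T
    have h1 := Filter.Tendsto.inner (𝕜 := ℝ) hlim (tendsto_const_nhds (x := T))
    refine h1.congr fun k => ?_
    rw [cov_sum w hb hh ρ hρ k, real_inner_smul_left]
  have hv : ‖v'‖ ^ 2 ≠ 0 := by
    intro h0
    apply hq
    have h1 := hlim2 (av w fun i => tm (b (w.s i)) (b (w.s i)))
    rw [hin, h0] at h1
    refine h1.congr fun k => ?_
    rw [cov_inner, div_eq_inv_mul]
  obtain ⟨op, hop, hcomp⟩ := exists_op (E := E)
  have hform : ∀ x y : E, Filter.Tendsto (fun k : ℕ => (k : ℝ)⁻¹ *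
      Ex w k (fun g => (inner ℝ (b g) x * inner ℝ (b g) y : ℝ))) Filter.atTop
      (nhds (inner ℝ (op v' x) y)) := by
    intro x y
    rw [hop]
    refine (hlim2 (tm x y)).congr fun k => ?_
    rw [Fd_ex]
    simp only [inner_tm]
  have hsym : (op v').IsSymmetric := by
    intro x y
    have h1 := hform x y
    have h2 := hform y x
    have h3 : inner ℝ (op v' x) y = inner ℝ (op v' y) x := by
      refine tendsto_nhds_unique h1 (h2.congr fun k => ?_)
      congr 2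
      funext g
      exact mul_comm _ _
    show inner ℝ (op v' x) y = inner ℝ x (op v' y)
    rw [h3, real_inner_comm]
  have hne : op v' ≠ 0 := by
    intro h0
    apply hv
    rw [← hin, Fd_av]
    have h1 : ∀ i, inner ℝ v' (tm (b (w.s i)) (b (w.s i))) = (0 : ℝ) := by
      intro i
      rw [← hop, h0]
      simp
    simp only [h1]
    simp [av]
  have hcommut : ∀ g x, op v' (π g x) = π g (op v' x) := by
    intro g x
    apply ext_inner_right ℝ
    intro y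
    have hy : y = π g (π g⁻¹ y) := by
      have h1 : π g (π g⁻¹ y) = (π g * π g⁻¹) y := rfl
      rw [h1, ← map_mul, mul_inv_cancel, map_one]
      rfl
    rw [hy, hop, ← hρ, LinearIsometryEquiv.inner_map_map, hop]
    conv_lhs => rw [← hfix g]
    rw [LinearIsometryEquiv.inner_map_map]
  obtain ⟨μ, hμe, hμ⟩ : ∃ μ : ℝ, Module.End.HasEigenvalue (op v' : Module.End ℝ E) μ ∧ μ ≠ 0 := by
    by_contra hc
    push Not at hc
    exact hne ((ContinuousLinearMap.eq_zero_of_forall_hasEigenvalue_eq_zero (hcomp v') hsym).1 hc)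
  refine ⟨Module.End.eigenspace (op v' : Module.End ℝ E) μ,
    ContinuousLinearMap.finite_dimensional_eigenspace (hcomp v') μ hμ, ?_, ?_⟩
  · intro g x hx
    rw [Module.End.mem_eigenspace_iff] at hx ⊢
    have h1 : op v' x = μ • x := hx
    show op v' (π g x) = μ • π g x
    rw [hcommut, h1, map_smul]
  · by_contra hc
    push Not at hc
    obtain ⟨x, hx⟩ := hμe.exists_hasEigenvector
    have hx1 : op v' x = μ • x := hx.apply_eq_smul
    have h1 := hform x x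
    have h2 : ∀ g, inner ℝ (b g) x = (0 : ℝ) := fun g => hc g x hx.1
    simp only [h2, mul_zero, ex_const] at h1
    have h3 : inner ℝ (op v' x) x = (0 : ℝ) := tendsto_nhds_unique h1 tendsto_const_nhds
    rw [hx1, real_inner_smul_left] at h3
    rcases mul_eq_zero.1 h3 with h4 | h4
    · exact hμ h4
    · exact hx.2 (inner_self_eq_zero.1 h4)

end H85.TG
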