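import Pool.Agent.H85.TG.Ga

/-!
# [H85 TG GC] finite index, determinants, eigenspaces, 80-120 lines

* `near_finiteIndex`: `K = closure {g | nr (ρ g) < ε}`. If `op (ρ x)` and `op (ρ y)` are at distance `< ε` then `x⁻¹ y ∈ K`:
  `op (ρ (x⁻¹ y)) - 1 = op (ρ x)⁻¹ (op (ρ y) - op (ρ x))`. The set of the `op (ρ x)` is in the closed unit ball of the finite dimensional space
  `V →L[ℂ] V`, which is compact, so it is covered by finitely many balls of radius `ε / 2` (`Metric.totallyBounded`); so `Q ⧸ K` is finite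
  (choose for each coset a representative, its ball; different cosets get different balls, `Finite.of_injective`).
* `scal_comm`: if the commutator `k = f g f⁻¹ g⁻¹` is `c • 1` then `c ^ finrank = det k = 1` (`LinearMap.det` of a commutator). `V ≠ 0` (otherwise
  `k = 1` by subsingleton): `|c - 1| ≤ nr k` (apply to a vector of norm 1). There are only finitely many `c ≠ 1` with `c ^ n = 1` (`n ≥ 1`); `ε` = the minimal
  distance from `1` of these (`Set.Finite`, or: `Polynomial.nthRoots`).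
* `exists_split`: `z` not scalar, `V` finite dimensional and nontrivial: `z` has an eigenvalue `c` (`Module.End.exists_eigenvalue`); `W` = its
  eigenspace: `≠ ⊥`, `≠ ⊤` (else scalar); if `f z = z f` then `f` maps `W` to `W`.
-/

set_option autoImplicit false

universe u v

namespace H85.TG

variable {Q : Type u} [Group Q] {V : Type v} [NormedAddCommGroup V] [InnerProductSpace ℂ V]
  [FiniteDimensional ℂ V]

omit [FiniteDimensional ℂ V] in
theorem op_apply (f : V ≃ₗᵢ[ℂ] V) (x : V) : op f x = f x := rfl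

omit [FiniteDimensional ℂ V] in
theorem norm_op_le (f : V ≃ₗᵢ[ℂ] V) : ‖op f‖ ≤ 1 :=
  ContinuousLinearMap.opNorm_le_bound _ zero_le_one fun x => by
    rw [op_apply, LinearIsometryEquiv.norm_map, one_mul]

omit [FiniteDimensional ℂ V] in
theorem nr_inv_mul_le (f g : V ≃ₗᵢ[ℂ] V) : nr (f⁻¹ * g) ≤ ‖op g - op f‖ := by
  have h : op (f⁻¹ * g) - 1 = op f⁻¹ * (op g - op f) := by
    ext x
    have e : f⁻¹ (f x) = x := by
      change (f⁻¹ * f) x = x
      rw [inv_mul_cancel]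
      rfl
    change f⁻¹ (g x) - x = f⁻¹ (g x - f x)
    rw [map_sub, e]
  unfold nr
  rw [h]
  calc ‖op f⁻¹ * (op g - op f)‖ ≤ ‖op f⁻¹‖ * ‖op g - op f‖ := norm_mul_le _ _
    _ ≤ 1 * ‖op g - op f‖ := mul_le_mul_of_nonneg_right (norm_op_le _) (norm_nonneg _)
    _ = ‖op g - op f‖ := one_mul _

theorem near_finiteIndex (ρ : Q →* (V ≃ₗᵢ[ℂ] V)) {ε : ℝ} (hε : 0 < ε) :
    (Subgroup.closure {g : Q | nr (ρ g) < ε}).FiniteIndex := by
  set K := Subgroup.closure {g : Q | nr (ρ g) < ε} with hK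
  have hprop : ProperSpace (V →L[ℂ] V) := FiniteDimensional.proper ℂ _
  have hc : IsCompact (Metric.closedBall (0 : V →L[ℂ] V) 1) := isCompact_closedBall _ _
  obtain ⟨t, ht, hcov⟩ := Metric.totallyBounded_iff.1 hc.totallyBounded (ε / 2) (by positivity)
  have hy : ∀ g : Q, ∃ y ∈ t, dist (op (ρ g)) y < ε / 2 := by
    intro g
    have h1 : op (ρ g) ∈ Metric.closedBall (0 : V →L[ℂ] V) 1 := by
      rw [mem_closedBall_zero_iff]
      exact norm_op_le _
    have h2 := hcov h1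
    simp only [Set.mem_iUnion, Metric.mem_ball] at h2
    obtain ⟨y, hy, h3⟩ := h2
    exact ⟨y, hy, h3⟩
  choose y hyt hyd using hy
  have : Finite t := ht
  have hinj : Function.Injective (fun c : Q ⧸ K => (⟨y c.out, hyt c.out⟩ : t)) := by
    intro c c' h
    have h1 : y c.out = y c'.out := congrArg Subtype.val h
    have h2 : ‖op (ρ c'.out) - op (ρ c.out)‖ < ε := by
      rw [← dist_eq_norm]
      calc dist (op (ρ c'.out)) (op (ρ c.out)) ≤ dist (op (ρ c'.out)) (y c'.out) +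
            dist (op (ρ c.out)) (y c'.out) := dist_triangle_right _ _ _
        _ < ε / 2 + ε / 2 := add_lt_add (hyd _) (by rw [← h1]; exact hyd _)
        _ = ε := by ring
    have h3 : (c.out)⁻¹ * c'.out ∈ K := by
      refine Subgroup.subset_closure ?_
      change nr (ρ ((c.out)⁻¹ * c'.out)) < ε
      rw [map_mul, map_inv]
      exact (nr_inv_mul_le _ _).trans_lt h2
    have h4 : (QuotientGroup.mk c.out : Q ⧸ K) = QuotientGroup.mk c'.out :=
      QuotientGroup.eq.2 h3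
    rwa [QuotientGroup.out_eq', QuotientGroup.out_eq'] at h4
  have : Finite (Q ⧸ K) := Finite.of_injective _ hinj
  exact Subgroup.finiteIndex_of_finite_quotient

/-- scalar isometries -/
def Scal (f : V ≃ₗᵢ[ℂ] V) : Prop := ∃ c : ℂ, ∀ x, f x = c • x

/-- the determinant of an isometry -/
noncomputable def dt (f : V ≃ₗᵢ[ℂ] V) : ℂ := LinearMap.det (f.toLinearEquiv : V →ₗ[ℂ] V)

theorem dt_mul (f g : V ≃ₗᵢ[ℂ] V) : dt (f * g) = dt f * dt g := by
  unfold dt
  rw [← LinearMap.det_comp]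
  rfl

theorem dt_one : dt (1 : V ≃ₗᵢ[ℂ] V) = 1 := by
  unfold dt
  have h : ((1 : V ≃ₗᵢ[ℂ] V).toLinearEquiv : V →ₗ[ℂ] V) = LinearMap.id := rfl
  rw [h, LinearMap.det_id]

theorem dt_comm (f g : V ≃ₗᵢ[ℂ] V) : dt (f * g * f⁻¹ * g⁻¹) = 1 := by
  have hf : dt f * dt f⁻¹ = 1 := by rw [← dt_mul, mul_inv_cancel, dt_one]
  have hg : dt g * dt g⁻¹ = 1 := by rw [← dt_mul, mul_inv_cancel, dt_one]
  rw [dt_mul, dt_mul, dt_mul]
  calc dt f * dt g * dt f⁻¹ * dt g⁻¹ = (dt f * dt f⁻¹) * (dt g * dt g⁻¹) := by ring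
    _ = 1 := by rw [hf, hg, one_mul]

theorem scal_comm (V : Type v) [NormedAddCommGroup V] [InnerProductSpace ℂ V]
    [FiniteDimensional ℂ V] : ∃ ε > 0, ∀ f g : V ≃ₗᵢ[ℂ] V, Scal (f * g * f⁻¹ * g⁻¹) →
      nr (f * g * f⁻¹ * g⁻¹) < ε → f * g * f⁻¹ * g⁻¹ = 1 := by
  rcases subsingleton_or_nontrivial V with hV | hV
  · exact ⟨1, one_pos, fun f g _ _ => LinearIsometryEquiv.ext fun x => Subsingleton.elim _ _⟩
  set n := Module.finrank ℂ V with hn
  have hn0 : 0 < n := Module.finrank_pos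
  have hfin : {c : ℂ | c ^ n = 1 ∧ c ≠ 1}.Finite := by
    classical
    refine (Polynomial.nthRoots n (1 : ℂ)).toFinset.finite_toSet.subset ?_
    rintro c ⟨hc, _⟩
    rw [Finset.mem_coe, Multiset.mem_toFinset, Polynomial.mem_nthRoots hn0]
    exact hc
  have hopen : {c : ℂ | c ^ n = 1 ∧ c ≠ 1}ᶜ ∈ nhds (1 : ℂ) :=
    hfin.isClosed.isOpen_compl.mem_nhds (fun h => h.2 rfl)
  obtain ⟨ε, hε, hball⟩ := Metric.mem_nhds_iff.1 hopen
  refine ⟨ε, hε, fun f g ⟨c, hc⟩ hlt => ?_⟩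
  have hdet : c ^ n = 1 := by
    have h1 := dt_comm f g
    unfold dt at h1
    have h2 : ((f * g * f⁻¹ * g⁻¹).toLinearEquiv : V →ₗ[ℂ] V) = c • LinearMap.id := by
      ext x
      exact hc x
    rw [h2, LinearMap.det_smul, LinearMap.det_id, mul_one] at h1
    exact h1
  have hdist : ‖c - 1‖ ≤ nr (f * g * f⁻¹ * g⁻¹) := by
    obtain ⟨x, hx⟩ := exists_norm_eq V zero_le_one
    have h1 := (op (f * g * f⁻¹ * g⁻¹) - 1).le_opNorm x
    have h2 : (op (f * g * f⁻¹ * g⁻¹) - 1) x = (c - 1) • x := by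
      change (f * g * f⁻¹ * g⁻¹) x - x = _
      rw [hc, sub_smul, one_smul]
    rw [h2, norm_smul, hx, mul_one, mul_one] at h1
    exact h1
  have hc1 : c = 1 := by
    by_contra hne
    have h1 : c ∈ Metric.ball (1 : ℂ) ε := by
      rw [Metric.mem_ball, dist_eq_norm]
      exact hdist.trans_lt hlt
    exact hball h1 ⟨hdet, hne⟩
  refine LinearIsometryEquiv.ext fun x => ?_
  rw [hc, hc1, one_smul]
  rfl

theorem exists_split (z : V ≃ₗᵢ[ℂ] V) (hz : ¬ Scal z) : ∃ W : Submodule ℂ V, W ≠ ⊥ ∧ W ≠ ⊤ ∧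
    ∀ f : V ≃ₗᵢ[ℂ] V, f * z = z * f → ∀ x ∈ W, f x ∈ W := by
  rcases subsingleton_or_nontrivial V with hV | hV
  · exact absurd ⟨0, fun x => Subsingleton.elim _ _⟩ hz
  obtain ⟨c, hc⟩ := Module.End.exists_eigenvalue (z.toLinearEquiv : V →ₗ[ℂ] V)
  refine ⟨Module.End.eigenspace (z.toLinearEquiv : V →ₗ[ℂ] V) c, hc, fun htop => hz ⟨c, fun x => ?_⟩,
    fun f hf x hx => ?_⟩
  · have hx : x ∈ Module.End.eigenspace (z.toLinearEquiv : V →ₗ[ℂ] V) c := htop ▸ Submodule.mem_top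
    exact Module.End.mem_eigenspace_iff.1 hx
  · rw [Module.End.mem_eigenspace_iff] at hx ⊢
    change z (f x) = c • f x
    have h1 : z x = c • x := hx
    have h2 : (z * f) x = (f * z) x := by rw [hf]
    change z (f x) = f (z x) at h2
    rw [h2, h1, map_smul]

end H85.TG
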