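import Mathlib

/-!
# Restriction of representations to invariant subspaces
-/

set_option autoImplicit false

universe u v

namespace H85.TG

variable {𝕜 : Type*} [RCLike 𝕜] {Q : Type u} [Group Q] {V : Type v} [NormedAddCommGroup V]
  [InnerProductSpace 𝕜 V]

theorem rho_inv_apply (ρ : Q →* (V ≃ₗᵢ[𝕜] V)) (g : Q) (x : V) : ρ g (ρ g⁻¹ x) = x := by
  have h : (ρ g * ρ g⁻¹) x = x := by
    rw [← map_mul, mul_inv_cancel, map_one]
    rfl
  exact h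

theorem rho_inv_apply' (ρ : Q →* (V ≃ₗᵢ[𝕜] V)) (g : Q) (x : V) : ρ g⁻¹ (ρ g x) = x := by
  have h : (ρ g⁻¹ * ρ g) x = x := by
    rw [← map_mul, inv_mul_cancel, map_one]
    rfl
  exact h

theorem restr (ρ : Q →* (V ≃ₗᵢ[𝕜] V)) (W : Submodule 𝕜 V) (h : ∀ g, ∀ x ∈ W, ρ g x ∈ W) :
    ∃ ρ' : Q →* (W ≃ₗᵢ[𝕜] W), ∀ g (x : W), ((ρ' g x : W) : V) = ρ g x := by
  let F : Q → (W ≃ₗᵢ[𝕜] W) := fun g =>
    { toFun := fun x => ⟨ρ g x, h g x x.2⟩
      map_add' := fun x y => Subtype.ext (map_add (ρ g) (x : V) y)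
      map_smul' := fun c x => Subtype.ext (map_smul (ρ g) c (x : V))
      invFun := fun x => ⟨ρ g⁻¹ x, h g⁻¹ x x.2⟩
      left_inv := fun x => Subtype.ext (rho_inv_apply' ρ g x)
      right_inv := fun x => Subtype.ext (rho_inv_apply ρ g x)
      norm_map' := fun x => (ρ g).norm_map x }
  have hF : ∀ g (x : W), ((F g x : W) : V) = ρ g x := fun g x => rfl
  refine ⟨MonoidHom.mk' F ?_, hF⟩
  intro a b
  ext x
  rw [hF]
  change ρ (a * b) x = ((F a (F b x) : W) : V)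
  rw [hF, hF, map_mul]
  rfl

theorem orth_inv (ρ : Q →* (V ≃ₗᵢ[𝕜] V)) (W : Submodule 𝕜 V) (h : ∀ g, ∀ x ∈ W, ρ g x ∈ W) :
    ∀ g, ∀ x ∈ Wᗮ, ρ g x ∈ Wᗮ := by
  intro g x hx
  rw [Submodule.mem_orthogonal]
  intro y hy
  rw [← rho_inv_apply ρ g y, LinearIsometryEquiv.inner_map_map]
  exact (Submodule.mem_orthogonal _ _).1 hx _ (h g⁻¹ y hy)

theorem comm_of_split [FiniteDimensional 𝕜 V] (W : Submodule 𝕜 V) (f g : V ≃ₗᵢ[𝕜] V)
    (h1 : ∀ x ∈ W, f (g x) = g (f x)) (h2 : ∀ x ∈ Wᗮ, f (g x) = g (f x)) : f * g = g * f := by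
  ext x
  obtain ⟨y, hy, z, hz, rfl⟩ := Submodule.exists_add_mem_mem_orthogonal (K := W) x
  change f (g (y + z)) = g (f (y + z))
  rw [map_add, map_add, map_add, map_add, h1 y hy, h2 z hz]

end H85.TG
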