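import Pool.Agent.H85.TG.Gb
import Pool.Agent.H85.TG.Gc
import Pool.Agent.H85.TG.Gd

/-!
# [H85 TG GE] unitary representations of groups of polynomial growth, 100-150 lines

* `comm_case`: the case in which nothing commutes. `N = 2^(d+1)`; `T` a finite set of elements `t` with `nr (ρ t) < ε` where
  `ε ≤ 1 / (64 N)` and `ε ≤` the `ε` of `scal_comm`. Suppose some `t₀ ∈ T` is not scalar and that every nonscalar `ρ z`, `z ∈ closure T`, fails to commute with some
  `ρ t`, `t ∈ T`. Choose recursively `g 0 = t₀`, `g (k+1) = g k * t * (g k)⁻¹ * t⁻¹` with `t ∈ T`, `ρ (g (k+1)) ≠ 1`. Invariants: `g k ∈ closure T`,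
  `g k ∈ bp T (3 · 2^k)` (in fact length `≤ 3·2^k - 2`: `2 (3·2^k - 2) + 2 = 3·2^(k+1) - 2`), `ρ (g k)` not scalar (by `scal_comm` a scalar
  commutator near `1` is `1`; `nr (ρ (g (k+1))) ≤ 2 ε nr (ρ (g k)) < ε`), `16 N nr (ρ (g (k+1))) ≤ 32 N ε nr (ρ (g k)) ≤ nr (ρ (g k))`. So
  `count_words` gives `N^m ≤ (bp T (3 N 2^m)).card` for all `m`, against `PG Q d`: there is `C` and arbitrarily large `r` with
  `(bp T r).card ≤ C r^d`; for `3 N 2^m ≤ r < 3 N 2^(m+1)`: `2^((d+1) m) ≤ C (6 N)^d 2^(d m)`, so `2^m ≤ C (6 N)^d`, false for large `m`.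
* `virt_comm`: induction on `n = finrank`, for all `Q`. With `ε` as above let `K = closure {g | nr (ρ g) < ε}` (finite index,
  `near_finiteIndex`), generated by a finite set (`hmax`), hence by a finite subset `T` of `{g | nr (ρ g) < ε}` (`Subgroup.closure` of a set
  which is finitely generated: `Subgroup.fg_iff_...`/`exists_finset...`: each of the finitely many generators is in the closure of a finite
  subset). Either all `ρ t`, `t ∈ T`, are scalar: then `ρ K` is commutative (closure induction). Or (by `comm_case`) there is `z ∈ K` with `ρ z`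
  nonscalar which commutes with `ρ t` for all `t ∈ T`, so with all of `ρ K`. By `exists_split` there is `W ≠ ⊥, ⊤` invariant under `ρ K`; `W` and `Wᗮ` have
  smaller dimension; apply the induction hypothesis to the group `K` and the restricted representations (`restr`, `orth_inv`), get `K₁`, `K₂` of finite
  index in `K`, intersect, map to `Q` (`Subgroup.map K.subtype`, finite index in `Q`) and use `comm_of_split`. `PG K d` and the maximum
  condition for `K` are proved here (`pg_sub`, `max_sub`).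
-/

set_option autoImplicit false

universe u v

namespace H85.TG

open Pointwise

variable {Q : Type u} [Group Q]

theorem mem_bp_zero (T : Finset Q) (x : Q) : x ∈ bp T 0 ↔ x = 1 := by
  classical
  unfold bp
  simp

theorem mem_bp_one (T : Finset Q) (x : Q) : x ∈ bp T 1 ↔ x = 1 ∨ x ∈ T ∨ x⁻¹ ∈ T := by
  classical
  unfold bp
  rw [pow_one]
  simp only [H85.TA.ball, Finset.mem_insert, Finset.mem_union, Finset.mem_inv']

theorem mem_bp_succ (T : Finset Q) (r : ℕ) (x : Q) :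
    x ∈ bp T (r + 1) ↔ ∃ a ∈ bp T r, ∃ b ∈ bp T 1, a * b = x := by
  classical
  unfold bp
  rw [pow_succ, pow_one, Finset.mem_mul]

theorem coe_mem_bp (K : Subgroup Q) (T : Finset K) (T' : Finset Q)
    (hT : ∀ t ∈ T, (t : Q) ∈ T') (r : ℕ) : ∀ x : K, x ∈ bp T r → (x : Q) ∈ bp T' r := by
  induction r with
  | zero =>
    intro x hx
    rw [mem_bp_zero] at hx ⊢
    rw [hx]; rfl
  | succ r ih =>
    intro x hx
    rw [mem_bp_succ] at hx ⊢
    obtain ⟨a, ha, b, hb, rfl⟩ := hx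
    refine ⟨a, ih a ha, b, ?_, rfl⟩
    rw [mem_bp_one] at hb ⊢
    rcases hb with h | h | h
    · left; rw [h]; rfl
    · right; left; exact hT b h
    · right; right; exact hT _ h

theorem iso_mul_apply {𝕜 : Type*} [RCLike 𝕜] {V : Type v} [NormedAddCommGroup V]
    [InnerProductSpace 𝕜 V] (f g : V ≃ₗᵢ[𝕜] V) (x : V) : (f * g) x = f (g x) := rfl

theorem pg_sub {d : ℕ} (h : PG Q d) (K : Subgroup Q) : PG K d := by
  classical
  intro T
  obtain ⟨C, hC⟩ := h (T.image (fun t : K => (t : Q)))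
  refine ⟨C, fun r₀ => ?_⟩
  obtain ⟨r, hr, hcard⟩ := hC r₀
  refine ⟨r, hr, le_trans ?_ hcard⟩
  refine Finset.card_le_card_of_injOn (fun x : K => (x : Q)) ?_ ?_
  · intro x hx
    exact coe_mem_bp K T _ (fun t ht => Finset.mem_image_of_mem _ ht) r x (by simpa using hx)
  · intro x _ y _ hxy
    exact Subtype.ext hxy

theorem max_sub (h : ∀ H : Subgroup Q, H.FG) (K : Subgroup Q) : ∀ H : Subgroup K, H.FG := by
  intro H
  have h1 := h (H.map K.subtype)
  rw [← Group.fg_iff_subgroup_fg] at h1 ⊢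
  have := h1
  exact Group.fg_of_surjective (f := (H.equivMapOfInjective K.subtype
    K.subtype_injective).symm.toMonoidHom) (MulEquiv.surjective _)

theorem scal_one {V : Type v} [NormedAddCommGroup V] [InnerProductSpace ℂ V] :
    Scal (1 : V ≃ₗᵢ[ℂ] V) := ⟨1, fun x => by simp⟩

theorem comm_case {d : ℕ} (hPG : PG Q d) {V : Type v} [NormedAddCommGroup V] [InnerProductSpace ℂ V]
    [FiniteDimensional ℂ V] (ρ : Q →* (V ≃ₗᵢ[ℂ] V)) : ∃ ε > 0, ∀ T : Finset Q,
      (∀ t ∈ T, nr (ρ t) < ε) → (∃ t ∈ T, ¬ Scal (ρ t)) →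
        ∃ z ∈ Subgroup.closure (T : Set Q), ¬ Scal (ρ z) ∧ ∀ t ∈ T, ρ z * ρ t = ρ t * ρ z := by
  classical
  obtain ⟨ε₀, hε₀, hsc⟩ := scal_comm V
  set N : ℕ := 2 ^ (d + 1) with hN
  have hN1 : 1 ≤ N := Nat.one_le_two_pow
  have hNR : (1 : ℝ) ≤ N := by exact_mod_cast hN1
  refine ⟨min ε₀ (1 / (64 * N)), lt_min hε₀ (by positivity), ?_⟩
  intro T hT ⟨t₀, ht₀, hns⟩
  by_contra hcon
  push Not at hcon
  set ε := min ε₀ (1 / (64 * (N : ℝ))) with hε
  have hε1 : ε ≤ ε₀ := min_le_left _ _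
  have hε2 : 64 * N * ε ≤ 1 := by
    have : ε ≤ 1 / (64 * (N : ℝ)) := min_le_right _ _
    calc 64 * N * ε ≤ 64 * N * (1 / (64 * (N : ℝ))) := by gcongr
      _ = 1 := by field_simp
  have hεpos : 0 < ε := lt_min hε₀ (by positivity)
  have hmemT : ∀ t ∈ T, t ∈ bp T 1 := by
    intro t ht
    unfold bp
    rw [pow_one]
    simp [H85.TA.ball, ht]
  have hinv : ∀ r x, x ∈ bp T r → x⁻¹ ∈ bp T r := by
    intro r x hx
    unfold bp at *
    rw [← H85.TA.inv_ball T, inv_pow]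
    exact Finset.inv_mem_inv hx
  -- the step
  let P : ℕ → Q → Prop := fun k g => g ∈ Subgroup.closure (T : Set Q) ∧
    g ∈ bp T (3 * 2 ^ k - 2) ∧ ¬ Scal (ρ g) ∧ nr (ρ g) < ε
  have step : ∀ k g, P k g → ∃ g', P (k + 1) g' ∧ 16 * N * nr (ρ g') ≤ nr (ρ g) := by
    rintro k g ⟨h1, h2, h3, h4⟩
    obtain ⟨t, ht, hne⟩ := hcon g h1 h3
    have hmap : ρ (g * t * g⁻¹ * t⁻¹) = ρ g * ρ t * (ρ g)⁻¹ * (ρ t)⁻¹ := by
      simp only [map_mul, map_inv]
    have hne1 : ρ g * ρ t * (ρ g)⁻¹ * (ρ t)⁻¹ ≠ 1 := by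
      intro h
      apply hne
      rw [mul_inv_eq_one, mul_inv_eq_iff_eq_mul] at h
      exact h
    have hb : nr (ρ g * ρ t * (ρ g)⁻¹ * (ρ t)⁻¹) ≤ 2 * ε * nr (ρ g) := by
      refine le_trans (nr_comm _ _) ?_
      have := (hT t ht).le
      have h5 := nr_nonneg (ρ g)
      nlinarith [mul_le_mul_of_nonneg_left this h5]
    have hε3 : 32 * N * ε ≤ 1 := by
      have : 0 ≤ (N : ℝ) * ε := by positivity
      nlinarith
    have h6 : 16 * N * nr (ρ g * ρ t * (ρ g)⁻¹ * (ρ t)⁻¹) ≤ nr (ρ g) := by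
      calc 16 * N * nr (ρ g * ρ t * (ρ g)⁻¹ * (ρ t)⁻¹) ≤ 16 * N * (2 * ε * nr (ρ g)) := by
            gcongr
        _ = (32 * N * ε) * nr (ρ g) := by ring
        _ ≤ 1 * nr (ρ g) := by
            apply mul_le_mul_of_nonneg_right hε3 (nr_nonneg _)
        _ = nr (ρ g) := one_mul _
    have h7 : nr (ρ g * ρ t * (ρ g)⁻¹ * (ρ t)⁻¹) < ε := by
      have h8 : nr (ρ g * ρ t * (ρ g)⁻¹ * (ρ t)⁻¹) ≤ 16 * N * nr (ρ g * ρ t * (ρ g)⁻¹ * (ρ t)⁻¹) := by
        have := nr_nonneg (ρ g * ρ t * (ρ g)⁻¹ * (ρ t)⁻¹)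
        nlinarith
      linarith
    refine ⟨g * t * g⁻¹ * t⁻¹, ⟨?_, ?_, ?_, ?_⟩, ?_⟩
    · have ht' : t ∈ Subgroup.closure (T : Set Q) := Subgroup.subset_closure (by simpa using ht)
      exact mul_mem (mul_mem (mul_mem h1 ht') (inv_mem h1)) (inv_mem ht')
    · have h9 := bp_mul T (bp_mul T (bp_mul T h2 (hmemT t ht)) (hinv _ _ h2)) (hinv _ _ (hmemT t ht))
      have h10 : 3 * 2 ^ k - 2 + 1 + (3 * 2 ^ k - 2) + 1 = 3 * 2 ^ (k + 1) - 2 := by
        have : 1 ≤ 2 ^ k := Nat.one_le_two_pow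
        rw [pow_succ]
        omega
      rw [h10] at h9
      exact h9
    · intro hs
      apply hne1
      rw [hmap] at hs
      exact hsc _ _ hs (lt_of_lt_of_le h7 hε1)
    · rw [hmap]; exact h7
    · rw [hmap]; exact h6
  have hP0 : P 0 t₀ := by
    refine ⟨Subgroup.subset_closure (by simpa using ht₀), ?_, hns, hT t₀ ht₀⟩
    exact hmemT t₀ ht₀
  let G : (k : ℕ) → {g : Q // P k g} := fun k => Nat.rec ⟨t₀, hP0⟩
    (fun k g => ⟨(step k g.1 g.2).choose, (step k g.1 g.2).choose_spec.1⟩) k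
  have hG : ∀ k, 16 * N * nr (ρ (G (k + 1)).1) ≤ nr (ρ (G k).1) := fun k =>
    (step k (G k).1 (G k).2).choose_spec.2
  have hcount := count_words ρ T N hN1 (fun k => (G k).1)
    (fun k => bp_mono T (Nat.sub_le _ _) (G k).2.2.1)
    (fun k => by
      refine lt_of_le_of_ne (nr_nonneg _) ?_
      intro h
      apply (G k).2.2.2.1
      rw [nr_eq_zero h.symm]
      exact scal_one)
    (by
      have h1 := (G 0).2.2.2.2
      have h2 := nr_nonneg (ρ (G 0).1)
      have h3 : 2 * N * nr (ρ (G 0).1) ≤ 2 * N * ε := by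
        apply mul_le_mul_of_nonneg_left h1.le (by positivity)
      have h4 : 0 ≤ (N : ℝ) * ε := by positivity
      nlinarith)
    hG
  -- contradiction with the growth
  obtain ⟨C, hC⟩ := hPG T
  obtain ⟨M, hM⟩ := pow_unbounded_of_one_lt (C * (6 * N) ^ d) (by norm_num : 1 < 2)
  obtain ⟨r, hr, hcard⟩ := hC (3 * N * 2 ^ M)
  set q := r / (3 * N) with hq
  have h3N : 0 < 3 * N := by omega
  have hqM : 2 ^ M ≤ q := by
    rw [hq, Nat.le_div_iff_mul_le h3N]
    linarith [hr, mul_comm (2 ^ M) (3 * N)]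
  have hq0 : q ≠ 0 := by
    have : 1 ≤ 2 ^ M := Nat.one_le_two_pow
    omega
  set m := Nat.log 2 q with hm
  have hm1 : 2 ^ m ≤ q := Nat.pow_log_le_self 2 hq0
  have hm2 : q < 2 ^ (m + 1) := Nat.lt_pow_succ_log_self (by norm_num) q
  have hMm : M ≤ m := by
    have : 2 ^ M < 2 ^ (m + 1) := lt_of_le_of_lt hqM hm2
    have := (Nat.pow_lt_pow_iff_right (by norm_num : 1 < 2)).1 this
    omega
  have hr1 : 3 * N * 2 ^ m ≤ r := by
    calc 3 * N * 2 ^ m ≤ 3 * N * q := by gcongr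
      _ ≤ r := Nat.mul_div_le r (3 * N)
  have hr2 : r < 3 * N * 2 ^ (m + 1) := by
    have := Nat.lt_mul_div_succ r h3N
    calc r < 3 * N * (q + 1) := by rw [hq]; exact this
      _ ≤ 3 * N * 2 ^ (m + 1) := by gcongr; omega
  have e1 : N ^ m ≤ C * r ^ d := le_trans (le_trans (hcount m) (Finset.card_le_card (bp_mono T hr1)))
    hcard
  have e2 : C * r ^ d ≤ C * ((6 * N) ^ d * 2 ^ (d * m)) := by
    have : r ≤ 6 * N * 2 ^ m := by
      have : 3 * N * 2 ^ (m + 1) = 6 * N * 2 ^ m := by ring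
      omega
    calc C * r ^ d ≤ C * (6 * N * 2 ^ m) ^ d := by gcongr
      _ = C * ((6 * N) ^ d * 2 ^ (d * m)) := by rw [mul_pow, ← pow_mul, mul_comm m d]
  have e3 : N ^ m = 2 ^ (d * m) * 2 ^ m := by
    rw [hN, ← pow_mul, ← pow_add]
    congr 1
    ring
  have e4 : 2 ^ (d * m) * 2 ^ m ≤ 2 ^ (d * m) * (C * (6 * N) ^ d) := by
    calc 2 ^ (d * m) * 2 ^ m = N ^ m := e3.symm
      _ ≤ C * ((6 * N) ^ d * 2 ^ (d * m)) := le_trans e1 e2
      _ = 2 ^ (d * m) * (C * (6 * N) ^ d) := by ring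
  have e5 : 2 ^ m ≤ C * (6 * N) ^ d := Nat.le_of_mul_le_mul_left e4 (by positivity)
  have e6 : 2 ^ M ≤ 2 ^ m := Nat.pow_le_pow_right (by norm_num) hMm
  omega

theorem finite_of_closure (A : Set Q) (x : Q) (hx : x ∈ Subgroup.closure A) :
    ∃ T : Finset Q, (T : Set Q) ⊆ A ∧ x ∈ Subgroup.closure (T : Set Q) := by
  classical
  induction hx using Subgroup.closure_induction with
  | mem x hx =>
    refine ⟨{x}, by simpa using hx, Subgroup.subset_closure (by simp)⟩
  | one => exact ⟨∅, by simp, one_mem _⟩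
  | mul x y _ _ hx hy =>
    obtain ⟨T₁, h1, h2⟩ := hx
    obtain ⟨T₂, h3, h4⟩ := hy
    refine ⟨T₁ ∪ T₂, by simp [h1, h3], mul_mem ?_ ?_⟩
    · exact Subgroup.closure_mono (by simp) h2
    · exact Subgroup.closure_mono (by simp) h4
  | inv x _ hx =>
    obtain ⟨T₁, h1, h2⟩ := hx
    exact ⟨T₁, h1, inv_mem h2⟩

theorem finite_gen (A : Set Q) (h : (Subgroup.closure A).FG) :
    ∃ T : Finset Q, (T : Set Q) ⊆ A ∧ Subgroup.closure (T : Set Q) = Subgroup.closure A := by
  classical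
  obtain ⟨S, hS⟩ := h
  have h1 : ∀ x ∈ S, x ∈ Subgroup.closure A := by
    intro x hx
    rw [← hS]
    exact Subgroup.subset_closure (by simpa using hx)
  choose! f hf1 hf2 using fun x (hx : x ∈ S) => finite_of_closure A x (h1 x hx)
  refine ⟨S.biUnion f, ?_, le_antisymm ?_ ?_⟩
  · intro x hx
    simp only [Finset.coe_biUnion, Set.mem_iUnion] at hx
    obtain ⟨y, hy, hxy⟩ := hx
    exact hf1 y (by simpa using hy) hxy
  · apply Subgroup.closure_mono
    intro x hx
    simp only [Finset.coe_biUnion, Set.mem_iUnion] at hx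
    obtain ⟨y, hy, hxy⟩ := hx
    exact hf1 y (by simpa using hy) hxy
  · rw [← hS, Subgroup.closure_le]
    intro x hx
    have hx' : x ∈ S := by simpa using hx
    refine Subgroup.closure_mono ?_ (hf2 x hx')
    intro z hz
    simp only [Finset.coe_biUnion, Set.mem_iUnion]
    exact ⟨x, by simpa using hx', hz⟩

theorem scal_mul {V : Type v} [NormedAddCommGroup V] [InnerProductSpace ℂ V]
    {f g : V ≃ₗᵢ[ℂ] V} (hf : Scal f) (hg : Scal g) : Scal (f * g) := by
  obtain ⟨a, ha⟩ := hf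
  obtain ⟨b, hb⟩ := hg
  refine ⟨a * b, fun x => ?_⟩
  rw [iso_mul_apply, hb, ha, smul_smul]

theorem scal_inv {V : Type v} [NormedAddCommGroup V] [InnerProductSpace ℂ V]
    {f : V ≃ₗᵢ[ℂ] V} (hf : Scal f) : Scal f⁻¹ := by
  obtain ⟨a, ha⟩ := hf
  refine ⟨a⁻¹, fun x => ?_⟩
  have h1 : x = a • f⁻¹ x := by
    rw [← ha, ← iso_mul_apply, mul_inv_cancel]; rfl
  by_cases h0 : a = 0
  · have h2 : x = 0 := by rw [h1, h0, zero_smul]
    rw [h2, map_zero, smul_zero]
  · conv_rhs => rw [h1, smul_smul, inv_mul_cancel₀ h0, one_smul]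

theorem scal_comm' {V : Type v} [NormedAddCommGroup V] [InnerProductSpace ℂ V]
    {f g : V ≃ₗᵢ[ℂ] V} (hf : Scal f) (hg : Scal g) : f * g = g * f := by
  obtain ⟨a, ha⟩ := hf
  obtain ⟨b, hb⟩ := hg
  ext x
  rw [iso_mul_apply, iso_mul_apply, ha, hb, ha, hb, smul_comm]

theorem virt_comm (n : ℕ) : ∀ (Q : Type u) [Group Q] (d : ℕ), PG Q d → (∀ H : Subgroup Q, H.FG) →
    ∀ (V : Type v) [NormedAddCommGroup V] [InnerProductSpace ℂ V] [FiniteDimensional ℂ V],
      Module.finrank ℂ V ≤ n → ∀ ρ : Q →* (V ≃ₗᵢ[ℂ] V),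
        ∃ K : Subgroup Q, K.FiniteIndex ∧ ∀ x ∈ K, ∀ y ∈ K, ρ x * ρ y = ρ y * ρ x := by
  classical
  induction n with
  | zero =>
    intro Q _ d _ _ V _ _ _ hn ρ
    have h0 : Module.finrank ℂ V = 0 := by omega
    have : Subsingleton V := Module.finrank_zero_iff.1 h0
    refine ⟨⊤, inferInstance, fun x _ y _ => ?_⟩
    ext v
    exact Subsingleton.elim _ _
  | succ n ih =>
    intro Q _ d hPG hmax V _ _ _ hn ρ
    obtain ⟨ε, hε, hcase⟩ := comm_case hPG ρ
    set K := Subgroup.closure {g : Q | nr (ρ g) < ε} with hK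
    have hKfi : K.FiniteIndex := near_finiteIndex ρ hε
    obtain ⟨T, hTA, hTK⟩ := finite_gen _ (hmax K)
    by_cases hall : ∀ t ∈ T, Scal (ρ t)
    · have hsc : ∀ x ∈ K, Scal (ρ x) := by
        intro x hx
        rw [hK, ← hTK] at hx
        induction hx using Subgroup.closure_induction with
        | mem x hx => exact hall x (by simpa using hx)
        | one => rw [map_one]; exact scal_one
        | mul x y _ _ hx hy => rw [map_mul]; exact scal_mul hx hy
        | inv x _ hx => rw [map_inv]; exact scal_inv hx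
      exact ⟨K, hKfi, fun x hx y hy => scal_comm' (hsc x hx) (hsc y hy)⟩
    · push Not at hall
      obtain ⟨z, hz, hzs, hzc⟩ := hcase T (fun t ht => hTA (by simpa using ht)) hall
      have hzK : ∀ x ∈ K, ρ x * ρ z = ρ z * ρ x := by
        intro x hx
        rw [hK, ← hTK] at hx
        induction hx using Subgroup.closure_induction with
        | mem x hx => exact (hzc x (by simpa using hx)).symm
        | one => rw [map_one, one_mul, mul_one]
        | mul x y _ _ hx hy =>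
          rw [map_mul, mul_assoc, hy, ← mul_assoc, hx, mul_assoc]
        | inv x _ hx =>
          rw [map_inv, inv_mul_eq_iff_eq_mul, ← mul_assoc, hx, mul_assoc, mul_inv_cancel, mul_one]
      obtain ⟨W, hW1, hW2, hWinv⟩ := exists_split (ρ z) hzs
      let ρK : K →* (V ≃ₗᵢ[ℂ] V) := ρ.comp K.subtype
      have hinvW : ∀ g, ∀ x ∈ W, ρK g x ∈ W := fun g x hx => hWinv (ρK g) (hzK g.1 g.2) x hx
      obtain ⟨ρ₁, hρ₁⟩ := restr ρK W hinvW
      obtain ⟨ρ₂, hρ₂⟩ := restr ρK Wᗮ (orth_inv ρK W hinvW)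
      have hd1 : Module.finrank ℂ W ≤ n := by
        have := Submodule.finrank_lt hW2
        omega
      have hd2 : Module.finrank ℂ Wᗮ ≤ n := by
        have h1 : Wᗮ ≠ ⊤ := by
          intro h
          exact hW1 ((Submodule.orthogonal_eq_top_iff W).1 h)
        have := Submodule.finrank_lt h1
        omega
      obtain ⟨K₁, hK₁, hc₁⟩ := ih K d (pg_sub hPG K) (max_sub hmax K) W hd1 ρ₁
      obtain ⟨K₂, hK₂, hc₂⟩ := ih K d (pg_sub hPG K) (max_sub hmax K) Wᗮ hd2 ρ₂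
      refine ⟨(K₁ ⊓ K₂).map K.subtype, ?_, ?_⟩
      · have h12 : (K₁ ⊓ K₂).FiniteIndex := inferInstance
        refine ⟨?_⟩
        rw [Subgroup.index_map_subtype]
        exact mul_ne_zero h12.index_ne_zero hKfi.index_ne_zero
      · rintro _ ⟨a, ha, rfl⟩ _ ⟨b, hb, rfl⟩
        refine comm_of_split W _ _ ?_ ?_
        · intro w hw
          have h1 := hc₁ a ha.1 b hb.1
          have h2 := congrArg (fun f : W ≃ₗᵢ[ℂ] W => ((f ⟨w, hw⟩ : W) : V)) h1
          simp only [iso_mul_apply] at h2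
          rw [hρ₁, hρ₁, hρ₁, hρ₁] at h2
          exact h2
        · intro w hw
          have h1 := hc₂ a ha.2 b hb.2
          have h2 := congrArg (fun f : Wᗮ ≃ₗᵢ[ℂ] Wᗮ => ((f ⟨w, hw⟩ : Wᗮ) : V)) h1
          simp only [iso_mul_apply] at h2
          rw [hρ₂, hρ₂, hρ₂, hρ₂] at h2
          exact h2

end H85.TG
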