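import Mathlib

/-!
# [H85 TG GF] complexification of orthogonal groups, 50-90 lines

Choose an orthonormal basis of `W` (`stdOrthonormalBasis ℝ W`, `n = finrank`). For `f : W ≃ₗᵢ[ℝ] W` its matrix `M f` is orthogonal; the matrix
`(M f).map (↑)` over `ℂ` is unitary; `Φ f` is the isometry of `EuclideanSpace ℂ (Fin n)` given by it (`Matrix.toEuclideanLin`,
`Matrix.UnitaryGroup`, `Unitary.linearIsometryEquiv`, or directly: `LinearIsometryEquiv` from `toEuclideanLin` of the matrix with inverse
`toEuclideanLin` of the matrix of `f⁻¹`, norm preserving because `Mᴴ M = 1`). Multiplicative, injective (a matrix is determined by its image over `ℂ`).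
Alternative without matrices: on `W × W` (`WithLp 2 (W × W)`) put the complex structure `i (x, y) = (-y, x)` and let `f` act as `(f x, f y)`; but then the
instance of a complex inner product space has to be built by hand; or use the hint: any construction of such `n`, `Φ` is fine.
-/

set_option autoImplicit false

universe v

namespace H85.TG

private noncomputable def gfE (n : ℕ) :
    (EuclideanSpace ℝ (Fin n) →L[ℝ] EuclideanSpace ℝ (Fin n)) →⋆*
      (EuclideanSpace ℂ (Fin n) →L[ℂ] EuclideanSpace ℂ (Fin n)) where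
  toFun A := Matrix.toEuclideanCLM (n := Fin n) (𝕜 := ℂ)
    (((Matrix.toEuclideanCLM (n := Fin n) (𝕜 := ℝ)).symm A).map Complex.ofRealHom)
  map_one' := by
    rw [map_one, Matrix.map_one _ (map_zero _) (map_one _), map_one]
  map_mul' A B := by
    rw [map_mul, Matrix.map_mul, map_mul]
  map_star' A := by
    have h : ((Matrix.toEuclideanCLM (n := Fin n) (𝕜 := ℝ)).symm (star A)).map
        Complex.ofRealHom =
        star (((Matrix.toEuclideanCLM (n := Fin n) (𝕜 := ℝ)).symm A).map Complex.ofRealHom) := by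
      rw [map_star]
      ext i j
      simp [Matrix.star_apply]
    rw [h, map_star]

private theorem gfE_inj (n : ℕ) : Function.Injective (gfE n) := by
  intro A B h
  have h1 := (Matrix.toEuclideanCLM (n := Fin n) (𝕜 := ℂ)).injective h
  have h2 : (Matrix.toEuclideanCLM (n := Fin n) (𝕜 := ℝ)).symm A =
      (Matrix.toEuclideanCLM (n := Fin n) (𝕜 := ℝ)).symm B := by
    ext i j
    have h3 := congrFun (congrFun h1 i) j
    simpa using h3
  exact (Matrix.toEuclideanCLM (n := Fin n) (𝕜 := ℝ)).symm.injective h2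

theorem exists_complexification (W : Type v) [NormedAddCommGroup W] [InnerProductSpace ℝ W]
    [FiniteDimensional ℝ W] : ∃ (n : ℕ) (Φ : (W ≃ₗᵢ[ℝ] W) →*
      (EuclideanSpace ℂ (Fin n) ≃ₗᵢ[ℂ] EuclideanSpace ℂ (Fin n))), Function.Injective Φ := by
  classical
  set n := Module.finrank ℝ W with hn
  let e : W ≃ₗᵢ[ℝ] EuclideanSpace ℝ (Fin n) := (stdOrthonormalBasis ℝ W).repr
  let φ1 : (W ≃ₗᵢ[ℝ] W) →* (EuclideanSpace ℝ (Fin n) ≃ₗᵢ[ℝ] EuclideanSpace ℝ (Fin n)) :=
    { toFun := fun f => (e.symm.trans f).trans e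
      map_one' := by
        ext1 x
        change e ((1 : W ≃ₗᵢ[ℝ] W) (e.symm x)) = x
        exact e.apply_symm_apply x
      map_mul' := fun f g => by
        ext1 x
        change e (f (g (e.symm x))) = e (f (e.symm (e (g (e.symm x)))))
        rw [e.symm_apply_apply] }
  have hφ1 : Function.Injective φ1 := by
    intro f g h
    ext x
    have h1 := congrArg (fun F : EuclideanSpace ℝ (Fin n) ≃ₗᵢ[ℝ] EuclideanSpace ℝ (Fin n) =>
      F (e x)) h
    change e (f (e.symm (e x))) = e (g (e.symm (e x))) at h1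
    rw [e.symm_apply_apply] at h1
    exact e.injective h1
  refine ⟨n, (Unitary.linearIsometryEquiv (𝕜 := ℂ)
    (H := EuclideanSpace ℂ (Fin n))).toMonoidHom.comp ((Unitary.map (gfE n)).toMonoidHom.comp
      ((Unitary.linearIsometryEquiv (𝕜 := ℝ)
        (H := EuclideanSpace ℝ (Fin n))).symm.toMonoidHom.comp φ1)), ?_⟩
  intro f g h
  apply hφ1
  apply (Unitary.linearIsometryEquiv (𝕜 := ℝ) (H := EuclideanSpace ℝ (Fin n))).symm.injective
  apply Unitary.map_injective (gfE_inj n)
  exact (Unitary.linearIsometryEquiv (𝕜 := ℂ) (H := EuclideanSpace ℂ (Fin n))).injective h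

end H85.TG
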