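import Pool.Agent.H85.TG.Ha

/-!
# An infinite orbit of a virtually abelian affine action
-/

set_option autoImplicit false

universe u v

namespace H85.TG

variable {Q : Type u} [Group Q]

theorem fg_top_of_fg {K : Subgroup Q} (h : K.FG) : (⊤ : Subgroup K).FG :=
  Group.fg_def.1 ((Group.fg_iff_subgroup_fg K).2 h)

theorem zq_of_cocycle (hmax : ∀ H : Subgroup Q, H.FG) {W : Type v} [NormedAddCommGroup W]
    [InnerProductSpace ℝ W] (ρ : Q →* (W ≃ₗᵢ[ℝ] W)) (c : Q → W)
    (hc : ∀ g h, c (g * h) = c g + ρ g (c h)) (hinf : (Set.range c).Infinite) (K : Subgroup Q)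
    (hK : K.FiniteIndex) (hcomm : ∀ x ∈ K, ∀ y ∈ K, ρ x * ρ y = ρ y * ρ x) : ZQ Q := by
  classical
  by_cases hρ : (Set.range (ρ.comp K.subtype)).Infinite
  · obtain ⟨χ, hχ⟩ := ab_quot (fg_top_of_fg (hmax K)) (ρ.comp K.subtype)
      (fun x y => hcomm x x.2 y y.2) hρ
    exact ⟨K, hK, χ, hχ⟩
  · rw [Set.not_infinite] at hρ
    let K' : Subgroup Q := (ρ.comp K.subtype).ker.map K.subtype
    have hmem : ∀ x ∈ K', ρ x = 1 := by
      rintro _ ⟨y, hy, rfl⟩
      exact hy
    have hfin : Finite (ρ.comp K.subtype).range := hρ.to_subtype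
    have hi1 : (ρ.comp K.subtype).ker.FiniteIndex := Subgroup.finiteIndex_ker _
    have hK' : K'.FiniteIndex := by
      refine ⟨?_⟩
      have h1 : K' ≤ K := by
        rintro _ ⟨y, hy, rfl⟩
        exact y.2
      rw [← Subgroup.relIndex_mul_index h1]
      refine mul_ne_zero ?_ hK.index_ne_zero
      have h2 : K'.subgroupOf K = (ρ.comp K.subtype).ker :=
        Subgroup.comap_map_eq_self_of_injective K.subtype_injective _
      rw [Subgroup.relIndex, h2]
      exact hi1.index_ne_zero
    let f : K' →* Multiplicative W := MonoidHom.mk' (fun x => Multiplicative.ofAdd (c x)) (by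
      intro x y
      rw [← ofAdd_add]
      congr 1
      rw [Subgroup.coe_mul, hc, hmem x x.2]
      rfl)
    have hf : (Set.range f).Infinite := by
      intro hfr
      refine hinf ?_
      have h1 : (Set.range fun x : K' => c x).Finite := by
        have h2 : (Set.range fun x : K' => c x) = Multiplicative.toAdd '' Set.range f := by
          ext w
          constructor
          · rintro ⟨x, rfl⟩
            exact ⟨_, ⟨x, rfl⟩, rfl⟩
          · rintro ⟨_, ⟨x, rfl⟩, rfl⟩
            exact ⟨x, rfl⟩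
        rw [h2]
        exact hfr.image _
      have h3 : Finite (Q ⧸ K') := inferInstance
      refine (Set.finite_iUnion fun u : Q ⧸ K' =>
        h1.image fun w => c u.out + ρ u.out w).subset ?_
      rintro _ ⟨g, rfl⟩
      obtain ⟨k, hk⟩ := QuotientGroup.mk_out_eq_mul K' g
      refine Set.mem_iUnion.2 ⟨(g : Q ⧸ K'), c (k⁻¹ : K'), ⟨k⁻¹, rfl⟩, ?_⟩
      change c (g : Q ⧸ K').out + ρ (g : Q ⧸ K').out (c ((k⁻¹ : K') : Q)) = c g
      rw [← hc, hk, Subgroup.coe_inv, mul_inv_cancel_right]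
    obtain ⟨χ, hχ⟩ := ab_quot (fg_top_of_fg (hmax K')) f (fun x y => mul_comm _ _) hf
    exact ⟨K', hK', χ, hχ⟩

end H85.TG
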