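import Pool.Agent.H85.TG.Wa

/-!
# [H85 TG EA] the second moment of a harmonic cocycle, 60-90 lines

* `coc_one`: `b 1 = b (1 * 1) = b 1 + π 1 (b 1) = b 1 + b 1`. `coc_inv`: `0 = b (g * g⁻¹) = b g + π g (b g⁻¹)`.
* `ex_two_gen`: `‖b (g s)‖^2 = ‖b g‖^2 + 2 ⟪b g, π g (b s)⟫ + ‖b s‖^2` (`norm_add_sq_real`), the average over `s` is `‖b g‖^2 + 0 + v`
  (the middle term is `2 ⟪b g, π g (∑ b (w.s i))⟫`); induction.
* `ex_q`: `⟪b g, π g (b s)⟫ = ⟪π g⁻¹ (b g), b s⟫ = - ⟪b g⁻¹, b s⟫` (`coc_inv` for `g⁻¹`, `π g⁻¹ = (π g)⁻¹` is an isometry: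
  `LinearIsometryEquiv.inner_map_map`), so the squares are equal and `ex_inv` gives the claim.
* `ex_nrm`: `Ex w k ‖b g‖ ≤ √ k`: `ex_cs` with `g = 1` and `ex_two` (`Real.le_sqrt`, `ex_const`).
-/

set_option autoImplicit false

universe u v

namespace H85.TG

variable {Q : Type u} [Group Q] (w : Walk Q) {E : Type v} [NormedAddCommGroup E]
  [InnerProductSpace ℝ E] {π : Q →* (E ≃ₗᵢ[ℝ] E)} {b : Q → E}

/-- the quantity which decides whether there is a finite dimensional part -/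
noncomputable def qq (b : Q → E) (k : ℕ) : ℝ :=
  Ex w k fun g => av w fun i => (inner ℝ (b g) (b (w.s i)) : ℝ) ^ 2

omit w in
theorem coc_one (hb : ∀ g h, b (g * h) = b g + π g (b h)) : b 1 = 0 := by
  have h := hb 1 1
  rw [map_one, mul_one] at h
  have h1 : (1 : E ≃ₗᵢ[ℝ] E) (b 1) = b 1 := rfl
  rw [h1] at h
  exact left_eq_add.1 h

omit w in
theorem coc_inv (hb : ∀ g h, b (g * h) = b g + π g (b h)) (g : Q) : π g (b g⁻¹) = - b g := by
  have h := hb g g⁻¹
  rw [mul_inv_cancel, coc_one hb] at h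
  exact (neg_eq_of_add_eq_zero_right h.symm).symm

private theorem ea_swap (k : ℕ) (f : w.I → Q → ℝ) :
    av w (fun i => Ex w k (f i)) = Ex w k fun g => av w fun i => f i g := by
  simp only [av]
  rw [ex_smul, ex_sum]

theorem ex_two_gen (hb : ∀ g h, b (g * h) = b g + π g (b h)) (hh : ∑ i, b (w.s i) = 0) (k : ℕ) :
    Ex w k (fun g => ‖b g‖ ^ 2) = k * av w (fun i => ‖b (w.s i)‖ ^ 2) := by
  induction k with
  | zero => simp [ex_zero, coc_one hb]
  | succ k ih =>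
    have e : ∀ i, Ex w k (fun g => ‖b (g * w.s i)‖ ^ 2) =
        (fun _ => Ex w k fun g => ‖b g‖ ^ 2) i +
          ((fun i => Ex w k fun g => 2 * (inner ℝ (b g) (π g (b (w.s i))) : ℝ)) i +
            (fun i => ‖b (w.s i)‖ ^ 2) i) := by
      intro i
      have e1 : (fun g => ‖b (g * w.s i)‖ ^ 2) = fun g => (fun g => ‖b g‖ ^ 2) g +
          ((fun g => 2 * (inner ℝ (b g) (π g (b (w.s i))) : ℝ)) g +
            (fun _ => ‖b (w.s i)‖ ^ 2) g) := by
        funext g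
        rw [hb, norm_add_sq_real, LinearIsometryEquiv.norm_map]
        ring
      rw [e1, ex_add, ex_add, ex_const]
    rw [ex_succ, show (fun i => Ex w k fun g => ‖b (g * w.s i)‖ ^ 2) = _ from funext e,
      av_add, av_add, av_const, ih, ea_swap]
    have e2 : (fun g => av w fun i => 2 * (inner ℝ (b g) (π g (b (w.s i))) : ℝ)) =
        fun _ => (0 : ℝ) := by
      funext g
      rw [av, ← Finset.mul_sum, ← inner_sum, ← map_sum, hh, map_zero, inner_zero_right,
        mul_zero, smul_zero]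
    rw [e2, ex_const]
    push_cast
    ring

theorem ex_two (hb : ∀ g h, b (g * h) = b g + π g (b h)) (hh : ∑ i, b (w.s i) = 0)
    (hn : av w (fun i => ‖b (w.s i)‖ ^ 2) = 1) (k : ℕ) : Ex w k (fun g => ‖b g‖ ^ 2) = k := by
  rw [ex_two_gen w hb hh, hn, mul_one]

theorem ex_q (hb : ∀ g h, b (g * h) = b g + π g (b h)) (k : ℕ) :
    Ex w k (fun g => av w fun i => (inner ℝ (b g) (π g (b (w.s i))) : ℝ) ^ 2) = qq w b k := by
  rw [qq, ← ex_inv w k (fun g => av w fun i => (inner ℝ (b g) (b (w.s i)) : ℝ) ^ 2)]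
  congr 1
  funext g
  congr 1
  funext i
  have h := coc_inv hb g
  have h2 : b g = - π g (b g⁻¹) := by rw [h, neg_neg]
  rw [h2, inner_neg_left, LinearIsometryEquiv.inner_map_map, neg_sq]

theorem ex_nrm (hb : ∀ g h, b (g * h) = b g + π g (b h)) (hh : ∑ i, b (w.s i) = 0)
    (hn : av w (fun i => ‖b (w.s i)‖ ^ 2) = 1) (k : ℕ) : Ex w k (fun g => ‖b g‖) ≤ √ k := by
  have h := ex_cs w k (fun g => ‖b g‖) (fun _ => 1)
  rw [ex_two w hb hh hn k] at h
  simp only [mul_one, one_pow] at h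
  rw [ex_const, mul_one] at h
  exact (le_abs_self _).trans (Real.abs_le_sqrt h)

end H85.TG
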