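import Pool.Agent.H85.TG.Gd
import Pool.Agent.H85.TG.Ea

/-!
# [H85 TG HC] projection of a harmonic cocycle to a finite dimensional subspace, 60-90 lines

Let `ρ'` be from `restr`, and `c g = W.orthogonalProjectionOnto (b g)` (`W` is finite dimensional, so it has an orthogonal projection). The projection commutes with `π g`:
for `x : E` write `x = y + z`, `y ∈ W`, `z ∈ Wᗮ`; `π g y ∈ W`, `π g z ∈ Wᗮ` (`orth_inv`), so the projection of `π g x` is `π g y` (`Submodule.eq_orthogonalProjection_of_mem_orthogonal`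
or similar). So `c (g h) = c g + ρ' g (c h)`; `∑ i, c (w.s i) = 0` by linearity. `c g ≠ 0` for the `g` with `⟪b g, x⟫ ≠ 0`, `x ∈ W`
(`⟪c g, x⟫ = ⟪b g, x⟫`).
Infinite range: `ex_two_gen` for `c` and `ρ'`: `Ex w k ‖c g‖^2 = k * v`, `v = av w ‖c (w.s i)‖^2`. If `v = 0` then `c (w.s i) = 0` for all `i`, and the set of the `g` with
`c g = 0` is a subgroup (cocycle identity), so `c = 0` (`w.gen`), a contradiction. So `v > 0`. If the range of `c` was finite, `‖c g‖^2 ≤ M` for all `g`, so
`k v ≤ M` for all `k` (`ex_mono`, `ex_const`), a contradiction.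
-/

set_option autoImplicit false

universe u v

namespace H85.TG

variable {Q : Type u} [Group Q] (w : Walk Q) {E : Type v} [NormedAddCommGroup E]
  [InnerProductSpace ℝ E] {π : Q →* (E ≃ₗᵢ[ℝ] E)} {b : Q → E}

theorem proj_cocycle (hb : ∀ g h, b (g * h) = b g + π g (b h)) (hh : ∑ i, b (w.s i) = 0)
    (W : Submodule ℝ E) [FiniteDimensional ℝ W] (hW : ∀ g, ∀ x ∈ W, π g x ∈ W)
    (hne : ∃ g, ∃ x ∈ W, inner ℝ (b g) x ≠ 0) :
    ∃ (ρ' : Q →* (W ≃ₗᵢ[ℝ] W)) (c : Q → W), (∀ g h, c (g * h) = c g + ρ' g (c h)) ∧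
      (Set.range c).Infinite := by
  obtain ⟨ρ', hρ'⟩ := restr π W hW
  have horth := orth_inv π W hW
  have hproj : ∀ g (x : E), W.orthogonalProjectionOnto (π g x) = ρ' g (W.orthogonalProjectionOnto x) := by
    intro g x
    apply Subtype.ext
    rw [hρ']
    refine Submodule.eq_starProjection_of_mem_of_inner_eq_zero ?_ ?_
    · exact hW g _ (W.orthogonalProjectionOnto x).2
    · intro y hy
      rw [← map_sub]
      have h1 : π g (x - (W.orthogonalProjectionOnto x : E)) ∈ Wᗮ := by
        apply horth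
        exact W.sub_starProjection_mem_orthogonal x
      rw [real_inner_comm]
      exact h1 y hy
  set c : Q → W := fun g => W.orthogonalProjectionOnto (b g) with hc
  have hcc : ∀ g h, c (g * h) = c g + ρ' g (c h) := by
    intro g h
    simp only [hc]
    rw [hb, map_add, hproj]
  have hch : ∑ i, c (w.s i) = 0 := by
    simp only [hc]
    rw [← map_sum, hh, map_zero]
  refine ⟨ρ', c, hcc, ?_⟩
  intro hfin
  have hex := ex_two_gen w hcc hch
  set v := av w (fun i => ‖c (w.s i)‖ ^ 2) with hv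
  obtain ⟨M, hM⟩ : ∃ M : ℝ, ∀ g, ‖c g‖ ^ 2 ≤ M := by
    have h1 : (Set.range fun g => ‖c g‖ ^ 2).Finite := by
      have : (Set.range fun g => ‖c g‖ ^ 2) = (fun y : W => ‖y‖ ^ 2) '' Set.range c := by
        rw [← Set.range_comp]; rfl
      rw [this]
      exact hfin.image _
    obtain ⟨M, hM⟩ := h1.bddAbove
    exact ⟨M, fun g => hM ⟨g, rfl⟩⟩
  have hkv : ∀ k : ℕ, k * v ≤ M := by
    intro k
    rw [← hex k]
    have h1 := ex_mono w k hM
    rwa [ex_const] at h1
  have hv0 : v ≤ 0 := by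
    by_contra hcon
    push Not at hcon
    obtain ⟨k, hk⟩ := exists_nat_gt (M / v)
    have := hkv k
    rw [div_lt_iff₀ hcon] at hk
    linarith
  have hz : ∀ i, c (w.s i) = 0 := by
    have hne := w.nonempty
    have hcard : (0 : ℝ) < Fintype.card w.I := by exact_mod_cast Fintype.card_pos
    have h1 : ∑ i, ‖c (w.s i)‖ ^ 2 ≤ 0 := by
      have h2 : v = (Fintype.card w.I : ℝ)⁻¹ * ∑ i, ‖c (w.s i)‖ ^ 2 := by
        rw [hv, av, smul_eq_mul]
      rw [h2] at hv0
      by_contra hcon
      push Not at hcon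
      have : 0 < (Fintype.card w.I : ℝ)⁻¹ * ∑ i, ‖c (w.s i)‖ ^ 2 := by positivity
      linarith
    intro i
    have h3 : ‖c (w.s i)‖ ^ 2 ≤ ∑ i, ‖c (w.s i)‖ ^ 2 :=
      Finset.single_le_sum (f := fun i => ‖c (w.s i)‖ ^ 2) (fun _ _ => by positivity)
        (Finset.mem_univ i)
    have h4 : ‖c (w.s i)‖ ^ 2 = 0 := le_antisymm (h3.trans h1) (by positivity)
    have h5 : ‖c (w.s i)‖ = 0 := by simpa using h4
    exact norm_eq_zero.1 h5
  let S : Subgroup Q :=
    { carrier := {g | c g = 0}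
      one_mem' := coc_one hcc
      mul_mem' := by
        intro g h hg hh'
        show c (g * h) = 0
        have hg' : c g = 0 := hg
        have hh'' : c h = 0 := hh'
        rw [hcc, hg', hh'', map_zero, add_zero]
      inv_mem' := by
        intro g hg
        show c g⁻¹ = 0
        have hg' : c g = 0 := hg
        have h1 := coc_inv hcc g
        rw [hg', neg_zero] at h1
        exact (ρ' g).map_eq_zero_iff.1 h1 }
  have hS : S = ⊤ := by
    rw [eq_top_iff, ← w.gen, Subgroup.closure_le]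
    rintro _ ⟨i, rfl⟩
    exact hz i
  obtain ⟨g, x, hx, hgx⟩ := hne
  have hcg : c g = 0 := by
    have : g ∈ S := by rw [hS]; trivial
    exact this
  apply hgx
  have h1 := W.inner_orthogonalProjectionOnto_eq_of_mem_right ⟨x, hx⟩ (b g)
  have h2 : W.orthogonalProjectionOnto (b g) = 0 := hcg
  rw [h2] at h1
  rw [← h1]
  exact inner_zero_left _

end H85.TG
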