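import Pool.Agent.H85.TG.Cd
import Pool.Agent.H85.TG.Dc
import Pool.Agent.H85.TG.Ec
import Pool.Agent.H85.TG.Ed
import Pool.Agent.H85.TG.Fd
import Pool.Agent.H85.TG.Ge
import Pool.Agent.H85.TG.Gf
import Pool.Agent.H85.TG.Hb
import Pool.Agent.H85.TG.Hc
import Pool.Agent.H85.TG.Ba

/-!
# [H85 TG HD] infinite groups of polynomial growth with max have a virtual ℤ quotient, 50-80 lines

`T` a finite generating set (`hmax ⊤`), `w = walkOf T hT`. `growth_walk` and `exists_cnd` give `ψ`; `gns` gives `E`, `π`, `b`. Let `w' = w.sq`.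
* `∑ i, b (w'.s i) = 0`: the square of the norm is `∑ i, ∑ j, ⟪b (s i), b (s j)⟫ = ∑ ∑ (ψ + ψ - ψ) / 2`, which is a multiple of the double average, `0` (`inner_self_eq_zero`,
  `sum_inner`, `inner_sum`; `av` unfolds to a multiple of the sum).
* `av w' ‖b (w'.s i)‖^2 = 1`: `⟪b g, b g⟫ = (ψ g + ψ g - ψ (g⁻¹ g)) / 2 = ψ g`.
* If `qq w' b k / k → 0`: `concentration` and `no_concentration` (with `growth_sq`) for `f g = ‖b g‖^2` give `False`.
* Otherwise `exists_fin_dim w'` gives `W`; `proj_cocycle w'` gives `ρ'`, `c`; `exists_complexification W` gives `n`, `Φ`; `virt_comm` for `Φ.comp ρ'` gives `K` of finite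
  index with `Φ (ρ' x) * Φ (ρ' y) = Φ (ρ' y) * Φ (ρ' x)` on `K`, so `ρ' x * ρ' y = ρ' y * ρ' x` by the injectivity of `Φ`; `zq_of_cocycle`.
-/

set_option autoImplicit false

universe u v

namespace H85.TG

variable {Q : Type u} [Group Q]

private theorem Hd_av (w : Walk Q) (F : w.I → w.I → ℝ)
    (h : av w (fun i => av w fun j => F i j) = 0) : ∑ i, ∑ j, F i j = 0 := by
  have hne : (Fintype.card w.I : ℝ) ≠ 0 := by
    have := w.nonempty
    exact Nat.cast_ne_zero.2 Fintype.card_ne_zero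
  unfold av at h
  rw [← Finset.smul_sum, smul_smul, smul_eq_mul] at h
  exact (mul_eq_zero.1 h).resolve_left (mul_ne_zero (inv_ne_zero hne) (inv_ne_zero hne))

theorem gromov_core [Infinite Q] (hmax : ∀ H : Subgroup Q, H.FG) {d : ℕ} (h : PG Q d) : ZQ Q := by
  obtain ⟨T, hT⟩ := hmax ⊤
  obtain ⟨C, hC⟩ := growth_walk h T hT
  obtain ⟨C', hC'⟩ := growth_sq h T hT
  generalize walkOf T hT = w at hC hC'
  obtain ⟨ψ, h1, hinv, hpsd, hav, hav2⟩ := exists_cnd w C d hC
  obtain ⟨E, _, _, _, π, b, hb, hbi⟩ := gns ψ h1 hinv hpsd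
  have hself : ∀ g, ‖b g‖ ^ 2 = ψ g := by
    intro g
    rw [← real_inner_self_eq_norm_sq, hbi, inv_mul_cancel, h1]
    ring
  have hh : ∑ i, b (w.sq.s i) = 0 := by
    have h2 : inner ℝ (∑ i, b (w.sq.s i)) (∑ i, b (w.sq.s i)) = (0 : ℝ) := by
      rw [sum_inner]
      simp only [inner_sum, hbi]
      have h3 := Hd_av w.sq _ hav2
      simp only [← Finset.sum_div]
      rw [h3, zero_div]
    exact inner_self_eq_zero.1 h2
  have hn : av w.sq (fun i => ‖b (w.sq.s i)‖ ^ 2) = 1 := by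
    simp only [hself]
    exact hav
  by_cases hq : Filter.Tendsto (fun k : ℕ => qq w.sq b k / k) Filter.atTop (nhds 0)
  · exact (no_concentration w.sq C' d hC' (fun g => ‖b g‖ ^ 2)
      (concentration w.sq hb hh hn hq)).elim
  · obtain ⟨W, hWf, hWi, hWn⟩ := exists_fin_dim w.sq hb hh hq
    obtain ⟨ρ', c, hc, hcinf⟩ := proj_cocycle w.sq hb hh W hWi hWn
    obtain ⟨n, Φ, hΦ⟩ := exists_complexification W
    obtain ⟨K, hK, hcomm⟩ := virt_comm _ Q d h hmax (EuclideanSpace ℂ (Fin n)) le_rfl (Φ.comp ρ')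
    refine zq_of_cocycle hmax ρ' c hc hcinf K hK (fun x hx y hy => hΦ ?_)
    rw [map_mul, map_mul]
    exact hcomm x hx y hy

end H85.TG
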