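import Pool.Agent.H85.TG.Ac
import Pool.Agent.H85.TG.Hd
import Pool.Agent.H85.TG.Bb
import Pool.Agent.H85.TA.Main

/-!
# [H85 TG AD] groups of polynomial growth with max are almost polycyclic, 50-80 lines

* `almostPolycyclic_of_vp`: `A` of finite index with `PC A (A ⊓ ⊥)`. `N = A.normalCore` has finite index, `PC.inf` gives `PC (A ⊓ N) (A ⊓ ⊥ ⊓ N)`, `A ⊓ N = N`,
  `A ⊓ ⊥ ⊓ N = ⊥`; unfold `PC`.
* `vp_of_pg`: induction on `d` (for all `Q`). If `Q` is finite: `VP.of_finite`. If `Q` is infinite: `d ≠ 0` (`pg_zero`, `hmax ⊤`), `d = e + 1`. `gromov_core` gives `Q₁` of finite index and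
  `χ : Q₁ →* Multiplicative ℤ` surjective. `pg_sub h Q₁`, `pg_ker` gives `PG χ.ker e`; `max_sub` twice; the induction hypothesis gives `VP (⊤ : Subgroup χ.ker) ⊥`; by `VP.map` for
  `χ.ker.subtype` one gets `VP χ.ker ⊥` in `Q₁` (`Subgroup.map_subtype...`, `← MonoidHom.range_eq_map`, `Subgroup.range_subtype`, `Subgroup.map_bot`). `vp_ext` with a `t` with
  `χ t = ofAdd 1` gives `VP (⊤ : Subgroup Q₁) ⊥`. By `VP.map` for `Q₁.subtype`: `VP Q₁ ⊥`; `VP.of_relIndex` (`Subgroup.relIndex_top_right`).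
-/

set_option autoImplicit false

universe u v

namespace H85.TG

theorem almostPolycyclic_of_vp {Γ : Type u} [Group Γ] (h : VP (⊤ : Subgroup Γ) ⊥) :
    H85.TA.AlmostPolycyclic Γ := by
  obtain ⟨A, -, hAi, hPC⟩ := h
  rw [Subgroup.relIndex_top_right] at hAi
  haveI hAf : A.FiniteIndex := ⟨hAi⟩
  have h1 := hPC.inf A.normalCore
  have h2 : A ⊓ A.normalCore = A.normalCore := inf_eq_right.2 A.normalCore_le
  have h3 : A ⊓ ⊥ ⊓ A.normalCore = ⊥ := by rw [inf_bot_eq, bot_inf_eq]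
  rw [h2, h3] at h1
  obtain ⟨n, f, hf0, hfn, hf⟩ := h1
  exact ⟨A.normalCore, A.normalCore_normal, inferInstance, n, f, hf0, hfn, hf⟩

theorem vp_of_pg (d : ℕ) : ∀ (Q : Type u) [Group Q], (∀ H : Subgroup Q, H.FG) → PG Q d →
    VP (⊤ : Subgroup Q) ⊥ := by
  induction d with
  | zero =>
    intro Q _ hmax h
    haveI : Finite Q := pg_zero h (hmax ⊤)
    exact VP.of_finite (Set.toFinite _)
  | succ e ih =>
    intro Q _ hmax h
    rcases finite_or_infinite Q with hfin | hinf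
    · exact VP.of_finite (Set.toFinite _)
    · obtain ⟨Q₁, hQ₁, χ, hχ⟩ := gromov_core hmax h
      have h1 : PG χ.ker e := pg_ker (pg_sub h Q₁) χ hχ
      have hmax1 : ∀ H : Subgroup Q₁, H.FG := max_sub hmax Q₁
      have hmax2 : ∀ H : Subgroup χ.ker, H.FG := max_sub hmax1 χ.ker
      have h2 : VP (⊤ : Subgroup χ.ker) ⊥ := ih χ.ker hmax2 h1
      have h3 := VP.map χ.ker.subtype χ.ker.subtype_injective h2
      rw [← MonoidHom.range_eq_map, Subgroup.range_subtype, Subgroup.map_bot] at h3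
      obtain ⟨t, ht⟩ := hχ (Multiplicative.ofAdd 1)
      have h4 : VP (⊤ : Subgroup Q₁) ⊥ := by
        refine vp_ext χ.ker inferInstance (hmax1 χ.ker) h3 t fun x => ?_
        refine ⟨Multiplicative.toAdd (χ x), ?_⟩
        rw [MonoidHom.mem_ker, map_mul, map_zpow, map_inv, ht, mul_inv_eq_one, ← ofAdd_zsmul,
          smul_eq_mul, mul_one, ofAdd_toAdd]
      have h5 := VP.map Q₁.subtype Q₁.subtype_injective h4
      rw [← MonoidHom.range_eq_map, Subgroup.range_subtype, Subgroup.map_bot] at h5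
      refine h5.of_relIndex le_top ?_
      rw [Subgroup.relIndex_top_right]
      exact hQ₁.index_ne_zero

end H85.TG
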