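import Pool.Agent.H85.TG.Wb

/-!
# [H85 TG CA] return probabilities: convexity and limit, 60-100 lines

Put `u k = p w (2 * k) 1`.
* `du_anti`: `u k - 2 u (k+1) + u (k+2) = ∑_x (p w k x - p w (k+2) x)^2 ≥ 0` over a finite set `B ⊇ Supp w k ∪ Supp w (k+2)`:
  expand the square, `∑_{x ∈ B} p j x * p k x = p (j + k) 1` (`p_pair'` with `g = h = 1`, or `ex_fin` and `p_pair`).
* `p_tendsto`: let `Q` be infinite. `u` is antitone (`p_anti`) and nonnegative, so it converges to some `L ≥ 0`. Claim: `p w (2k) x → L`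
  for every `x : Q`. Let `E` be the set of the `x` with this property; `1 ∈ E`. If `x ∈ E` and `i` is a step of `w.sq` then
  `x * w.sq.s i ∈ E`: `p w (2(k+1)) x = av w.sq i, p w (2k) (x * w.sq.s i)` (`p_conv`, symmetry; two steps), all terms are at most `u k`
  (`p_even_le`), so `p w (2k) (x * w.sq.s i) ≥ n p w (2(k+1)) x - (n - 1) u k → L`, `n` the number of steps of `w.sq`. As the steps of `w.sq`
  generate `Q` and are symmetric, `E = Q`. If `L > 0`: for a finite set `F` with `|F| L > 1` the sum `∑_{x ∈ F} p w (2k) x ≤ 1` (`sum_p_le`)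
  converges to `|F| L > 1`, a contradiction. So `L = 0`.
-/

set_option autoImplicit false

universe u v

namespace H85.TG

variable {Q : Type u} [Group Q] (w : Walk Q)

theorem ca_pair (j l : ℕ) (B : Finset Q) (hB : Supp w j ⊆ B) :
    ∑ x ∈ B, p w j x * p w l x = p w (j + l) 1 := by
  have h := p_pair' w j l 1 1 B fun x hx => p_supp w j _ fun h => hx (hB (by
    rwa [inv_one, one_mul] at h))
  simpa only [inv_one, one_mul] using h

theorem du_anti (k : ℕ) : p w (2 * (k + 1)) 1 - p w (2 * (k + 2)) 1 ≤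
    p w (2 * k) 1 - p w (2 * (k + 1)) 1 := by
  classical
  have h0 : 0 ≤ ∑ x ∈ Supp w k ∪ Supp w (k + 2), (p w k x - p w (k + 2) x) ^ 2 :=
    Finset.sum_nonneg fun x _ => sq_nonneg _
  have h1 := ca_pair w k k (Supp w k ∪ Supp w (k + 2)) Finset.subset_union_left
  have h2 := ca_pair w k (k + 2) (Supp w k ∪ Supp w (k + 2)) Finset.subset_union_left
  have h3 := ca_pair w (k + 2) (k + 2) (Supp w k ∪ Supp w (k + 2)) Finset.subset_union_right
  have h4 : ∑ x ∈ Supp w k ∪ Supp w (k + 2), (p w k x - p w (k + 2) x) ^ 2 =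
      ∑ x ∈ Supp w k ∪ Supp w (k + 2), p w k x * p w k x -
        2 * ∑ x ∈ Supp w k ∪ Supp w (k + 2), p w k x * p w (k + 2) x +
          ∑ x ∈ Supp w k ∪ Supp w (k + 2), p w (k + 2) x * p w (k + 2) x := by
    rw [Finset.mul_sum, ← Finset.sum_sub_distrib, ← Finset.sum_add_distrib]
    exact Finset.sum_congr rfl fun x _ => by ring
  rw [h4, h1, h2, h3] at h0
  have e1 : k + k = 2 * k := by ring
  have e2 : k + (k + 2) = 2 * (k + 1) := by ring
  have e3 : k + 2 + (k + 2) = 2 * (k + 2) := by ring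
  rw [e1, e2, e3] at h0
  linarith

theorem ca_step (k : ℕ) (x : Q) : p w (2 * (k + 1)) x =
    (Fintype.card w.sq.I : ℝ)⁻¹ * ∑ i, p w (2 * k) ((w.sq.s i)⁻¹ * x) := by
  have e : 2 * (k + 1) = 2 * 1 + 2 * k := by ring
  rw [e, p_conv, ← ex_sq, ex_succ]
  unfold av
  rw [smul_eq_mul]
  congr 1
  refine Finset.sum_congr rfl fun i _ => ?_
  show p w (2 * k) ((1 * w.sq.s i)⁻¹ * x) = _
  rw [one_mul]

theorem p_tendsto [Infinite Q] :
    Filter.Tendsto (fun k => p w (2 * k) 1) Filter.atTop (nhds 0) := by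
  classical
  have hanti : Antitone fun k => p w (2 * k) 1 := antitone_nat_of_succ_le (p_anti w)
  have hbdd : BddBelow (Set.range fun k => p w (2 * k) 1) :=
    ⟨0, by rintro _ ⟨k, rfl⟩; exact p_nonneg w _ _⟩
  obtain ⟨L, hL⟩ : ∃ L, Filter.Tendsto (fun k => p w (2 * k) 1) Filter.atTop (nhds L) :=
    ⟨_, tendsto_atTop_ciInf hanti hbdd⟩
  have hL0 : 0 ≤ L := ge_of_tendsto' hL fun k => p_nonneg w _ _
  have hstep : ∀ (x : Q) (i : w.sq.I),
      Filter.Tendsto (fun k => p w (2 * k) x) Filter.atTop (nhds L) →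
      Filter.Tendsto (fun k => p w (2 * k) ((w.sq.s i)⁻¹ * x)) Filter.atTop (nhds L) := by
    intro x i hx
    have hn : (0 : ℝ) < Fintype.card w.sq.I := by
      have := w.sq.nonempty
      exact_mod_cast Fintype.card_pos
    have hlow : ∀ k, (Fintype.card w.sq.I : ℝ) * p w (2 * (k + 1)) x -
        ((Fintype.card w.sq.I : ℝ) - 1) * p w (2 * k) 1 ≤ p w (2 * k) ((w.sq.s i)⁻¹ * x) := by
      intro k
      have h1 : (Fintype.card w.sq.I : ℝ) * p w (2 * (k + 1)) x =
          ∑ i, p w (2 * k) ((w.sq.s i)⁻¹ * x) := by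
        rw [ca_step, ← mul_assoc, mul_inv_cancel₀ hn.ne', one_mul]
      rw [h1, ← Finset.add_sum_erase _ _ (Finset.mem_univ i)]
      have h2 : ∑ j ∈ Finset.univ.erase i, p w (2 * k) ((w.sq.s j)⁻¹ * x) ≤
          ((Fintype.card w.sq.I : ℝ) - 1) * p w (2 * k) 1 := by
        refine (Finset.sum_le_sum fun j _ => p_even_le w k _).trans ?_
        rw [Finset.sum_const, Finset.card_erase_of_mem (Finset.mem_univ i), Finset.card_univ,
          nsmul_eq_mul, Nat.cast_sub (by exact_mod_cast hn), Nat.cast_one]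
      linarith
    refine tendsto_of_tendsto_of_tendsto_of_le_of_le ?_ hL hlow fun k => p_even_le w k _
    have h1 : Filter.Tendsto (fun k => p w (2 * (k + 1)) x) Filter.atTop (nhds L) :=
      hx.comp (Filter.tendsto_add_atTop_nat 1)
    have h2 := (h1.const_mul (Fintype.card w.sq.I : ℝ)).sub
      (hL.const_mul ((Fintype.card w.sq.I : ℝ) - 1))
    have e : (Fintype.card w.sq.I : ℝ) * L - ((Fintype.card w.sq.I : ℝ) - 1) * L = L := by ring
    rw [e] at h2
    exact h2
  have hall : ∀ x : Q, Filter.Tendsto (fun k => p w (2 * k) x) Filter.atTop (nhds L) := by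
    intro x
    have hx : x ∈ Subgroup.closure (Set.range w.sq.s) := by
      rw [w.sq.gen]
      exact Subgroup.mem_top x
    induction hx using Subgroup.closure_induction_left with
    | one => exact hL
    | mul_left y hy z _ ih =>
      obtain ⟨i, rfl⟩ := hy
      have h := hstep z (w.sq.σ i) ih
      rw [w.sq.inv, inv_inv] at h
      exact h
    | inv_mul_cancel y hy z _ ih =>
      obtain ⟨i, rfl⟩ := hy
      exact hstep z i ih
  rcases hL0.lt_or_eq with hpos | h0
  · exfalso
    obtain ⟨n, hn⟩ := exists_nat_gt (1 / L)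
    obtain ⟨F, hF⟩ := Infinite.exists_subset_card_eq Q n
    have h1 : Filter.Tendsto (fun k => ∑ x ∈ F, p w (2 * k) x) Filter.atTop
        (nhds (∑ _x ∈ F, L)) := tendsto_finsetSum F fun x _ => hall x
    have h2 : ∑ _x ∈ F, L ≤ 1 := le_of_tendsto' h1 fun k => sum_p_le w _ F
    rw [Finset.sum_const, hF, nsmul_eq_mul] at h2
    rw [div_lt_iff₀ hpos] at hn
    linarith
  · rw [h0]
    exact hL

end H85.TG
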