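import Pool.Agent.H85.TG.Wb

/-!
# [H85 TG CB] the functions of negative type of the random walk, 70-110 lines

`dd w k g = p w (2 k) 1 - p w (2 k) g`. Let `F x = p w k x`, and `F_g x = F (g⁻¹ x)`. By `p_pair'` the scalar product of `F_g` and `F_h`
(a finite sum) is `p w (2 k) (g⁻¹ h)` (`k + k = 2 k`).
* `dd_one`, `dd_inv` (`p_inv`), `dd_nonneg` (`p_even_le`).
* `dd_psd`: let `B` be a finite set outside of which all `F_g`, `g ∈ c.support`, and `F` vanish (for example the union of the images of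
  `Supp w k`). `∑_g ∑_h c g c h (dd g + dd h - dd (g⁻¹ h)) = ∑_g ∑_h c g c h (p 1 - p g - p h + p (g⁻¹ h)) =
  ∑_{x ∈ B} (∑_g c g (F_g x - F x))^2`, where `p x` stands for `p w (2 k) x`.
* `dd_mul`: `2 dd (g h) = ∑_x (F x - F ((g h)⁻¹ x))^2 ≤ 2 ∑ (F x - F (g⁻¹ x))^2 + 2 ∑ (F (g⁻¹ x) - F (h⁻¹ g⁻¹ x))^2 = 2 (2 dd g) + 2 (2 dd h)`
  (or from `dd_psd` with `c = single g + single (g h) …`: the parallelogram inequality).
* `dd_step`: the average of `p w (2k) (w.sq.s i)` over the steps of `w.sq` is `p w (2k + 2) 1` (`ex_left`/`p_conv`, `ex_sq`).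
* `dd_step2`: `av_i av_j (dd (s i) + dd (s j) - dd ((s i)⁻¹ s j)) = 2 (u k - u (k+1)) - (u k - u (k+2))`, because the average of
  `p w (2k) ((s i)⁻¹ s j)` is `p w (2k + 4) 1`.
-/

set_option autoImplicit false

universe u v

namespace H85.TG

variable {Q : Type u} [Group Q] (w : Walk Q)

/-- the function of negative type at time `2 k` -/
noncomputable def dd (k : ℕ) (g : Q) : ℝ := p w (2 * k) 1 - p w (2 * k) g

theorem dd_one (k : ℕ) : dd w k 1 = 0 := by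
  simp [dd]

theorem dd_inv (k : ℕ) (g : Q) : dd w k g⁻¹ = dd w k g := by
  rw [dd, dd, p_inv]

theorem dd_nonneg (k : ℕ) (g : Q) : 0 ≤ dd w k g := by
  rw [dd, sub_nonneg]
  exact p_even_le w k g

private theorem cb_box (k : ℕ) (S : Finset Q) :
    ∃ B : Finset Q, ∀ g ∈ S, ∀ x, x ∉ B → p w k (g⁻¹ * x) = 0 := by
  classical
  refine ⟨S.biUnion fun g => (Supp w k).image fun y => g * y, fun g hg x hx => ?_⟩
  apply p_supp
  intro h
  apply hx
  rw [Finset.mem_biUnion]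
  refine ⟨g, hg, Finset.mem_image.2 ⟨g⁻¹ * x, h, ?_⟩⟩
  rw [mul_inv_cancel_left]

private theorem cb_pair (k : ℕ) (B : Finset Q) (g h : Q)
    (hB : ∀ x, x ∉ B → p w k (g⁻¹ * x) = 0) :
    ∑ x ∈ B, p w k (g⁻¹ * x) * p w k (h⁻¹ * x) = p w (2 * k) (g⁻¹ * h) := by
  rw [p_pair' w k k g h B hB, two_mul]

private theorem cb_key (k : ℕ) (B : Finset Q) (g h : Q)
    (hg : ∀ x, x ∉ B → p w k (g⁻¹ * x) = 0)
    (h1 : ∀ x, x ∉ B → p w k ((1 : Q)⁻¹ * x) = 0) :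
    ∑ x ∈ B, (p w k (g⁻¹ * x) - p w k ((1 : Q)⁻¹ * x)) *
      (p w k (h⁻¹ * x) - p w k ((1 : Q)⁻¹ * x)) =
      dd w k g + dd w k h - dd w k (g⁻¹ * h) := by
  have e1 := cb_pair w k B g h hg
  have e2 := cb_pair w k B g 1 hg
  have e3 := cb_pair w k B 1 h h1
  have e4 := cb_pair w k B 1 1 h1
  rw [mul_one, p_inv] at e2
  rw [inv_one, one_mul] at e3
  rw [inv_one, one_mul] at e4
  rw [inv_one]
  have e : ∀ x ∈ B, (p w k (g⁻¹ * x) - p w k ((1 : Q) * x)) *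
      (p w k (h⁻¹ * x) - p w k ((1 : Q) * x)) =
      p w k (g⁻¹ * x) * p w k (h⁻¹ * x) - p w k (g⁻¹ * x) * p w k (1 * x) -
        p w k (1 * x) * p w k (h⁻¹ * x) + p w k (1 * x) * p w k (1 * x) := by
    intro x _
    ring
  rw [Finset.sum_congr rfl e, Finset.sum_add_distrib, Finset.sum_sub_distrib,
    Finset.sum_sub_distrib, e1, e3, e4]
  rw [inv_one] at e2
  rw [e2, dd, dd, dd]
  ring

private theorem cb_key2 (k : ℕ) (B : Finset Q) (g h : Q)
    (hg : ∀ x, x ∉ B → p w k (g⁻¹ * x) = 0)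
    (hh : ∀ x, x ∉ B → p w k (h⁻¹ * x) = 0) :
    ∑ x ∈ B, (p w k (g⁻¹ * x) - p w k (h⁻¹ * x)) ^ 2 = 2 * dd w k (g⁻¹ * h) := by
  have e1 := cb_pair w k B g h hg
  have e2 := cb_pair w k B g g hg
  have e3 := cb_pair w k B h h hh
  rw [inv_mul_cancel] at e2 e3
  have e : ∀ x ∈ B, (p w k (g⁻¹ * x) - p w k (h⁻¹ * x)) ^ 2 =
      p w k (g⁻¹ * x) * p w k (g⁻¹ * x) + p w k (h⁻¹ * x) * p w k (h⁻¹ * x) -
        2 * (p w k (g⁻¹ * x) * p w k (h⁻¹ * x)) := by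
    intro x _
    ring
  rw [Finset.sum_congr rfl e, Finset.sum_sub_distrib, Finset.sum_add_distrib,
    ← Finset.mul_sum, e1, e2, e3, dd]
  ring

private theorem cb_ex1 (f : Q → ℝ) : av w.sq (fun i => f (w.sq.s i)) = Ex w 2 f := by
  have h := ex_sq w 1 f
  rw [mul_one] at h
  rw [← h, ex_succ]
  simp only [ex_zero, one_mul]

theorem dd_psd (k : ℕ) (c : Q →₀ ℝ) : 0 ≤ ∑ g ∈ c.support, ∑ h ∈ c.support,
    c g * c h * (dd w k g + dd w k h - dd w k (g⁻¹ * h)) := by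
  classical
  obtain ⟨B, hB⟩ := cb_box w k (insert 1 c.support)
  have h1 : ∀ x, x ∉ B → p w k ((1 : Q)⁻¹ * x) = 0 := hB 1 (Finset.mem_insert_self _ _)
  have e : ∀ g ∈ c.support, ∀ h ∈ c.support,
      c g * c h * (dd w k g + dd w k h - dd w k (g⁻¹ * h)) =
      ∑ x ∈ B, (c g * (p w k (g⁻¹ * x) - p w k ((1 : Q)⁻¹ * x))) *
        (c h * (p w k (h⁻¹ * x) - p w k ((1 : Q)⁻¹ * x))) := by
    intro g hg h hh
    rw [← cb_key w k B g h (hB g (Finset.mem_insert_of_mem hg)) h1, Finset.mul_sum]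
    refine Finset.sum_congr rfl fun x _ => ?_
    ring
  have e2 : ∑ g ∈ c.support, ∑ h ∈ c.support,
      c g * c h * (dd w k g + dd w k h - dd w k (g⁻¹ * h)) =
      ∑ x ∈ B, (∑ g ∈ c.support,
        c g * (p w k (g⁻¹ * x) - p w k ((1 : Q)⁻¹ * x))) ^ 2 := by
    rw [Finset.sum_congr rfl fun g hg => Finset.sum_congr rfl fun h hh => e g hg h hh]
    rw [Finset.sum_congr rfl fun g _ => Finset.sum_comm]
    rw [Finset.sum_comm]
    refine Finset.sum_congr rfl fun x _ => ?_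
    rw [sq, Finset.sum_mul_sum]
  rw [e2]
  exact Finset.sum_nonneg fun x _ => sq_nonneg _

theorem dd_mul (k : ℕ) (g h : Q) : dd w k (g * h) ≤ 2 * dd w k g + 2 * dd w k h := by
  classical
  obtain ⟨B, hB⟩ := cb_box w k {1, g, g * h}
  have b1 := hB 1 (by simp)
  have b2 := hB g (by simp)
  have b3 := hB (g * h) (by simp)
  have e1 := cb_key2 w k B 1 (g * h) b1 b3
  have e2 := cb_key2 w k B 1 g b1 b2
  have e3 := cb_key2 w k B g (g * h) b2 b3
  rw [inv_one, one_mul] at e1 e2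
  rw [inv_mul_cancel_left] at e3
  have e : ∑ x ∈ B, (p w k ((1 : Q) * x) - p w k ((g * h)⁻¹ * x)) ^ 2 ≤
      ∑ x ∈ B, (2 * (p w k ((1 : Q) * x) - p w k (g⁻¹ * x)) ^ 2 +
        2 * (p w k (g⁻¹ * x) - p w k ((g * h)⁻¹ * x)) ^ 2) := by
    refine Finset.sum_le_sum fun x _ => ?_
    nlinarith [sq_nonneg ((p w k ((1 : Q) * x) - p w k (g⁻¹ * x)) -
      (p w k (g⁻¹ * x) - p w k ((g * h)⁻¹ * x)))]
  rw [Finset.sum_add_distrib, ← Finset.mul_sum, ← Finset.mul_sum, e1, e2, e3] at e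
  linarith

theorem dd_step (k : ℕ) : av w.sq (fun i => dd w k (w.sq.s i)) =
    p w (2 * k) 1 - p w (2 * (k + 1)) 1 := by
  have h1 : (fun i => dd w k (w.sq.s i)) =
      fun i => (fun _ => p w (2 * k) 1) i + (fun i => (-1 : ℝ) • p w (2 * k) (w.sq.s i)) i := by
    funext i
    simp only [dd, smul_eq_mul]
    ring
  rw [h1, av_add, av_smul, av_const, cb_ex1 w (p w (2 * k)), p_pair,
    show 2 + 2 * k = 2 * (k + 1) by ring, smul_eq_mul]
  ring

theorem dd_step2 (k : ℕ) : av w.sq (fun i => av w.sq fun j =>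
      dd w k (w.sq.s i) + dd w k (w.sq.s j) - dd w k ((w.sq.s i)⁻¹ * w.sq.s j)) =
    (p w (2 * k) 1 - p w (2 * (k + 1)) 1) - (p w (2 * (k + 1)) 1 - p w (2 * (k + 2)) 1) := by
  have key : av w.sq (fun i => av w.sq fun j => p w (2 * k) ((w.sq.s i)⁻¹ * w.sq.s j)) =
      p w (2 * (k + 2)) 1 := by
    have e : ∀ i, av w.sq (fun j => p w (2 * k) ((w.sq.s i)⁻¹ * w.sq.s j)) =
        p w (2 + 2 * k) (w.sq.s i) := by
      intro i
      rw [cb_ex1 w (fun h => p w (2 * k) ((w.sq.s i)⁻¹ * h)), p_conv]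
      congr 1
      funext h
      rw [← p_inv w (2 * k) (h⁻¹ * w.sq.s i), mul_inv_rev, inv_inv]
    simp only [e]
    rw [cb_ex1 w (p w (2 + 2 * k)), p_pair, show 2 + (2 + 2 * k) = 2 * (k + 2) by ring]
  have h1 : ∀ i, (fun j => dd w k (w.sq.s i) + dd w k (w.sq.s j) -
      dd w k ((w.sq.s i)⁻¹ * w.sq.s j)) =
      fun j => (fun _ => dd w k (w.sq.s i) - p w (2 * k) 1) j +
        (fun j => (fun j => dd w k (w.sq.s j)) j +
          (fun j => p w (2 * k) ((w.sq.s i)⁻¹ * w.sq.s j)) j) j := by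
    intro i
    funext j
    simp only [dd]
    ring
  have h2 : ∀ i, av w.sq (fun j => dd w k (w.sq.s i) + dd w k (w.sq.s j) -
      dd w k ((w.sq.s i)⁻¹ * w.sq.s j)) =
      (fun i => dd w k (w.sq.s i)) i +
        ((fun _ => (p w (2 * k) 1 - p w (2 * (k + 1)) 1) - p w (2 * k) 1) i +
          (fun i => av w.sq fun j => p w (2 * k) ((w.sq.s i)⁻¹ * w.sq.s j)) i) := by
    intro i
    rw [h1 i, av_add, av_add, av_const, dd_step]
    ring
  rw [show (fun i => av w.sq fun j => dd w k (w.sq.s i) + dd w k (w.sq.s j) -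
      dd w k ((w.sq.s i)⁻¹ * w.sq.s j)) = _ from funext h2]
  rw [av_add, av_add, av_const, key, dd_step]
  ring

end H85.TG
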