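import Pool.Agent.H85.TG.Ca
import Pool.Agent.H85.TG.Cb
import Pool.Agent.H85.TG.Cc

/-!
# [H85 TG CD] a function of negative type which is harmonic, 70-110 lines

`hlow` of `seq_lemma` for `u k = p w (2 k) 1`: `p_low` and the growth hypothesis (`C` real). For `n : ℕ` take `k n` from `seq_lemma` with
`ε = 1 / (n + 1)`, `K = 0`; `a n = u (k n) - u (k n + 1) > 0`; `ψ n g = dd w (k n) g / a n`.
* The average over the steps of `w.sq` of `ψ n` is `1` (`dd_step`) and all the values are nonnegative, so `ψ n (w.sq.s i) ≤` number of steps.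
  The set of the `g` for which `ψ n g` is bounded in `n` contains the steps of `w.sq`, `1`, is closed under inverses (`dd_inv`) and products
  (`dd_mul`), so it is `Q` (`Subgroup.closure_induction`, `w.sq.gen`).
* Let `U = Filter.hyperfilter ℕ`. For every `g` the bounded sequence `ψ n g` converges along `U` (`isCompact_Icc`, an ultrafilter;
  `IsCompact.ultrafilter_le_nhds`) to a number `ψ g`. All the properties pass to the limit: finite sums of limits
  (`Filter.Tendsto.add`, `tendsto_finsetSum`, `tendsto_nhds_unique`, `ge_of_tendsto`); in the last one the average is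
  `(a n - (u (k n + 1) - u (k n + 2))) / a n`, which is between `0` (`du_anti`) and `1 / (n + 1)`.
-/

set_option autoImplicit false

universe u v

namespace H85.TG

variable {Q : Type u} [Group Q] (w : Walk Q)

private theorem tendsto_av (w : Walk Q) (U : Filter ℕ) (F : ℕ → w.I → ℝ) (G : w.I → ℝ)
    (h : ∀ i, Filter.Tendsto (fun n => F n i) U (nhds (G i))) :
    Filter.Tendsto (fun n => av w (F n)) U (nhds (av w G)) := by
  unfold av
  exact (tendsto_finsetSum _ fun i _ => h i).const_smul _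

private theorem av_div (w : Walk Q) (a : ℝ) (F : w.I → ℝ) :
    av w (fun i => F i / a) = av w F / a := by
  unfold av
  rw [← Finset.sum_div, smul_eq_mul, smul_eq_mul, mul_div_assoc]

private theorem le_av (w : Walk Q) (F : w.I → ℝ) (h : ∀ i, 0 ≤ F i) (i : w.I) :
    F i ≤ (Fintype.card w.I : ℝ) * av w F := by
  have := w.nonempty
  have hc : (Fintype.card w.I : ℝ) ≠ 0 := by exact_mod_cast Fintype.card_ne_zero
  unfold av
  rw [smul_eq_mul, ← mul_assoc, mul_inv_cancel₀ hc, one_mul]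
  exact Finset.single_le_sum (fun j _ => h j) (Finset.mem_univ i)

theorem exists_cnd [Infinite Q] (C d : ℕ) (h : ∀ r₀ : ℕ, ∃ r ≥ r₀, (Supp w r).card ≤ C * r ^ d) :
    ∃ ψ : Q → ℝ, ψ 1 = 0 ∧ (∀ g, ψ g⁻¹ = ψ g) ∧
      (∀ c : Q →₀ ℝ, 0 ≤ ∑ g ∈ c.support, ∑ h ∈ c.support,
        c g * c h * (ψ g + ψ h - ψ (g⁻¹ * h))) ∧
      av w.sq (fun i => ψ (w.sq.s i)) = 1 ∧
      av w.sq (fun i => av w.sq fun j =>
        ψ (w.sq.s i) + ψ (w.sq.s j) - ψ ((w.sq.s i)⁻¹ * w.sq.s j)) = 0 := by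
  classical
  have hlow : ∀ r₀ : ℕ, ∃ r ≥ r₀, 1 ≤ (C : ℝ) * (r : ℝ) ^ d * p w (2 * r) 1 := by
    intro r₀
    obtain ⟨r, hr, hr1⟩ := h r₀
    refine ⟨r, hr, (p_low w r).trans ?_⟩
    refine mul_le_mul_of_nonneg_right ?_ (p_nonneg w _ _)
    exact_mod_cast hr1
  have hseq := seq_lemma (fun k => p w (2 * k) 1) (fun k => p_pos w k) (fun k => p_anti w k)
    (fun k => du_anti w k) (p_tendsto w) C d hlow
  have hk : ∀ n : ℕ, ∃ k : ℕ, 0 < p w (2 * k) 1 - p w (2 * (k + 1)) 1 ∧
      (p w (2 * k) 1 - p w (2 * (k + 1)) 1) - (p w (2 * (k + 1)) 1 - p w (2 * (k + 2)) 1) ≤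
        1 / ((n : ℝ) + 1) * (p w (2 * k) 1 - p w (2 * (k + 1)) 1) := by
    intro n
    obtain ⟨k, _, h1, h2⟩ := hseq (1 / ((n : ℝ) + 1)) (by positivity) 0
    exact ⟨k, h1, h2⟩
  choose k hk0 hk1 using hk
  obtain ⟨a, ha⟩ : ∃ a : ℕ → ℝ, ∀ n, a n = p w (2 * (k n)) 1 - p w (2 * (k n + 1)) 1 :=
    ⟨_, fun _ => rfl⟩
  have ha0 : ∀ n, 0 < a n := fun n => by rw [ha]; exact hk0 n
  obtain ⟨f, hf⟩ : ∃ f : ℕ → Q → ℝ, ∀ n g, f n g = dd w (k n) g / a n := ⟨_, fun _ _ => rfl⟩
  have hf0 : ∀ n g, 0 ≤ f n g := fun n g => by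
    rw [hf]
    exact div_nonneg (dd_nonneg w _ _) (ha0 n).le
  have hbd : ∀ g : Q, ∃ B : ℝ, ∀ n, f n g ≤ B := by
    intro g
    have hg : g ∈ Subgroup.closure (Set.range w.sq.s) := by
      rw [w.sq.gen]
      exact Subgroup.mem_top g
    induction hg using Subgroup.closure_induction with
    | mem x hx =>
      obtain ⟨i, rfl⟩ := hx
      refine ⟨Fintype.card w.sq.I, fun n => ?_⟩
      rw [hf, div_le_iff₀ (ha0 n), ha, ← dd_step]
      exact le_av w.sq (fun i => dd w (k n) (w.sq.s i)) (fun i => dd_nonneg w _ _) i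
    | one =>
      refine ⟨0, fun n => ?_⟩
      rw [hf, dd_one, zero_div]
    | mul x y _ _ hx hy =>
      obtain ⟨B, hB⟩ := hx
      obtain ⟨B', hB'⟩ := hy
      refine ⟨2 * B + 2 * B', fun n => ?_⟩
      have h1 : f n (x * y) ≤ 2 * f n x + 2 * f n y := by
        rw [hf, hf, hf, div_le_iff₀ (ha0 n)]
        have e1 : (2 * (dd w (k n) x / a n) + 2 * (dd w (k n) y / a n)) * a n =
            2 * dd w (k n) x + 2 * dd w (k n) y := by
          have := (ha0 n).ne'
          field_simp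
        rw [e1]
        exact dd_mul w _ _ _
      linarith [hB n, hB' n]
    | inv x _ hx =>
      obtain ⟨B, hB⟩ := hx
      refine ⟨B, fun n => ?_⟩
      rw [hf, dd_inv, ← hf]
      exact hB n
  obtain ⟨U, hU⟩ : ∃ U : Ultrafilter ℕ, (U : Filter ℕ) ≤ Filter.atTop := by
    refine ⟨Filter.hyperfilter ℕ, ?_⟩
    rw [← Nat.cofinite_eq_atTop]
    exact Filter.hyperfilter_le_cofinite
  have hlim : ∀ g : Q, ∃ L : ℝ, Filter.Tendsto (fun n => f n g) (U : Filter ℕ) (nhds L) := by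
    intro g
    obtain ⟨B, hB⟩ := hbd g
    obtain ⟨L, _, hL⟩ := (isCompact_Icc (a := (0 : ℝ)) (b := B)).ultrafilter_le_nhds
      (U.map fun n => f n g) (by
        rw [Filter.le_principal_iff, Ultrafilter.coe_map, Filter.mem_map]
        refine Filter.mem_of_superset (Filter.univ_mem) ?_
        intro n _
        exact ⟨hf0 n g, hB n⟩)
    exact ⟨L, hL⟩
  choose ψ hψ using hlim
  have hstep : ∀ n, av w.sq (fun i => f n (w.sq.s i)) = 1 := by
    intro n
    simp only [hf]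
    rw [av_div, dd_step, ← ha, div_self (ha0 n).ne']
  have hstep2 : ∀ n, av w.sq (fun i => av w.sq fun j =>
      f n (w.sq.s i) + f n (w.sq.s j) - f n ((w.sq.s i)⁻¹ * w.sq.s j)) =
      ((p w (2 * k n) 1 - p w (2 * (k n + 1)) 1) -
        (p w (2 * (k n + 1)) 1 - p w (2 * (k n + 2)) 1)) / a n := by
    intro n
    rw [← dd_step2, ← av_div]
    congr 1
    funext i
    rw [← av_div]
    congr 1
    funext j
    rw [hf, hf, hf]
    ring
  refine ⟨ψ, ?_, ?_, ?_, ?_, ?_⟩
  · refine tendsto_nhds_unique (hψ 1) (tendsto_const_nhds.congr fun n => ?_)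
    rw [hf, dd_one, zero_div]
  · intro g
    refine tendsto_nhds_unique (hψ g⁻¹) ((hψ g).congr fun n => ?_)
    rw [hf, hf, dd_inv]
  · intro c
    have h1 : Filter.Tendsto (fun n => ∑ g ∈ c.support, ∑ h ∈ c.support,
        c g * c h * (f n g + f n h - f n (g⁻¹ * h))) (U : Filter ℕ)
        (nhds (∑ g ∈ c.support, ∑ h ∈ c.support, c g * c h * (ψ g + ψ h - ψ (g⁻¹ * h)))) :=
      tendsto_finsetSum _ fun g _ => tendsto_finsetSum _ fun h _ =>
        (((hψ g).add (hψ h)).sub (hψ (g⁻¹ * h))).const_mul _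
    refine ge_of_tendsto' h1 fun n => ?_
    have h2 : ∑ g ∈ c.support, ∑ h ∈ c.support, c g * c h * (f n g + f n h - f n (g⁻¹ * h)) =
        (∑ g ∈ c.support, ∑ h ∈ c.support,
          c g * c h * (dd w (k n) g + dd w (k n) h - dd w (k n) (g⁻¹ * h))) / a n := by
      rw [Finset.sum_div]
      refine Finset.sum_congr rfl fun g _ => ?_
      rw [Finset.sum_div]
      refine Finset.sum_congr rfl fun h _ => ?_
      rw [hf, hf, hf]
      ring
    rw [h2]
    exact div_nonneg (dd_psd w _ _) (ha0 n).le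
  · have h1 := tendsto_av w.sq (U : Filter ℕ) (fun n i => f n (w.sq.s i))
      (fun i => ψ (w.sq.s i)) fun i => hψ _
    refine tendsto_nhds_unique h1 (tendsto_const_nhds.congr fun n => ?_)
    exact (hstep n).symm
  · have h1 := tendsto_av w.sq (U : Filter ℕ) (fun n i => av w.sq fun j =>
        f n (w.sq.s i) + f n (w.sq.s j) - f n ((w.sq.s i)⁻¹ * w.sq.s j))
      (fun i => av w.sq fun j => ψ (w.sq.s i) + ψ (w.sq.s j) - ψ ((w.sq.s i)⁻¹ * w.sq.s j))
      fun i => tendsto_av w.sq (U : Filter ℕ) (fun n j =>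
        f n (w.sq.s i) + f n (w.sq.s j) - f n ((w.sq.s i)⁻¹ * w.sq.s j)) _ fun j =>
          ((hψ _).add (hψ _)).sub (hψ _)
    have h2 : Filter.Tendsto (fun n : ℕ => 1 / ((n : ℝ) + 1)) (U : Filter ℕ) (nhds 0) :=
      tendsto_one_div_add_atTop_nhds_zero_nat.mono_left hU
    refine tendsto_nhds_unique h1 (squeeze_zero (fun n => ?_) (fun n => ?_) h2)
    · rw [hstep2 n]
      refine div_nonneg ?_ (ha0 n).le
      have := du_anti w (k n)
      linarith
    · rw [hstep2 n, div_le_iff₀ (ha0 n), ha]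
      exact hk1 n

end H85.TG
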