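import Pool.Agent.H85.TG.Path

set_option autoImplicit false
set_option linter.unusedSectionVars false

/-!
# Grafts with four vertices: representations of the contraction of the added element
-/

open Set Matroid Module Submodule
open scoped Matroid

namespace Pool.Agent.H85.TG

open Pool.Agent.H18.SG (vec linMat linMat_indep linMat_ground gr)
open Pool.Agent.H36.TX (IsRep Rep Regular ThreeConn)
open Pool.Agent.H85.TX (rk indepOn_iff eRk_eq Represents mem_closure_iff)

variable {V E : Type} [Fintype V] [DecidableEq V] [Finite E]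
variable {s t : E → V} {p : Fin 4 → V} {c : V → Fin 4}

/-- the vectors `y` over `F` have the closures of the contraction -/
def Tr (F : Type) [Field F] {W' : Type} [AddCommGroup W'] [Module F W'] (s t : E → V)
    (p : Fin 4 → V) (y : E → W') : Prop :=
  ∀ (f : E) (X : Set E), vec (ZMod 2) s t f ∈
    span (ZMod 2) (insert (ev s t p none) (vec (ZMod 2) s t '' X)) ↔ y f ∈ span F (y '' X)

section con

variable {F W' : Type} [Field F] [AddCommGroup W'] [Module F W'] {y : E → W'}

theorem tr_of_rep {w : Option E → W'} (hw : Represents F w (graft s t p ／ {none})) :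
    Tr F s t p (fun f => w (some f)) := by
  intro f X
  have hE : (graft s t p ／ {none}).E = some '' univ := by
    rw [contract_ground, graft_E]
    ext o
    rcases o with _ | f <;> simp
  have h1 := mem_closure_iff hw (X := some '' X)
    (by rw [hE]; exact Set.image_mono (subset_univ _)) (a := some f)
    (by rw [hE]; exact ⟨f, mem_univ _, rfl⟩)
  have h2 := mem_closure_iff (ev_rep (s := s) (t := t) (p := p)) (X := some '' X ∪ {none})
    (by rw [graft_E]; exact subset_univ _) (a := some f) (by rw [graft_E]; exact mem_univ _)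
  rw [contract_closure_eq] at h1
  have h3 : some f ∈ (graft s t p).closure (some '' X ∪ {none}) \ {none} ↔
      some f ∈ (graft s t p).closure (some '' X ∪ {none}) :=
    ⟨fun h => h.1, fun h => ⟨h, by simp⟩⟩
  rw [h3, h2] at h1
  rw [Set.image_image] at h1
  rw [← h1, Set.image_union, Set.image_singleton, Set.image_image, Set.union_singleton]
  rfl

theorem vec_mem_off (hoff : Off s t) {u b : V} (hb : b ≠ u) {x : V → ZMod 2} (hx : sumC x = 0)
    (hu : x u = 0) : x ∈ span (ZMod 2) (vec (ZMod 2) s t '' {f | s f ≠ u ∧ t f ≠ u}) := by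
  by_cases hV : Nonempty (Fin 4 → V)
  · have h1 := mem_span_off (p := hV.some) hoff hb hx hu
    rw [Set.image_image] at h1
    exact h1
  · exact absurd ⟨fun _ => u⟩ hV

theorem exists_psi' (hoff : Off s t) (hc : Conn s t) (hV : 2 ≤ Fintype.card V)
    (hy : Tr F s t p y) {u : V} (hu : ∀ m, p m ≠ u) :
    ∃ ψ : W' →ₗ[F] F, ∀ f, ψ (y f) = 0 ↔ vec (ZMod 2) s t f u = 0 := by
  obtain ⟨b, hb⟩ : ∃ b, b ≠ u := by
    have : Nontrivial V := Fintype.one_lt_card_iff_nontrivial.1 (by omega)
    exact exists_ne u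
  obtain ⟨f0, hf0⟩ := exists_edge hc hV u
  have hf1 : vec (ZMod 2) s t f0 u ≠ 0 := by
    unfold vec
    rw [Pi.sub_apply]
    rcases hf0 with hf | hf
    · rw [hf.1, Pi.single_eq_same, Pi.single_eq_of_ne hf.2.symm, sub_zero]
      exact one_ne_zero
    · rw [hf.1, Pi.single_eq_same, Pi.single_eq_of_ne hf.2.symm, zero_sub]
      exact neg_ne_zero.2 one_ne_zero
  obtain ⟨R, hR⟩ : ∃ R : Set E, R = {f | s f ≠ u ∧ t f ≠ u} := ⟨_, rfl⟩
  have hsum : ∀ f, sumC (vec (ZMod 2) s t f) = 0 := fun f => sumC_ev s t p (some f)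
  have h1 : y f0 ∉ span F (y '' R) := by
    rw [← hy]
    intro h
    apply hf1
    have h2 : span (ZMod 2) (insert (ev s t p none) (vec (ZMod 2) s t '' R)) ≤
        LinearMap.ker (LinearMap.proj u : (V → ZMod 2) →ₗ[ZMod 2] ZMod 2) := by
      rw [span_le]
      rintro _ (rfl | ⟨f, hf, rfl⟩)
      · exact ev_none_zero (s := s) (t := t) hu
      · rw [hR] at hf
        exact vec_zero hf.1 hf.2
    exact h2 h
  obtain ⟨ψ, h2, h4⟩ := Submodule.exists_le_ker_of_notMem h1
  refine ⟨ψ, fun f => ⟨fun h5 => ?_, fun h5 => ?_⟩⟩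
  · by_contra h6
    apply h2
    have h7 : y f0 ∈ span F (y '' insert f R) := by
      rw [← hy]
      apply span_mono (subset_insert _ _)
      rw [Set.image_insert_eq]
      have h8 : vec (ZMod 2) s t f0 =
          vec (ZMod 2) s t f + (vec (ZMod 2) s t f0 - vec (ZMod 2) s t f) := by abel
      rw [h8]
      refine add_mem (subset_span (mem_insert _ _)) (span_mono (subset_insert _ _) ?_)
      rw [hR]
      refine vec_mem_off hoff hb ?_ ?_
      · rw [map_sub, hsum, hsum, sub_self]
      · rw [Pi.sub_apply, zmod_one hf1, zmod_one h6, sub_self]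
    have h9 : span F (y '' insert f R) ≤ LinearMap.ker ψ := by
      rw [Set.image_insert_eq, span_insert]
      refine sup_le ?_ h4
      rw [span_singleton_le_iff_mem]
      exact h5
    exact h9 h7
  · have h6 : y f ∈ span F (y '' R) := by
      rw [← hy]
      apply span_mono (subset_insert _ _)
      rw [hR]
      exact vec_mem_off hoff hb (hsum f) h5
    exact h4 h6

theorem rk_le (y : E → W') (X : Set E) : finrank F (span F (y '' X)) ≤ X.ncard := by
  classical
  have : Fintype (y '' X) := Fintype.ofFinite _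
  have h1 := finrank_span_le_card (R := F) (y '' X)
  rw [← Set.ncard_eq_toFinset_card'] at h1
  exact h1.trans (Set.ncard_image_le (Set.toFinite X))

theorem rk_tr (hy : Tr F s t p y) (K : Set E) : finrank F (span F (y '' K)) ≤
    finrank (ZMod 2) (span (ZMod 2) (vec (ZMod 2) s t '' K)) := by
  obtain ⟨B, hBK, hsp, hli⟩ : ∃ B ⊆ K, vec (ZMod 2) s t '' K ⊆
      span (ZMod 2) (vec (ZMod 2) s t '' B) ∧ LinearIndepOn (ZMod 2) (vec (ZMod 2) s t) B :=
    ⟨_, (linearIndepOn_empty (ZMod 2) (vec (ZMod 2) s t)).extend_subset (empty_subset K),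
      (linearIndepOn_empty (ZMod 2) (vec (ZMod 2) s t)).image_subset_span_image_extend
        (empty_subset K),
      (linearIndepOn_empty (ZMod 2) (vec (ZMod 2) s t)).linearIndepOn_extend (empty_subset K)⟩
  have h1 : span F (y '' K) ≤ span F (y '' B) := by
    rw [span_le]
    rintro _ ⟨f, hf, rfl⟩
    have h2 := hsp ⟨f, hf, rfl⟩
    exact (hy f B).1 (span_mono (subset_insert _ _) h2)
  have hfin : FiniteDimensional F (span F (y '' B)) :=
    FiniteDimensional.span_of_finite F (Set.toFinite _)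
  have h2 := Submodule.finrank_mono h1
  have h3 := rk_le (F := F) y B
  have h4 := (indepOn_iff B).1 hli
  have h5 := Submodule.finrank_mono
    (span_mono (R := ZMod 2) (Set.image_mono (f := vec (ZMod 2) s t) hBK))
  unfold rk at h4
  omega

/-- the relation between the functionals of the vertices of `C` -/
theorem exists_rel' (hy : Tr F s t p y) {C : Set V} (hC : Comp s t p C) (ψ : V → W' →ₗ[F] F)
    (hψ : ∀ u ∈ C, ∀ f, ψ u (y f) = 0 ↔ vec (ZMod 2) s t f u = 0) :
    ∃ l : V → F, (∀ u, u ∉ C → l u = 0) ∧ (∀ u ∈ C, l u ≠ 0) ∧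
      ∀ f ∈ KT s t p, ∑ u, l u * ψ u (y f) = 0 := by
  classical
  obtain ⟨u0', -, hu0', -⟩ := hC.adj 0
  obtain ⟨u0, hu0⟩ : ∃ u, u ∈ C := by
    obtain ⟨f, u, hu, _⟩ := hC.adj 0
    exact ⟨u, hu⟩
  obtain ⟨K, hK⟩ : ∃ K : Set E, K = {f | f ∈ KT s t p ∧ s f ∈ C} := ⟨_, rfl⟩
  obtain ⟨ψ', hψ'⟩ : ∃ ψ' : V → W' →ₗ[F] F, ∀ u, ψ' u = if u ∈ C then ψ u else 0 :=
    ⟨_, fun _ => rfl⟩
  obtain ⟨S, hS⟩ : ∃ S, S = (span F (y '' K)).map (LinearMap.pi ψ') := ⟨_, rfl⟩
  have hfin : FiniteDimensional F (span F (y '' K)) :=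
    FiniteDimensional.span_of_finite F (Set.toFinite _)
  -- the rank of the edges of `C`
  have h1 : finrank (ZMod 2) (span (ZMod 2) (vec (ZMod 2) s t '' K)) < C.ncard := by
    have h2 : span (ZMod 2) (vec (ZMod 2) s t '' K) <
        span (ZMod 2) ((fun u : V => (Pi.single u 1 : V → ZMod 2)) '' C) := by
      refine lt_of_le_of_ne ?_ ?_
      · rw [span_le]
        rintro _ ⟨f, hf, rfl⟩
        rw [hK] at hf
        exact sub_mem (subset_span ⟨s f, hf.2, rfl⟩)
          (subset_span ⟨t f, (hC.closed f hf.1).1 hf.2, rfl⟩)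
      · intro h3
        have h4 : (Pi.single u0 1 : V → ZMod 2) ∈ span (ZMod 2) (vec (ZMod 2) s t '' K) := by
          rw [h3]
          exact subset_span ⟨u0, hu0, rfl⟩
        have h5 : span (ZMod 2) (vec (ZMod 2) s t '' K) ≤ LinearMap.ker (sumC (V := V)) := by
          rw [span_le]
          rintro _ ⟨f, _, rfl⟩
          exact sumC_ev s t p (some f)
        have h6 : sumC (Pi.single u0 1 : V → ZMod 2) = 0 := h5 h4
        rw [sumC_single] at h6
        exact one_ne_zero h6
    have h3 := Submodule.finrank_lt_finrank_of_lt h2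
    have h4 := rk_le_ncard (fun u : V => (Pi.single u 1 : V → ZMod 2)) C
    unfold rk at h4
    omega
  have h2 := rk_tr hy K
  have h3 : finrank F S ≤ finrank F (span F (y '' K)) := by
    rw [hS]
    exact Submodule.finrank_map_le _ _
  obtain ⟨u1, hu1, hu1S⟩ : ∃ u ∈ C, (Pi.single u 1 : V → F) ∉ S := by
    by_contra hcon
    push Not at hcon
    have h4 : span F ((fun u : V => (Pi.single u 1 : V → F)) '' C) ≤ S := by
      rw [span_le]
      rintro _ ⟨u, hu, rfl⟩
      exact hcon u hu
    have h5 := Submodule.finrank_mono h4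
    have h6 : LinearIndepOn F (fun u : V => (Pi.single u 1 : V → F)) C :=
      (Pi.linearIndependent_single_one V F).linearIndepOn C
    have h7 := (indepOn_iff C).1 h6
    unfold rk at h7
    omega
  obtain ⟨θ, h4, h5⟩ := Submodule.exists_le_ker_of_notMem hu1S
  have hθ : ∀ z : V → F, θ z = ∑ u, θ (Pi.single u 1) * z u := by
    intro z
    have h5 : z = ∑ v, z v • (Pi.single v 1 : V → F) := by
      funext q
      simp [Finset.sum_apply, Pi.single_apply]
    conv_lhs => rw [h5, map_sum]
    refine Finset.sum_congr rfl fun u _ => ?_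
    rw [map_smul, smul_eq_mul, mul_comm]
  obtain ⟨l, hl⟩ : ∃ l : V → F, ∀ u, l u = if u ∈ C then θ (Pi.single u 1) else 0 :=
    ⟨_, fun _ => rfl⟩
  have hrel : ∀ f ∈ KT s t p, ∑ u, l u * ψ u (y f) = 0 := by
    intro f hf
    by_cases hfC : s f ∈ C
    · have h6 : LinearMap.pi ψ' (y f) ∈ S := by
        rw [hS]
        exact mem_map_of_mem (subset_span ⟨f, by rw [hK]; exact ⟨hf, hfC⟩, rfl⟩)
      have h7 : θ (LinearMap.pi ψ' (y f)) = 0 := h5 h6
      rw [hθ] at h7
      rw [← h7]
      refine Finset.sum_congr rfl fun u _ => ?_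
      rw [LinearMap.pi_apply, hψ', hl]
      split_ifs
      · rfl
      · rw [zero_mul, LinearMap.zero_apply, mul_zero]
    · apply Finset.sum_eq_zero
      intro u _
      rw [hl]
      split_ifs with hu
      · rw [(hψ u hu f).2 (vec_zero (fun h => hfC (h ▸ hu))
          (fun h => hfC ((hC.closed f hf).2 (h ▸ hu)))), mul_zero]
      · rw [zero_mul]
  refine ⟨l, fun u hu => by rw [hl, if_neg hu], ?_, hrel⟩
  have hedge : ∀ f ∈ KT s t p, s f ∈ C → s f ≠ t f → (l (s f) = 0 ↔ l (t f) = 0) := by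
    intro f hfK hfC hf
    have htC := (hC.closed f hfK).1 hfC
    have h1 := hrel f hfK
    rw [Fintype.sum_eq_add (s f) (t f) hf (fun u hu => by
      by_cases huC : u ∈ C
      · rw [(hψ u huC f).2 (vec_zero hu.1.symm hu.2.symm), mul_zero]
      · rw [hl, if_neg huC, zero_mul])] at h1
    have hA : ψ (s f) (y f) ≠ 0 := by
      rw [Ne, hψ _ hfC]
      unfold vec
      rw [Pi.sub_apply, Pi.single_eq_same, Pi.single_eq_of_ne hf, sub_zero]
      exact one_ne_zero
    have hB : ψ (t f) (y f) ≠ 0 := by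
      rw [Ne, hψ _ htC]
      unfold vec
      rw [Pi.sub_apply, Pi.single_eq_same, Pi.single_eq_of_ne hf.symm, zero_sub]
      exact neg_ne_zero.2 one_ne_zero
    constructor
    · intro h4
      rw [h4, zero_mul, zero_add] at h1
      exact (mul_eq_zero.1 h1).resolve_right hB
    · intro h4
      rw [h4, zero_mul, add_zero] at h1
      exact (mul_eq_zero.1 h1).resolve_right hA
  intro u hu hu0
  have hl1 : l u1 ≠ 0 := by
    rw [hl, if_pos hu1]
    exact h4
  obtain ⟨χ, h6, h7⟩ := exists_chi (ZMod 2) {v : V | v ∈ C ∧ l v = 0}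
  have h8 : span (ZMod 2) (vec (ZMod 2) s t '' KT s t p) ≤ LinearMap.ker χ := by
    rw [span_le]
    rintro _ ⟨g, hg, rfl⟩
    show χ (Pi.single (s g) 1 - Pi.single (t g) 1) = 0
    rw [map_sub]
    have h9 : (s g ∈ C ∧ l (s g) = 0) ↔ (t g ∈ C ∧ l (t g) = 0) := by
      by_cases hst : s g = t g
      · rw [hst]
      · by_cases hgC : s g ∈ C
        · rw [and_iff_right hgC, and_iff_right ((hC.closed g hg).1 hgC)]
          exact hedge g hg hgC hst
        · exact iff_of_false (fun h => hgC h.1) (fun h => hgC ((hC.closed g hg).2 h.1))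
    by_cases h10 : s g ∈ C ∧ l (s g) = 0
    · rw [h6 _ h10, h6 _ (h9.1 h10), sub_self]
    · rw [h7 _ h10, h7 _ (fun h11 => h10 (h9.2 h11)), sub_self]
  have h9 : χ (Pi.single u 1 + Pi.single u1 1) = 0 := h8 (hC.conn u hu u1 hu1)
  rw [map_add, h6 u ⟨hu, hu0⟩, h7 u1 (fun h => hl1 h.2), add_zero] at h9
  exact one_ne_zero h9

end con

end Pool.Agent.H85.TG
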