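import Pool.Agent.H85.TG.Cot

set_option autoImplicit false
set_option linter.unusedSectionVars false

/-!
# Grafts with four vertices: if a component of `G - T` is adjacent to all of `T` and all three pairs of
# disjoint paths exist, the contraction of the added element is not representable if `2 ≠ 0`
-/

open Set Matroid Module Submodule
open scoped Matroid

namespace Pool.Agent.H85.TG

open Pool.Agent.H18.SG (vec linMat linMat_indep linMat_ground gr)
open Pool.Agent.H36.TX (IsRep Rep Regular ThreeConn)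
open Pool.Agent.H85.TX (rk indepOn_iff eRk_eq Represents mem_closure_iff)

variable {V E : Type} [Fintype V] [DecidableEq V] [Finite E]
variable {s t : E → V} {p : Fin 4 → V} {c : V → Fin 4}

theorem Dist.all {i j k l : Fin 4} (h : Dist i j k l) : ∀ q : Fin 4, q = i ∨ q = j ∨ q = k ∨ q = l := by
  unfold Dist at h
  revert i j k l
  decide

theorem Dist.swap {i j k l : Fin 4} (h : Dist i j k l) : Dist k l i j := by
  obtain ⟨h1, h2, h3, h4, h5, h6⟩ := h
  exact ⟨h6, h2.symm, h4.symm, h3.symm, h5.symm, h1⟩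

theorem Dist.mid {i j k l : Fin 4} (h : Dist i j k l) : Dist i k j l := by
  obtain ⟨h1, h2, h3, h4, h5, h6⟩ := h
  exact ⟨h2, h1, h3, h4.symm, h6, h5⟩

theorem exists_dist {i j : Fin 4} (h : i ≠ j) : ∃ k l, Dist i j k l := by
  unfold Dist
  revert i j
  decide

theorem sum4 {M : Type} [AddCommMonoid M] {i j k l : Fin 4} (h : Dist i j k l) (g : Fin 4 → M) :
    ∑ m, g m = g i + g j + g k + g l := by
  have h1 := h.all
  obtain ⟨hij, hik, hil, hjk, hjl, hkl⟩ := h
  have h2 : (Finset.univ : Finset (Fin 4)) = {i, j, k, l} := by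
    ext q
    simpa using h1 q
  rw [h2, Finset.sum_insert (by simp [hij, hik, hil]), Finset.sum_insert (by simp [hjk, hjl]),
    Finset.sum_pair hkl]
  simp only [add_assoc]

/-- the coefficients -/
def cf {F : Type} (i j k : Fin 4) (a b a' b' : F) (m : Fin 4) : F :=
  if m = i then a else if m = j then b else if m = k then a' else b'

theorem sum_cf {F W' : Type} [Field F] [AddCommGroup W'] [Module F W'] {i j k l : Fin 4}
    (h : Dist i j k l) (a b a' b' : F) (z : Fin 4 → W') :
    ∑ m, cf i j k a b a' b' m • z m = a • z i + b • z j + a' • z k + b' • z l := by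
  rw [sum4 h]
  obtain ⟨hij, hik, hil, hjk, hjl, hkl⟩ := h
  unfold cf
  rw [if_pos rfl, if_neg hij.symm, if_pos rfl, if_neg hik.symm, if_neg hjk.symm, if_pos rfl,
    if_neg hil.symm, if_neg hjl.symm, if_neg hkl.symm]

section cou

variable {F W' : Type} [Field F] [AddCommGroup W'] [Module F W'] {y : E → W'}

/-- the data: a component `C`, edges `f m` from `u m ∈ C` to `p m`, functionals of the vertices -/
structure Data (F : Type) [Field F] {W' : Type} [AddCommGroup W'] [Module F W'] (s t : E → V)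
    (p : Fin 4 → V) (y : E → W') (C : Set V) (f : Fin 4 → E) (u : Fin 4 → V)
    (Θ : Set V → W' →ₗ[F] F) : Prop where
  inj : Function.Injective p
  tr : Tr F s t p y
  comp : Comp s t p C
  mem : ∀ m, u m ∈ C
  ed : ∀ m, Ed s t (f m) (u m) (p m)
  -- the functionals
  avoid : ∀ X g, s g ∉ C → t g ∉ C → Θ X (y g) = 0
  inside : ∀ X g, g ∈ KT s t p → (s g ∈ X ↔ t g ∈ X) → Θ X (y g) = 0
  on : ∀ X g v m, v ∈ C → v ∈ X → Ed s t g v (p m) → Θ X (y g) = Θ univ (y g)
  off : ∀ X g v m, v ∈ C → v ∉ X → Ed s t g v (p m) → Θ X (y g) = 0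
  ne : ∀ g v m, v ∈ C → Ed s t g v (p m) → Θ univ (y g) ≠ 0

variable {C : Set V} {f : Fin 4 → E} {u : Fin 4 → V} {Θ : Set V → W' →ₗ[F] F}

theorem notT (D : Data F s t p y C f u Θ) {v : V} (hv : v ∈ C) (m : Fin 4) : p m ≠ v :=
  fun h => D.comp.disj m (h ▸ hv)

theorem ker_S (D : Data F s t p y C f u Θ) : span F (y '' KT s t p) ≤ LinearMap.ker (Θ univ) := by
  rw [span_le]
  rintro _ ⟨g, hg, rfl⟩
  exact D.inside univ g hg (iff_of_true (mem_univ _) (mem_univ _))

/-- relations between three of the four vectors are trivial -/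
theorem ind3 (D : Data F s t p y C f u Θ) {x : Fin 4 → F}
    (hx : ∑ m, x m • y (f m) ∈ span F (y '' KT s t p)) {a : Fin 4} (ha : x a = 0) : x = 0 := by
  by_contra hcon
  obtain ⟨b, hb⟩ : ∃ b, x b ≠ 0 := by
    by_contra h
    push Not at h
    exact hcon (funext h)
  have hab : a ≠ b := fun h => hb (h ▸ ha)
  obtain ⟨k, l, hd⟩ := exists_dist hab
  rw [sum4 hd, ha, zero_smul, zero_add] at hx
  have h1 : y (f b) ∈ span F (y '' (insert (f k) (insert (f l) (KT s t p)))) := by
    have h2 : x b • y (f b) ∈ span F (y '' (insert (f k) (insert (f l) (KT s t p)))) := by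
      have h3 : x b • y (f b) = (x b • y (f b) + x k • y (f k) + x l • y (f l)) -
          (x k • y (f k) + x l • y (f l)) := by abel
      rw [h3]
      refine sub_mem (span_mono (Set.image_mono ?_) hx) (add_mem ?_ ?_)
      · exact (subset_insert _ _).trans (subset_insert _ _)
      · exact smul_mem _ _ (subset_span ⟨f k, mem_insert _ _, rfl⟩)
      · exact smul_mem _ _ (subset_span ⟨f l, mem_insert_of_mem _ (mem_insert _ _), rfl⟩)
    exact (Submodule.smul_mem_iff _ hb).1 h2
  rw [← D.tr] at h1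
  obtain ⟨hab', hak, hal, hbk, hbl, hkl⟩ := hd
  have hne : ∀ m m', m ≠ m' → p m ≠ p m' := fun m m' h h' => h (D.inj h')
  refine not_mem_of_cut (Z := {p a, p b}) ?_ ?_ ?_ h1
  · refine he_pair (i := a) (j := b) (k := k) (l := l) ⟨hab', hak, hal, hbk, hbl, hkl⟩
      (Or.inl rfl) (Or.inr rfl) ?_ ?_
    · rintro (h | h)
      · exact hne k a hak.symm h
      · exact hne k b hbk.symm h
    · rintro (h | h)
      · exact hne l a hal.symm h
      · exact hne l b hbl.symm h
  · have hm : ∀ m, m ≠ a → m ≠ b → (s (f m) ∈ ({p a, p b} : Set V) ↔ t (f m) ∈ ({p a, p b} : Set V)) := by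
      intro m hma hmb
      have h2 : u m ∉ ({p a, p b} : Set V) := by
        rintro (h | h)
        · exact notT D (D.mem m) a h.symm
        · exact notT D (D.mem m) b h.symm
      have h3 : p m ∉ ({p a, p b} : Set V) := by
        rintro (h | h)
        · exact hne m a hma h
        · exact hne m b hmb h
      rcases D.ed m with ⟨h4, h5⟩ | ⟨h4, h5⟩
      · rw [h4, h5]
        exact iff_of_false h2 h3
      · rw [h4, h5]
        exact iff_of_false h3 h2
    rintro g (rfl | rfl | hg)
    · exact hm k hak.symm hbk.symm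
    · exact hm l hal.symm hbl.symm
    · refine iff_of_false ?_ ?_
      · rintro (h | h)
        · exact hg.1 a h.symm
        · exact hg.1 b h.symm
      · rintro (h | h)
        · exact hg.2 a h.symm
        · exact hg.2 b h.symm
  · have h2 : u b ∉ ({p a, p b} : Set V) := by
      rintro (h | h)
      · exact notT D (D.mem b) a h.symm
      · exact notT D (D.mem b) b h.symm
    have h3 : p b ∈ ({p a, p b} : Set V) := Or.inr rfl
    rcases D.ed b with ⟨h4, h5⟩ | ⟨h4, h5⟩
    · rw [h4, h5]
      exact fun h => h2 (h.2 h3)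
    · rw [h4, h5]
      exact fun h => h2 (h.1 h3)

/-- A vector `b0` outside of the span, in two planes, gives the relation. -/
theorem rel_of (D : Data F s t p y C f u Θ) {i j k l : Fin 4} (hd : Dist i j k l) {b0 s1 s2 : W'}
    {a b a' b' : F} (h1 : b0 = a • y (f i) + b • y (f j) + s1)
    (h2 : b0 = a' • y (f k) + b' • y (f l) + s2) (hs1 : s1 ∈ span F (y '' KT s t p))
    (hs2 : s2 ∈ span F (y '' KT s t p)) (h0 : Θ univ b0 = 0)
    (hn : b0 ∉ span F (y '' KT s t p)) :
    ∃ x : Fin 4 → F, x ≠ 0 ∧ ∑ m, x m • y (f m) ∈ span F (y '' KT s t p) ∧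
      x i * Θ univ (y (f i)) + x j * Θ univ (y (f j)) = 0 := by
  refine ⟨cf i j k a b (-a') (-b'), ?_, ?_, ?_⟩
  · intro h
    apply hn
    have ha : a = 0 := by
      have := congrFun h i
      simpa [cf] using this
    have hb : b = 0 := by
      have := congrFun h j
      simpa [cf, hd.1.symm] using this
    rw [h1, ha, hb, zero_smul, zero_smul, zero_add, zero_add]
    exact hs1
  · rw [sum_cf hd]
    have h3 : a • y (f i) + b • y (f j) + -a' • y (f k) + -b' • y (f l) = s2 - s1 := by
      have h4 : a • y (f i) + b • y (f j) = b0 - s1 := by rw [h1]; abel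
      have h5 : a' • y (f k) + b' • y (f l) = b0 - s2 := by rw [h2]; abel
      rw [neg_smul, neg_smul, h4]
      have h6 : b0 - s1 + -(a' • y (f k)) + -(b' • y (f l)) =
          b0 - s1 - (a' • y (f k) + b' • y (f l)) := by abel
      rw [h6, h5]
      abel
    rw [h3]
    exact sub_mem hs2 hs1
  · have h3 : Θ univ s1 = 0 := ker_S D hs1
    rw [h1, map_add, map_add, map_smul, map_smul, h3, add_zero, smul_eq_mul, smul_eq_mul] at h0
    have hi : cf i j k a b (-a') (-b') i = a := by simp [cf]
    have hj : cf i j k a b (-a') (-b') j = b := by simp [cf, hd.1.symm]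
    rw [hi, hj]
    exact h0

/-- membership in the span of two vectors and `S` -/
theorem mem2 {X : Set E} {g1 g2 : E} {z : W'} (h : z ∈ span F (y '' insert g1 (insert g2 X))) :
    ∃ a b : F, ∃ s1 ∈ span F (y '' X), z = a • y g1 + b • y g2 + s1 := by
  rw [Set.image_insert_eq, mem_span_insert] at h
  obtain ⟨a, z1, h1, h2⟩ := h
  rw [Set.image_insert_eq, mem_span_insert] at h1
  obtain ⟨b, z2, h3, h4⟩ := h1
  exact ⟨a, b, z2, h3, by rw [h2, h4, add_assoc]⟩

theorem mem3 {X : Set E} {g1 g2 g3 : E} {z : W'}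
    (h : z ∈ span F (y '' insert g1 (insert g2 (insert g3 X)))) :
    ∃ α a b : F, ∃ s1 ∈ span F (y '' X), z = α • y g1 + (a • y g2 + b • y g3 + s1) := by
  rw [Set.image_insert_eq, mem_span_insert] at h
  obtain ⟨a, z1, h1, h2⟩ := h
  obtain ⟨b, b', s1, h3, h4⟩ := mem2 h1
  exact ⟨a, b, b', s1, h3, by rw [h2, h4]⟩

theorem uu (D : Data F s t p y C f u Θ) (a b : Fin 4) :
    (Pi.single (u a) 1 + Pi.single (u b) 1 : V → ZMod 2) ∈
      span (ZMod 2) (vec (ZMod 2) s t '' KT s t p) := D.comp.conn _ (D.mem a) _ (D.mem b)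

/-- a path from `p i` to `p j` avoiding `C`: an edge -/
theorem rel_edge (D : Data F s t p y C f u Θ) {i j k l : Fin 4} (hd : Dist i j k l) {g : E}
    (hg : Ed s t g (p i) (p j)) :
    ∃ x : Fin 4 → F, x ≠ 0 ∧ ∑ m, x m • y (f m) ∈ span F (y '' KT s t p) ∧
      x i * Θ univ (y (f i)) + x j * Θ univ (y (f j)) = 0 := by
  have hd' := hd
  obtain ⟨hij, hik, hil, hjk, hjl, hkl⟩ := hd'
  have hne : ∀ m m', m ≠ m' → p m ≠ p m' := fun m m' h h' => h (D.inj h')
  have h1 : y g ∈ span F (y '' insert (f i) (insert (f j) (KT s t p))) := by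
    rw [← D.tr, hg.eq]
    apply span_mono (subset_insert _ _)
    have h2 : (Pi.single (p i) 1 + Pi.single (p j) 1 : V → ZMod 2) =
        (Pi.single (u i) 1 + Pi.single (p i) 1) + (Pi.single (u j) 1 + Pi.single (p j) 1) -
          (Pi.single (u i) 1 + Pi.single (u j) 1) := by abel
    rw [h2, ← (D.ed i).eq, ← (D.ed j).eq]
    refine sub_mem (add_mem (subset_span ⟨f i, mem_insert _ _, rfl⟩)
      (subset_span ⟨f j, mem_insert_of_mem _ (mem_insert _ _), rfl⟩))
      (span_mono (Set.image_mono ?_) (uu D i j))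
    exact (subset_insert _ _).trans (subset_insert _ _)
  have h3 : y g ∈ span F (y '' insert (f k) (insert (f l) (KT s t p))) := by
    rw [← D.tr, hg.eq]
    have h2 : (Pi.single (p i) 1 + Pi.single (p j) 1 : V → ZMod 2) = ev s t p none -
        (Pi.single (u k) 1 + Pi.single (p k) 1) - (Pi.single (u l) 1 + Pi.single (p l) 1) +
          (Pi.single (u k) 1 + Pi.single (u l) 1) := by
      rw [ev_none_eq hik hij hil hjk.symm hkl hjl, sub_vec (Pi.single (p i) 1),
        sub_vec (Pi.single (p j) 1)]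
      abel
    rw [h2, ← (D.ed k).eq, ← (D.ed l).eq]
    refine add_mem (sub_mem (sub_mem (subset_span (mem_insert _ _))
      (subset_span (mem_insert_of_mem _ ⟨f k, mem_insert _ _, rfl⟩)))
      (subset_span (mem_insert_of_mem _ ⟨f l, mem_insert_of_mem _ (mem_insert _ _), rfl⟩)))
      (span_mono ?_ (uu D k l))
    exact (Set.image_mono ((subset_insert _ _).trans (subset_insert _ _))).trans
      (subset_insert _ _)
  obtain ⟨a, b, s1, hs1, h4⟩ := mem2 h1
  obtain ⟨a', b', s2, hs2, h5⟩ := mem2 h3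
  refine rel_of D hd h4 h5 hs1 hs2 ?_ ?_
  · rcases hg with ⟨h6, h7⟩ | ⟨h6, h7⟩
    · exact D.avoid _ _ (by rw [h6]; exact D.comp.disj i) (by rw [h7]; exact D.comp.disj j)
    · exact D.avoid _ _ (by rw [h6]; exact D.comp.disj j) (by rw [h7]; exact D.comp.disj i)
  · rw [← D.tr]
    refine not_mem_of_cut (Z := {p i, p k}) ?_ ?_ ?_
    · refine he_pair hd.mid (Or.inl rfl) (Or.inr rfl) ?_ ?_
      · rintro (h | h)
        · exact hne j i hij.symm h
        · exact hne j k hjk h
      · rintro (h | h)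
        · exact hne l i hil.symm h
        · exact hne l k hkl.symm h
    · intro g' hg'
      refine iff_of_false ?_ ?_
      · rintro (h | h)
        · exact hg'.1 i h.symm
        · exact hg'.1 k h.symm
      · rintro (h | h)
        · exact hg'.2 i h.symm
        · exact hg'.2 k h.symm
    · have h8 : p i ∈ ({p i, p k} : Set V) := Or.inl rfl
      have h9 : p j ∉ ({p i, p k} : Set V) := by
        rintro (h | h)
        · exact hne j i hij.symm h
        · exact hne j k hjk h
      rcases hg with ⟨h6, h7⟩ | ⟨h6, h7⟩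
      · rw [h6, h7]
        exact fun h => h9 (h.1 h8)
      · rw [h6, h7]
        exact fun h => h9 (h.2 h8)

/-- a path from `p i` to `p j` avoiding `C`, with inner vertices -/
theorem rel_path (D : Data F s t p y C f u Θ) {i j k l : Fin 4} (hd : Dist i j k l) {gi gj : E}
    {di dj : V} (hgi : Ed s t gi di (p i)) (hgj : Ed s t gj dj (p j)) (hi : di ∉ C) (hj : dj ∉ C)
    (hiT : ∀ m, p m ≠ di) (hjT : ∀ m, p m ≠ dj)
    (hdd : (Pi.single di 1 + Pi.single dj 1 : V → ZMod 2) ∈
      span (ZMod 2) (vec (ZMod 2) s t '' KT s t p)) :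
    ∃ x : Fin 4 → F, x ≠ 0 ∧ ∑ m, x m • y (f m) ∈ span F (y '' KT s t p) ∧
      x i * Θ univ (y (f i)) + x j * Θ univ (y (f j)) = 0 := by
  have hd' := hd
  obtain ⟨hij, hik, hil, hjk, hjl, hkl⟩ := hd'
  have hne : ∀ m m', m ≠ m' → p m ≠ p m' := fun m m' h h' => h (D.inj h')
  have hsub : KT s t p ⊆ insert gj (insert (f i) (insert (f j) (KT s t p))) :=
    ((subset_insert _ _).trans (subset_insert _ _)).trans (subset_insert _ _)
  have hsub' : KT s t p ⊆ insert gj (insert (f k) (insert (f l) (KT s t p))) :=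
    ((subset_insert _ _).trans (subset_insert _ _)).trans (subset_insert _ _)
  have h1 : y gi ∈ span F (y '' insert gj (insert (f i) (insert (f j) (KT s t p)))) := by
    rw [← D.tr, hgi.eq]
    apply span_mono (subset_insert _ _)
    have h2 : (Pi.single di 1 + Pi.single (p i) 1 : V → ZMod 2) =
        (Pi.single (u i) 1 + Pi.single (p i) 1) + (Pi.single (u j) 1 + Pi.single (p j) 1) -
          (Pi.single dj 1 + Pi.single (p j) 1) - (Pi.single (u i) 1 + Pi.single (u j) 1) +
          (Pi.single di 1 + Pi.single dj 1) := by abel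
    rw [h2, ← (D.ed i).eq, ← (D.ed j).eq, ← hgj.eq]
    refine add_mem (sub_mem (sub_mem (add_mem ?_ ?_) ?_) ?_) ?_
    · exact subset_span ⟨f i, mem_insert_of_mem _ (mem_insert _ _), rfl⟩
    · exact subset_span ⟨f j, mem_insert_of_mem _ (mem_insert_of_mem _ (mem_insert _ _)), rfl⟩
    · exact subset_span ⟨gj, mem_insert _ _, rfl⟩
    · exact span_mono (Set.image_mono hsub) (uu D i j)
    · exact span_mono (Set.image_mono hsub) hdd
  have h3 : y gi ∈ span F (y '' insert gj (insert (f k) (insert (f l) (KT s t p)))) := by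
    rw [← D.tr, hgi.eq]
    have h2 : (Pi.single di 1 + Pi.single (p i) 1 : V → ZMod 2) = ev s t p none -
        (Pi.single (u k) 1 + Pi.single (p k) 1) - (Pi.single (u l) 1 + Pi.single (p l) 1) +
          (Pi.single (u k) 1 + Pi.single (u l) 1) - (Pi.single dj 1 + Pi.single (p j) 1) +
          (Pi.single di 1 + Pi.single dj 1) := by
      rw [ev_none_eq hik hij hil hjk.symm hkl hjl, sub_vec (Pi.single (p i) 1),
        sub_vec (Pi.single (p j) 1)]
      abel
    rw [h2, ← (D.ed k).eq, ← (D.ed l).eq, ← hgj.eq]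
    refine add_mem (sub_mem (add_mem (sub_mem (sub_mem ?_ ?_) ?_) ?_) ?_) ?_
    · exact subset_span (mem_insert _ _)
    · exact subset_span (mem_insert_of_mem _ ⟨f k, mem_insert_of_mem _ (mem_insert _ _), rfl⟩)
    · exact subset_span (mem_insert_of_mem _
        ⟨f l, mem_insert_of_mem _ (mem_insert_of_mem _ (mem_insert _ _)), rfl⟩)
    · exact span_mono ((Set.image_mono hsub').trans (subset_insert _ _)) (uu D k l)
    · exact subset_span (mem_insert_of_mem _ ⟨gj, mem_insert _ _, rfl⟩)
    · exact span_mono ((Set.image_mono hsub').trans (subset_insert _ _)) hdd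
  obtain ⟨α, a, b, s1, hs1, h4⟩ := mem3 h1
  obtain ⟨α', a', b', s2, hs2, h5⟩ := mem3 h3
  -- the two coefficients agree
  have hα : α = α' := by
    by_contra hcon
    have h6 : y gj ∈ span F (y '' (range f ∪ KT s t p)) := by
      have h7 : (α - α') • y gj ∈ span F (y '' (range f ∪ KT s t p)) := by
        have h8 : (α - α') • y gj = (a' • y (f k) + b' • y (f l) + s2) -
            (a • y (f i) + b • y (f j) + s1) := by
          have h9 : α • y gj = y gi - (a • y (f i) + b • y (f j) + s1) := by
            rw [h4]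
            abel
          have h10 : α' • y gj = y gi - (a' • y (f k) + b' • y (f l) + s2) := by
            rw [h5]
            abel
          rw [sub_smul, h9, h10]
          abel
        have hf : ∀ m, y (f m) ∈ span F (y '' (range f ∪ KT s t p)) := fun m =>
          subset_span ⟨f m, Or.inl ⟨m, rfl⟩, rfl⟩
        have hS : span F (y '' KT s t p) ≤ span F (y '' (range f ∪ KT s t p)) :=
          span_mono (Set.image_mono subset_union_right)
        rw [h8]
        exact sub_mem (add_mem (add_mem (smul_mem _ _ (hf k)) (smul_mem _ _ (hf l))) (hS hs2))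
          (add_mem (add_mem (smul_mem _ _ (hf i)) (smul_mem _ _ (hf j))) (hS hs1))
      exact (Submodule.smul_mem_iff _ (sub_ne_zero.2 hcon)).1 h7
    rw [← D.tr] at h6
    refine not_mem_of_cut (Z := {v | v ∈ C ∨ ∃ m, p m = v}) ?_ ?_ ?_ h6
    · exact he_all fun m => Or.inr ⟨m, rfl⟩
    · rintro g (⟨m, rfl⟩ | hg)
      · rcases D.ed m with ⟨h7, h8⟩ | ⟨h7, h8⟩
        · rw [h7, h8]
          exact iff_of_true (Or.inl (D.mem m)) (Or.inr ⟨m, rfl⟩)
        · rw [h7, h8]
          exact iff_of_true (Or.inr ⟨m, rfl⟩) (Or.inl (D.mem m))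
      · constructor
        · rintro (h | ⟨m, h⟩)
          · exact Or.inl ((D.comp.closed g hg).1 h)
          · exact absurd h (hg.1 m)
        · rintro (h | ⟨m, h⟩)
          · exact Or.inl ((D.comp.closed g hg).2 h)
          · exact absurd h (hg.2 m)
    · have h7 : p j ∈ {v | v ∈ C ∨ ∃ m, p m = v} := Or.inr ⟨j, rfl⟩
      have h8 : dj ∉ {v | v ∈ C ∨ ∃ m, p m = v} := by
        rintro (h | ⟨m, h⟩)
        · exact hj h
        · exact hjT m h
      rcases hgj with ⟨h9, h10⟩ | ⟨h9, h10⟩
      · rw [h9, h10]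
        exact fun h => h8 (h.2 h7)
      · rw [h9, h10]
        exact fun h => h8 (h.1 h7)
  rw [← hα] at h5
  have hav : ∀ g d m, Ed s t g d (p m) → d ∉ C → Θ univ (y g) = 0 := by
    rintro g d m (⟨h6, h7⟩ | ⟨h6, h7⟩) hdC
    · exact D.avoid _ _ (by rw [h6]; exact hdC) (by rw [h7]; exact D.comp.disj m)
    · exact D.avoid _ _ (by rw [h6]; exact D.comp.disj m) (by rw [h7]; exact hdC)
  refine rel_of D hd (b0 := y gi - α • y gj) (s1 := s1) (s2 := s2) (a := a) (b := b) (a' := a')
    (b' := b') (by rw [h4]; abel) (by rw [h5]; abel) hs1 hs2 ?_ ?_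
  · rw [map_sub, map_smul, hav gi di i hgi hi, hav gj dj j hgj hj, smul_zero, sub_zero]
  · intro hcon
    have h6 : y gi ∈ span F (y '' insert gj (KT s t p)) := by
      have h7 : y gi = (y gi - α • y gj) + α • y gj := by abel
      rw [h7]
      exact add_mem (span_mono (Set.image_mono (subset_insert _ _)) hcon)
        (smul_mem _ _ (subset_span ⟨gj, mem_insert _ _, rfl⟩))
    rw [← D.tr] at h6
    refine not_mem_of_cut (Z := {p i, p k}) ?_ ?_ ?_ h6
    · refine he_pair hd.mid (Or.inl rfl) (Or.inr rfl) ?_ ?_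
      · rintro (h | h)
        · exact hne j i hij.symm h
        · exact hne j k hjk h
      · rintro (h | h)
        · exact hne l i hil.symm h
        · exact hne l k hkl.symm h
    · rintro g' (rfl | hg')
      · have h7 : p j ∉ ({p i, p k} : Set V) := by
          rintro (h | h)
          · exact hne j i hij.symm h
          · exact hne j k hjk h
        have h8 : dj ∉ ({p i, p k} : Set V) := by
          rintro (h | h)
          · exact hjT i h.symm
          · exact hjT k h.symm
        rcases hgj with ⟨h9, h10⟩ | ⟨h9, h10⟩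
        · rw [h9, h10]
          exact iff_of_false h8 h7
        · rw [h9, h10]
          exact iff_of_false h7 h8
      · refine iff_of_false ?_ ?_
        · rintro (h | h)
          · exact hg'.1 i h.symm
          · exact hg'.1 k h.symm
        · rintro (h | h)
          · exact hg'.2 i h.symm
          · exact hg'.2 k h.symm
    · have h8 : p i ∈ ({p i, p k} : Set V) := Or.inl rfl
      have h9 : di ∉ ({p i, p k} : Set V) := by
        rintro (h | h)
        · exact hiT i h.symm
        · exact hiT k h.symm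
      rcases hgi with ⟨h6, h7⟩ | ⟨h6, h7⟩
      · rw [h6, h7]
        exact fun h => h9 (h.2 h8)
      · rw [h6, h7]
        exact fun h => h9 (h.1 h8)

/-- both paths go through `C` -/
theorem rel_both (D : Data F s t p y C f u Θ) {i j k l : Fin 4} (hd : Dist i j k l) {X : Set V}
    {gi gj gk gl : E} {di dj dk dl : V} (hgi : Ed s t gi di (p i)) (hgj : Ed s t gj dj (p j))
    (hgk : Ed s t gk dk (p k)) (hgl : Ed s t gl dl (p l)) (hi : di ∈ C) (hj : dj ∈ C) (hk : dk ∈ C)
    (hl : dl ∈ C) (hiX : di ∈ X) (hjX : dj ∈ X) (hkX : dk ∉ X) (hlX : dl ∉ X)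
    (hij : (Pi.single di 1 + Pi.single dj 1 : V → ZMod 2) ∈
      span (ZMod 2) (vec (ZMod 2) s t '' {g | g ∈ KT s t p ∧ (s g ∈ X ↔ t g ∈ X)}))
    (hkl : (Pi.single dk 1 + Pi.single dl 1 : V → ZMod 2) ∈
      span (ZMod 2) (vec (ZMod 2) s t '' {g | g ∈ KT s t p ∧ (s g ∈ X ↔ t g ∈ X)})) :
    ∃ x : Fin 4 → F, x ≠ 0 ∧ ∑ m, x m • y (f m) ∈ span F (y '' KT s t p) ∧
      x i * Θ univ (y (f i)) + x j * Θ univ (y (f j)) = 0 := by
  obtain ⟨K, hK⟩ : ∃ K : Set E, K = {g | g ∈ KT s t p ∧ (s g ∈ X ↔ t g ∈ X)} := ⟨_, rfl⟩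
  rw [← hK] at hij hkl
  have hKK : K ⊆ KT s t p := by
    rw [hK]
    exact fun g hg => hg.1
  have hsub : K ⊆ insert gj (insert gk (insert gl K)) :=
    ((subset_insert _ _).trans (subset_insert _ _)).trans (subset_insert _ _)
  have h1 : y gi ∈ span F (y '' insert gj (insert gk (insert gl K))) := by
    rw [← D.tr, hgi.eq]
    have hd' := hd
    obtain ⟨hij', hik, hil, hjk, hjl, hkl'⟩ := hd'
    have h2 : (Pi.single di 1 + Pi.single (p i) 1 : V → ZMod 2) = ev s t p none -
        (Pi.single dj 1 + Pi.single (p j) 1) - (Pi.single dk 1 + Pi.single (p k) 1) -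
          (Pi.single dl 1 + Pi.single (p l) 1) + (Pi.single di 1 + Pi.single dj 1) +
          (Pi.single dk 1 + Pi.single dl 1) := by
      rw [ev_none_eq hik hij' hil hjk.symm hkl' hjl, sub_vec (Pi.single (p i) 1),
        sub_vec (Pi.single (p j) 1)]
      abel
    rw [h2, ← hgj.eq, ← hgk.eq, ← hgl.eq]
    refine add_mem (add_mem (sub_mem (sub_mem (sub_mem ?_ ?_) ?_) ?_) ?_) ?_
    · exact subset_span (mem_insert _ _)
    · exact subset_span (mem_insert_of_mem _ ⟨gj, mem_insert _ _, rfl⟩)
    · exact subset_span (mem_insert_of_mem _ ⟨gk, mem_insert_of_mem _ (mem_insert _ _), rfl⟩)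
    · exact subset_span (mem_insert_of_mem _
        ⟨gl, mem_insert_of_mem _ (mem_insert_of_mem _ (mem_insert _ _)), rfl⟩)
    · exact span_mono ((Set.image_mono hsub).trans (subset_insert _ _)) hij
    · exact span_mono ((Set.image_mono hsub).trans (subset_insert _ _)) hkl
  obtain ⟨a, b, d, s1, hs1, h2⟩ := mem3 h1
  -- the given edges and the fixed edges
  have hlam : ∀ g v m, v ∈ C → Ed s t g v (p m) → ∃ r : F, ∃ z ∈ span F (y '' KT s t p),
      y g = r • y (f m) + z := by
    intro g v m hv hg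
    have h3 : y g ∈ span F (y '' insert (f m) (KT s t p)) := by
      rw [← D.tr, hg.eq]
      apply span_mono (subset_insert _ _)
      have h4 : (Pi.single v 1 + Pi.single (p m) 1 : V → ZMod 2) =
          (Pi.single (u m) 1 + Pi.single (p m) 1) + (Pi.single v 1 + Pi.single (u m) 1) := by
        have h5 := add_self_vec (Pi.single (u m) 1 : V → ZMod 2)
        calc (Pi.single v 1 + Pi.single (p m) 1 : V → ZMod 2)
            = (Pi.single v 1 + Pi.single (p m) 1) + 0 := by rw [add_zero]
          _ = (Pi.single v 1 + Pi.single (p m) 1) + (Pi.single (u m) 1 + Pi.single (u m) 1) := by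
            rw [h5]
          _ = _ := by abel
      rw [h4, ← (D.ed m).eq]
      exact add_mem (subset_span ⟨f m, mem_insert _ _, rfl⟩)
        (span_mono (Set.image_mono (subset_insert _ _)) (D.comp.conn _ hv _ (D.mem m)))
    rw [Set.image_insert_eq, mem_span_insert] at h3
    exact h3
  have hval : ∀ g (m : Fin 4) (r : F) (z : W'), z ∈ span F (y '' KT s t p) → y g = r • y (f m) + z →
      Θ univ (y g) = r * Θ univ (y (f m)) := by
    intro g m r z hz h3
    have h4 : Θ univ z = 0 := ker_S D hz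
    rw [h3, map_add, map_smul, h4, add_zero, smul_eq_mul]
  obtain ⟨ri, zi, hzi, h3⟩ := hlam gi di i hi hgi
  obtain ⟨rj, zj, hzj, h4⟩ := hlam gj dj j hj hgj
  obtain ⟨rk, zk, hzk, h5⟩ := hlam gk dk k hk hgk
  obtain ⟨rl, zl, hzl, h6⟩ := hlam gl dl l hl hgl
  have h7 := hval gi i ri zi hzi h3
  have h8 := hval gj j rj zj hzj h4
  have hs1' : s1 ∈ span F (y '' KT s t p) := span_mono (Set.image_mono hKK) hs1
  have hΘs : Θ X s1 = 0 := by
    have h9 : span F (y '' K) ≤ LinearMap.ker (Θ X) := by
      rw [span_le]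
      rintro _ ⟨g, hg, rfl⟩
      rw [hK] at hg
      exact D.inside X g hg.1 hg.2
    exact h9 hs1
  -- the relation between the two ends
  have h9 : Θ univ (y gi) = a * Θ univ (y gj) := by
    have h10 : Θ X (y gi) = Θ X (a • y gj + (b • y gk + d • y gl + s1)) := congrArg _ h2
    rw [map_add, map_add, map_add, map_smul, map_smul, map_smul, D.on X gi di i hi hiX hgi,
      D.on X gj dj j hj hjX hgj, D.off X gk dk k hk hkX hgk, D.off X gl dl l hl hlX hgl, hΘs,
      smul_zero, smul_zero, add_zero, add_zero, add_zero, smul_eq_mul] at h10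
    exact h10
  refine ⟨cf i j k ri (-(a * rj)) (-(b * rk)) (-(d * rl)), ?_, ?_, ?_⟩
  · intro h
    have h10 : ri = 0 := by
      have := congrFun h i
      simpa [cf] using this
    rw [h10, zero_mul] at h7
    exact D.ne gi di i hi hgi h7
  · rw [sum_cf hd]
    have h10 : ri • y (f i) + -(a * rj) • y (f j) + -(b * rk) • y (f k) + -(d * rl) • y (f l) =
        s1 - zi + a • zj + b • zk + d • zl := by
      have h11 : ri • y (f i) = y gi - zi := by rw [h3]; abel
      have h12 : rj • y (f j) = y gj - zj := by rw [h4]; abel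
      have h13 : rk • y (f k) = y gk - zk := by rw [h5]; abel
      have h14 : rl • y (f l) = y gl - zl := by rw [h6]; abel
      rw [neg_smul, neg_smul, neg_smul, mul_smul, mul_smul, mul_smul, h11, h12, h13, h14, h2]
      simp only [smul_sub]
      abel
    rw [h10]
    exact add_mem (add_mem (add_mem (sub_mem hs1' hzi) (smul_mem _ _ hzj)) (smul_mem _ _ hzk))
      (smul_mem _ _ hzl)
  · have hi' : cf i j k ri (-(a * rj)) (-(b * rk)) (-(d * rl)) i = ri := by simp [cf]
    have hj' : cf i j k ri (-(a * rj)) (-(b * rk)) (-(d * rl)) j = -(a * rj) := by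
      simp [cf, hd.1.symm]
    rw [hi', hj']
    rw [h7, h8] at h9
    linear_combination h9

end cou

end Pool.Agent.H85.TG
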