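import Pool.Agent.H85.TG.Cou

set_option autoImplicit false
set_option linter.unusedSectionVars false

/-!
# Grafts with four vertices: the theorem on the contraction of the added element
-/

open Set Matroid Module Submodule
open scoped Matroid

namespace Pool.Agent.H85.TG

open Pool.Agent.H18.SG (vec linMat linMat_indep linMat_ground gr)
open Pool.Agent.H36.TX (IsRep Rep Regular ThreeConn)
open Pool.Agent.H85.TX (rk indepOn_iff eRk_eq Represents mem_closure_iff)

variable {V E : Type} [Fintype V] [DecidableEq V] [Finite E]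
variable {s t : E → V} {p : Fin 4 → V} {c : V → Fin 4}

theorem same_comp {C : Set V} (hC : Comp s t p C) {a b : V}
    (h : (Pi.single a 1 + Pi.single b 1 : V → ZMod 2) ∈
      span (ZMod 2) (vec (ZMod 2) s t '' KT s t p)) : a ∈ C ↔ b ∈ C := by
  obtain ⟨χ, h1, h2⟩ := exists_chi (ZMod 2) C
  have h3 : span (ZMod 2) (vec (ZMod 2) s t '' KT s t p) ≤ LinearMap.ker χ := by
    rw [span_le]
    rintro _ ⟨g, hg, rfl⟩
    show χ (Pi.single (s g) 1 - Pi.single (t g) 1) = 0
    rw [map_sub]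
    by_cases h4 : s g ∈ C
    · rw [h1 _ h4, h1 _ ((hC.closed g hg).1 h4), sub_self]
    · rw [h2 _ h4, h2 _ (fun h5 => h4 ((hC.closed g hg).2 h5)), sub_self]
  have h4 : χ (Pi.single a 1 + Pi.single b 1) = 0 := h3 h
  rw [map_add] at h4
  by_cases ha : a ∈ C <;> by_cases hb : b ∈ C
  · exact iff_of_true ha hb
  · rw [h1 a ha, h2 b hb, add_zero] at h4
    exact absurd h4 one_ne_zero
  · rw [h2 a ha, h1 b hb, zero_add] at h4
    exact absurd h4 one_ne_zero
  · exact iff_of_false ha hb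

theorem exists_data {F W' : Type} [Field F] [AddCommGroup W'] [Module F W'] {y : E → W'}
    (hoff : Off s t) (hc : Conn s t) (hV : 2 ≤ Fintype.card V) (hp : Function.Injective p)
    (hy : Tr F s t p y) {C : Set V} (hC : Comp s t p C) :
    ∃ (f : Fin 4 → E) (u : Fin 4 → V) (Θ : Set V → W' →ₗ[F] F), Data F s t p y C f u Θ := by
  classical
  choose f u hu hed using hC.adj
  have hψ0 : ∀ v, ∃ ψ : W' →ₗ[F] F, v ∈ C → ∀ g, ψ (y g) = 0 ↔ vec (ZMod 2) s t g v = 0 := by
    intro v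
    by_cases hv : v ∈ C
    · obtain ⟨ψ, h⟩ := exists_psi' hoff hc hV hy (u := v) (fun m h => hC.disj m (h ▸ hv))
      exact ⟨ψ, fun _ => h⟩
    · exact ⟨0, fun h => absurd h hv⟩
  choose ψ hψ using hψ0
  obtain ⟨l, hl0, hl1, hl2⟩ := exists_rel' hy hC ψ hψ
  obtain ⟨Θ, hΘ⟩ : ∃ Θ : Set V → W' →ₗ[F] F,
      ∀ X x, Θ X x = ∑ v ∈ Finset.univ.filter (· ∈ X), l v * ψ v x := by
    refine ⟨fun X => ∑ v ∈ Finset.univ.filter (· ∈ X), l v • ψ v, fun X x => ?_⟩
    rw [LinearMap.sum_apply]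
    rfl
  have hz : ∀ v g, s g ≠ v → t g ≠ v → l v * ψ v (y g) = 0 := by
    intro v g h1 h2
    by_cases hv : v ∈ C
    · rw [(hψ v hv g).2 (vec_zero h1 h2), mul_zero]
    · rw [hl0 v hv, zero_mul]
  have hoth : ∀ g v m, Ed s t g v (p m) → ∀ v', v' ≠ v → l v' * ψ v' (y g) = 0 := by
    intro g v m hg v' hv'
    by_cases h1 : v' = p m
    · rw [h1, hl0 (p m) (hC.disj m), zero_mul]
    · rcases hg with ⟨h2, h3⟩ | ⟨h2, h3⟩
      · exact hz v' g (by rw [h2]; exact hv'.symm) (by rw [h3]; exact fun h => h1 h.symm)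
      · exact hz v' g (by rw [h2]; exact fun h => h1 h.symm) (by rw [h3]; exact hv'.symm)
  have hsingle : ∀ X g v m, v ∈ X → Ed s t g v (p m) → Θ X (y g) = l v * ψ v (y g) := by
    intro X g v m hvX hg
    rw [hΘ]
    apply Finset.sum_eq_single
    · intro v' _ hv'
      exact hoth g v m hg v' hv'
    · intro h
      exact absurd (Finset.mem_filter.2 ⟨Finset.mem_univ _, hvX⟩) h
  refine ⟨f, u, Θ, hp, hy, hC, hu, hed, ?_, ?_, ?_, ?_, ?_⟩
  · intro X g h1 h2
    rw [hΘ]
    apply Finset.sum_eq_zero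
    intro v _
    by_cases hv : v ∈ C
    · exact hz v g (fun h => h1 (h ▸ hv)) (fun h => h2 (h ▸ hv))
    · rw [hl0 v hv, zero_mul]
  · intro X g hg hX
    rw [hΘ]
    by_cases h1 : s g ∈ X
    · rw [← hl2 g hg]
      apply Finset.sum_subset (Finset.subset_univ _)
      intro v _ hv
      have hv' : v ∉ X := by simpa using hv
      exact hz v g (fun h => hv' (h ▸ h1)) (fun h => hv' (h ▸ hX.1 h1))
    · apply Finset.sum_eq_zero
      intro v hv
      have hv' : v ∈ X := by simpa using hv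
      exact hz v g (fun h => h1 (h ▸ hv')) (fun h => h1 (hX.2 (h ▸ hv')))
  · intro X g v m _ hvX hg
    rw [hsingle X g v m hvX hg, hsingle univ g v m (mem_univ _) hg]
  · intro X g v m _ hvX hg
    rw [hΘ]
    apply Finset.sum_eq_zero
    intro v' hv'
    have hv'' : v' ∈ X := by simpa using hv'
    exact hoth g v m hg v' (fun h => hvX (h ▸ hv''))
  · intro g v m hv hg
    rw [hsingle univ g v m (mem_univ _) hg]
    refine mul_ne_zero (hl1 v hv) ?_
    rw [Ne, hψ v hv, hg.eq, Pi.add_apply, Pi.single_eq_same, Pi.single_eq_of_ne, add_zero]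
    · exact one_ne_zero
    · intro h
      exact hC.disj m (h ▸ hv)

/-- If the three pairs of disjoint paths exist and some component of `G - T` is adjacent to all of
`T`, the contraction is not representable over any field in which `2 ≠ 0`. -/
theorem no_contract_rep (hoff : Off s t) (hc : Conn s t) (hp : Function.Injective p)
    (hlink : ∀ i j k l, Dist i j k l → Linkage s t p i j k l) (hcol : ¬ ∃ c, Coloured s t p c)
    {F : Type} [Field F] (h2 : (2 : F) ≠ 0) : ¬ Rep (graft s t p ／ {none}) F := by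
  rintro ⟨W', _, _, w, hw'⟩
  have hw : Represents F w (graft s t p ／ {none}) := hw'
  obtain ⟨C, hC⟩ := exists_comp hcol
  have hV : 2 ≤ Fintype.card V := by
    have := Fintype.card_le_of_injective p hp
    rw [Fintype.card_fin] at this
    omega
  obtain ⟨y, hy⟩ : ∃ y : E → W', Tr F s t p y := ⟨_, tr_of_rep hw⟩
  obtain ⟨f, u, Θ, D⟩ := exists_data hoff hc hV hp hy hC
  have hrel : ∀ i j k l, Dist i j k l → ∃ x : Fin 4 → F, x ≠ 0 ∧
      ∑ m, x m • y (f m) ∈ span F (y '' KT s t p) ∧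
      x i * Θ univ (y (f i)) + x j * Θ univ (y (f j)) = 0 := by
    intro i j k l hd
    obtain ⟨X, hiX, hjX, hkX, hlX, hP, hQ⟩ := hlink i j k l hd
    have hij : p i ≠ p j := fun h => hd.1 (hp h)
    have hkl : p k ≠ p l := fun h => hd.swap.1 (hp h)
    have htot : ∀ x : Fin 4 → F, ∑ m, x m • y (f m) ∈ span F (y '' KT s t p) →
        x k * Θ univ (y (f k)) + x l * Θ univ (y (f l)) = 0 →
        x i * Θ univ (y (f i)) + x j * Θ univ (y (f j)) = 0 := by
      intro x hx h
      have h1 : Θ univ (∑ m, x m • y (f m)) = 0 := ker_S D hx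
      rw [sum4 hd, map_add, map_add, map_add, map_smul, map_smul, map_smul, map_smul,
        smul_eq_mul, smul_eq_mul, smul_eq_mul, smul_eq_mul] at h1
      linear_combination h1 - h
    have hXT : ∀ v ∈ X \ {p i, p j}, ∀ m, p m ≠ v := by
      rintro v ⟨hv1, hv2⟩ m hm
      rcases hd.all m with h | h | h | h
      · exact hv2 (Or.inl (by rw [← hm, h]))
      · exact hv2 (Or.inr (by rw [← hm, h]; rfl))
      · exact hkX (by rw [← h, hm]; exact hv1)
      · exact hlX (by rw [← h, hm]; exact hv1)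
    have hXT' : ∀ v ∈ Xᶜ \ {p k, p l}, ∀ m, p m ≠ v := by
      rintro v ⟨hv1, hv2⟩ m hm
      rcases hd.all m with h | h | h | h
      · exact hv1 (by rw [← hm, h]; exact hiX)
      · exact hv1 (by rw [← hm, h]; exact hjX)
      · exact hv2 (Or.inl (by rw [← hm, h]))
      · exact hv2 (Or.inr (by rw [← hm, h]; rfl))
    have hsub : {g | s g ∈ X \ {p i, p j} ∧ t g ∈ X \ {p i, p j}} ⊆
        {g | g ∈ KT s t p ∧ (s g ∈ X ↔ t g ∈ X)} := fun g hg =>
      ⟨⟨hXT _ hg.1, hXT _ hg.2⟩, iff_of_true hg.1.1 hg.2.1⟩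
    have hsub' : {g | s g ∈ Xᶜ \ {p k, p l} ∧ t g ∈ Xᶜ \ {p k, p l}} ⊆
        {g | g ∈ KT s t p ∧ (s g ∈ X ↔ t g ∈ X)} := fun g hg =>
      ⟨⟨hXT' _ hg.1, hXT' _ hg.2⟩, iff_of_false hg.1.1 hg.2.1⟩
    have hKT : {g | g ∈ KT s t p ∧ (s g ∈ X ↔ t g ∈ X)} ⊆ KT s t p := fun g hg => hg.1
    rcases ext_path hij hP with ⟨g, hg⟩ | ⟨gi, gj, di, dj, hgi, hgj, hdi, hdj, hdd⟩
    · exact rel_edge D hd hg
    · have hdd1 := span_mono (R := ZMod 2) (Set.image_mono (f := vec (ZMod 2) s t) hsub) hdd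
      have hdd2 := span_mono (R := ZMod 2) (Set.image_mono (f := vec (ZMod 2) s t) hKT) hdd1
      have hsame := same_comp hC hdd2
      by_cases hdiC : di ∈ C
      · rcases ext_path hkl hQ with ⟨g, hg⟩ | ⟨gk, gl, dk, dl, hgk, hgl, hdk, hdl, hee⟩
        · obtain ⟨x, h3, h4, h5⟩ := rel_edge D hd.swap hg
          exact ⟨x, h3, h4, htot x h4 h5⟩
        · have hee1 := span_mono (R := ZMod 2) (Set.image_mono (f := vec (ZMod 2) s t) hsub') hee
          have hee2 := span_mono (R := ZMod 2) (Set.image_mono (f := vec (ZMod 2) s t) hKT) hee1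
          have hsame' := same_comp hC hee2
          by_cases hdkC : dk ∈ C
          · exact rel_both D hd (X := X) hgi hgj hgk hgl hdiC (hsame.1 hdiC) hdkC
              (hsame'.1 hdkC) hdi.1 hdj.1 hdk.1 hdl.1 hdd1 hee1
          · obtain ⟨x, h3, h4, h5⟩ := rel_path D hd.swap hgk hgl hdkC
              (fun h => hdkC (hsame'.2 h)) (hXT' _ hdk) (hXT' _ hdl) hee2
            exact ⟨x, h3, h4, htot x h4 h5⟩
      · exact rel_path D hd hgi hgj hdiC (fun h => hdiC (hsame.2 h)) (hXT _ hdi) (hXT _ hdj) hdd2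
  have hd0 : Dist 0 1 2 3 := by
    unfold Dist
    decide
  have hd1 : Dist 0 2 1 3 := by
    unfold Dist
    decide
  have hd2 : Dist 1 2 0 3 := by
    unfold Dist
    decide
  obtain ⟨x, hx0, hxS, -⟩ := hrel 0 1 2 3 hd0
  have hpair : ∀ i j k l, Dist i j k l →
      x i * Θ univ (y (f i)) + x j * Θ univ (y (f j)) = 0 := by
    intro i j k l hd
    obtain ⟨x', hx'0, hx'S, h3⟩ := hrel i j k l hd
    have hx'i : x' i ≠ 0 := fun h => hx'0 (ind3 D hx'S h)
    have h4 : (fun m => x' i * x m - x i * x' m) = 0 := by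
      refine ind3 D (a := i) ?_ (by ring)
      have h5 : ∑ m, (x' i * x m - x i * x' m) • y (f m) =
          x' i • (∑ m, x m • y (f m)) - x i • (∑ m, x' m • y (f m)) := by
        rw [Finset.smul_sum, Finset.smul_sum, ← Finset.sum_sub_distrib]
        refine Finset.sum_congr rfl fun m _ => ?_
        rw [sub_smul, mul_smul, mul_smul]
      rw [h5]
      exact sub_mem (smul_mem _ _ hxS) (smul_mem _ _ hx'S)
    have h6 : x' i * x j - x i * x' j = 0 := congrFun h4 j
    have h7 : x' i * (x i * Θ univ (y (f i)) + x j * Θ univ (y (f j))) = 0 := by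
      linear_combination x i * h3 + Θ univ (y (f j)) * h6
    exact (mul_eq_zero.1 h7).resolve_left hx'i
  have h01 := hpair 0 1 2 3 hd0
  have h02 := hpair 0 2 1 3 hd1
  have h12 := hpair 1 2 0 3 hd2
  have h5 : 2 * (x 0 * Θ univ (y (f 0))) = 0 := by
    linear_combination h01 + h02 - h12
  have h6 := (mul_eq_zero.1 h5).resolve_left h2
  have h7 := (mul_eq_zero.1 h6).resolve_right (D.ne (f 0) (u 0) 0 (D.mem 0) (D.ed 0))
  exact hx0 (ind3 D hxS h7)

end Pool.Agent.H85.TG
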