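import Pool.Agent.H85.TA.Gr1
import Pool.Agent.H85.TA.Va

/-!
# Definitions for the theorem on groups of polynomial growth with the maximum condition

* `Walk Q`: a finite symmetric family of steps which generates `Q` and contains the identity.
* `w.sq`: two steps of the walk `w`.
* `av w f`: the average of `f : w.I → V`.
* `Ex w k f`: the expectation of `f` at the position of the random walk at time `k`.
* `Supp w k`: the positions which can be reached at time `k`.
* `p w k x`: the probability of the position `x` at time `k`.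
* `bp T r`: the ball of radius `r` for the finite set `T`.
* `PG Q d`: for every finite set `T` the balls have at most `C r ^ d` elements for arbitrarily large radii.
* `ZQ Q`: a subgroup of finite index has the infinite cyclic group as a quotient.
-/

set_option autoImplicit false

universe u v

namespace H85.TG

open Pointwise

/-- a symmetric finite family of steps which generates the group, one of the steps is the identity -/
structure Walk (Q : Type u) [Group Q] where
  I : Type u
  [fI : Fintype I]
  s : I → Q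
  σ : I ≃ I
  inv : ∀ i, s (σ i) = (s i)⁻¹
  gen : Subgroup.closure (Set.range s) = ⊤
  hone : ∃ i, s i = 1

attribute [instance] Walk.fI

variable {Q : Type u} [Group Q]

theorem Walk.nonempty (w : Walk Q) : Nonempty w.I := ⟨w.hone.choose⟩

/-- two steps -/
def Walk.sq (w : Walk Q) : Walk Q where
  I := w.I × w.I
  s := fun p => w.s p.1 * w.s p.2
  σ := ⟨fun p => (w.σ p.2, w.σ p.1), fun p => (w.σ.symm p.2, w.σ.symm p.1),
    fun p => by simp, fun p => by simp⟩
  inv := fun p => by
    change w.s (w.σ p.2) * w.s (w.σ p.1) = (w.s p.1 * w.s p.2)⁻¹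
    rw [w.inv, w.inv, mul_inv_rev]
  gen := by
    rw [eq_top_iff, ← w.gen, Subgroup.closure_le]
    rintro _ ⟨i, rfl⟩
    obtain ⟨j, hj⟩ := w.hone
    refine Subgroup.subset_closure ⟨(i, j), ?_⟩
    change w.s i * w.s j = w.s i
    rw [hj, mul_one]
  hone := by
    obtain ⟨j, hj⟩ := w.hone
    refine ⟨(j, j), ?_⟩
    change w.s j * w.s j = 1
    rw [hj, mul_one]

/-- the average over the steps -/
noncomputable def av (w : Walk Q) {V : Type v} [AddCommGroup V] [Module ℝ V] (f : w.I → V) : V :=
  ((Fintype.card w.I : ℝ)⁻¹) • ∑ i, f i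

/-- the expectation at time `k` -/
noncomputable def Ex (w : Walk Q) {V : Type v} [AddCommGroup V] [Module ℝ V] : ℕ → (Q → V) → V
  | 0, f => f 1
  | k + 1, f => av w fun i => Ex w k fun g => f (g * w.s i)

open Classical in
/-- the positions at time `k` -/
noncomputable def Supp (w : Walk Q) : ℕ → Finset Q
  | 0 => {1}
  | k + 1 => (Supp w k ×ˢ (Finset.univ : Finset w.I)).image fun p => p.1 * w.s p.2

open Classical in
/-- the transition probabilities -/
noncomputable def p (w : Walk Q) (k : ℕ) (x : Q) : ℝ := Ex w k fun g => if g = x then (1 : ℝ) else 0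

open Classical in
/-- the ball of radius `r` -/
noncomputable def bp (T : Finset Q) (r : ℕ) : Finset Q := (H85.TA.ball T) ^ r

/-- growth at most `C r ^ d` for arbitrarily large radii -/
def PG (Q : Type u) [Group Q] (d : ℕ) : Prop :=
  ∀ T : Finset Q, ∃ C : ℕ, ∀ r₀ : ℕ, ∃ r ≥ r₀, (bp T r).card ≤ C * r ^ d

/-- a subgroup of finite index maps onto the infinite cyclic group -/
def ZQ (Q : Type u) [Group Q] : Prop :=
  ∃ Q₁ : Subgroup Q, Q₁.FiniteIndex ∧ ∃ χ : Q₁ →* Multiplicative ℤ, Function.Surjective χ

/-- a series from `K` down to `N` with cyclic factors -/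
def PC {Γ : Type u} [Group Γ] (K N : Subgroup Γ) : Prop :=
  ∃ n : ℕ, ∃ f : ℕ → Subgroup Γ, f 0 = K ∧ f n = N ∧
    ∀ i < n, f (i + 1) ≤ f i ∧
      (∀ x ∈ f i, ∀ y ∈ f (i + 1), x * y * x⁻¹ ∈ f (i + 1)) ∧
      ∃ g ∈ f i, ∀ x ∈ f i, ∃ k : ℤ, g ^ k * x⁻¹ ∈ f (i + 1)

/-- `K` modulo `N` is almost polycyclic -/
def VP {Γ : Type u} [Group Γ] (K N : Subgroup Γ) : Prop :=
  ∃ A : Subgroup Γ, A ≤ K ∧ A.relIndex K ≠ 0 ∧ PC A (A ⊓ N)

end H85.TG
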