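import Pool.Agent.H85.TG.Ea

/-!
# [H85 TG EB] the fourth moment, 60-100 lines

Let `L = 1 + ∑ i, ‖b (w.s i)‖`, so `‖b (w.s i)‖ ≤ L`. With `x = ⟪b g, π g (b s)⟫`, `|x| ≤ ‖b g‖ ‖b s‖ ≤ L ‖b g‖`:
`‖b (g s)‖^4 = (‖b g‖^2 + 2 x + ‖b s‖^2)^2
  = ‖b g‖^4 + 4 x^2 + ‖b s‖^4 + 4 ‖b g‖^2 x + 2 ‖b g‖^2 ‖b s‖^2 + 4 x ‖b s‖^2
  ≤ ‖b g‖^4 + 4 x^2 + L^4 + 4 ‖b g‖^2 x + 2 ‖b g‖^2 ‖b s‖^2 + 4 L^3 ‖b g‖`.
The average over `s`: `av x = 0` (`hh`), `av ‖b s‖^2 = 1`. The expectation: `Ex 4 av x^2 = 4 qq` (`ex_q`), `Ex ‖b g‖^2 = k` (`ex_two`),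
`Ex ‖b g‖ ≤ √ k` (`ex_nrm`). Result with the constant `L^4 + 4 L^3`.
-/

set_option autoImplicit false

universe u v

namespace H85.TG

variable {Q : Type u} [Group Q] (w : Walk Q) {E : Type v} [NormedAddCommGroup E]
  [InnerProductSpace ℝ E] {π : Q →* (E ≃ₗᵢ[ℝ] E)} {b : Q → E}

omit [NormedAddCommGroup E] [InnerProductSpace ℝ E] in
theorem av_ex (k : ℕ) (F : w.I → Q → ℝ) :
    av w (fun i => Ex w k (F i)) = Ex w k fun g => av w fun i => F i g := by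
  unfold av
  rw [ex_smul w k, ex_sum w k Finset.univ F]

theorem av_le {f g : w.I → ℝ} (h : ∀ i, f i ≤ g i) : av w f ≤ av w g := by
  unfold av
  simp only [smul_eq_mul]
  exact mul_le_mul_of_nonneg_left (Finset.sum_le_sum fun i _ => h i)
    (inv_nonneg.2 (Nat.cast_nonneg _))

theorem four_pt (hb : ∀ g h, b (g * h) = b g + π g (b h)) (g h : Q) {L : ℝ} (hL : ‖b h‖ ≤ L)
    (hL1 : 1 ≤ L) :
    ‖b (g * h)‖ ^ 4 ≤ (‖b g‖ ^ 4 + L ^ 4 + 4 * L ^ 3 * ‖b g‖) +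
      4 * (inner ℝ (b g) (π g (b h)) : ℝ) ^ 2 +
      4 * ‖b g‖ ^ 2 * (inner ℝ (b g) (π g (b h)) : ℝ) + 2 * ‖b g‖ ^ 2 * ‖b h‖ ^ 2 := by
  have h1 : ‖b (g * h)‖ ^ 2 = ‖b g‖ ^ 2 + 2 * inner ℝ (b g) (π g (b h)) + ‖b h‖ ^ 2 := by
    rw [hb, norm_add_sq_real, LinearIsometryEquiv.norm_map]
  have h2 : ‖b (g * h)‖ ^ 4 = (‖b g‖ ^ 2 + 2 * inner ℝ (b g) (π g (b h)) + ‖b h‖ ^ 2) ^ 2 := by
    rw [← h1]; ring
  have h3 : |(inner ℝ (b g) (π g (b h)) : ℝ)| ≤ ‖b g‖ * ‖b h‖ := by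
    have := abs_real_inner_le_norm (b g) (π g (b h))
    rwa [LinearIsometryEquiv.norm_map] at this
  have h4 : (inner ℝ (b g) (π g (b h)) : ℝ) ≤ ‖b g‖ * L :=
    (le_abs_self _).trans (h3.trans (mul_le_mul_of_nonneg_left hL (norm_nonneg _)))
  have h0 : 0 ≤ ‖b h‖ := norm_nonneg _
  have h0' : 0 ≤ ‖b g‖ := norm_nonneg _
  have h5 : ‖b h‖ ^ 2 ≤ L ^ 2 := pow_le_pow_left₀ h0 hL 2
  have h6 : ‖b h‖ ^ 4 ≤ L ^ 4 := pow_le_pow_left₀ h0 hL 4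
  have h7 : (inner ℝ (b g) (π g (b h)) : ℝ) * ‖b h‖ ^ 2 ≤ L ^ 3 * ‖b g‖ := by
    calc (inner ℝ (b g) (π g (b h)) : ℝ) * ‖b h‖ ^ 2 ≤ (‖b g‖ * L) * ‖b h‖ ^ 2 :=
          mul_le_mul_of_nonneg_right h4 (sq_nonneg _)
      _ ≤ (‖b g‖ * L) * L ^ 2 := mul_le_mul_of_nonneg_left h5 (by positivity)
      _ = L ^ 3 * ‖b g‖ := by ring
  rw [h2]
  nlinarith [h6, h7]

theorem ex_four (hb : ∀ g h, b (g * h) = b g + π g (b h)) (hh : ∑ i, b (w.s i) = 0)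
    (hn : av w (fun i => ‖b (w.s i)‖ ^ 2) = 1) : ∃ L : ℝ, ∀ k : ℕ,
      Ex w (k + 1) (fun g => ‖b g‖ ^ 4) ≤
        Ex w k (fun g => ‖b g‖ ^ 4) + 4 * qq w b k + 2 * k + L * (1 + √ k) := by
  set L : ℝ := 1 + ∑ i, ‖b (w.s i)‖ with hLdef
  have hL1 : 1 ≤ L := by
    have : 0 ≤ ∑ i, ‖b (w.s i)‖ := Finset.sum_nonneg fun i _ => norm_nonneg _
    linarith
  have hL : ∀ i, ‖b (w.s i)‖ ≤ L := fun i => by
    have := Finset.single_le_sum (f := fun i => ‖b (w.s i)‖) (fun i _ => norm_nonneg _)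
      (Finset.mem_univ i)
    linarith
  have hav0 : ∀ g : Q, av w (fun i => (inner ℝ (b g) (π g (b (w.s i))) : ℝ)) = 0 := fun g => by
    unfold av
    rw [← inner_sum, ← map_sum, hh, map_zero, inner_zero_right, smul_zero]
  have hpt : ∀ g : Q, av w (fun i => ‖b (g * w.s i)‖ ^ 4) ≤
      ‖b g‖ ^ 4 + (L ^ 4 + (4 * L ^ 3) * ‖b g‖ +
        (4 * av w (fun i => (inner ℝ (b g) (π g (b (w.s i))) : ℝ) ^ 2) + 2 * ‖b g‖ ^ 2)) := by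
    intro g
    refine (av_le w fun i => four_pt hb g (w.s i) (hL i) hL1).trans (le_of_eq ?_)
    rw [av_add, av_add, av_add, av_const]
    have e1 : av w (fun i => 4 * (inner ℝ (b g) (π g (b (w.s i))) : ℝ) ^ 2) =
        4 * av w (fun i => (inner ℝ (b g) (π g (b (w.s i))) : ℝ) ^ 2) := av_smul w 4 _
    have e2 : av w (fun i => 4 * ‖b g‖ ^ 2 * (inner ℝ (b g) (π g (b (w.s i))) : ℝ)) =
        4 * ‖b g‖ ^ 2 * av w (fun i => (inner ℝ (b g) (π g (b (w.s i))) : ℝ)) :=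
      av_smul w (4 * ‖b g‖ ^ 2) _
    have e3 : av w (fun i => 2 * ‖b g‖ ^ 2 * ‖b (w.s i)‖ ^ 2) =
        2 * ‖b g‖ ^ 2 * av w (fun i => ‖b (w.s i)‖ ^ 2) := av_smul w (2 * ‖b g‖ ^ 2) _
    rw [e1, e2, e3, hav0, hn]
    ring
  refine ⟨L ^ 4 + 4 * L ^ 3, fun k => ?_⟩
  rw [ex_succ, av_ex]
  refine (ex_mono w k hpt).trans ?_
  rw [ex_add, ex_add, ex_add, ex_add, ex_const]
  have e1 : Ex w k (fun g => 4 * L ^ 3 * ‖b g‖) = 4 * L ^ 3 * Ex w k (fun g => ‖b g‖) :=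
    ex_smul w k (4 * L ^ 3) _
  have e2 : Ex w k (fun g => 4 * av w (fun i => (inner ℝ (b g) (π g (b (w.s i))) : ℝ) ^ 2)) =
      4 * Ex w k (fun g => av w (fun i => (inner ℝ (b g) (π g (b (w.s i))) : ℝ) ^ 2)) :=
    ex_smul w k 4 _
  have e3 : Ex w k (fun g => 2 * ‖b g‖ ^ 2) = 2 * Ex w k (fun g => ‖b g‖ ^ 2) :=
    ex_smul w k 2 _
  rw [e1, e2, e3, ex_q w hb, ex_two w hb hh hn]
  have h1 := ex_nrm w hb hh hn k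
  have h2 : 0 ≤ √ (k : ℝ) := Real.sqrt_nonneg _
  have h3 : 0 ≤ L ^ 3 := by positivity
  have h4 : 0 ≤ L ^ 4 := by positivity
  have h5 : 4 * L ^ 3 * Ex w k (fun g => ‖b g‖) ≤ 4 * L ^ 3 * √ (k : ℝ) :=
    mul_le_mul_of_nonneg_left h1 (by positivity)
  nlinarith [mul_nonneg h4 h2]

end H85.TG
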