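import Pool.Agent.H85.TG.Wa

/-!
# [H85 TG FA] the mean ergodic theorem for an orthogonal representation, 60-90 lines

Let `A : H →L[ℝ] H`, `A x = av w fun i => ρ (w.s i) x` (build it as `(card)⁻¹ • ∑ i, (ρ (w.s i)).toContinuousLinearEquiv` or by
`LinearMap.mkContinuous`); `‖A x‖ ≤ ‖x‖`, so `‖A‖ ≤ 1`. By induction `A^[j] v = Ex w j (g ↦ ρ g v)` (`ex_left`, `ex_lin`, or with
`A` applied on the other side: `Ex (j+1) (g ↦ ρ g v) = av i, Ex j (g ↦ ρ g (ρ (s i) v)) = Ex j (g ↦ ρ g (A v))`).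
`ContinuousLinearMap.tendsto_birkhoffAverage_orthogonalProjection`: the averages converge to the projection `v'` of `v` on the fixed space of
`A`. `⟪v', v⟫ = ‖v'‖^2` (orthogonal projection). `A v' = v'` implies `ρ (w.s i) v' = v'`: `‖v'‖^2 = ⟪A v', v'⟫ = av ⟪ρ (s i) v', v'⟫` and each
`⟪ρ (s i) v', v'⟫ ≤ ‖v'‖^2`, so all are equal to `‖v'‖^2` and `‖ρ (s i) v' - v'‖^2 = 2 ‖v'‖^2 - 2 ‖v'‖^2 = 0`. The set of the `g` with
`ρ g v' = v'` is a subgroup which contains the steps (`w.gen`).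
-/

set_option autoImplicit false

universe u v

namespace H85.TG

variable {Q : Type u} [Group Q] (w : Walk Q) {H : Type v} [NormedAddCommGroup H]
  [InnerProductSpace ℝ H] [CompleteSpace H]

/-- the averaging operator -/
noncomputable def avOp (ρ : Q →* (H ≃ₗᵢ[ℝ] H)) : H →L[ℝ] H :=
  ((Fintype.card w.I : ℝ)⁻¹) •
    ∑ i, ((ρ (w.s i)).toContinuousLinearEquiv : H →L[ℝ] H)

omit [CompleteSpace H] in
theorem avOp_apply (ρ : Q →* (H ≃ₗᵢ[ℝ] H)) (x : H) :
    avOp w ρ x = av w fun i => ρ (w.s i) x := by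
  simp [avOp, av]

omit [CompleteSpace H] in
theorem avOp_norm (ρ : Q →* (H ≃ₗᵢ[ℝ] H)) : ‖avOp w ρ‖ ≤ 1 := by
  refine ContinuousLinearMap.opNorm_le_bound _ zero_le_one fun x => ?_
  rw [avOp_apply, one_mul]
  have := w.nonempty
  have hc : (0 : ℝ) < (Fintype.card w.I : ℝ) := by exact_mod_cast Fintype.card_pos
  unfold av
  rw [norm_smul, norm_inv, Real.norm_natCast]
  have h1 : ‖∑ i, ρ (w.s i) x‖ ≤ ∑ i : w.I, ‖x‖ := by
    refine (norm_sum_le _ _).trans (Finset.sum_le_sum fun i _ => ?_)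
    rw [LinearIsometryEquiv.norm_map]
  rw [Finset.sum_const, Finset.card_univ, nsmul_eq_mul] at h1
  calc (Fintype.card w.I : ℝ)⁻¹ * ‖∑ i, ρ (w.s i) x‖
      ≤ (Fintype.card w.I : ℝ)⁻¹ * ((Fintype.card w.I : ℝ) * ‖x‖) :=
        mul_le_mul_of_nonneg_left h1 (by positivity)
    _ = ‖x‖ := by rw [← mul_assoc, inv_mul_cancel₀ hc.ne', one_mul]

omit [CompleteSpace H] in
theorem avOp_iterate (ρ : Q →* (H ≃ₗᵢ[ℝ] H)) (v : H) (j : ℕ) :
    (avOp w ρ)^[j] v = Ex w j fun g => ρ g v := by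
  induction j with
  | zero =>
    rw [Function.iterate_zero, ex_zero, map_one]
    rfl
  | succ j ih =>
    rw [Function.iterate_succ', Function.comp_apply, ih, avOp_apply, ex_left]
    congr 1
    funext i
    have h := ex_lin w ((ρ (w.s i)).toLinearEquiv : H →ₗ[ℝ] H) j (fun g => ρ g v)
    have h2 : (fun g : Q => ρ (w.s i * g) v) = fun g => ρ (w.s i) (ρ g v) := by
      funext g
      rw [map_mul]
      rfl
    rw [h2]
    exact h

omit [CompleteSpace H] in
/-- a fixed vector of the average is fixed by every element -/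
theorem fixed_of_avOp (ρ : Q →* (H ≃ₗᵢ[ℝ] H)) {x : H} (hx : avOp w ρ x = x) (g : Q) :
    ρ g x = x := by
  have := w.nonempty
  have hc : (0 : ℝ) < (Fintype.card w.I : ℝ) := by exact_mod_cast Fintype.card_pos
  have hsum : ∑ i, (‖x‖ ^ 2 - inner ℝ (ρ (w.s i) x) x) = 0 := by
    rw [Finset.sum_sub_distrib, ← sum_inner]
    have h1 : (∑ i, ρ (w.s i) x) = (Fintype.card w.I : ℝ) • x := by
      have h2 : avOp w ρ x = ((Fintype.card w.I : ℝ)⁻¹) • ∑ i, ρ (w.s i) x := avOp_apply w ρ x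
      rw [hx] at h2
      conv_rhs => rw [h2]
      rw [smul_smul, mul_inv_cancel₀ hc.ne', one_smul]
    rw [h1, inner_smul_left, real_inner_self_eq_norm_sq]
    simp
  have hle : ∀ i, inner ℝ (ρ (w.s i) x) x ≤ ‖x‖ ^ 2 := by
    intro i
    have h1 := real_inner_le_norm (ρ (w.s i) x) x
    rw [LinearIsometryEquiv.norm_map] at h1
    rw [pow_two]
    exact h1
  have hz : ∀ i, ‖x‖ ^ 2 - inner ℝ (ρ (w.s i) x) x = 0 := by
    intro i
    exact (Finset.sum_eq_zero_iff_of_nonneg fun i _ => by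
      have := hle i
      linarith).1 hsum i (Finset.mem_univ i)
  have hs : ∀ i, ρ (w.s i) x = x := by
    intro i
    have h1 := norm_sub_sq_real (ρ (w.s i) x) x
    rw [LinearIsometryEquiv.norm_map] at h1
    have h2 := hz i
    have h3 : ‖ρ (w.s i) x - x‖ ^ 2 = 0 := by linarith
    exact sub_eq_zero.1 (norm_eq_zero.1 (pow_eq_zero_iff (two_ne_zero) |>.1 h3))
  have hg : g ∈ Subgroup.closure (Set.range w.s) := by
    rw [w.gen]
    exact Subgroup.mem_top g
  induction hg using Subgroup.closure_induction with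
  | mem y hy =>
    obtain ⟨i, rfl⟩ := hy
    exact hs i
  | one =>
    rw [map_one]
    rfl
  | mul y z _ _ hy hz =>
    rw [map_mul]
    change ρ y (ρ z x) = x
    rw [hz, hy]
  | inv y _ hy =>
    rw [map_inv]
    change (ρ y).symm x = x
    rw [LinearIsometryEquiv.symm_apply_eq]
    exact hy.symm

theorem mean_erg (ρ : Q →* (H ≃ₗᵢ[ℝ] H)) (v : H) : ∃ v' : H, (∀ g, ρ g v' = v') ∧
    inner ℝ v' v = ‖v'‖ ^ 2 ∧ Filter.Tendsto
      (fun k : ℕ => ((k : ℝ)⁻¹) • ∑ j ∈ Finset.range k, Ex w j (fun g => ρ g v))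
      Filter.atTop (nhds v') := by
  refine ⟨((avOp w ρ).eqLocus (1 : H →L[ℝ] H)).orthogonalProjectionOnto v, ?_, ?_, ?_⟩
  · intro g
    refine fixed_of_avOp w ρ ?_ g
    exact (((avOp w ρ).eqLocus (1 : H →L[ℝ] H)).orthogonalProjectionOnto v).2
  · have h := Submodule.inner_orthogonalProjectionOnto_eq_of_mem_right
      (((avOp w ρ).eqLocus (1 : H →L[ℝ] H)).orthogonalProjectionOnto v) v
    rw [Submodule.coe_inner, real_inner_self_eq_norm_sq] at h
    rw [real_inner_comm]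
    exact h.symm
  · have h := ContinuousLinearMap.tendsto_birkhoffAverage_orthogonalProjection (avOp w ρ)
      (avOp_norm w ρ) v
    refine h.congr fun k => ?_
    unfold birkhoffAverage birkhoffSum
    congr 1
    refine Finset.sum_congr rfl fun j _ => ?_
    rw [id_eq, avOp_iterate]

end H85.TG
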