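import Mathlib

/-!
# [H85 TG GA] isometries near the identity, 50-80 lines

`V` a complex inner product space, `op f : V →L[ℂ] V` the operator of `f : V ≃ₗᵢ[ℂ] V`, `nr f = ‖op f - 1‖`. `op (f * g) = op f * op g` (`rfl` or `ext`),
`‖op f * A‖ = ‖A‖`-type inequalities: `‖op f‖ ≤ 1`.
* `nr_inv`: `op f⁻¹ - 1 = - op f⁻¹ (op f - 1)`. `nr_mul`: `op f op g - 1 = op f (op g - 1) + (op f - 1)`.
* `nr_comm`: `f g f⁻¹ g⁻¹ - 1 = (f g - g f) f⁻¹ g⁻¹` and `f g - g f = (f - 1) (g - 1) - (g - 1) (f - 1)`.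
* `nr_pow_le`: `nr (f ^ a) ≤ a nr f`. `nr_pow_ge`: `op f ^ a - 1 = (op f - 1) ∑_{l < a} op f ^ l = a (op f - 1) + (op f - 1) ∑_{l < a} (op f ^ l - 1)`,
  the last term has norm at most `nr f ∑_{l < a} l nr f ≤ nr f (a^2 / 2) nr f ≤ (a / 2) nr f` if `a nr f ≤ 1`; so
  `nr (f ^ a) ≥ (a / 2) nr f ≥ nr f / 2` for `a ≥ 1`.
* `nr_eq_zero`.
-/

set_option autoImplicit false

namespace H85.TG

variable {V : Type*} [NormedAddCommGroup V] [InnerProductSpace ℂ V]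

/-- the bounded operator of an isometry -/
noncomputable def op (f : V ≃ₗᵢ[ℂ] V) : V →L[ℂ] V := (f.toContinuousLinearEquiv : V →L[ℂ] V)

/-- the distance of an isometry from the identity -/
noncomputable def nr (f : V ≃ₗᵢ[ℂ] V) : ℝ := ‖op f - 1‖

theorem nr_nonneg (f : V ≃ₗᵢ[ℂ] V) : 0 ≤ nr f := norm_nonneg _

theorem Ga_apply (f : V ≃ₗᵢ[ℂ] V) (x : V) : op f x = f x := rfl

theorem Ga_mul (f g : V ≃ₗᵢ[ℂ] V) : op (f * g) = op f * op g := by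
  ext x
  rfl

theorem Ga_one : op (1 : V ≃ₗᵢ[ℂ] V) = 1 := by
  ext x
  rfl

theorem Ga_pow (f : V ≃ₗᵢ[ℂ] V) (a : ℕ) : op (f ^ a) = op f ^ a := by
  induction a with
  | zero => rw [pow_zero, pow_zero, Ga_one]
  | succ a ih => rw [pow_succ, pow_succ, Ga_mul, ih]

theorem Ga_norm (f : V ≃ₗᵢ[ℂ] V) : ‖op f‖ ≤ 1 := by
  refine ContinuousLinearMap.opNorm_le_bound _ zero_le_one (fun x => ?_)
  rw [Ga_apply, f.norm_map, one_mul]

theorem Ga_inv_left (f : V ≃ₗᵢ[ℂ] V) : op f⁻¹ * op f = 1 := by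
  rw [← Ga_mul, inv_mul_cancel, Ga_one]

theorem Ga_inv_right (f : V ≃ₗᵢ[ℂ] V) : op f * op f⁻¹ = 1 := by
  rw [← Ga_mul, mul_inv_cancel, Ga_one]

theorem Ga_le_left (f : V ≃ₗᵢ[ℂ] V) (A : V →L[ℂ] V) : ‖op f * A‖ ≤ ‖A‖ :=
  (norm_mul_le _ _).trans (mul_le_of_le_one_left (norm_nonneg _) (Ga_norm f))

theorem Ga_le_right (f : V ≃ₗᵢ[ℂ] V) (A : V →L[ℂ] V) : ‖A * op f‖ ≤ ‖A‖ :=
  (norm_mul_le _ _).trans (mul_le_of_le_one_right (norm_nonneg _) (Ga_norm f))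

theorem nr_eq_zero {f : V ≃ₗᵢ[ℂ] V} (h : nr f = 0) : f = 1 := by
  have h1 : op f = 1 := by
    have h2 : op f - 1 = 0 := norm_eq_zero.1 h
    exact sub_eq_zero.1 h2
  ext x
  rw [← Ga_apply, h1]
  rfl

theorem nr_one : nr (1 : V ≃ₗᵢ[ℂ] V) = 0 := by
  unfold nr
  rw [Ga_one, sub_self, norm_zero]

theorem nr_inv (f : V ≃ₗᵢ[ℂ] V) : nr f⁻¹ = nr f := by
  have key : ∀ g : V ≃ₗᵢ[ℂ] V, nr g⁻¹ ≤ nr g := by
    intro g
    unfold nr
    have e : op g⁻¹ - 1 = -(op g⁻¹ * (op g - 1)) := by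
      rw [mul_sub, Ga_inv_left, mul_one, neg_sub]
    rw [e, norm_neg]
    exact Ga_le_left _ _
  refine le_antisymm (key f) ?_
  have h := key f⁻¹
  rwa [inv_inv] at h

theorem nr_mul (f g : V ≃ₗᵢ[ℂ] V) : nr (f * g) ≤ nr f + nr g := by
  unfold nr
  have e : op (f * g) - 1 = (op f - 1) + op f * (op g - 1) := by
    rw [Ga_mul, mul_sub, mul_one]
    abel
  rw [e]
  exact (norm_add_le _ _).trans (add_le_add le_rfl (Ga_le_left _ _))

theorem nr_comm (f g : V ≃ₗᵢ[ℂ] V) : nr (f * g * f⁻¹ * g⁻¹) ≤ 2 * nr f * nr g := by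
  have e : op (f * g * f⁻¹ * g⁻¹) - 1 =
      ((op f - 1) * (op g - 1) - (op g - 1) * (op f - 1)) * op f⁻¹ * op g⁻¹ := by
    have e1 : (op f - 1) * (op g - 1) - (op g - 1) * (op f - 1) = op f * op g - op g * op f := by
      noncomm_ring
    rw [e1, Ga_mul, Ga_mul, Ga_mul, sub_mul, sub_mul]
    congr 1
    rw [mul_assoc (op g), Ga_inv_right, mul_one, Ga_inv_right]
  unfold nr
  rw [e]
  refine (Ga_le_right _ _).trans ((Ga_le_right _ _).trans ((norm_sub_le _ _).trans ?_))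
  have h1 := norm_mul_le (op f - 1) (op g - 1)
  have h2 := norm_mul_le (op g - 1) (op f - 1)
  calc ‖(op f - 1) * (op g - 1)‖ + ‖(op g - 1) * (op f - 1)‖
      ≤ ‖op f - 1‖ * ‖op g - 1‖ + ‖op g - 1‖ * ‖op f - 1‖ := add_le_add h1 h2
    _ = 2 * ‖op f - 1‖ * ‖op g - 1‖ := by ring

theorem nr_pow_le (f : V ≃ₗᵢ[ℂ] V) (a : ℕ) : nr (f ^ a) ≤ a * nr f := by
  induction a with
  | zero =>
    rw [pow_zero, nr_one, Nat.cast_zero, zero_mul]
  | succ a ih =>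
    rw [pow_succ]
    refine (nr_mul _ _).trans ?_
    push_cast
    linarith

theorem nr_pow_ge (f : V ≃ₗᵢ[ℂ] V) {a : ℕ} (ha : 1 ≤ a) (h : a * nr f ≤ 1) :
    nr f / 2 ≤ nr (f ^ a) := by
  have hn := nr_nonneg f
  have hsum : ∀ b : ℕ, ∑ l ∈ Finset.range b, (l : ℝ) ≤ (b : ℝ) ^ 2 / 2 := by
    intro b
    induction b with
    | zero => simp
    | succ b ih =>
      rw [Finset.sum_range_succ]
      push_cast
      nlinarith
  have e1 : (a : V →L[ℂ] V) * (op f - 1) = (op f ^ a - 1) -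
      (op f - 1) * ∑ l ∈ Finset.range a, (op f ^ l - 1) := by
    rw [Finset.sum_sub_distrib, mul_sub (op f - 1), mul_geom_sum, Finset.sum_const,
      Finset.card_range, nsmul_eq_mul, mul_one, sub_sub_cancel]
    exact (Nat.cast_commute a (op f - 1)).eq
  have e2 : ‖(a : V →L[ℂ] V) * (op f - 1)‖ = a * nr f := by
    rw [← nsmul_eq_mul, ← Nat.cast_smul_eq_nsmul ℝ, norm_smul, Real.norm_natCast]
    rfl
  have h3 : ‖(op f - 1) * ∑ l ∈ Finset.range a, (op f ^ l - 1)‖ ≤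
      nr f * ((a : ℝ) ^ 2 / 2 * nr f) := by
    refine (norm_mul_le _ _).trans (mul_le_mul_of_nonneg_left ?_ hn)
    refine (norm_sum_le _ _).trans ?_
    calc ∑ l ∈ Finset.range a, ‖op f ^ l - 1‖ ≤ ∑ l ∈ Finset.range a, (l : ℝ) * nr f := by
          refine Finset.sum_le_sum (fun l _ => ?_)
          have := nr_pow_le f l
          unfold nr at this ⊢
          rwa [Ga_pow] at this
      _ = (∑ l ∈ Finset.range a, (l : ℝ)) * nr f := by rw [Finset.sum_mul]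
      _ ≤ (a : ℝ) ^ 2 / 2 * nr f := mul_le_mul_of_nonneg_right (hsum a) hn
  have h4 : (a : ℝ) * nr f ≤ nr (f ^ a) + nr f * ((a : ℝ) ^ 2 / 2 * nr f) := by
    rw [← e2, e1]
    refine (norm_sub_le _ _).trans (add_le_add ?_ h3)
    unfold nr
    rw [Ga_pow]
  have ha' : (1 : ℝ) ≤ a := by exact_mod_cast ha
  have h5 : nr f * ((a : ℝ) ^ 2 / 2 * nr f) ≤ a / 2 * nr f := by
    have h6 : nr f * ((a : ℝ) ^ 2 / 2 * nr f) = (a / 2 * nr f) * (a * nr f) := by ring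
    rw [h6]
    exact mul_le_of_le_one_right (by positivity) h
  have h7 : nr f / 2 ≤ a / 2 * nr f := by nlinarith
  linarith

end H85.TG
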