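import Pool.Agent.H85.TG.Defs
import Pool.Agent.H85.TG.Ga

/-!
# [H85 TG GB] many products of shrinking elements, 80-120 lines

Write `δ k = nr (ρ (g k))`: positive, `δ (k+1) ≤ δ k / (16 N)`, `2 N δ 0 ≤ 1`. For `j ≤ m` let `W_{j,m}` (a finite set of elements of `Q`) be defined by
`W_{m,m} = {1}`, `W_{j,m} = {(g j)^i * x : i < N, x ∈ W_{j+1,m}}` (recursion on `m - j`; e.g. define `Wd : ℕ → ℕ → Finset Q`,
`Wd 0 j = {1}`, `Wd (n+1) j = image of (i, x) ↦ (g j)^i * x on range N ×ˢ Wd n (j+1)`). By induction on `n`, for all `j`: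
(1) `nr (ρ x) ≤ 2 N δ j` for `x ∈ Wd n j`: `nr ≤ N δ j + 2 N δ (j+1) ≤ N δ j + δ j / 8`.
(2) `(Wd n j).card = N^n`: the map is injective: if `(g j)^i x = (g j)^i' x'` with `i' < i` (symmetric otherwise), then with `a = i - i'`,
  `(g j)^a = x' x⁻¹`, `1 ≤ a < N`, `nr (ρ (g j)^a) ≥ δ j / 2` (`nr_pow_ge`, `a δ j ≤ N δ 0 ≤ 1`), but
  `nr (ρ (x' x⁻¹)) ≤ 4 N δ (j+1) ≤ δ j / 4`. So `i = i'` and `x = x'`.
(3) `Wd n j ⊆ bp T (3 N (2^(j+n) - 2^j))`, as `(g j)^i ∈ bp T (3 · 2^j · N)` (`pow_mono`, products of powers of `ball T`).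
For `j = 0`: `N^m ≤ (bp T (3 N 2^m)).card`.
-/

set_option autoImplicit false

universe u v

namespace H85.TG

open Pointwise

variable {Q : Type u} [Group Q] {V : Type v} [NormedAddCommGroup V] [InnerProductSpace ℂ V]

theorem bp_mono (T : Finset Q) {r r' : ℕ} (h : r ≤ r') : bp T r ⊆ bp T r' := by
  classical
  exact H85.TA.pow_mono T h

theorem bp_mul (T : Finset Q) {r r' : ℕ} {x y : Q} (hx : x ∈ bp T r) (hy : y ∈ bp T r') :
    x * y ∈ bp T (r + r') := by
  classical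
  unfold bp at *
  rw [pow_add]
  exact Finset.mul_mem_mul hx hy

theorem bp_one (T : Finset Q) (r : ℕ) : 1 ∈ bp T r := by
  classical
  exact Finset.one_mem_pow (H85.TA.one_mem_ball T)

theorem bp_pow (T : Finset Q) {r : ℕ} {x : Q} (hx : x ∈ bp T r) (i : ℕ) :
    x ^ i ∈ bp T (r * i) := by
  induction i with
  | zero =>
    rw [pow_zero]
    exact bp_one T _
  | succ i ih =>
    rw [pow_succ, Nat.mul_succ]
    exact bp_mul T ih hx

open Classical in
/-- the products -/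
private noncomputable def Wd (g : ℕ → Q) (N : ℕ) : ℕ → ℕ → Finset Q
  | 0, _ => {1}
  | n + 1, j => (Finset.range N ×ˢ Wd g N n (j + 1)).image fun p => g j ^ p.1 * p.2

private theorem mem_Wd_succ {g : ℕ → Q} {N n j : ℕ} {x : Q} (hx : x ∈ Wd g N (n + 1) j) :
    ∃ i < N, ∃ y ∈ Wd g N n (j + 1), x = g j ^ i * y := by
  classical
  rw [Wd, Finset.mem_image] at hx
  obtain ⟨⟨i, y⟩, hp, rfl⟩ := hx
  rw [Finset.mem_product, Finset.mem_range] at hp
  exact ⟨i, hp.1, y, hp.2, rfl⟩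

theorem count_words (ρ : Q →* (V ≃ₗᵢ[ℂ] V)) (T : Finset Q) (N : ℕ) (hN : 1 ≤ N) (g : ℕ → Q)
    (hlen : ∀ k, g k ∈ bp T (3 * 2 ^ k)) (hpos : ∀ k, 0 < nr (ρ (g k)))
    (h0 : 2 * N * nr (ρ (g 0)) ≤ 1) (hdec : ∀ k, 16 * N * nr (ρ (g (k + 1))) ≤ nr (ρ (g k)))
    (m : ℕ) : N ^ m ≤ (bp T (3 * N * 2 ^ m)).card := by
  classical
  have hN1 : (1 : ℝ) ≤ N := by exact_mod_cast hN
  have hA : ∀ j, 2 * N * nr (ρ (g j)) ≤ 1 := by
    intro j
    induction j with
    | zero => exact h0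
    | succ j ih =>
      have h1 := hdec j
      have h2 := hpos (j + 1)
      have h3 := hpos j
      have h4 : nr (ρ (g (j + 1))) ≤ nr (ρ (g j)) := by nlinarith
      have h5 : 2 * N * nr (ρ (g (j + 1))) ≤ 2 * N * nr (ρ (g j)) :=
        mul_le_mul_of_nonneg_left h4 (by positivity)
      linarith
  have h1 : ∀ (n j : ℕ), ∀ x ∈ Wd g N n j, nr (ρ x) ≤ 2 * N * nr (ρ (g j)) := by
    intro n
    induction n with
    | zero =>
      intro j x hx
      rw [Wd, Finset.mem_singleton] at hx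
      rw [hx, map_one, nr_one]
      have := hpos j
      positivity
    | succ n ih =>
      intro j x hx
      obtain ⟨i, hi, y, hy, rfl⟩ := mem_Wd_succ hx
      have h2 := ih (j + 1) y hy
      have h3 := nr_mul (ρ (g j) ^ i) (ρ y)
      have h4 := nr_pow_le (ρ (g j)) i
      have h5 := hdec j
      have h6 := hpos j
      have hi' : (i : ℝ) ≤ N := by exact_mod_cast hi.le
      have h7 : (i : ℝ) * nr (ρ (g j)) ≤ N * nr (ρ (g j)) :=
        mul_le_mul_of_nonneg_right hi' h6.le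
      have h8 : nr (ρ (g j)) ≤ N * nr (ρ (g j)) := le_mul_of_one_le_left h6.le hN1
      rw [map_mul, map_pow]
      linarith
  have hinj : ∀ (n j : ℕ) (i i' : ℕ) (x x' : Q), i < N → i' < i → x ∈ Wd g N n (j + 1) →
      x' ∈ Wd g N n (j + 1) → g j ^ i * x = g j ^ i' * x' → False := by
    intro n j i i' x x' hi hii hx hx' he
    obtain ⟨a, rfl⟩ : ∃ a, i = i' + a := ⟨i - i', by omega⟩
    have ha : 1 ≤ a := by omega
    have h2 : g j ^ a = x' * x⁻¹ := by
      rw [pow_add, mul_assoc] at he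
      rw [eq_mul_inv_iff_mul_eq]
      exact mul_left_cancel he
    have ha' : (a : ℝ) ≤ N := by
      have : a ≤ N := by omega
      exact_mod_cast this
    have h6 := hpos j
    have h3 : (a : ℝ) * nr (ρ (g j)) ≤ 1 := by
      have h4 : (a : ℝ) * nr (ρ (g j)) ≤ N * nr (ρ (g j)) :=
        mul_le_mul_of_nonneg_right ha' h6.le
      have h5 := hA j
      have h7 : (0 : ℝ) ≤ N * nr (ρ (g j)) := by positivity
      linarith
    have h4 := nr_pow_ge (ρ (g j)) ha h3
    have h5 : nr (ρ (g j) ^ a) ≤ nr (ρ x') + nr (ρ x) := by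
      rw [← map_pow, h2, map_mul, map_inv, ← nr_inv (ρ x)]
      exact nr_mul _ _
    have h7 := h1 n (j + 1) x hx
    have h8 := h1 n (j + 1) x' hx'
    have h9 := hdec j
    linarith
  have h2 : ∀ (n j : ℕ), (Wd g N n j).card = N ^ n := by
    intro n
    induction n with
    | zero =>
      intro j
      rw [Wd, Finset.card_singleton, pow_zero]
    | succ n ih =>
      intro j
      rw [Wd, Finset.card_image_of_injOn, Finset.card_product, Finset.card_range, ih, pow_succ']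
      rintro ⟨i, x⟩ hp ⟨i', x'⟩ hp' he
      rw [Finset.mem_coe, Finset.mem_product, Finset.mem_range] at hp hp'
      have he' : g j ^ i * x = g j ^ i' * x' := he
      rcases lt_trichotomy i i' with h | h | h
      · exact (hinj n j i' i x' x hp'.1 h hp'.2 hp.2 he'.symm).elim
      · subst h
        rw [mul_left_cancel he']
      · exact (hinj n j i i' x x' hp.1 h hp.2 hp'.2 he').elim
  have h3 : ∀ (n j : ℕ), Wd g N n j ⊆ bp T (3 * N * (2 ^ (j + n) - 2 ^ j)) := by
    intro n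
    induction n with
    | zero =>
      intro j x hx
      rw [Wd, Finset.mem_singleton] at hx
      rw [hx]
      exact bp_one T _
    | succ n ih =>
      intro j x hx
      obtain ⟨i, hi, y, hy, rfl⟩ := mem_Wd_succ hx
      have h4 : g j ^ i ∈ bp T (3 * 2 ^ j * N) :=
        bp_mono T (Nat.mul_le_mul_left _ hi.le) (bp_pow T (hlen j) i)
      have h5 := bp_mul T h4 (ih (j + 1) hy)
      have h6 : 3 * 2 ^ j * N + 3 * N * (2 ^ (j + 1 + n) - 2 ^ (j + 1)) =
          3 * N * (2 ^ (j + (n + 1)) - 2 ^ j) := by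
        have e1 : (2 : ℕ) ^ (j + 1) = 2 * 2 ^ j := pow_succ' 2 j
        have e2 : (2 : ℕ) ^ (j + 1) ≤ 2 ^ (j + 1 + n) := Nat.pow_le_pow_right (by norm_num)
          (Nat.le_add_right _ _)
        have e3 : j + (n + 1) = j + 1 + n := by omega
        have e4 : 2 ^ j + (2 ^ (j + 1 + n) - 2 ^ (j + 1)) = (2 : ℕ) ^ (j + (n + 1)) - 2 ^ j := by
          rw [e3]
          omega
        rw [← e4]
        ring
      rw [h6] at h5
      exact h5
  calc N ^ m = (Wd g N m 0).card := (h2 m 0).symm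
    _ ≤ (bp T (3 * N * (2 ^ (0 + m) - 2 ^ 0))).card := Finset.card_le_card (h3 m 0)
    _ ≤ (bp T (3 * N * 2 ^ m)).card := by
        refine Finset.card_le_card (bp_mono T (Nat.mul_le_mul_left _ ?_))
        rw [zero_add]
        exact Nat.sub_le _ _

end H85.TG
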