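import Pool.Agent.H18.SG.Gr
import Pool.Agent.H36.TX.Defs
import Pool.Agent.H85.TX.Basic

set_option autoImplicit false

/-!
# Grafts with four vertices (MP_367fb1_co): deletion and contraction of the added element
-/

open Set Matroid Module Submodule
open scoped Matroid

namespace Pool.Agent.H85.TG

open Pool.Agent.H18.SG (vec linMat linMat_indep linMat_ground gr)
open Pool.Agent.H36.TX (IsRep Rep Regular ThreeConn)
open Pool.Agent.H85.TX (rk indepOn_iff)

variable {V E : Type} [Fintype V] [DecidableEq V] [Finite E]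

/-- the vectors: the incidence vectors of the edges, and for the added element `none` the sum of the
four vertices -/
def ev (s t : E → V) (p : Fin 4 → V) : Option E → V → ZMod 2
  | none => ∑ i, Pi.single (p i) 1
  | some f => vec (ZMod 2) s t f

/-- the graft matroid `M(G) + e` -/
def graft (s t : E → V) (p : Fin 4 → V) : Matroid (Option E) := linMat (ZMod 2) (ev s t p)

/-- No component of `G - T` is adjacent to all of `T = {p 0, p 1, p 2, p 3}`: the vertices outside
`T` can be coloured by `c` such that adjacent vertices outside `T` have the same colour and no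
vertex of colour `i` outside `T` is adjacent to `p i`. -/
def Coloured (s t : E → V) (p : Fin 4 → V) (c : V → Fin 4) : Prop :=
  ∀ f, ((∀ i, p i ≠ s f) → (∀ i, p i ≠ t f) → c (s f) = c (t f)) ∧
    (∀ i, p i = s f → (∀ j, p j ≠ t f) → c (t f) ≠ i) ∧
    ∀ i, p i = t f → (∀ j, p j ≠ s f) → c (s f) ≠ i

/-- the matrix `τ` -/
def τ : Fin 4 → Fin 3 → ZMod 2 := ![![0, 1, 1], ![1, 0, 1], ![1, 1, 0], ![0, 0, 0]]

/-- the matrix `σ` -/
def σ : Fin 4 → Fin 3 → ZMod 2 := ![![1, 0, 0], ![0, 1, 0], ![0, 0, 1], ![1, 1, 1]]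

theorem τσ : ∀ i j : Fin 4, i ≠ j → ∃ y : Fin 3, ∀ z, τ i z + σ j z = if z = y then 1 else 0 := by
  decide

theorem ττ : ∀ i j : Fin 4, ∃ y y' : Fin 3, ∀ z, τ i z + τ j z =
    (if z = y then 1 else 0) + if z = y' then 1 else 0 := by
  decide

theorem τker : ∀ a : Fin 4 → ZMod 2, (∀ z, ∑ i, a i * τ i z = 0) → ∑ i, a i = 0 →
    a = 0 ∨ a = 1 := by
  decide

/-- the images of the vertices -/
noncomputable def img (p : Fin 4 → V) (c : V → Fin 4) (u : V) : V ⊕ Fin 3 → ZMod 2 :=
  Sum.elim (fun w => if w = u ∧ ∀ i, p i ≠ u then 1 else 0)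
    (if h : ∃ i, p i = u then τ h.choose else σ (c u))

omit [Fintype V] in
theorem img_T (p : Fin 4 → V) (hp : Function.Injective p) (c : V → Fin 4) (i : Fin 4) :
    img p c (p i) = Sum.elim (fun _ => (0 : ZMod 2)) (τ i) := by
  have h : ∃ j, p j = p i := ⟨i, rfl⟩
  have h2 : h.choose = i := hp h.choose_spec
  funext z
  rcases z with z | z
  · show (if z = p i ∧ ∀ j, p j ≠ p i then (1 : ZMod 2) else 0) = 0
    rw [if_neg]
    exact fun h3 => h3.2 i rfl
  · simp only [img, Sum.elim_inr]
    rw [dif_pos h, h2]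

omit [Fintype V] in
theorem img_not (p : Fin 4 → V) (c : V → Fin 4) (u : V) (hu : ∀ i, p i ≠ u) :
    img p c u = Sum.elim (Pi.single u 1) (σ (c u)) := by
  have h : ¬ ∃ j, p j = u := fun ⟨j, hj⟩ => hu j hj
  funext z
  rcases z with z | z
  · simp only [img, Sum.elim_inl]
    by_cases hz : z = u
    · subst hz
      simp [hu]
    · simp [hz]
  · simp only [img, Sum.elim_inr]
    rw [dif_neg h]

theorem two_eq (a : ZMod 2) : a + a = 0 := by
  revert a
  decide

theorem sub_eq (a b : ZMod 2) : a - b = a + b := by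
  revert a b
  decide

omit [Fintype V] in
theorem exists_ends (s t : E → V) (p : Fin 4 → V) (hp : Function.Injective p) (c : V → Fin 4)
    (hc : Coloured s t p c) (f : E) :
    ∃ a b : V ⊕ Fin 3, img p c (s f) - img p c (t f) = Pi.single a 1 - Pi.single b 1 := by
  obtain ⟨h1, h2, h3⟩ := hc f
  by_cases hs : ∃ i, p i = s f
  · obtain ⟨i, hi⟩ := hs
    by_cases ht : ∃ j, p j = t f
    · obtain ⟨j, hj⟩ := ht
      obtain ⟨y, y', hy⟩ := ττ i j
      refine ⟨Sum.inr y, Sum.inr y', ?_⟩
      rw [← hi, ← hj, img_T p hp, img_T p hp]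
      funext z
      rcases z with z | z
      · simp
      · simp only [Pi.sub_apply, Sum.elim_inr, sub_eq]
        rw [hy z]
        simp [Pi.single_apply]
    · push Not at ht
      obtain ⟨y, hy⟩ := τσ i (c (t f)) (fun h => h2 i hi ht h.symm)
      refine ⟨Sum.inr y, Sum.inl (t f), ?_⟩
      rw [← hi, img_T p hp, img_not p c _ ht]
      funext z
      rcases z with z | z
      · simp [Pi.single_apply]
      · simp only [Pi.sub_apply, Sum.elim_inr, sub_eq]
        rw [hy z]
        simp [Pi.single_apply]
  · push Not at hs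
    by_cases ht : ∃ j, p j = t f
    · obtain ⟨j, hj⟩ := ht
      obtain ⟨y, hy⟩ := τσ j (c (s f)) (fun h => h3 j hj hs h.symm)
      refine ⟨Sum.inl (s f), Sum.inr y, ?_⟩
      rw [← hj, img_T p hp, img_not p c _ hs]
      funext z
      rcases z with z | z
      · simp [Pi.single_apply]
      · simp only [Pi.sub_apply, Sum.elim_inr, sub_eq]
        rw [add_comm, hy z]
        simp [Pi.single_apply]
    · push Not at ht
      refine ⟨Sum.inl (s f), Sum.inl (t f), ?_⟩
      rw [img_not p c _ hs, img_not p c _ ht, h1 hs ht]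
      funext z
      rcases z with z | z
      · simp [Pi.single_apply]
      · simp

/-- the linear map -/
noncomputable def φ (p : Fin 4 → V) (c : V → Fin 4) :
    (V → ZMod 2) →ₗ[ZMod 2] (V ⊕ Fin 3 → ZMod 2) :=
  Fintype.linearCombination (ZMod 2) (img p c)

theorem φ_single (p : Fin 4 → V) (c : V → Fin 4) (u : V) : φ p c (Pi.single u 1) = img p c u := by
  unfold φ
  rw [Fintype.linearCombination_apply_single, one_smul]

theorem φ_none (s t : E → V) (p : Fin 4 → V) (hp : Function.Injective p) (c : V → Fin 4) :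
    φ p c (ev s t p none) = 0 := by
  show φ p c (∑ i, Pi.single (p i) 1) = 0
  rw [map_sum]
  simp only [φ_single, img_T p hp]
  funext z
  rcases z with z | z
  · simp
  · simp only [Finset.sum_apply, Sum.elim_inr, Pi.zero_apply]
    revert z
    decide

/-- the sum of the coordinates -/
def sumC : (V → ZMod 2) →ₗ[ZMod 2] ZMod 2 := ∑ u, LinearMap.proj u

theorem sumC_single (u : V) : sumC (Pi.single u 1 : V → ZMod 2) = 1 := by
  simp [sumC, LinearMap.sum_apply, Pi.single_apply]

theorem sumC_ev (s t : E → V) (p : Fin 4 → V) (o : Option E) : sumC (ev s t p o) = 0 := by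
  rcases o with _ | f
  · show sumC (∑ i, Pi.single (p i) 1) = 0
    rw [map_sum]
    simp only [sumC_single]
    decide
  · show sumC (vec (ZMod 2) s t f) = 0
    unfold vec
    rw [map_sub, sumC_single, sumC_single, sub_self]

theorem ker_φ (s t : E → V) (p : Fin 4 → V) (hp : Function.Injective p) (c : V → Fin 4)
    (x : V → ZMod 2) (hx : sumC x = 0) (h : φ p c x = 0) : x = 0 ∨ x = ev s t p none := by
  have h0 : ∑ u, x u • img p c u = 0 := by
    rw [← Fintype.linearCombination_apply]
    exact h
  -- the coordinates outside of `T`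
  have h1 : ∀ u, (∀ i, p i ≠ u) → x u = 0 := by
    intro u hu
    have h2 := congrFun h0 (Sum.inl u)
    rw [Finset.sum_apply, Finset.sum_eq_single u] at h2
    · simpa [img, hu] using h2
    · intro b _ hb
      simp [img, hb.symm]
    · intro h3
      exact absurd (Finset.mem_univ u) h3
  have hsum : ∀ {A : Type} [AddCommMonoid A] (g : V → A), (∀ u, (∀ i, p i ≠ u) → g u = 0) →
      ∑ u, g u = ∑ i, g (p i) := by
    intro A _ g hg
    rw [← Finset.sum_image (s := Finset.univ) (g := p) (f := g) (fun a _ b _ hab => hp hab)]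
    symm
    apply Finset.sum_subset (Finset.subset_univ _)
    intro u _ hu
    apply hg u
    intro i hi
    exact hu (Finset.mem_image.2 ⟨i, Finset.mem_univ _, hi⟩)
  have h2 : ∀ z : Fin 3, ∑ i, x (p i) * τ i z = 0 := by
    intro z
    have h3 := congrFun h0 (Sum.inr z)
    rw [Finset.sum_apply, hsum (fun u => (x u • img p c u) (Sum.inr z))] at h3
    · simpa [img_T p hp] using h3
    · intro u hu
      show (x u • img p c u) (Sum.inr z) = 0
      rw [h1 u hu, zero_smul, Pi.zero_apply]
  have h3 : ∑ i, x (p i) = 0 := by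
    have h4 : ∑ u, x u = 0 := by
      have h5 := hx
      simpa [sumC, LinearMap.sum_apply] using h5
    rwa [hsum x h1] at h4
  have hev : ∀ u, ev s t p none u = if ∃ i, p i = u then 1 else 0 := by
    intro u
    show (∑ i, (Pi.single (p i) 1 : V → ZMod 2)) u = _
    rw [Finset.sum_apply]
    split_ifs with h5
    · obtain ⟨i, rfl⟩ := h5
      rw [Finset.sum_eq_single i]
      · simp
      · intro j _ hj
        rw [Pi.single_eq_of_ne]
        intro h6
        exact hj (hp h6).symm
      · intro h6
        exact absurd (Finset.mem_univ i) h6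
    · push Not at h5
      apply Finset.sum_eq_zero
      intro i _
      rw [Pi.single_eq_of_ne (h5 i).symm]
  rcases τker (fun i => x (p i)) h2 h3 with h4 | h4
  · left
    funext u
    by_cases hu : ∃ i, p i = u
    · obtain ⟨i, rfl⟩ := hu
      exact congrFun h4 i
    · push Not at hu
      exact h1 u hu
  · right
    funext u
    rw [hev u]
    split_ifs with hu
    · obtain ⟨i, rfl⟩ := hu
      exact congrFun h4 i
    · push Not at hu
      exact h1 u hu

end Pool.Agent.H85.TG
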