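import Pool.Agent.H85.TG.Defs

/-!
# Infinite abelian quotients
-/

set_option autoImplicit false

universe u v

namespace H85.TG

theorem exists_hom (A : Type u) [CommGroup A] [Group.FG A] [Infinite A] :
    ∃ χ : A →* Multiplicative ℤ, Function.Surjective χ := by
  obtain ⟨ι, j, hι, hj, p, hp, e, ⟨E⟩⟩ := CommGroup.equiv_free_prod_prod_multiplicative_zmod A
  rcases isEmpty_or_nonempty j with h | ⟨⟨j₀⟩⟩
  · exfalso
    have h1 : ∀ i, Finite (Multiplicative (ZMod (p i ^ e i))) := fun i => by
      have : NeZero (p i ^ e i) := ⟨pow_ne_zero _ (hp i).ne_zero⟩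
      exact (inferInstance : Finite (ZMod (p i ^ e i)))
    have h2 : Finite ((j → Multiplicative ℤ) × ((i : ι) → Multiplicative (ZMod (p i ^ e i)))) :=
      inferInstance
    have h3 : Finite A := Finite.of_equiv _ E.symm.toEquiv
    exact not_finite A
  · classical
    refine ⟨(Pi.evalMonoidHom _ j₀).comp ((MonoidHom.fst _ _).comp E.toMonoidHom), fun z => ?_⟩
    refine ⟨E.symm (Pi.mulSingle j₀ z, 1), ?_⟩
    simp

theorem ab_quot {Γ : Type u} [Group Γ] (hfg : (⊤ : Subgroup Γ).FG) {A : Type v} [Group A] (f : Γ →* A)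
    (hcomm : ∀ x y, f x * f y = f y * f x) (hf : (Set.range f).Infinite) :
    ∃ χ : Γ →* Multiplicative ℤ, Function.Surjective χ := by
  have hΓ : Group.FG Γ := ⟨hfg⟩
  have hsurj : Function.Surjective (Abelianization.of : Γ →* Abelianization Γ) :=
    QuotientGroup.mk_surjective
  have hA : Group.FG (Abelianization Γ) := Group.fg_of_surjective hsurj
  have hker : commutator Γ ≤ f.ker := by
    rw [commutator_def, Subgroup.commutator_le]
    intro x _ y _
    rw [MonoidHom.mem_ker, commutatorElement_def, map_mul, map_mul, map_mul, map_inv, map_inv,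
      hcomm x y]
    group
  let g : Abelianization Γ →* A := QuotientGroup.lift (commutator Γ) f (fun x hx => hker hx)
  have hr : Set.range f ⊆ Set.range g := by
    rintro _ ⟨x, rfl⟩
    exact ⟨Abelianization.of x, rfl⟩
  have hinf : Infinite (Abelianization Γ) := by
    by_contra hfin
    rw [not_infinite_iff_finite] at hfin
    exact hf ((Set.finite_range g).subset hr)
  obtain ⟨χ, hχ⟩ := exists_hom (Abelianization Γ)
  exact ⟨χ.comp Abelianization.of, hχ.comp hsurj⟩

end H85.TG
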