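import Pool.Agent.H85.TG.Gb
import Pool.Agent.H85.TB.Xa

/-!
# Actions with Schreier graphs of polynomial growth
-/

set_option autoImplicit false

universe u v

namespace H85.TG

open H85.TA Pointwise

variable {G : Type u} {Ω : Type v} [Group G] [MulAction G Ω]

/-- the Schreier graphs have growth at most `C r ^ d` for arbitrarily large radii, uniformly -/
def SG (G : Type u) (Ω : Type v) [Group G] [MulAction G Ω] (d : ℕ) : Prop :=
  ∀ T : Finset G, ∃ C : ℕ, ∀ r₀ : ℕ, ∃ r ≥ r₀, ∀ x : Ω, (Bl T r x).card ≤ C * r ^ d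

theorem mem_Bl_self (T : Finset G) (n : ℕ) (x : Ω) : x ∈ Bl T n x := by
  classical
  rw [Bl]
  exact Finset.mem_image.2 ⟨1, Finset.one_mem_pow (one_mem_ball T), one_smul _ _⟩

theorem Bl_mono (T : Finset G) {m n : ℕ} (h : m ≤ n) (x : Ω) : Bl T m x ⊆ Bl T n x := by
  classical
  exact Finset.image_subset_image (pow_mono T h)

theorem sg_of_gen (S : Finset G) (hS : Subgroup.closure (S : Set G) = ⊤) (C d : ℕ)
    (h : ∀ r₀ : ℕ, ∃ r ≥ r₀, ∀ x : Ω, (sball S r x).ncard ≤ C * r ^ d) : SG G Ω d := by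
  classical
  intro T
  have h1 : ∀ t : G, ∃ p, t ∈ (ball S) ^ p := fun t => exists_mem_pow S (by
    rw [hS]
    exact Subgroup.mem_top t)
  choose p hp using h1
  let q : ℕ := (ball T).sup p + 1
  have hqpos : 0 < q := Nat.succ_pos _
  have hq : ball T ⊆ (ball S) ^ q := by
    intro t ht
    refine pow_mono S ?_ (hp t)
    exact (Finset.le_sup (f := p) ht).trans (Nat.le_succ _)
  have hqr : ∀ n, (ball T) ^ n ⊆ (ball S) ^ (q * n) := by
    intro n
    rw [pow_mul]
    exact Finset.pow_subset_pow_left hq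
  refine ⟨C * (2 * q) ^ d, fun r₀ => ?_⟩
  obtain ⟨R, hR, hR'⟩ := h (q * (r₀ + 1))
  have hr : r₀ + 1 ≤ R / q := by
    rw [Nat.le_div_iff_mul_le hqpos, mul_comm]
    exact hR
  refine ⟨R / q, by omega, fun x => ?_⟩
  have h5 : (Bl T (R / q) x).card ≤ (sball S R x).ncard := by
    rw [sball_eq, Set.ncard_coe_finset]
    refine Finset.card_le_card (Finset.image_subset_image ((hqr _).trans (pow_mono S ?_)))
    exact Nat.mul_div_le R q
  have h6 : R ≤ 2 * q * (R / q) := by
    have h7 : R < q * (R / q) + q := Nat.lt_mul_div_succ R hqpos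
    have h9 : q ≤ q * (R / q) := Nat.le_mul_of_pos_right _ (by omega)
    have h10 : 2 * q * (R / q) = q * (R / q) + q * (R / q) := by ring
    omega
  calc (Bl T (R / q) x).card ≤ C * R ^ d := h5.trans (hR' x)
    _ ≤ C * (2 * q * (R / q)) ^ d := Nat.mul_le_mul_left C (Nat.pow_le_pow_left h6 d)
    _ = C * (2 * q) ^ d * (R / q) ^ d := by rw [mul_pow, mul_assoc]

theorem exists_radius {d : ℕ} (h : SG G Ω d) (S : Finset G) (i : ℕ) (hi : 1 ≤ i) (x : Ω) :
    ∃ n : ℕ, i * (Bl S (n + 1) x).card ≤ (i + 1) * (Bl S n x).card := by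
  by_contra hcon
  push Not at hcon
  have h1 : ∀ n, (i + 1) ^ n ≤ i ^ n * (Bl S n x).card := by
    intro n
    induction n with
    | zero =>
      rw [pow_zero, pow_zero, one_mul]
      exact Finset.card_pos.2 ⟨x, mem_Bl_self S 0 x⟩
    | succ n ih =>
      calc (i + 1) ^ (n + 1) = (i + 1) ^ n * (i + 1) := pow_succ _ _
        _ ≤ i ^ n * (Bl S n x).card * (i + 1) := Nat.mul_le_mul_right _ ih
        _ = i ^ n * ((i + 1) * (Bl S n x).card) := by ring
        _ ≤ i ^ n * (i * (Bl S (n + 1) x).card) := Nat.mul_le_mul_left _ (hcon n).le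
        _ = i ^ (n + 1) * (Bl S (n + 1) x).card := by ring
  obtain ⟨C, hC⟩ := h S
  have hi0 : (0 : ℝ) < i := by exact_mod_cast hi
  have hρ : (1 : ℝ) < ((i : ℝ) + 1) / i := by
    rw [one_lt_div hi0]
    exact lt_add_one _
  have h2 := tendsto_pow_const_div_const_pow_of_one_lt d hρ
  have hCpos : (0 : ℝ) < 1 / ((C : ℝ) + 1) := by positivity
  obtain ⟨N, hN⟩ := Filter.eventually_atTop.1 (h2.eventually (gt_mem_nhds hCpos))
  obtain ⟨r, hr, hr'⟩ := hC N
  have h3 := hN r hr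
  have h4 := (h1 r).trans (Nat.mul_le_mul_left _ (hr' x))
  have h5 : (((i + 1) ^ r : ℕ) : ℝ) ≤ ((i ^ r * (C * r ^ d) : ℕ) : ℝ) := by exact_mod_cast h4
  push_cast at h5
  have hip : (0 : ℝ) < (i : ℝ) ^ r := pow_pos hi0 r
  rw [div_pow, div_lt_div_iff₀ (by positivity) (by positivity), one_mul] at h3
  have h6 : (r : ℝ) ^ d * (C + 1) * (i : ℝ) ^ r < ((i : ℝ) + 1) ^ r := by
    calc (r : ℝ) ^ d * (C + 1) * (i : ℝ) ^ r < (((i : ℝ) + 1) ^ r / (i : ℝ) ^ r) * (i : ℝ) ^ r :=
          mul_lt_mul_of_pos_right h3 hip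
      _ = ((i : ℝ) + 1) ^ r := div_mul_cancel₀ _ hip.ne'
  have h7 : (i : ℝ) ^ r * (C * (r : ℝ) ^ d) ≤ (r : ℝ) ^ d * (C + 1) * (i : ℝ) ^ r := by
    have h8 : 0 ≤ (r : ℝ) ^ d * (i : ℝ) ^ r := by positivity
    nlinarith
  linarith

open Classical in
theorem foelner (hmax : ∀ H : Subgroup G, H.FG) {d : ℕ} (h : SG G Ω d) :
    ∃ F : ℕ → Ω → Finset Ω, (∀ i x, (F i x).Nonempty) ∧
      (∀ i x, ∀ y ∈ F i x, y ∈ MulAction.orbit G x) ∧
      ∀ (g : G) (m : ℕ), ∃ i₀, ∀ i ≥ i₀, ∀ x,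
        m * ((F i x).filter fun y => g • y ∉ F i x).card ≤ (F i x).card := by
  have hcount := countable_of_max hmax
  obtain ⟨e, he⟩ := exists_surjective_nat G
  let S : ℕ → Finset G := fun i => (Finset.range (i + 1)).image e
  choose n hn using fun (i : ℕ) (x : Ω) => exists_radius h (S i) (i + 1) (Nat.le_add_left 1 i) x
  refine ⟨fun i x => Bl (S i) (n i x) x, fun i x => ⟨x, mem_Bl_self _ _ _⟩, ?_, ?_⟩
  · intro i x y hy
    obtain ⟨a, -, rfl⟩ := Finset.mem_image.1 hy
    exact ⟨a, rfl⟩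
  · intro g m
    obtain ⟨j, rfl⟩ := he g
    refine ⟨max j m, fun i hi x => ?_⟩
    have hji : e j ∈ S i := Finset.mem_image.2 ⟨j, Finset.mem_range.2 (by
      have := (le_max_left j m).trans hi
      omega), rfl⟩
    have hmi : m ≤ i + 1 := by
      have := (le_max_right j m).trans hi
      omega
    have hmono : Bl (S i) (n i x) x ⊆ Bl (S i) (n i x + 1) x := Bl_mono _ (Nat.le_succ _) x
    have h1 : ((Bl (S i) (n i x) x).filter fun y => e j • y ∉ Bl (S i) (n i x) x).card ≤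
        (Bl (S i) (n i x + 1) x).card - (Bl (S i) (n i x) x).card := by
      rw [← Finset.card_sdiff_of_subset hmono]
      refine Finset.card_le_card_of_injOn (fun y => e j • y) ?_ ?_
      · intro y hy
        have hy' := Finset.mem_filter.1 (Finset.mem_coe.1 hy)
        refine Finset.mem_coe.2 (Finset.mem_sdiff.2 ⟨?_, hy'.2⟩)
        obtain ⟨a, ha, rfl⟩ := Finset.mem_image.1 hy'.1
        refine Finset.mem_image.2 ⟨e j * a, ?_, mul_smul _ _ _⟩
        rw [pow_succ']
        refine Finset.mul_mem_mul ?_ ha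
        exact Finset.mem_insert_of_mem (Finset.mem_union_left _ hji)
      · intro a _ b _ hab
        exact smul_left_cancel _ hab
    have h2 := hn i x
    have h3 : (i + 1) * ((Bl (S i) (n i x + 1) x).card - (Bl (S i) (n i x) x).card) ≤
        (Bl (S i) (n i x) x).card := by
      rw [Nat.mul_sub]
      have h4 : (i + 1 + 1) * (Bl (S i) (n i x) x).card =
          (i + 1) * (Bl (S i) (n i x) x).card + (Bl (S i) (n i x) x).card := by ring
      omega
    exact ((Nat.mul_le_mul hmi h1).trans h3)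

end H85.TG
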