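import Pool.Agent.H85.TG.Ja

/-!
# The growth of the coset space of a maximal subgroup of positive density
-/

set_option autoImplicit false

universe u v

namespace H85.TG

open H85.TA Pointwise

variable {G : Type u} {Ω : Type v} [Group G] [MulAction G Ω]

/-- the growth of the coset space `G / H` is at most `C r ^ d` for arbitrarily large radii -/
def CG (H : Subgroup G) (d : ℕ) : Prop :=
  ∀ T : Finset G, ∃ C : ℕ, ∀ r₀ : ℕ, ∃ r ≥ r₀, ∀ P ⊆ bp T r,
    (∀ a ∈ P, ∀ b ∈ P, a⁻¹ * b ∈ H → a = b) → P.card ≤ C * r ^ d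

open Classical in
theorem cg_of_pos {F : ℕ → Finset Ω} (hne : ∀ k, (F k).Nonempty) {H : Subgroup G} (hH : Pos F H)
    (hH' : ∀ H' : Subgroup G, H ≤ H' → Pos F H' → H' = H) {d : ℕ} (h : SG G Ω d) : CG H d := by
  intro T
  obtain ⟨C, hC⟩ := h T
  refine ⟨C, fun r₀ => ?_⟩
  obtain ⟨r, hr, hr'⟩ := hC r₀
  refine ⟨r, hr, fun P hP hPH => ?_⟩
  obtain ⟨D, hD⟩ := hH
  let E : Finset G := ((bp T r ×ˢ bp T r).image fun p => p.1⁻¹ * p.2).filter fun e => e ∉ H
  have hE : ∀ e ∈ E, ¬ Pos F (H ⊔ Subgroup.zpowers e) := by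
    intro e he hp
    have h1 := hH' _ le_sup_left hp
    have h2 : e ∈ H ⊔ Subgroup.zpowers e := Subgroup.mem_sup_right (Subgroup.mem_zpowers e)
    rw [h1] at h2
    exact (Finset.mem_filter.1 he).2 h2
  have h2 : ∀ᶠ k in (Filter.hyperfilter ℕ : Filter ℕ), ∀ e ∈ E,
      2 * D * E.card * (fixd F (H ⊔ Subgroup.zpowers e) k).card < (F k).card :=
    (Filter.eventually_all_finset E).2 fun e he => not_pos (hE e he) _
  obtain ⟨k, hk1, hk3⟩ := (hD.and h2).exists
  have hFpos : 0 < (F k).card := Finset.card_pos.2 (hne k)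
  -- a good point
  have h3 : ∃ y ∈ fixd F H k, ∀ e ∈ E, e • y ≠ y := by
    by_contra hcon
    push Not at hcon
    have h4 : fixd F H k ⊆ E.biUnion fun e => fixd F (H ⊔ Subgroup.zpowers e) k := by
      intro y hy
      have hy' := mem_fixd.1 hy
      obtain ⟨e, he, hey⟩ := hcon y hy
      refine Finset.mem_biUnion.2 ⟨e, he, mem_fixd.2 ⟨hy'.1, ?_⟩⟩
      refine sup_le hy'.2 ?_
      rw [Subgroup.zpowers_le]
      exact hey
    have h5 : (fixd F H k).card ≤ ∑ e ∈ E, (fixd F (H ⊔ Subgroup.zpowers e) k).card :=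
      (Finset.card_le_card h4).trans Finset.card_biUnion_le
    have h6 : 2 * D * ∑ e ∈ E, (fixd F (H ⊔ Subgroup.zpowers e) k).card ≤ (F k).card := by
      rcases Nat.eq_zero_or_pos E.card with h7 | h7
      · rw [Finset.card_eq_zero] at h7
        rw [h7, Finset.sum_empty, mul_zero]
        exact Nat.zero_le _
      · have h8 : E.card * (2 * D * ∑ e ∈ E, (fixd F (H ⊔ Subgroup.zpowers e) k).card) ≤
            E.card * (F k).card := by
          calc E.card * (2 * D * ∑ e ∈ E, (fixd F (H ⊔ Subgroup.zpowers e) k).card)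
              = ∑ e ∈ E, 2 * D * E.card * (fixd F (H ⊔ Subgroup.zpowers e) k).card := by
                rw [← Finset.mul_sum]
                ring
            _ ≤ ∑ _e ∈ E, (F k).card := Finset.sum_le_sum fun e he => (hk3 e he).le
            _ = E.card * (F k).card := by rw [Finset.sum_const, smul_eq_mul]
        exact Nat.le_of_mul_le_mul_left h8 h7
    have h9 := Nat.mul_le_mul_left (2 * D) h5
    have h10 : 2 * D * (fixd F H k).card = 2 * (D * (fixd F H k).card) := by ring
    omega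
  obtain ⟨y, hy, hyE⟩ := h3
  have hy' := mem_fixd.1 hy
  have hinj : Set.InjOn (fun a : G => a • y) (P : Set G) := by
    intro a ha b hb hab
    refine hPH a ha b hb ?_
    by_contra h6
    refine hyE (a⁻¹ * b) ?_ ?_
    · refine Finset.mem_filter.2 ⟨Finset.mem_image.2 ⟨(a, b), ?_, rfl⟩, h6⟩
      exact Finset.mem_product.2 ⟨hP ha, hP hb⟩
    · rw [mul_smul, inv_smul_eq_iff]
      exact hab.symm
  rw [← Finset.card_image_of_injOn hinj]
  refine (Finset.card_le_card ?_).trans (hr' y)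
  rw [Bl]
  exact Finset.image_subset_image hP

end H85.TG
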