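import Pool.Agent.H85.TG.Jb
import Pool.Agent.H85.TG.Ad

/-!
# [H85 TG JC] the structure of the groups with a coset space of polynomial growth, 90-140 lines

* `pg_cosets`: `K` a subgroup, `L` a normal subgroup of `K` (as a subgroup of the type `K`) such that `y ∈ L ↔ x⁻¹ * y * x ∈ H` for `y : K`. For a finite set `T̄` of `K ⧸ L` choose a finite set
  `T₀` of `K` with image `T̄`, and let `T = {x⁻¹ t x : t ∈ T₀}`, a finite set of `G`. `bp T̄ r` is the image of `bp T₀ r` (`bp_map`); choose representatives in `bp T₀ r` (one for each element of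
  `bp T̄ r`); `P` = the set of the `x⁻¹ k x`, `k` a representative; `P ⊆ bp T r` and distinct elements of `P` are in different cosets of `H`. So `(bp T̄ r).card = P.card ≤ C r^d`.
* `vp_core`: follow `va_core` in `Pool/Agent/H85/TB/St.lean`. `K` = the normal core of the normaliser of `H` (finite index), `L x = K ⊓ cj H x` is normal in `K`. By `pg_cosets`, `vp_of_pg`
  (the quotient of `K` has max: `Subgroup.FG` of comap and map), `VP (⊤ : Subgroup (K ⧸ L)) ⊥`; `VP.comap` for `QuotientGroup.mk'` and `VP.map` for `K.subtype`: `VP K (L x)` for every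
  `x : G`. `VP.iInf` over the finite type `G ⧸ normalizer H` with `x = u.out`; `VP.congr`: the intersection of the `K ⊓ cj H u.out` is `K ⊓ H.normalCore`
  (every `b : G` is `u.out * n` with `n` in the normaliser, and `cj H (u.out * n) = cj H u.out`; see the end of the proof of `va_core`); `VP.of_relIndex`.
-/

set_option autoImplicit false

universe u v

namespace H85.TG

open H85.TA Pointwise

variable {G : Type u} [Group G]

open Classical in
theorem pg_cosets {H : Subgroup G} {d : ℕ} (h : CG H d) (K : Subgroup G) (L : Subgroup K) [L.Normal]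
    (x : G) (hL : ∀ y : K, y ∈ L ↔ x⁻¹ * (y : G) * x ∈ H) : PG (K ⧸ L) d := by
  intro T'
  let φ : K →* G := (MulAut.conj x⁻¹).toMonoidHom.comp K.subtype
  have hφ : ∀ y : K, φ y = x⁻¹ * (y : G) * x := fun y => by
    change x⁻¹ * (y : G) * x⁻¹⁻¹ = _
    rw [inv_inv]
  let T₀ : Finset K := T'.image Quotient.out
  have hT₀ : T₀.image (QuotientGroup.mk' L) = T' := by
    rw [Finset.image_image]
    have h1 : (QuotientGroup.mk' L : K → K ⧸ L) ∘ Quotient.out = id := by
      funext q
      exact QuotientGroup.out_eq' q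
    rw [h1, Finset.image_id]
  obtain ⟨C, hC⟩ := h (T₀.image φ)
  refine ⟨C, fun r₀ => ?_⟩
  obtain ⟨r, hr, hr'⟩ := hC r₀
  refine ⟨r, hr, ?_⟩
  have h3 : ∀ q : K ⧸ L, q ∈ bp T' r → ∃ k ∈ bp T₀ r, QuotientGroup.mk' L k = q := by
    intro q hq
    have h2 := bp_map (QuotientGroup.mk' L) T₀ r
    have h2' : T' = @Finset.image _ _ (fun a b => Classical.propDecidable (a = b))
        (QuotientGroup.mk' L) T₀ := by
      rw [← hT₀]
      congr
      exact Subsingleton.elim _ _
    rw [h2', h2] at hq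
    exact (@Finset.mem_image _ _ (fun a b => Classical.propDecidable (a = b)) _ _ _).1 hq
  choose! k hk hkq using h3
  have hinj : ∀ q ∈ bp T' r, ∀ q' ∈ bp T' r, (φ (k q))⁻¹ * φ (k q') ∈ H → q = q' := by
    intro q hq q' hq' hqq
    rw [← map_inv, ← map_mul, hφ, ← hL] at hqq
    rw [← hkq q hq, ← hkq q' hq']
    exact QuotientGroup.eq.2 hqq
  have h4 : (bp T' r).card = ((bp T' r).image fun q => φ (k q)).card := by
    refine (Finset.card_image_of_injOn fun q hq q' hq' hqq => ?_).symm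
    refine hinj q hq q' hq' ?_
    have hqq' : φ (k q) = φ (k q') := hqq
    rw [hqq', inv_mul_cancel]
    exact H.one_mem
  rw [h4]
  refine hr' _ ?_ ?_
  · intro a ha
    obtain ⟨q, hq, rfl⟩ := Finset.mem_image.1 ha
    rw [bp_map]
    exact Finset.mem_image_of_mem _ (hk q hq)
  · intro a ha b hb hab
    obtain ⟨q, hq, rfl⟩ := Finset.mem_image.1 ha
    obtain ⟨q', hq', rfl⟩ := Finset.mem_image.1 hb
    rw [hinj q hq q' hq' hab]

theorem max_quot {Q : Type u} [Group Q] (h : ∀ H : Subgroup Q, H.FG) (N : Subgroup Q) [N.Normal] :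
    ∀ H : Subgroup (Q ⧸ N), H.FG := by
  classical
  intro H
  obtain ⟨S, hS⟩ := h (H.comap (QuotientGroup.mk' N))
  refine ⟨S.image (QuotientGroup.mk' N), ?_⟩
  rw [Finset.coe_image, ← MonoidHom.map_closure, hS]
  exact Subgroup.map_comap_eq_self_of_surjective (QuotientGroup.mk'_surjective N) H

theorem vp_core (hmax : ∀ H : Subgroup G, H.FG) (H : Subgroup G)
    (hN : (Subgroup.normalizer (H : Set G)).FiniteIndex) {d : ℕ} (h : CG H d) :
    VP (⊤ : Subgroup G) H.normalCore := by
  let K : Subgroup G := (Subgroup.normalizer (H : Set G)).normalCore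
  have hKn : K.Normal := Subgroup.normalCore_normal _
  have hKf : K.FiniteIndex := Subgroup.finiteIndex_normalCore _
  have hKN : K ≤ Subgroup.normalizer (H : Set G) := Subgroup.normalCore_le _
  have hcn : ∀ x : G, ∀ k ∈ K, ∀ y ∈ K ⊓ cj H x, k * y * k⁻¹ ∈ K ⊓ cj H x := by
    intro x k hk y hy
    obtain ⟨hy1, hy2⟩ := mem_inf_cj.1 hy
    refine mem_inf_cj.2 ⟨K.mul_mem (K.mul_mem hk hy1) (K.inv_mem hk), ?_⟩
    have h2 : x⁻¹ * k * x ∈ Subgroup.normalizer (H : Set G) := by
      refine hKN ?_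
      have h3 := hKn.conj_mem _ hk x⁻¹
      rwa [inv_inv] at h3
    have h4 := (Subgroup.mem_normalizer_iff.1 h2 _).1 hy2
    have h5 : x⁻¹ * (k * y * k⁻¹) * x = x⁻¹ * k * x * (x⁻¹ * y * x) * (x⁻¹ * k * x)⁻¹ := by group
    rw [h5]
    exact h4
  have hvp : ∀ x : G, VP K (K ⊓ cj H x) := by
    intro x
    let L : Subgroup K := (K ⊓ cj H x).comap K.subtype
    have hLn : L.Normal := ⟨fun y hy k => hcn x k.1 k.2 y.1 hy⟩
    have hL : ∀ y : K, y ∈ L ↔ x⁻¹ * (y : G) * x ∈ H := fun y =>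
      ⟨fun hy => (mem_inf_cj.1 hy).2, fun hy => mem_inf_cj.2 ⟨y.2, hy⟩⟩
    have h1 := vp_of_pg d (K ⧸ L) (max_quot (max_sub hmax K) L) (pg_cosets h K L x hL)
    have h2 := (h1.comap (QuotientGroup.mk' L)).map K.subtype K.subtype_injective
    have e1 : (⊤ : Subgroup (K ⧸ L)).comap (QuotientGroup.mk' L) = ⊤ := Subgroup.comap_top _
    have e2 : (⊥ : Subgroup (K ⧸ L)).comap (QuotientGroup.mk' L) = L := by
      rw [MonoidHom.comap_bot, QuotientGroup.ker_mk']
    have e3 : (⊤ : Subgroup K).map K.subtype = K := by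
      rw [← MonoidHom.range_eq_map, Subgroup.range_subtype]
    have e4 : L.map K.subtype = K ⊓ cj H x := by
      rw [Subgroup.map_comap_eq, Subgroup.range_subtype, ← inf_assoc, inf_idem]
    rwa [e1, e2, e3, e4] at h2
  have hfinN : Finite (G ⧸ Subgroup.normalizer (H : Set G)) := inferInstance
  have h5 : VP K (⨅ u : G ⧸ Subgroup.normalizer (H : Set G), K ⊓ cj H u.out) :=
    VP.iInf fun u => hvp _
  have h6 : VP K H.normalCore := by
    refine h5.congr (le_antisymm ?_ ?_)
    · intro z hz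
      obtain ⟨hz, hzK⟩ := Subgroup.mem_inf.1 hz
      refine Subgroup.mem_inf.2 ⟨fun b => ?_, hzK⟩
      rw [Subgroup.mem_iInf] at hz
      have h6 := (mem_inf_cj.1 (hz (b⁻¹ : G))).2
      have h7 : ((((b⁻¹ : G) : G ⧸ Subgroup.normalizer (H : Set G)).out : G) :
          G ⧸ Subgroup.normalizer (H : Set G)) =
          ((b⁻¹ : G) : G ⧸ Subgroup.normalizer (H : Set G)) :=
        Quotient.out_eq _
      rw [QuotientGroup.eq] at h7
      set w := ((b⁻¹ : G) : G ⧸ Subgroup.normalizer (H : Set G)).out with hw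
      have h8 := (Subgroup.mem_normalizer_iff.1 (Subgroup.inv_mem _ h7) _).1 h6
      have h9 : (w⁻¹ * b⁻¹)⁻¹ * (w⁻¹ * z * w) * (w⁻¹ * b⁻¹)⁻¹⁻¹ = b * z * b⁻¹ := by group
      rwa [h9] at h8
    · intro z hz
      obtain ⟨hz, hzK⟩ := Subgroup.mem_inf.1 hz
      refine Subgroup.mem_inf.2 ⟨?_, hzK⟩
      rw [Subgroup.mem_iInf]
      intro u
      refine mem_inf_cj.2 ⟨hzK, ?_⟩
      have h7 := hz (u.out)⁻¹
      rwa [inv_inv] at h7
  refine h6.of_relIndex le_top ?_
  rw [Subgroup.relIndex_top_right]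
  exact hKf.index_ne_zero

end H85.TG
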