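import Pool.Agent.H85.TG.Jc

/-!
# The diagonal argument and the main theorem
-/

set_option autoImplicit false

universe u v

namespace H85.TG

open H85.TA

theorem vp_of_sg {G : Type u} {Ω : Type v} [Group G] [MulAction G Ω] [FaithfulSMul G Ω]
    (hmax : ∀ H : Subgroup G, H.FG) {d : ℕ} (h : SG G Ω d) : VP (⊤ : Subgroup G) ⊥ := by
  classical
  by_contra hcon
  obtain ⟨F, hne, horb, hinv⟩ := foelner hmax h
  have hcount := countable_subgroups hmax
  have hne' : Nonempty {N : Subgroup G // N.Normal ∧ VP ⊤ N} := by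
    refine ⟨⟨⊤, inferInstance, VP.of_index le_rfl ?_⟩⟩
    rw [Subgroup.relIndex_self]
    exact one_ne_zero
  obtain ⟨e, he⟩ := exists_surjective_nat {N : Subgroup G // N.Normal ∧ VP ⊤ N}
  let M : ℕ → Subgroup G := fun k => ⨅ i : Fin (k + 1), (e i).1
  have hMn : ∀ k, (M k).Normal := fun k => Subgroup.normal_iInf_normal fun i => (e i).2.1
  have hMva : ∀ k, VP ⊤ (M k) := fun k => VP.iInf fun i => (e i).2.2
  have h1 : ∀ k, ∃ x : Ω, ¬ M k ≤ MulAction.stabilizer G x := by
    intro k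
    by_contra hc
    push Not at hc
    have hM : M k = ⊥ := by
      rw [eq_bot_iff]
      intro g hg
      refine Subgroup.mem_bot.2 ?_
      refine FaithfulSMul.eq_of_smul_eq_smul (α := Ω) fun x => ?_
      rw [one_smul]
      exact hc x hg
    exact hcon (hM ▸ hMva k)
  choose x hx using h1
  have h2 : ∀ k, ∀ y ∈ F k (x k), ¬ M k ≤ MulAction.stabilizer G y := by
    intro k y hy hM
    obtain ⟨g, rfl⟩ := horb k (x k) y hy
    refine hx k fun m hm => ?_
    have h3 := hM ((hMn k).conj_mem m hm g)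
    rw [MulAction.mem_stabilizer_iff] at h3 ⊢
    change (g * m * g⁻¹) • g • x k = g • x k at h3
    rw [mul_smul, mul_smul, inv_smul_smul] at h3
    exact smul_left_cancel g h3
  let F' : ℕ → Finset Ω := fun k => F k (x k)
  have hne2 : ∀ k, (F' k).Nonempty := fun k => hne k (x k)
  have hinv2 : AInv G F' := by
    intro g m
    obtain ⟨i₀, hi₀⟩ := hinv g m
    exact ev_of_ge ⟨i₀, fun k hk => hi₀ k hk (x k)⟩
  obtain ⟨H, hH, hH'⟩ := exists_max_pos hmax F'
  have hT : CG H d := cg_of_pos hne2 hH hH' h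
  have hcore := vp_core hmax H (normalizer_finiteIndex hne2 hinv2 hH hH') hT
  obtain ⟨i, hi⟩ := he ⟨H.normalCore, inferInstance, hcore⟩
  obtain ⟨D, hD⟩ := hH
  obtain ⟨k, hk1, hk2⟩ := (hD.and (ev_of_ge (p := fun k => i ≤ k) ⟨i, fun k hk => hk⟩)).exists
  have h3 : (fixd F' H k).Nonempty := by
    rw [← Finset.card_pos]
    have h4 := Finset.card_pos.2 (hne2 k)
    by_contra h5
    rw [not_lt, Nat.le_zero] at h5
    rw [h5, mul_zero] at hk1
    omega
  obtain ⟨y, hy⟩ := h3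
  rw [mem_fixd] at hy
  refine h2 k y hy.1 ?_
  have h6 : M k ≤ (e i).1 := iInf_le (fun i : Fin (k + 1) => (e i).1) ⟨i, Nat.lt_succ_of_le hk2⟩
  rw [hi] at h6
  exact h6.trans ((Subgroup.normalCore_le H).trans hy.2)

theorem mainG (G : Type u) [Group G] (Ω : Type v) [MulAction G Ω] [FaithfulSMul G Ω] (S : Finset G)
    (hS : Subgroup.closure (S : Set G) = ⊤) (C d : ℕ)
    (hgrowth : ∀ r₀ : ℕ, ∃ r ≥ r₀, ∀ x : Ω, (sball S r x).ncard ≤ C * r ^ d)
    (hmax : ∀ H : Subgroup G, H.FG) : AlmostPolycyclic G :=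
  almostPolycyclic_of_vp (vp_of_sg hmax (sg_of_gen S hS C d hgrowth))

end H85.TG
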