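import Pool.Agent.H85.TG.Ja
import Pool.Agent.H85.TA.Basic

/-!
# Schreier graphs of contracting groups have polynomial growth
-/

set_option autoImplicit false

namespace H85.TG

open H85.TA Pointwise

variable {X : Type*}

/-- a contracting self-similar group of automorphisms of the tree of the words over `X` -/
def Contracting (G : Subgroup (TreeAut X)) : Prop :=
  (∀ g ∈ G, ∀ w, sec g w ∈ G) ∧
    ∃ N : Set (TreeAut X), N.Finite ∧ ∀ g ∈ G, {w : List X | sec g w ∉ N}.Finite

theorem words_card [Finite X] (m : ℕ) :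
    {w : List X | w.length = m}.ncard ≤ (Nat.card X + 1) ^ m := by
  induction m with
  | zero =>
    have h : {w : List X | w.length = 0} = {[]} := by
      ext w
      simp
    rw [h, Set.ncard_singleton, pow_zero]
  | succ m ih =>
    have h : {w : List X | w.length = m + 1} ⊆
        (fun p : X × List X => p.1 :: p.2) '' ((Set.univ : Set X) ×ˢ {w : List X | w.length = m}) := by
      intro w hw
      cases w with
      | nil => exact absurd hw (by simp)
      | cons x w =>
        refine ⟨(x, w), ⟨Set.mem_univ _, ?_⟩, rfl⟩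
        have hw' : w.length + 1 = m + 1 := hw
        exact Nat.succ_injective hw'
    have hfin : ((Set.univ : Set X) ×ˢ {w : List X | w.length = m}).Finite :=
      Set.finite_univ.prod (finite_words m)
    calc {w : List X | w.length = m + 1}.ncard
        ≤ ((fun p : X × List X => p.1 :: p.2) ''
            ((Set.univ : Set X) ×ˢ {w : List X | w.length = m})).ncard :=
          Set.ncard_le_ncard h (hfin.image _)
      _ ≤ ((Set.univ : Set X) ×ˢ {w : List X | w.length = m}).ncard := Set.ncard_image_le hfin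
      _ = Nat.card X * {w : List X | w.length = m}.ncard := by
          rw [Set.ncard_prod, Set.ncard_univ]
      _ ≤ (Nat.card X + 1) * (Nat.card X + 1) ^ m := Nat.mul_le_mul (Nat.le_succ _) ih
      _ = (Nat.card X + 1) ^ (m + 1) := (pow_succ' _ _).symm

/-- a finite set with contracting products -/
theorem exists_level [Finite X] {G : Subgroup (TreeAut X)} (hG : Contracting G)
    (S : Set (TreeAut X)) (hS : S.Finite) (hSG : S ⊆ G) :
    ∃ (B : Set (TreeAut X)) (k : ℕ), B.Finite ∧ S ⊆ B ∧ 1 ∈ B ∧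
      ∀ a ∈ B, ∀ b ∈ B, ∀ w : List X, k ≤ w.length → sec (a * b) w ∈ B := by
  obtain ⟨hss, N, hN, hNG⟩ := hG
  let B : Set (TreeAut X) := insert 1 (S ∪ (N ∩ G))
  have hB : B.Finite := (hS.union (hN.inter_of_left _)).insert 1
  have hBG : B ⊆ G := by
    rintro g (rfl | hg | hg)
    · exact G.one_mem
    · exact hSG hg
    · exact hg.2
  have hfin : (⋃ p ∈ B ×ˢ B, {w : List X | sec (p.1 * p.2) w ∉ N}).Finite :=
    (hB.prod hB).biUnion fun p hp => hNG _ (G.mul_mem (hBG hp.1) (hBG hp.2))
  obtain ⟨k, hk⟩ := (hfin.image List.length).bddAbove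
  refine ⟨B, k + 1, hB, fun g hg => Or.inr (Or.inl hg), Or.inl rfl, fun a ha b hb w hw => ?_⟩
  refine Or.inr (Or.inr ⟨?_, hss _ (G.mul_mem (hBG ha) (hBG hb)) w⟩)
  by_contra h
  have h1 : w.length ≤ k := hk ⟨w, Set.mem_iUnion₂.2 ⟨(a, b), ⟨ha, hb⟩, h⟩, rfl⟩
  omega

theorem sec_pow {B : Set (TreeAut X)} {k : ℕ}
    (hB : ∀ a ∈ B, ∀ b ∈ B, ∀ w : List X, k ≤ w.length → sec (a * b) w ∈ B) (j : ℕ) :
    ∀ g ∈ B ^ (2 ^ j), ∀ w : List X, w.length = j * k → sec g w ∈ B := by
  induction j with
  | zero =>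
    intro g hg w hw
    rw [zero_mul] at hw
    rw [List.eq_nil_of_length_eq_zero hw, sec_nil]
    rwa [pow_zero, pow_one] at hg
  | succ j ih =>
    intro g hg w hw
    rw [pow_succ, mul_two, pow_add] at hg
    obtain ⟨a, ha, b, hb, rfl⟩ := Set.mem_mul.1 hg
    have h2 : w = w.take (j * k) ++ w.drop (j * k) := (List.take_append_drop _ _).symm
    have h3 : (w.take (j * k)).length = j * k := by
      rw [List.length_take, hw]
      exact min_eq_left (Nat.mul_le_mul_right k (Nat.le_succ j))
    have h4 : (w.drop (j * k)).length = k := by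
      rw [List.length_drop, hw, Nat.succ_mul]
      omega
    rw [h2, sec_append, sec_mul]
    exact hB _ (ih a ha _ (by rw [length_app, h3])) _ (ih b hb _ h3) _ h4.ge

theorem ball_bound [Finite X] {G : Subgroup (TreeAut X)} (hG : Contracting G) (H : Subgroup (TreeAut X))
    (hH : H ≤ G) (S : Finset H) : ∃ C d : ℕ, ∀ r₀ : ℕ, ∃ r ≥ r₀, ∀ x : List X,
      (sball S r x).ncard ≤ C * r ^ d := by
  let S₀ : Set H := {s | s ∈ S ∨ s⁻¹ ∈ S}
  have hS₀ : S₀.Finite := by
    have h : S₀ = (S : Set H) ∪ (fun s => s⁻¹) '' (S : Set H) := by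
      ext s
      constructor
      · rintro (h | h)
        · exact Or.inl h
        · exact Or.inr ⟨s⁻¹, h, inv_inv s⟩
      · rintro (h | ⟨t, ht, rfl⟩)
        · exact Or.inl h
        · refine Or.inr ?_
          change t⁻¹⁻¹ ∈ S
          rw [inv_inv]
          exact ht
    rw [h]
    exact (Finset.finite_toSet S).union ((Finset.finite_toSet S).image _)
  let S' : Set (TreeAut X) := (fun g : H => (g : TreeAut X)) '' S₀
  have hS'fin : S'.Finite := hS₀.image _
  have hS'G : S' ⊆ G := by
    rintro _ ⟨g, -, rfl⟩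
    exact hH g.2
  obtain ⟨B, k, hBfin, hSB, h1, hB⟩ := exists_level hG S' hS'fin hS'G
  let q : ℕ := Nat.card X + 1
  have hpow : ∀ n, ∀ l : List H, l.length ≤ n → (∀ s ∈ l, s ∈ S ∨ s⁻¹ ∈ S) →
      ((l.prod : H) : TreeAut X) ∈ B ^ n := by
    intro n
    induction n with
    | zero =>
      intro l hl _
      rw [List.length_eq_zero_iff.1 (Nat.le_zero.1 hl), List.prod_nil, pow_zero]
      rfl
    | succ n ih =>
      intro l hl hl'
      rw [pow_succ']
      cases l with
      | nil =>
        exact Set.mem_mul.2 ⟨1, h1, 1, by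
          have h2 := ih [] (Nat.zero_le _) (by simp)
          rwa [List.prod_nil] at h2, by simp⟩
      | cons a l =>
        rw [List.prod_cons]
        refine Set.mul_mem_mul (hSB ⟨a, hl' a List.mem_cons_self, rfl⟩) (ih l ?_ fun s hs =>
          hl' s (List.mem_cons_of_mem _ hs))
        rw [List.length_cons] at hl
        omega
  refine ⟨B.ncard, q ^ k, fun r₀ => ⟨2 ^ r₀, Nat.lt_two_pow_self.le, fun x => ?_⟩⟩
  have hBpos : 1 ≤ B.ncard := (Set.ncard_pos hBfin).2 ⟨1, h1⟩
  have hq : 1 ≤ q := Nat.succ_le_succ (Nat.zero_le _)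
  have hbound : q ^ (r₀ * k) * B.ncard ≤ B.ncard * (2 ^ r₀) ^ (q ^ k) := by
    rw [mul_comm]
    refine Nat.mul_le_mul_left _ ?_
    calc q ^ (r₀ * k) = (q ^ k) ^ r₀ := by rw [mul_comm, pow_mul]
      _ ≤ (2 ^ (q ^ k)) ^ r₀ := Nat.pow_le_pow_left Nat.lt_two_pow_self.le _
      _ = (2 ^ r₀) ^ (q ^ k) := by rw [← pow_mul, ← pow_mul, mul_comm]
  refine le_trans ?_ hbound
  rcases Nat.lt_or_ge x.length (r₀ * k) with hx | hx
  · have h2 : sball S (2 ^ r₀) x ⊆ {w : List X | w.length = x.length} := by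
      rintro y ⟨l, -, -, rfl⟩
      exact length_app _ _
    calc (sball S (2 ^ r₀) x).ncard ≤ {w : List X | w.length = x.length}.ncard :=
          Set.ncard_le_ncard h2 (finite_words _)
      _ ≤ q ^ x.length := words_card _
      _ ≤ q ^ (r₀ * k) := Nat.pow_le_pow_right hq hx.le
      _ ≤ q ^ (r₀ * k) * B.ncard := Nat.le_mul_of_pos_right _ hBpos
  · have h2 : sball S (2 ^ r₀) x ⊆ (fun p : List X × TreeAut X => p.1 ++ p.2 • x.drop (r₀ * k)) ''
        ({w : List X | w.length = r₀ * k} ×ˢ B) := by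
      rintro y ⟨l, hl1, hl2, rfl⟩
      have h3 : (x.take (r₀ * k)).length = r₀ * k := by
        rw [List.length_take]
        exact min_eq_left hx
      set g : H := l.prod with hg
      refine ⟨((g : TreeAut X) • x.take (r₀ * k), sec g (x.take (r₀ * k))), ⟨?_, ?_⟩, ?_⟩
      · change ((g : TreeAut X) • x.take (r₀ * k)).length = r₀ * k
        rw [length_app, h3]
      · exact sec_pow hB r₀ g (hpow _ l hl1 hl2) _ h3
      · change (g : TreeAut X) • x.take (r₀ * k) ++ sec g (x.take (r₀ * k)) • x.drop (r₀ * k) = g • x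
        rw [← app_append, List.take_append_drop]
        rfl
    have hfin : ({w : List X | w.length = r₀ * k} ×ˢ B).Finite := (finite_words _).prod hBfin
    calc (sball S (2 ^ r₀) x).ncard
        ≤ ((fun p : List X × TreeAut X => p.1 ++ p.2 • x.drop (r₀ * k)) ''
          ({w : List X | w.length = r₀ * k} ×ˢ B)).ncard := Set.ncard_le_ncard h2 (hfin.image _)
      _ ≤ ({w : List X | w.length = r₀ * k} ×ˢ B).ncard := Set.ncard_image_le hfin
      _ = {w : List X | w.length = r₀ * k}.ncard * B.ncard := Set.ncard_prod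
      _ ≤ q ^ (r₀ * k) * B.ncard := Nat.mul_le_mul_right _ (words_card _)

end H85.TG
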