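import Pool.Agent.H85.TG.Ka
import Pool.Agent.H85.TG.Jd

/-!
# Contracting groups with the maximum condition
-/

set_option autoImplicit false

namespace H85.TG

open H85.TA

theorem mainC (X : Type*) [Finite X] (G : Subgroup (TreeAut X)) (hG : Contracting G)
    (H : Subgroup (TreeAut X)) (hH : H ≤ G) (hmax : ∀ K : Subgroup H, K.FG) :
    AlmostPolycyclic H := by
  obtain ⟨S, hS⟩ := hmax ⊤
  obtain ⟨C, d, h⟩ := ball_bound hG H hH S
  exact mainG H (List X) S hS C d h hmax

end H85.TG
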