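import Pool.Agent.H85.TG.Three

set_option autoImplicit false
set_option linter.unusedSectionVars false

/-!
# Grafts with four vertices: linkages in 3-connected graphs
-/

open Set Matroid Module Submodule
open scoped Matroid

namespace Pool.Agent.H85.TG

open Pool.Agent.H18.SG (vec linMat linMat_indep linMat_ground gr)
open Pool.Agent.H36.TX (IsRep Rep Regular ThreeConn)
open Pool.Agent.H85.TX (rk indepOn_iff eRk_eq Represents)

variable {V E : Type} [Fintype V] [DecidableEq V] [Finite E]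

/-- the graph is connected -/
def Conn (s t : E → V) : Prop :=
  ∀ S : Set V, S.Nonempty → Sᶜ.Nonempty → ∃ f, (s f ∈ S ∧ t f ∉ S) ∨ (t f ∈ S ∧ s f ∉ S)

variable {s t : E → V} {p : Fin 4 → V} {c : V → Fin 4}

theorem represents_ev : Represents (ZMod 2) (ev s t p) (graft s t p ＼ {none}) := by
  intro I hI
  rw [deleteElem_indep_iff, graft, linMat_indep]
  exact and_iff_left fun h => (hI h).2 rfl

theorem E_eq : (graft s t p ＼ {none}).E = some '' (univ : Set E) := by
  ext o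
  rcases o with _ | f
  · simp [delete_ground]
  · simp [delete_ground, graft, linMat_ground]

theorem ncard_some (X : Set E) : ((some '' X : Set (Option E))).ncard = X.ncard :=
  Set.ncard_image_of_injective _ (Option.some_injective E)

theorem rk_some (X : Set E) : rk (ZMod 2) (ev s t p) (some '' X) =
    finrank (ZMod 2) (span (ZMod 2) (vec (ZMod 2) s t '' X)) := by
  unfold rk
  rw [Set.image_image]
  rfl

theorem tc (h3 : ThreeConn (graft s t p ＼ {none})) {k : ℕ} (hk : k = 1 ∨ k = 2) {X : Set E}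
    (hX : k ≤ X.ncard) (hY : k ≤ (Xᶜ).ncard) :
    k ≤ finrank (ZMod 2) (span (ZMod 2) (vec (ZMod 2) s t '' X) ⊓
      span (ZMod 2) (vec (ZMod 2) s t '' Xᶜ) : Submodule (ZMod 2) (V → ZMod 2)) := by
  have h1 := three_nat represents_ev h3 k hk (some '' X) (some '' Xᶜ)
    (by rw [← Set.image_union, Set.union_compl_self, E_eq])
    ((Set.disjoint_image_iff (Option.some_injective E)).2 disjoint_compl_right)
    (by rw [ncard_some]; exact hX) (by rw [ncard_some]; exact hY)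
  rw [E_eq, rk_some, rk_some, rk_some] at h1
  have h2 := Submodule.finrank_sup_add_finrank_inf_eq (span (ZMod 2) (vec (ZMod 2) s t '' X))
    (span (ZMod 2) (vec (ZMod 2) s t '' Xᶜ))
  rw [← span_union, ← Set.image_union, Set.union_compl_self] at h2
  omega

/-- a cut -/
theorem cut {R : Set E} {a b : V}
    (h : (Pi.single a 1 - Pi.single b 1 : V → ZMod 2) ∉ span (ZMod 2) (vec (ZMod 2) s t '' R)) :
    ∃ Z : Set V, a ∈ Z ∧ b ∉ Z ∧ ∀ f ∈ R, (s f ∈ Z ↔ t f ∈ Z) := by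
  obtain ⟨ψ, h1, h2⟩ := Submodule.exists_le_ker_of_notMem h
  refine ⟨{u | ψ (Pi.single u 1) ≠ ψ (Pi.single b 1)}, ?_, fun h3 => h3 rfl, ?_⟩
  · intro h3
    apply h1
    rw [map_sub, h3, sub_self]
  · intro f hf
    have h3 : ψ (vec (ZMod 2) s t f) = 0 := h2 (subset_span ⟨f, hf, rfl⟩)
    unfold vec at h3
    rw [map_sub, sub_eq_zero] at h3
    show ψ (Pi.single (s f) 1) ≠ _ ↔ ψ (Pi.single (t f) 1) ≠ _
    rw [h3]

theorem vec_zero {f : E} {u : V} (h1 : s f ≠ u) (h2 : t f ≠ u) : vec (ZMod 2) s t f u = 0 := by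
  unfold vec
  rw [Pi.sub_apply, Pi.single_eq_of_ne h1.symm, Pi.single_eq_of_ne h2.symm, sub_zero]

/-- vectors of a span are supported on the ends of the edges -/
theorem span_supp {X : Set E} {Z : Set V} (h : ∀ f ∈ X, s f ∈ Z ∧ t f ∈ Z) {x : V → ZMod 2}
    (hx : x ∈ span (ZMod 2) (vec (ZMod 2) s t '' X)) {u : V} (hu : u ∉ Z) : x u = 0 := by
  have h1 : span (ZMod 2) (vec (ZMod 2) s t '' X) ≤
      LinearMap.ker (LinearMap.proj u : (V → ZMod 2) →ₗ[ZMod 2] ZMod 2) := by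
    rw [span_le]
    rintro _ ⟨f, hf, rfl⟩
    exact vec_zero (fun h2 => hu (h2 ▸ (h f hf).1)) (fun h2 => hu (h2 ▸ (h f hf).2))
  exact h1 hx

theorem span_sum {X : Set E} {x : V → ZMod 2}
    (hx : x ∈ span (ZMod 2) (vec (ZMod 2) s t '' X)) : ∑ u, x u = 0 := by
  have h1 : span (ZMod 2) (vec (ZMod 2) s t '' X) ≤ LinearMap.ker (sumC (V := V)) := by
    rw [span_le]
    rintro _ ⟨f, hf, rfl⟩
    show sumC (vec (ZMod 2) s t f) = 0
    unfold vec
    rw [map_sub, sumC_single, sumC_single, sub_self]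
  have h2 : sumC x = 0 := h1 hx
  simpa [sumC, LinearMap.sum_apply] using h2

/-- The edges which meet `Z`. If their ends are in `Z ∪ A`, the intersection of the spans is small. -/
theorem inf_small (Z : Set V) (A : Finset V) (h : ∀ f, (s f ∈ Z ∨ t f ∈ Z) →
    (s f ∈ Z ∨ s f ∈ A) ∧ (t f ∈ Z ∨ t f ∈ A)) {x : V → ZMod 2}
    (hx : x ∈ span (ZMod 2) (vec (ZMod 2) s t '' {f | s f ∈ Z ∨ t f ∈ Z}) ⊓
      span (ZMod 2) (vec (ZMod 2) s t '' {f | s f ∈ Z ∨ t f ∈ Z}ᶜ)) :
    (∀ u, u ∉ A → x u = 0) ∧ ∑ u ∈ A, x u = 0 := by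
  obtain ⟨h1, h2⟩ := hx
  have h3 : ∀ u, u ∉ A → x u = 0 := by
    intro u hu
    by_cases hz : u ∈ Z
    · refine span_supp (Z := Zᶜ) ?_ h2 (fun h4 => h4 hz)
      intro f hf
      have hf' : ¬ (s f ∈ Z ∨ t f ∈ Z) := hf
      push Not at hf'
      exact hf'
    · refine span_supp (Z := Z ∪ A) ?_ h1 (fun h4 => ?_)
      · intro f hf
        exact h f hf
      · rcases h4 with h4 | h4
        · exact hz h4
        · exact hu h4
  refine ⟨h3, ?_⟩
  have h4 := span_sum h1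
  rw [← h4]
  exact Finset.sum_subset (Finset.subset_univ A) fun u _ hu => h3 u hu

/-- there is an edge at every vertex -/
theorem exists_edge (hc : Conn s t) (hV : 2 ≤ Fintype.card V) (u : V) :
    ∃ f, (s f = u ∧ t f ≠ u) ∨ (t f = u ∧ s f ≠ u) := by
  have h1 : ({u}ᶜ : Set V).Nonempty := by
    have : Nontrivial V := Fintype.one_lt_card_iff_nontrivial.1 (by omega)
    obtain ⟨v, hv⟩ := exists_ne u
    exact ⟨v, hv⟩
  obtain ⟨f, h2⟩ := hc {u} (Set.singleton_nonempty u) h1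
  exact ⟨f, h2⟩

/-- `G - u` is connected -/
theorem sub_mem_span (h3 : ThreeConn (graft s t p ＼ {none})) (hc : Conn s t) {u a b : V}
    (ha : a ≠ u) (hb : b ≠ u) : (Pi.single a 1 - Pi.single b 1 : V → ZMod 2) ∈
      span (ZMod 2) (vec (ZMod 2) s t '' {f | s f ≠ u ∧ t f ≠ u}) := by
  by_contra hcon
  obtain ⟨Z, haZ, hbZ, hZ⟩ := cut hcon
  obtain ⟨Z1, hZ1⟩ : ∃ Z1 : Set V, Z1 = Z \ {u} := ⟨_, rfl⟩
  have haZ1 : a ∈ Z1 := hZ1 ▸ ⟨haZ, ha⟩
  have hbZ1 : b ∉ Z1 := fun h => hbZ (hZ1 ▸ h : b ∈ Z \ {u}).1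
  have hends : ∀ f, (s f ∈ Z1 ∨ t f ∈ Z1) →
      (s f ∈ Z1 ∨ s f ∈ ({u} : Finset V)) ∧ (t f ∈ Z1 ∨ t f ∈ ({u} : Finset V)) := by
    intro f hf
    rw [hZ1] at hf ⊢
    simp only [Finset.mem_singleton, mem_sdiff, mem_singleton_iff] at hf ⊢
    by_cases h1 : s f = u
    · by_cases h2 : t f = u
      · exact ⟨Or.inr h1, Or.inr h2⟩
      · refine ⟨Or.inr h1, Or.inl ?_⟩
        rcases hf with hf | hf
        · exact absurd h1 hf.2
        · exact hf
    · by_cases h2 : t f = u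
      · refine ⟨Or.inl ?_, Or.inr h2⟩
        rcases hf with hf | hf
        · exact hf
        · exact absurd h2 hf.2
      · have h4 := hZ f ⟨h1, h2⟩
        rcases hf with hf | hf
        · exact ⟨Or.inl hf, Or.inl ⟨h4.1 hf.1, h2⟩⟩
        · exact ⟨Or.inl ⟨h4.2 hf.1, h1⟩, Or.inl hf⟩
  have hX : 1 ≤ ({f | s f ∈ Z1 ∨ t f ∈ Z1} : Set E).ncard := by
    obtain ⟨f, hf⟩ := hc Z1 ⟨a, haZ1⟩ ⟨b, hbZ1⟩
    refine (Set.ncard_pos (Set.toFinite _)).2 ⟨f, ?_⟩
    rcases hf with hf | hf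
    · exact Or.inl hf.1
    · exact Or.inr hf.1
  have hY : 1 ≤ ({f | s f ∈ Z1 ∨ t f ∈ Z1}ᶜ : Set E).ncard := by
    obtain ⟨f, hf⟩ := hc {v | v ∉ Z1 ∧ v ≠ u} ⟨b, hbZ1, hb⟩ ⟨a, fun h => h.1 haZ1⟩
    refine (Set.ncard_pos (Set.toFinite _)).2 ⟨f, ?_⟩
    intro h4
    have h5 := hends f h4
    simp only [Finset.mem_singleton] at h5
    rcases hf with hf | hf
    · rcases h5.1 with h6 | h6
      · exact hf.1.1 h6
      · exact hf.1.2 h6
    · rcases h5.2 with h6 | h6
      · exact hf.1.1 h6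
      · exact hf.1.2 h6
  have h1 := tc h3 (Or.inl rfl) hX hY
  have h2 : (span (ZMod 2) (vec (ZMod 2) s t '' {f | s f ∈ Z1 ∨ t f ∈ Z1}) ⊓
      span (ZMod 2) (vec (ZMod 2) s t '' {f | s f ∈ Z1 ∨ t f ∈ Z1}ᶜ) :
        Submodule (ZMod 2) (V → ZMod 2)) = ⊥ := by
    rw [eq_bot_iff]
    intro x hx
    obtain ⟨h4, h5⟩ := inf_small Z1 {u} hends hx
    rw [Finset.sum_singleton] at h5
    show x = 0
    funext v
    by_cases hv : v = u
    · rw [hv]
      exact h5
    · exact h4 v (by simpa using hv)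
  rw [h2, finrank_bot] at h1
  omega

/-- every vertex has degree at least two -/
theorem two_le_star (h3 : ThreeConn (graft s t p ＼ {none})) (hc : Conn s t)
    (hE : 4 ≤ Nat.card E) (hV : 2 ≤ Fintype.card V) (u : V) :
    2 ≤ ({f | s f = u ∨ t f = u} : Set E).ncard := by
  by_contra hcon
  obtain ⟨f, hf⟩ := exists_edge hc hV u
  have hfu : f ∈ ({f | s f = u ∨ t f = u} : Set E) := by
    rcases hf with hf | hf
    · exact Or.inl hf.1
    · exact Or.inr hf.1
  have h1 : ({f | s f = u ∨ t f = u} : Set E).ncard = 1 := by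
    have := (Set.ncard_pos (Set.toFinite _)).2 ⟨f, hfu⟩
    omega
  obtain ⟨g, hg⟩ := Set.ncard_eq_one.1 h1
  have hcomp : ({f | s f = u ∨ t f = u} : Set E).ncard +
      ({f | s f = u ∨ t f = u}ᶜ : Set E).ncard = Nat.card E := Set.ncard_add_ncard_compl _
  have h4 := tc h3 (Or.inl rfl) (X := {f | s f = u ∨ t f = u}) (by omega) (by omega)
  have h2 : (span (ZMod 2) (vec (ZMod 2) s t '' {f | s f = u ∨ t f = u}) ⊓
      span (ZMod 2) (vec (ZMod 2) s t '' {f | s f = u ∨ t f = u}ᶜ) :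
        Submodule (ZMod 2) (V → ZMod 2)) = ⊥ := by
    rw [eq_bot_iff]
    rintro x ⟨hx1, hx2⟩
    show x = 0
    have h5 : x u = 0 := by
      refine span_supp (Z := {u}ᶜ) ?_ hx2 (fun h6 => h6 rfl)
      intro e he
      have he' : ¬ (s e = u ∨ t e = u) := he
      push Not at he'
      exact he'
    rw [hg, Set.image_singleton] at hx1
    obtain ⟨r, rfl⟩ := mem_span_singleton.1 hx1
    have hfg : f = g := by
      have : f ∈ ({g} : Set E) := hg ▸ hfu
      exact this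
    rw [← hfg] at h5 ⊢
    have h6 : vec (ZMod 2) s t f u ≠ 0 := by
      unfold vec
      rw [Pi.sub_apply]
      rcases hf with hf | hf
      · rw [hf.1, Pi.single_eq_same, Pi.single_eq_of_ne hf.2.symm, sub_zero]
        exact one_ne_zero
      · rw [hf.1, Pi.single_eq_same, Pi.single_eq_of_ne hf.2.symm, zero_sub]
        exact neg_ne_zero.2 one_ne_zero
    have h7 : r * vec (ZMod 2) s t f u = 0 := h5
    rcases mul_eq_zero.1 h7 with h8 | h8
    · rw [h8, zero_smul]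
    · exact absurd h8 h6
  rw [h2, finrank_bot] at h4
  omega

/-- the side of a pair -/
def side (p : Fin 4 → V) (c : V → Fin 4) (i j : Fin 4) : Set V :=
  {u | u = p i ∨ u = p j ∨ ((∀ m, p m ≠ u) ∧ c u ≠ i ∧ c u ≠ j)}

theorem link (h3 : ThreeConn (graft s t p ＼ {none})) (hc : Conn s t) (hE : 4 ≤ Nat.card E)
    (hV : 2 ≤ Fintype.card V) (hp : Function.Injective p) (hcol : Coloured s t p c)
    {i j k l : Fin 4} (hij : i ≠ j) (hik : i ≠ k) (hil : i ≠ l) (hjk : j ≠ k) (hjl : j ≠ l)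
    (hkl : k ≠ l) :
    (Pi.single (p i) 1 - Pi.single (p j) 1 : V → ZMod 2) ∈ span (ZMod 2) (vec (ZMod 2) s t ''
      {f | s f ∈ side p c i j ∧ t f ∈ side p c i j}) := by
  have hall : ∀ m : Fin 4, m = i ∨ m = j ∨ m = k ∨ m = l := by
    revert i j k l
    decide
  by_contra hcon
  obtain ⟨Y, hiY, hjY, hY⟩ := cut hcon
  obtain ⟨Z, hZ⟩ : ∃ Z : Set V, Z = (Y ∩ side p c i j) ∪ {u | (∀ m, p m ≠ u) ∧ c u = j} :=
    ⟨_, rfl⟩
  -- adjacency: `u ∈ Z`, `u'` the other end
  have hadj : ∀ u u' : V, ((∀ m, p m ≠ u) → (∀ m, p m ≠ u') → c u = c u') →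
      (∀ m, p m = u → (∀ n, p n ≠ u') → c u' ≠ m) → (∀ m, p m = u' → (∀ n, p n ≠ u) → c u ≠ m) →
      (u ∈ side p c i j → u' ∈ side p c i j → (u ∈ Y → u' ∈ Y)) →
      u ∈ Z → u' ∈ Z ∨ u' ∈ ({p k, p l} : Finset V) := by
    intro u u' h1 h2 h4 h5 hu
    rw [Finset.mem_insert, Finset.mem_singleton]
    by_cases hk' : u' = p k
    · exact Or.inr (Or.inl hk')
    by_cases hl' : u' = p l
    · exact Or.inr (Or.inr hl')
    left
    rw [hZ] at hu ⊢
    by_cases hT' : ∃ m, p m = u'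
    · obtain ⟨m, hm⟩ := hT'
      have hmij : m = i ∨ m = j := by
        rcases hall m with h | h | h | h
        · exact Or.inl h
        · exact Or.inr h
        · exact absurd (h ▸ hm.symm) hk'
        · exact absurd (h ▸ hm.symm) hl'
      have hside' : u' ∈ side p c i j := by
        rcases hmij with h | h
        · exact Or.inl (h ▸ hm.symm)
        · exact Or.inr (Or.inl (h ▸ hm.symm))
      rcases hu with ⟨huY, huS⟩ | ⟨hun, huc⟩
      · exact Or.inl ⟨h5 huS hside' huY, hside'⟩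
      · rcases hmij with h | h
        · refine Or.inl ⟨?_, hside'⟩
          rw [← hm, h]
          exact hiY
        · exact absurd huc (fun h6 => h4 m hm hun (by rw [h]; exact h6))
    · push Not at hT'
      rcases hu with ⟨huY, huS⟩ | ⟨hun, huc⟩
      · by_cases hS' : u' ∈ side p c i j
        · exact Or.inl ⟨h5 huS hS' huY, hS'⟩
        · right
          refine ⟨hT', ?_⟩
          have h6 : c u' = i ∨ c u' = j := by
            by_contra h7
            push Not at h7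
            exact hS' (Or.inr (Or.inr ⟨hT', h7.1, h7.2⟩))
          rcases h6 with h6 | h6
          · exfalso
            rcases huS with h7 | h7 | h7
            · exact h2 i h7.symm hT' h6
            · exact hjY (h7 ▸ huY)
            · have h8 := h1 h7.1 hT'
              exact h7.2.1 (h8.trans h6)
          · exact h6
      · right
        exact ⟨hT', (h1 hun hT').symm.trans huc⟩
  have hends : ∀ f, (s f ∈ Z ∨ t f ∈ Z) →
      (s f ∈ Z ∨ s f ∈ ({p k, p l} : Finset V)) ∧ (t f ∈ Z ∨ t f ∈ ({p k, p l} : Finset V)) := by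
    intro f hf
    obtain ⟨h1, h2, h4⟩ := hcol f
    rcases hf with hf | hf
    · refine ⟨Or.inl hf, hadj (s f) (t f) h1 h2 h4 ?_ hf⟩
      intro h5 h6 h7
      exact (hY f ⟨h5, h6⟩).1 h7
    · refine ⟨hadj (t f) (s f) (fun h5 h6 => (h1 h6 h5).symm) h4 h2 ?_ hf, Or.inl hf⟩
      intro h5 h6 h7
      exact (hY f ⟨h6, h5⟩).2 h7
  have hiZ : p i ∈ Z := hZ ▸ Or.inl ⟨hiY, Or.inl rfl⟩
  have hjZ : p j ∉ Z := by
    rw [hZ]
    rintro (h | h)
    · exact hjY h.1
    · exact h.1 j rfl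
  have hX : 2 ≤ ({f | s f ∈ Z ∨ t f ∈ Z} : Set E).ncard := by
    refine (two_le_star h3 hc hE hV (p i)).trans (Set.ncard_le_ncard ?_ (Set.toFinite _))
    rintro f (hf | hf)
    · exact Or.inl (by rw [hf]; exact hiZ)
    · exact Or.inr (by rw [hf]; exact hiZ)
  have hY2 : 2 ≤ ({f | s f ∈ Z ∨ t f ∈ Z}ᶜ : Set E).ncard := by
    refine (two_le_star h3 hc hE hV (p j)).trans (Set.ncard_le_ncard ?_ (Set.toFinite _))
    intro f hf h4
    have h5 := hends f h4
    have hjn : ¬ (p j ∈ Z ∨ p j ∈ ({p k, p l} : Finset V)) := by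
      rw [Finset.mem_insert, Finset.mem_singleton]
      rintro (h | h | h)
      · exact hjZ h
      · exact hjk (hp h)
      · exact hjl (hp h)
    rcases hf with hf | hf
    · exact hjn (hf ▸ h5.1)
    · exact hjn (hf ▸ h5.2)
  have h1 := tc h3 (Or.inr rfl) hX hY2
  have h2 : (span (ZMod 2) (vec (ZMod 2) s t '' {f | s f ∈ Z ∨ t f ∈ Z}) ⊓
      span (ZMod 2) (vec (ZMod 2) s t '' {f | s f ∈ Z ∨ t f ∈ Z}ᶜ) :
        Submodule (ZMod 2) (V → ZMod 2)) ≤
      span (ZMod 2) {(Pi.single (p k) 1 + Pi.single (p l) 1 : V → ZMod 2)} := by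
    intro x hx
    obtain ⟨h4, h5⟩ := inf_small Z {p k, p l} hends hx
    rw [Finset.sum_pair (fun h => hkl (hp h))] at h5
    rw [mem_span_singleton]
    refine ⟨x (p k), ?_⟩
    have h6 : x (p l) = x (p k) := by
      revert h5
      generalize x (p k) = a
      generalize x (p l) = b
      revert a b
      decide
    funext v
    by_cases hvk : v = p k
    · rw [hvk]
      simp [Pi.single_eq_of_ne (fun h : p k = p l => hkl (hp h))]
    by_cases hvl : v = p l
    · rw [hvl, h6.symm.symm]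
      simp [Pi.single_eq_of_ne (fun h : p l = p k => hkl (hp h).symm)]
    rw [h4 v (by simp [hvk, hvl])]
    simp [Pi.single_eq_of_ne hvk, Pi.single_eq_of_ne hvl]
  have h4 := Submodule.finrank_mono h2
  have h5 := finrank_span_le_card (R := ZMod 2)
    ({(Pi.single (p k) 1 + Pi.single (p l) 1 : V → ZMod 2)} : Set (V → ZMod 2))
  rw [Set.toFinset_singleton, Finset.card_singleton] at h5
  omega

end Pool.Agent.H85.TG
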