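import Pool.Agent.H85.TG.Twist

set_option autoImplicit false
set_option linter.unusedSectionVars false

/-!
# Grafts with four vertices: the graft is regular iff one of the three pairs of disjoint paths is missing
-/

open Set Matroid Module Submodule
open scoped Matroid

namespace Pool.Agent.H85.TG

open Pool.Agent.H18.SG (vec linMat linMat_indep linMat_ground gr)
open Pool.Agent.H36.TX (IsRep Rep Regular ThreeConn)
open Pool.Agent.H85.TX (rk indepOn_iff eRk_eq Represents mem_closure_iff)

variable {V E : Type} [Fintype V] [DecidableEq V] [Finite E]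
variable {s t : E → V} {p : Fin 4 → V} {c : V → Fin 4}

/-- `a` and `b` are joined in the subgraph induced on `X`: no set `Z` separates them -/
def Joined (s t : E → V) (X : Set V) (a b : V) : Prop :=
  ∀ Z : Set V, a ∈ Z → b ∉ Z → ∃ f, s f ∈ X ∧ t f ∈ X ∧
    ((s f ∈ Z ∧ t f ∉ Z) ∨ (t f ∈ Z ∧ s f ∉ Z))

/-- there are disjoint paths from `p i` to `p j` (inside `X`) and from `p k` to `p l` (outside `X`) -/
def Linkage (s t : E → V) (p : Fin 4 → V) (i j k l : Fin 4) : Prop :=
  ∃ X : Set V, p i ∈ X ∧ p j ∈ X ∧ p k ∉ X ∧ p l ∉ X ∧ Joined s t X (p i) (p j) ∧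
    Joined s t Xᶜ (p k) (p l)

/-- the four indices are different -/
def Dist (i j k l : Fin 4) : Prop := i ≠ j ∧ i ≠ k ∧ i ≠ l ∧ j ≠ k ∧ j ≠ l ∧ k ≠ l

theorem Joined.mem {X : Set V} {a b : V} (h : Joined s t X a b) :
    (Pi.single a 1 - Pi.single b 1 : V → ZMod 2) ∈
      span (ZMod 2) (vec (ZMod 2) s t '' {f | s f ∈ X ∧ t f ∈ X}) := by
  by_contra hcon
  obtain ⟨Z, hi, hj, hZ⟩ := cut hcon
  obtain ⟨f, h1, h2, h3⟩ := h Z hi hj
  have h4 := hZ f ⟨h1, h2⟩
  rcases h3 with h3 | h3
  · exact h3.2 (h4.1 h3.1)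
  · exact h3.2 (h4.2 h3.1)

/-- the functional of a set of vertices -/
theorem exists_chi (K : Type) [Field K] (Z : Set V) : ∃ χ : (V → K) →ₗ[K] K,
    (∀ u, u ∈ Z → χ (Pi.single u 1) = 1) ∧ ∀ u, u ∉ Z → χ (Pi.single u 1) = 0 := by
  classical
  have h : ∀ u, (∑ v ∈ Finset.univ.filter (· ∈ Z), LinearMap.proj v : (V → K) →ₗ[K] K)
      (Pi.single u 1) = if u ∈ Z then 1 else 0 := by
    intro u
    rw [LinearMap.sum_apply]
    simp only [LinearMap.proj_apply, Pi.single_apply]
    simp
  exact ⟨_, fun u hu => by rw [h, if_pos hu], fun u hu => by rw [h, if_neg hu]⟩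

/-- membership in the span by cuts -/
theorem mem_span_cut (K : Type) [Field K] (R : Set E) (x : V → K) :
    x ∈ span K (vec K s t '' R) ↔ ∀ Z : Set V, (∀ f ∈ R, (s f ∈ Z ↔ t f ∈ Z)) →
      ∀ χ : (V → K) →ₗ[K] K, (∀ u, u ∈ Z → χ (Pi.single u 1) = 1) →
        (∀ u, u ∉ Z → χ (Pi.single u 1) = 0) → χ x = 0 := by
  classical
  constructor
  · intro hx Z hZ χ h1 h2
    have h3 : span K (vec K s t '' R) ≤ LinearMap.ker χ := by
      rw [span_le]
      rintro _ ⟨f, hf, rfl⟩
      show χ (Pi.single (s f) 1 - Pi.single (t f) 1) = 0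
      rw [map_sub]
      by_cases h4 : s f ∈ Z
      · rw [h1 _ h4, h1 _ ((hZ f hf).1 h4), sub_self]
      · rw [h2 _ h4, h2 _ (fun h5 => h4 ((hZ f hf).2 h5)), sub_self]
    exact h3 hx
  · intro h
    by_contra hcon
    obtain ⟨ψ, h1, h2⟩ := Submodule.exists_le_ker_of_notMem hcon
    apply h1
    have h3 : x = ∑ v, x v • (Pi.single v 1 : V → K) := by
      funext q
      simp [Finset.sum_apply, Pi.single_apply]
    have h4 : ψ x = ∑ v, x v * ψ (Pi.single v 1) := by
      conv_lhs => rw [h3, map_sum]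
      refine Finset.sum_congr rfl fun u _ => ?_
      rw [map_smul, smul_eq_mul]
    rw [h4, ← Finset.sum_fiberwise_of_maps_to (t := Finset.univ.image fun v => ψ (Pi.single v 1))
      (g := fun v => ψ (Pi.single v 1)) (fun v _ => Finset.mem_image_of_mem _ (Finset.mem_univ v))]
    apply Finset.sum_eq_zero
    intro a _
    obtain ⟨χ, h5, h6⟩ := exists_chi K {v : V | ψ (Pi.single v 1) = a}
    have h7 := h {v : V | ψ (Pi.single v 1) = a} (by
      intro f hf
      have h8 : ψ (vec K s t f) = 0 := h2 (subset_span ⟨f, hf, rfl⟩)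
      unfold vec at h8
      rw [map_sub, sub_eq_zero] at h8
      show ψ (Pi.single (s f) 1) = a ↔ ψ (Pi.single (t f) 1) = a
      rw [h8]) χ h5 h6
    have h8 : χ x = ∑ v, x v * χ (Pi.single v 1) := by
      conv_lhs => rw [h3, map_sum]
      refine Finset.sum_congr rfl fun u _ => ?_
      rw [map_smul, smul_eq_mul]
    have h9 : ∑ v ∈ Finset.univ.filter (fun v => ψ (Pi.single v 1) = a), x v * ψ (Pi.single v 1) =
        χ x * a := by
      rw [h8, Finset.sum_mul, Finset.sum_filter]
      refine Finset.sum_congr rfl fun u _ => ?_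
      split_ifs with hu
      · rw [h5 u hu, hu, mul_one]
      · rw [h6 u hu, mul_zero, zero_mul]
    rw [h9, h7, zero_mul]

/-- the vector of the added element over the field `K` -/
def eK (K : Type) [Field K] (p : Fin 4 → V) (i j k l : Fin 4) : V → K :=
  (Pi.single (p i) 1 - Pi.single (p k) 1) + (Pi.single (p j) 1 - Pi.single (p l) 1)

theorem odd_of_closed {K : Type} [Field K] {i j k l : Fin 4} {χ : (V → K) →ₗ[K] K} {Z : Set V}
    (h1 : ∀ u, u ∈ Z → χ (Pi.single u 1) = 1) (h2 : ∀ u, u ∉ Z → χ (Pi.single u 1) = 0)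
    (h : χ (eK K p i j k l) = 0) :
    ((p i ∈ Z ↔ p k ∈ Z) ↔ (p j ∈ Z ↔ p l ∈ Z)) := by
  unfold eK at h
  rw [map_add, map_sub, map_sub] at h
  by_cases hi : p i ∈ Z <;> by_cases hj : p j ∈ Z <;> by_cases hk : p k ∈ Z <;>
    by_cases hl : p l ∈ Z <;>
    simp only [hi, hj, hk, hl, h1, h2, not_true, not_false_iff, iff_self, iff_true, true_iff,
      iff_false, false_iff, not_not] at h ⊢ <;>
    simp at h

theorem regular_of_no_linkage {i j k l : Fin 4} (hd : Dist i j k l)
    (h : ¬ Linkage s t p i j k l) : Regular (graft s t p) := by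
  classical
  obtain ⟨hij, hik, hil, hjk, hjl, hkl⟩ := hd
  intro F _
  have hev : ev s t p none = eK (ZMod 2) p i j k l := by
    rw [ev_none_eq hik hij hil hjk.symm hkl hjl]
    rfl
  refine ⟨V → F, inferInstance, inferInstance,
    fun o : Option E => o.elim (eK F p i j k l) (vec F s t), ?_⟩
  -- sets without the added element
  have key : ∀ I : Set (Option E), none ∉ I → (LinearIndepOn (ZMod 2) (ev s t p) I ↔
      LinearIndepOn F (fun o : Option E => o.elim (eK F p i j k l) (vec F s t)) I) := by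
    intro I hn
    have h1 := gr (ZMod 2) F (fun o : Option E => o.elim (p 0) s)
      (fun o : Option E => o.elim (p 0) t) I
    rw [linearIndepOn_congr (w := ev s t p) (fun o ho => by
      rcases o with _ | f
      · exact absurd ho hn
      · rfl), linearIndepOn_congr (w := fun o : Option E => o.elim (eK F p i j k l) (vec F s t))
      (fun o ho => by
      rcases o with _ | f
      · exact absurd ho hn
      · rfl)] at h1
    exact h1
  -- the span
  have hspan : ∀ R : Set E, eK (ZMod 2) p i j k l ∈ span (ZMod 2) (vec (ZMod 2) s t '' R) ↔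
      eK F p i j k l ∈ span F (vec F s t '' R) := by
    intro R
    constructor
    · intro h2
      rw [mem_span_cut] at h2 ⊢
      intro Z hZ χ h3 h4
      have hpar : ∀ Z : Set V, (∀ f ∈ R, (s f ∈ Z ↔ t f ∈ Z)) →
          ((p i ∈ Z ↔ p k ∈ Z) ↔ (p j ∈ Z ↔ p l ∈ Z)) := by
        intro Z hZ
        obtain ⟨χ, h5, h6⟩ := exists_chi (ZMod 2) Z
        exact odd_of_closed h5 h6 (h2 Z hZ χ h5 h6)
      -- the pairs `{p i, p j}` and `{p k, p l}` are not separated
      have hsep : ∀ Z : Set V, (∀ f ∈ R, (s f ∈ Z ↔ t f ∈ Z)) → p i ∈ Z → p j ∈ Z →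
          p k ∉ Z → p l ∉ Z → False := by
        intro Z hZ hi hj hk hl
        apply h
        refine ⟨Z, hi, hj, hk, hl, ?_, ?_⟩
        · intro Y hiY hjY
          by_contra hcon
          push Not at hcon
          have h5 := hpar (Z ∩ Y) (by
            intro f hf
            constructor
            · rintro ⟨h6, h7⟩
              have h8 := (hZ f hf).1 h6
              exact ⟨h8, (hcon f h6 h8).1 h7⟩
            · rintro ⟨h6, h7⟩
              have h8 := (hZ f hf).2 h6
              exact ⟨h8, (hcon f h8 h6).2 h7⟩)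
          simp [hi, hj, hk, hl, hiY, hjY] at h5
        · intro Y hkY hlY
          by_contra hcon
          push Not at hcon
          have h5 := hpar (Zᶜ ∩ Y) (by
            intro f hf
            constructor
            · rintro ⟨h6, h7⟩
              have h8 : t f ∈ Zᶜ := fun h9 => h6 ((hZ f hf).2 h9)
              exact ⟨h8, (hcon f h6 h8).1 h7⟩
            · rintro ⟨h6, h7⟩
              have h8 : s f ∈ Zᶜ := fun h9 => h6 ((hZ f hf).1 h9)
              exact ⟨h8, (hcon f h8 h6).2 h7⟩)
          simp [hi, hj, hk, hl, hkY, hlY] at h5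
      have hZc : ∀ f ∈ R, (s f ∈ Zᶜ ↔ t f ∈ Zᶜ) := fun f hf => not_congr (hZ f hf)
      have h5 := hpar Z hZ
      have h6 := hsep Z hZ
      have h7 := hsep Zᶜ hZc
      unfold eK
      rw [map_add, map_sub, map_sub]
      simp only [mem_compl_iff, not_not] at h7
      by_cases hi : p i ∈ Z <;> by_cases hj : p j ∈ Z <;> by_cases hk : p k ∈ Z <;>
        by_cases hl : p l ∈ Z <;>
        simp [hi, hj, hk, hl, h3, h4] at h5 h6 h7 ⊢
    · intro h2
      rw [mem_span_cut] at h2 ⊢
      intro Z hZ χ h3 h4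
      obtain ⟨χ', h5, h6⟩ := exists_chi F Z
      have h7 := odd_of_closed h5 h6 (h2 Z hZ χ' h5 h6)
      unfold eK
      rw [map_add, map_sub, map_sub]
      by_cases hi : p i ∈ Z <;> by_cases hj : p j ∈ Z <;> by_cases hk : p k ∈ Z <;>
        by_cases hl : p l ∈ Z <;>
        simp [hi, hj, hk, hl, h3, h4] at h7 ⊢ <;> decide
  intro I _
  rw [graft, linMat_indep]
  by_cases hn : none ∈ I
  · have h1 : I = insert none (I \ {none}) := by
      rw [Set.insert_sdiff_singleton, Set.insert_eq_of_mem hn]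
    have h2 : none ∉ I \ {none} := fun h3 => h3.2 rfl
    rw [h1, linearIndepOn_insert h2, linearIndepOn_insert h2, key _ h2]
    refine and_congr_right fun _ => not_congr ?_
    have h4 : I \ {none} = some '' (some ⁻¹' I) := by
      ext o
      rcases o with _ | f
      · simp
      · simp
    rw [h4, Set.image_image, Set.image_image, hev]
    exact hspan _
  · exact key I hn

theorem nonrep2 (hoff : Off s t) (hc : Conn s t) (hp : Function.Injective p)
    (hlink : ∀ i j k l, Dist i j k l → Linkage s t p i j k l)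
    {F : Type} [Field F] (h2 : (2 : F) ≠ 0) : ¬ Rep (graft s t p) F := by
  classical
  rintro ⟨W', _, _, w, hw'⟩
  have hw : Represents F w (graft s t p) := hw'
  have hV : 2 ≤ Fintype.card V := by
    have := Fintype.card_le_of_injective p hp
    rw [Fintype.card_fin] at this
    omega
  choose ψ hψ using exists_psi hoff hc hV hw
  obtain ⟨l, hl, hrel⟩ := exists_rel hw (p 0) ψ
  have hzero : ∀ f u, s f ≠ u → t f ≠ u → ψ u (w (some f)) = 0 := fun f u h6 h7 =>
    (hψ u (some f)).2 (vec_zero h6 h7)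
  have hedge : ∀ f, s f ≠ t f → (l (s f) = 0 ↔ l (t f) = 0) := by
    intro f hf
    have h1 := hrel (some f)
    rw [Fintype.sum_eq_add (s f) (t f) hf
      (fun u hu => by rw [hzero f u hu.1.symm hu.2.symm, mul_zero])] at h1
    have hA : ψ (s f) (w (some f)) ≠ 0 := by
      rw [Ne, hψ]
      show vec (ZMod 2) s t f (s f) ≠ 0
      unfold vec
      rw [Pi.sub_apply, Pi.single_eq_same, Pi.single_eq_of_ne hf, sub_zero]
      exact one_ne_zero
    have hB : ψ (t f) (w (some f)) ≠ 0 := by
      rw [Ne, hψ]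
      show vec (ZMod 2) s t f (t f) ≠ 0
      unfold vec
      rw [Pi.sub_apply, Pi.single_eq_same, Pi.single_eq_of_ne hf.symm, zero_sub]
      exact neg_ne_zero.2 one_ne_zero
    constructor
    · intro h4
      rw [h4, zero_mul, zero_add] at h1
      exact (mul_eq_zero.1 h1).resolve_right hB
    · intro h4
      rw [h4, zero_mul, add_zero] at h1
      exact (mul_eq_zero.1 h1).resolve_right hA
  have hall : ∀ u, l u ≠ 0 := by
    by_contra hcon
    push Not at hcon
    obtain ⟨u0, hu0⟩ := hcon
    obtain ⟨u1, hu1⟩ : ∃ u, l u ≠ 0 := by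
      by_contra hn
      push Not at hn
      exact hl (funext hn)
    obtain ⟨f, hf⟩ := hc {u | l u = 0} ⟨u0, hu0⟩ ⟨u1, hu1⟩
    rcases hf with ⟨h4, h5⟩ | ⟨h4, h5⟩
    · exact h5 ((hedge f (fun h => h5 (by rw [← h]; exact h4))).1 h4)
    · exact h5 ((hedge f (fun h => h5 (by rw [h]; exact h4))).2 h4)
  have hpair : ∀ i j k m : Fin 4, i ≠ j → i ≠ k → i ≠ m → j ≠ k → j ≠ m → k ≠ m →
      l (p i) * ψ (p i) (w none) + l (p j) * ψ (p j) (w none) = 0 := by
    intro i j k m hij hik him hjk hjm hkm
    have h4all : ∀ q : Fin 4, q = i ∨ q = j ∨ q = k ∨ q = m := by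
      revert i j k m
      decide
    obtain ⟨X, hiX, hjX, hkX, hmX, hP, hQ⟩ := hlink i j k m ⟨hij, hik, him, hjk, hjm, hkm⟩
    obtain ⟨θ, hθ⟩ : ∃ θ : W' →ₗ[F] F,
        ∀ x, θ x = ∑ u ∈ Finset.univ.filter (· ∈ X), l u * ψ u x := by
      refine ⟨∑ u ∈ Finset.univ.filter (· ∈ X), l u • ψ u, fun x => ?_⟩
      rw [LinearMap.sum_apply]
      rfl
    obtain ⟨R, hR⟩ : ∃ R : Set E, R = {f | (s f ∈ X ∧ t f ∈ X) ∨ (s f ∉ X ∧ t f ∉ X)} := ⟨_, rfl⟩
    have hin : ev s t p none ∈ span (ZMod 2) (ev s t p '' (some '' R)) := by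
      rw [ev_none_eq hij hik him hjk hjm hkm, Set.image_image]
      refine add_mem (span_mono (Set.image_mono ?_) hP.mem)
        (span_mono (Set.image_mono ?_) hQ.mem)
      · intro f hf
        rw [hR]
        exact Or.inl hf
      · intro f hf
        rw [hR]
        exact Or.inr hf
    have hker : span F (w '' (some '' R)) ≤ LinearMap.ker θ := by
      rw [span_le]
      rintro _ ⟨_, ⟨f, hf, rfl⟩, rfl⟩
      show θ (w (some f)) = 0
      rw [hθ]
      rw [hR] at hf
      rcases hf with hf | hf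
      · rw [← hrel (some f)]
        apply Finset.sum_subset (Finset.subset_univ _)
        intro u _ hu
        have hu' : u ∉ X := by simpa using hu
        rw [hzero f u (fun h => hu' (h ▸ hf.1)) (fun h => hu' (h ▸ hf.2)), mul_zero]
      · apply Finset.sum_eq_zero
        intro u hu
        have hu' : u ∈ X := by simpa using hu
        rw [hzero f u (fun h => hf.1 (h ▸ hu')) (fun h => hf.2 (h ▸ hu')), mul_zero]
    have h6 : θ (w none) = 0 := hker ((transfer hw _ _).1 hin)
    rw [hθ, Finset.sum_eq_add_of_mem (p i) (p j)] at h6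
    · exact h6
    · exact Finset.mem_filter.2 ⟨Finset.mem_univ _, hiX⟩
    · exact Finset.mem_filter.2 ⟨Finset.mem_univ _, hjX⟩
    · exact fun h => hij (hp h)
    · rintro u hu ⟨h7, h8⟩
      have hu' : u ∈ X := (Finset.mem_filter.1 hu).2
      rw [(hψ u none).2 (ev_none_zero ?_), mul_zero]
      intro q hq
      rcases h4all q with h9 | h9 | h9 | h9
      · exact h7 (by rw [← hq, h9])
      · exact h8 (by rw [← hq, h9])
      · exact hkX (by rw [← h9, hq]; exact hu')
      · exact hmX (by rw [← h9, hq]; exact hu')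
  have h01 := hpair 0 1 2 3 (by decide) (by decide) (by decide) (by decide) (by decide) (by decide)
  have h02 := hpair 0 2 1 3 (by decide) (by decide) (by decide) (by decide) (by decide) (by decide)
  have h12 := hpair 1 2 0 3 (by decide) (by decide) (by decide) (by decide) (by decide) (by decide)
  have h5 : 2 * (l (p 0) * ψ (p 0) (w none)) = 0 := by
    linear_combination h01 + h02 - h12
  rcases mul_eq_zero.1 ((mul_eq_zero.1 h5).resolve_left h2) with h | h
  · exact hall _ h
  · rw [hψ, ev_none_T hp] at h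
    exact one_ne_zero h

end Pool.Agent.H85.TG
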