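import Pool.Agent.H85.TG.Gft

set_option autoImplicit false
set_option linter.unusedSectionVars false

/-!
# Grafts with four vertices: the deletion and the contraction of the added element are regular
-/

open Set Matroid Module Submodule
open scoped Matroid

namespace Pool.Agent.H85.TG

open Pool.Agent.H18.SG (vec linMat linMat_indep linMat_ground gr)
open Pool.Agent.H36.TX (IsRep Rep Regular ThreeConn)
open Pool.Agent.H85.TX (rk indepOn_iff)

theorem contr_iff {α K W W' : Type} [Finite α] [Field K] [AddCommGroup W] [Module K W]
    [AddCommGroup W'] [Module K W'] (v : α → W) (L : W →ₗ[K] W') {e : α} {I : Set α} (he : e ∉ I)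
    (hve : v e ≠ 0) (hL : L (v e) = 0)
    (hker : ∀ x ∈ span K (range v), L x = 0 → x ∈ span K {v e}) :
    LinearIndepOn K v (insert e I) ↔ LinearIndepOn K (L ∘ v) I := by
  rw [indepOn_iff, indepOn_iff, Set.ncard_insert_of_notMem he (Set.toFinite _)]
  have h0 : rk K v (insert e I) = rk K (L ∘ v) I + 1 := by
    obtain ⟨S, hS⟩ : ∃ S : Submodule K W, S = span K (v '' insert e I) := ⟨_, rfl⟩
    have hfin : FiniteDimensional K S := by
      rw [hS]
      exact FiniteDimensional.span_of_finite K (Set.toFinite _)
    have heS : v e ∈ S := by
      rw [hS]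
      exact subset_span ⟨e, mem_insert _ _, rfl⟩
    have h1 := LinearMap.finrank_range_add_finrank_ker (L.domRestrict S)
    have h2 : LinearMap.range (L.domRestrict S) = span K ((L ∘ v) '' I) := by
      rw [LinearMap.range_domRestrict, hS, Submodule.map_span, Set.image_insert_eq,
        Set.image_insert_eq, hL, Set.image_image]
      exact span_insert_zero
    have h3 : finrank K (LinearMap.ker (L.domRestrict S)) = 1 := by
      have h4 : LinearMap.ker (L.domRestrict S) = span K {(⟨v e, heS⟩ : S)} := by
        ext x
        rw [LinearMap.mem_ker, mem_span_singleton]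
        constructor
        · intro hx
          have hx' : L x.1 = 0 := hx
          have h5 : x.1 ∈ span K (range v) := by
            have h6 : S ≤ span K (range v) := by
              rw [hS]
              exact span_mono (Set.image_subset_range _ _)
            exact h6 x.2
          obtain ⟨c, hc⟩ := mem_span_singleton.1 (hker _ h5 hx')
          exact ⟨c, Subtype.ext hc⟩
        · rintro ⟨c, rfl⟩
          show L (c • v e) = 0
          rw [map_smul, hL, smul_zero]
      rw [h4, finrank_span_singleton]
      intro h5
      exact hve (congrArg Subtype.val h5)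
    unfold rk
    rw [← hS, ← h1, h2, h3]
  rw [h0]
  omega

variable {V E : Type} [Fintype V] [DecidableEq V] [Finite E]

theorem ev_none_ne (s t : E → V) (p : Fin 4 → V) (hp : Function.Injective p) :
    ev s t p none ≠ 0 := by
  intro h
  have h1 := congrFun h (p 0)
  change (∑ i, (Pi.single (p i) 1 : V → ZMod 2)) (p 0) = 0 at h1
  rw [Finset.sum_apply, Finset.sum_eq_single 0] at h1
  · simp at h1
  · intro j _ hj
    rw [Pi.single_eq_of_ne]
    intro h6
    exact hj (hp h6).symm
  · intro h6
    exact absurd (Finset.mem_univ 0) h6

theorem delete_regular (s t : E → V) (p : Fin 4 → V) : Regular (graft s t p ＼ {none}) := by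
  intro F _
  refine ⟨V → F, inferInstance, inferInstance,
    vec F (fun o : Option E => o.elim (p 0) s) (fun o : Option E => o.elim (p 0) t), ?_⟩
  intro I hI
  have hn : none ∉ I := fun h => (hI h).2 rfl
  rw [deleteElem_indep_iff, and_iff_left hn, graft, linMat_indep]
  rw [← gr (ZMod 2) F]
  apply linearIndepOn_congr
  intro o ho
  rcases o with _ | f
  · exact absurd ho hn
  · rfl

theorem contract_regular (s t : E → V) (p : Fin 4 → V) (hp : Function.Injective p)
    (c : V → Fin 4) (hc : Coloured s t p c) : Regular (graft s t p ／ {none}) := by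
  choose a b hab using exists_ends s t p hp c hc
  intro F _
  refine ⟨V ⊕ Fin 3 → F, inferInstance, inferInstance,
    vec F (fun o : Option E => o.elim (Sum.inr 0) a) (fun o : Option E => o.elim (Sum.inr 0) b), ?_⟩
  intro I hI
  have hn : none ∉ I := fun h => (hI h).2 rfl
  have hnl : (graft s t p).IsNonloop none := by
    rw [← indep_singleton, graft, linMat_indep]
    exact LinearIndepOn.singleton (ev_none_ne s t p hp)
  rw [hnl.contractElem_indep_iff, and_iff_right hn, graft, linMat_indep, ← gr (ZMod 2) F,
    contr_iff (ev s t p) (φ p c) hn (ev_none_ne s t p hp) (φ_none s t p hp c)]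
  · apply linearIndepOn_congr
    intro o ho
    rcases o with _ | f
    · exact absurd ho hn
    · show φ p c (vec (ZMod 2) s t f) = vec (ZMod 2) _ _ (some f)
      unfold vec
      rw [map_sub, φ_single, φ_single, hab f]
      rfl
  · intro x hx h
    have h1 : sumC x = 0 := by
      have h2 : span (ZMod 2) (range (ev s t p)) ≤ LinearMap.ker (sumC (V := V)) := by
        rw [span_le]
        rintro _ ⟨o, rfl⟩
        exact sumC_ev s t p o
      exact h2 hx
    rcases ker_φ s t p hp c x h1 h with h2 | h2
    · rw [h2]
      exact zero_mem _
    · rw [h2]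
      exact mem_span_singleton_self _

end Pool.Agent.H85.TG
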