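import Pool.Agent.H85.TG.Link

set_option autoImplicit false
set_option linter.unusedSectionVars false

/-!
# Grafts with four vertices: no representation over a field in which `2 ≠ 0`
-/

open Set Matroid Module Submodule
open scoped Matroid

namespace Pool.Agent.H85.TG

open Pool.Agent.H18.SG (vec linMat linMat_indep linMat_ground gr)
open Pool.Agent.H36.TX (IsRep Rep Regular ThreeConn)
open Pool.Agent.H85.TX (rk indepOn_iff eRk_eq Represents mem_closure_iff)

variable {V E : Type} [Fintype V] [DecidableEq V] [Finite E]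
variable {s t : E → V} {p : Fin 4 → V} {c : V → Fin 4}

theorem ev_rep : Represents (ZMod 2) (ev s t p) (graft s t p) := by
  intro I _
  rw [graft, linMat_indep]

theorem graft_E : (graft s t p).E = univ := by
  rw [graft, linMat_ground]

theorem ev_none_zero {u : V} (hu : ∀ i, p i ≠ u) : ev s t p none u = 0 := by
  show (∑ i, (Pi.single (p i) 1 : V → ZMod 2)) u = 0
  rw [Finset.sum_apply]
  apply Finset.sum_eq_zero
  intro i _
  rw [Pi.single_eq_of_ne (hu i).symm]

theorem ev_none_T (hp : Function.Injective p) (i : Fin 4) : ev s t p none (p i) = 1 := by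
  show (∑ i, (Pi.single (p i) 1 : V → ZMod 2)) (p i) = 1
  rw [Finset.sum_apply, Finset.sum_eq_single i]
  · simp
  · intro j _ hj
    rw [Pi.single_eq_of_ne]
    intro h6
    exact hj (hp h6).symm
  · intro h6
    exact absurd (Finset.mem_univ i) h6

theorem ev_none_eq {i j k m : Fin 4} (hij : i ≠ j) (hik : i ≠ k) (him : i ≠ m) (hjk : j ≠ k)
    (hjm : j ≠ m) (hkm : k ≠ m) : ev s t p none =
      (Pi.single (p i) 1 - Pi.single (p j) 1) + (Pi.single (p k) 1 - Pi.single (p m) 1) := by
  have h1 : ∀ q : Fin 4, q = i ∨ q = j ∨ q = k ∨ q = m := by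
    revert i j k m
    decide
  have h2 : (Finset.univ : Finset (Fin 4)) = {i, j, k, m} := by
    ext q
    simpa using h1 q
  show ∑ i, (Pi.single (p i) 1 : V → ZMod 2) = _
  rw [h2, Finset.sum_insert (by simp [hij, hik, him]), Finset.sum_insert (by simp [hjk, hjm]),
    Finset.sum_pair hkm]
  funext z
  simp only [Pi.add_apply, Pi.sub_apply, sub_eq]
  ring

/-- all `G - u` are connected -/
def Off (s t : E → V) : Prop := ∀ u a b : V, a ≠ u → b ≠ u →
  (Pi.single a 1 - Pi.single b 1 : V → ZMod 2) ∈
    span (ZMod 2) (vec (ZMod 2) s t '' {f | s f ≠ u ∧ t f ≠ u})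

theorem mem_span_off (hoff : Off s t) {u b : V} (hb : b ≠ u) {x : V → ZMod 2} (hx : sumC x = 0) (hu : x u = 0) :
    x ∈ span (ZMod 2) (ev s t p '' (some '' {f | s f ≠ u ∧ t f ≠ u})) := by
  have h1 : x = ∑ v, x v • (Pi.single v 1 - Pi.single b 1 : V → ZMod 2) := by
    simp only [smul_sub, Finset.sum_sub_distrib]
    rw [← Finset.sum_smul]
    have h2 : ∑ v, x v = 0 := by simpa [sumC, LinearMap.sum_apply] using hx
    rw [h2, zero_smul, sub_zero]
    funext z
    simp [Finset.sum_apply, Pi.single_apply]
  rw [h1, Set.image_image]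
  apply sum_mem
  intro v _
  by_cases hv : v = u
  · rw [hv, hu, zero_smul]
    exact zero_mem _
  · exact smul_mem _ _ (hoff u v b hv hb)

section rep

variable {F W' : Type} [Field F] [AddCommGroup W'] [Module F W'] {w : Option E → W'}

theorem transfer (hw : Represents F w (graft s t p)) (o : Option E) (X : Set (Option E)) :
    ev s t p o ∈ span (ZMod 2) (ev s t p '' X) ↔ w o ∈ span F (w '' X) := by
  rw [← mem_closure_iff ev_rep (by rw [graft_E]; exact subset_univ _)
    (by rw [graft_E]; exact mem_univ _),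
    ← mem_closure_iff hw (by rw [graft_E]; exact subset_univ _)
    (by rw [graft_E]; exact mem_univ _)]

theorem rk_eq (hw : Represents F w (graft s t p)) :
    rk F w univ = rk (ZMod 2) (ev s t p) univ := by
  have h1 := eRk_eq hw (X := univ) (by rw [graft_E])
  have h2 := eRk_eq (ev_rep (s := s) (t := t) (p := p)) (X := univ) (by rw [graft_E])
  rw [h1] at h2
  exact_mod_cast h2

theorem rk_lt (b : V) : rk (ZMod 2) (ev s t p) univ < Fintype.card V := by
  have h1 : span (ZMod 2) (ev s t p '' univ) ≤ LinearMap.ker (sumC (V := V)) := by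
    rw [span_le]
    rintro _ ⟨o, _, rfl⟩
    exact sumC_ev s t p o
  have h2 : LinearMap.ker (sumC (V := V)) ≠ ⊤ := by
    intro h
    have h4 : (Pi.single b 1 : V → ZMod 2) ∈ LinearMap.ker (sumC (V := V)) := by
      rw [h]
      exact mem_top
    have h5 : sumC (Pi.single b 1 : V → ZMod 2) = 0 := h4
    rw [sumC_single] at h5
    exact one_ne_zero h5
  have h4 := Submodule.finrank_lt h2
  rw [Module.finrank_pi] at h4
  exact (Submodule.finrank_mono h1).trans_lt h4

theorem exists_psi (hoff : Off s t) (hc : Conn s t)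
    (hV : 2 ≤ Fintype.card V) (hw : Represents F w (graft s t p)) (u : V) :
    ∃ ψ : W' →ₗ[F] F, ∀ o, ψ (w o) = 0 ↔ ev s t p o u = 0 := by
  obtain ⟨b, hb⟩ : ∃ b, b ≠ u := by
    have : Nontrivial V := Fintype.one_lt_card_iff_nontrivial.1 (by omega)
    exact exists_ne u
  obtain ⟨f0, hf0⟩ := exists_edge hc hV u
  have hf1 : ev s t p (some f0) u ≠ 0 := by
    show vec (ZMod 2) s t f0 u ≠ 0
    unfold vec
    rw [Pi.sub_apply]
    rcases hf0 with hf | hf
    · rw [hf.1, Pi.single_eq_same, Pi.single_eq_of_ne hf.2.symm, sub_zero]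
      exact one_ne_zero
    · rw [hf.1, Pi.single_eq_same, Pi.single_eq_of_ne hf.2.symm, zero_sub]
      exact neg_ne_zero.2 one_ne_zero
  obtain ⟨R, hR⟩ : ∃ R : Set (Option E), R = some '' {f | s f ≠ u ∧ t f ≠ u} := ⟨_, rfl⟩
  have h1 : w (some f0) ∉ span F (w '' R) := by
    rw [← transfer hw]
    intro h
    apply hf1
    rw [hR, Set.image_image] at h
    exact span_supp (s := s) (t := t) (X := {f | s f ≠ u ∧ t f ≠ u}) (Z := {u}ᶜ)
      (fun f hf => hf) h (fun h6 => h6 rfl)
  obtain ⟨ψ, h2, h4⟩ := Submodule.exists_le_ker_of_notMem h1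
  refine ⟨ψ, fun o => ⟨fun h5 => ?_, fun h5 => ?_⟩⟩
  · by_contra h6
    apply h2
    have h7 : ev s t p (some f0) ∈ span (ZMod 2) (ev s t p '' insert o R) := by
      rw [Set.image_insert_eq]
      have h8 : ev s t p (some f0) = ev s t p o + (ev s t p (some f0) - ev s t p o) := by abel
      rw [h8]
      refine add_mem (subset_span (mem_insert _ _)) (span_mono (subset_insert _ _) ?_)
      rw [hR]
      refine mem_span_off hoff hb ?_ ?_
      · rw [map_sub, sumC_ev, sumC_ev, sub_self]
      · rw [Pi.sub_apply, zmod_one hf1, zmod_one h6, sub_self]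
    have h8 := (transfer hw _ _).1 h7
    have h9 : span F (w '' insert o R) ≤ LinearMap.ker ψ := by
      rw [Set.image_insert_eq, span_insert]
      refine sup_le ?_ h4
      rw [span_singleton_le_iff_mem]
      exact h5
    exact h9 h8
  · have h6 : ev s t p o ∈ span (ZMod 2) (ev s t p '' R) := by
      rw [hR]
      exact mem_span_off hoff hb (sumC_ev s t p o) h5
    exact h4 ((transfer hw _ _).1 h6)

theorem exists_rel (hw : Represents F w (graft s t p)) (b : V) (ψ : V → W' →ₗ[F] F) :
    ∃ l : V → F, l ≠ 0 ∧ ∀ o, ∑ u, l u * ψ u (w o) = 0 := by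
  obtain ⟨S, hS⟩ : ∃ S, S = (span F (w '' univ)).map (LinearMap.pi ψ) := ⟨_, rfl⟩
  have hfin : FiniteDimensional F (span F (w '' univ)) :=
    FiniteDimensional.span_of_finite F (Set.toFinite _)
  have h1 : S ≠ ⊤ := by
    intro h
    have h2 : finrank F S = Fintype.card V := by
      rw [h, finrank_top, Module.finrank_pi]
    have h4 : finrank F S ≤ rk F w univ := by
      rw [hS]
      exact Submodule.finrank_map_le _ _
    have h5 := rk_lt (s := s) (t := t) (p := p) b
    rw [← rk_eq hw] at h5
    omega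
  obtain ⟨y, hy⟩ : ∃ y, y ∉ S := by
    by_contra hn
    push Not at hn
    exact h1 (eq_top_iff.2 fun y _ => hn y)
  obtain ⟨θ, h2, h4⟩ := Submodule.exists_le_ker_of_notMem hy
  have hθ : ∀ z : V → F, θ z = ∑ u, θ (Pi.single u 1) * z u := by
    intro z
    have h5 : z = ∑ v, z v • (Pi.single v 1 : V → F) := by
      funext q
      simp [Finset.sum_apply, Pi.single_apply]
    conv_lhs => rw [h5, map_sum]
    refine Finset.sum_congr rfl fun u _ => ?_
    rw [map_smul, smul_eq_mul, mul_comm]
  refine ⟨fun u => θ (Pi.single u 1), ?_, ?_⟩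
  · intro h5
    apply h2
    rw [hθ]
    apply Finset.sum_eq_zero
    intro u _
    rw [show θ (Pi.single u 1) = 0 from congrFun h5 u, zero_mul]
  · intro o
    have h5 : LinearMap.pi ψ (w o) ∈ S := by
      rw [hS]
      exact mem_map_of_mem (subset_span ⟨o, mem_univ _, rfl⟩)
    have h6 : θ (LinearMap.pi ψ (w o)) = 0 := h4 h5
    rw [hθ] at h6
    exact h6

end rep

theorem nonrep (hoff : Off s t) (hc : Conn s t) (hp : Function.Injective p)
    (hlink : ∀ i j, i ≠ j → (Pi.single (p i) 1 - Pi.single (p j) 1 : V → ZMod 2) ∈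
      span (ZMod 2) (vec (ZMod 2) s t '' {f | s f ∈ side p c i j ∧ t f ∈ side p c i j}))
    {F : Type} [Field F] (h2 : (2 : F) ≠ 0) : ¬ Rep (graft s t p) F := by
  classical
  rintro ⟨W', _, _, w, hw'⟩
  have hw : Represents F w (graft s t p) := hw'
  have hV : 2 ≤ Fintype.card V := by
    have := Fintype.card_le_of_injective p hp
    rw [Fintype.card_fin] at this
    omega
  choose ψ hψ using exists_psi hoff hc hV hw
  obtain ⟨l, hl, hrel⟩ := exists_rel hw (p 0) ψ
  have hzero : ∀ f u, s f ≠ u → t f ≠ u → ψ u (w (some f)) = 0 := fun f u h6 h7 =>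
    (hψ u (some f)).2 (vec_zero h6 h7)
  have hedge : ∀ f, s f ≠ t f → (l (s f) = 0 ↔ l (t f) = 0) := by
    intro f hf
    have h1 := hrel (some f)
    rw [Fintype.sum_eq_add (s f) (t f) hf
      (fun u hu => by rw [hzero f u hu.1.symm hu.2.symm, mul_zero])] at h1
    have hA : ψ (s f) (w (some f)) ≠ 0 := by
      rw [Ne, hψ]
      show vec (ZMod 2) s t f (s f) ≠ 0
      unfold vec
      rw [Pi.sub_apply, Pi.single_eq_same, Pi.single_eq_of_ne hf, sub_zero]
      exact one_ne_zero
    have hB : ψ (t f) (w (some f)) ≠ 0 := by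
      rw [Ne, hψ]
      show vec (ZMod 2) s t f (t f) ≠ 0
      unfold vec
      rw [Pi.sub_apply, Pi.single_eq_same, Pi.single_eq_of_ne hf.symm, zero_sub]
      exact neg_ne_zero.2 one_ne_zero
    constructor
    · intro h4
      rw [h4, zero_mul, zero_add] at h1
      exact (mul_eq_zero.1 h1).resolve_right hB
    · intro h4
      rw [h4, zero_mul, add_zero] at h1
      exact (mul_eq_zero.1 h1).resolve_right hA
  have hall : ∀ u, l u ≠ 0 := by
    by_contra hcon
    push Not at hcon
    obtain ⟨u0, hu0⟩ := hcon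
    obtain ⟨u1, hu1⟩ : ∃ u, l u ≠ 0 := by
      by_contra hn
      push Not at hn
      exact hl (funext hn)
    obtain ⟨f, hf⟩ := hc {u | l u = 0} ⟨u0, hu0⟩ ⟨u1, hu1⟩
    rcases hf with ⟨h4, h5⟩ | ⟨h4, h5⟩
    · exact h5 ((hedge f (fun h => h5 (by rw [← h]; exact h4))).1 h4)
    · exact h5 ((hedge f (fun h => h5 (by rw [h]; exact h4))).2 h4)
  have hpair : ∀ i j k m : Fin 4, i ≠ j → i ≠ k → i ≠ m → j ≠ k → j ≠ m → k ≠ m →
      l (p i) * ψ (p i) (w none) + l (p j) * ψ (p j) (w none) = 0 := by
    intro i j k m hij hik him hjk hjm hkm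
    have h4all : ∀ q : Fin 4, q = i ∨ q = j ∨ q = k ∨ q = m := by
      revert i j k m
      decide
    obtain ⟨θ, hθ⟩ : ∃ θ : W' →ₗ[F] F,
        ∀ x, θ x = ∑ u ∈ Finset.univ.filter (· ∈ side p c i j), l u * ψ u x := by
      refine ⟨∑ u ∈ Finset.univ.filter (· ∈ side p c i j), l u • ψ u, fun x => ?_⟩
      rw [LinearMap.sum_apply]
      rfl
    have hcompl : ∀ u, u ∈ side p c k m → u ∉ side p c i j := by
      intro u hu hu'
      rcases hu with h | h | h
      · rcases hu' with h' | h' | h'
        · exact hik (hp (h'.symm.trans h))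
        · exact hjk (hp (h'.symm.trans h))
        · exact h'.1 k h.symm
      · rcases hu' with h' | h' | h'
        · exact him (hp (h'.symm.trans h))
        · exact hjm (hp (h'.symm.trans h))
        · exact h'.1 m h.symm
      · rcases hu' with h' | h' | h'
        · exact h.1 i h'.symm
        · exact h.1 j h'.symm
        · rcases h4all (c u) with h6 | h6 | h6 | h6
          · exact h'.2.1 h6
          · exact h'.2.2 h6
          · exact h.2.1 h6
          · exact h.2.2 h6
    obtain ⟨R, hR⟩ : ∃ R : Set E, R = {f | (s f ∈ side p c i j ∧ t f ∈ side p c i j) ∨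
      (s f ∉ side p c i j ∧ t f ∉ side p c i j)} := ⟨_, rfl⟩
    have hin : ev s t p none ∈ span (ZMod 2) (ev s t p '' (some '' R)) := by
      rw [ev_none_eq hij hik him hjk hjm hkm, Set.image_image]
      refine add_mem (span_mono (Set.image_mono ?_) (hlink i j hij))
        (span_mono (Set.image_mono ?_) (hlink k m hkm))
      · intro f hf
        rw [hR]
        exact Or.inl hf
      · intro f hf
        rw [hR]
        exact Or.inr ⟨hcompl _ hf.1, hcompl _ hf.2⟩
    have hker : span F (w '' (some '' R)) ≤ LinearMap.ker θ := by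
      rw [span_le]
      rintro _ ⟨_, ⟨f, hf, rfl⟩, rfl⟩
      show θ (w (some f)) = 0
      rw [hθ]
      rw [hR] at hf
      rcases hf with hf | hf
      · rw [← hrel (some f)]
        apply Finset.sum_subset (Finset.subset_univ _)
        intro u _ hu
        have hu' : u ∉ side p c i j := by simpa using hu
        rw [hzero f u (fun h => hu' (h ▸ hf.1)) (fun h => hu' (h ▸ hf.2)), mul_zero]
      · apply Finset.sum_eq_zero
        intro u hu
        have hu' : u ∈ side p c i j := by simpa using hu
        rw [hzero f u (fun h => hf.1 (h ▸ hu')) (fun h => hf.2 (h ▸ hu')), mul_zero]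
    have h6 : θ (w none) = 0 := hker ((transfer hw _ _).1 hin)
    rw [hθ, Finset.sum_eq_add_of_mem (p i) (p j)] at h6
    · exact h6
    · exact Finset.mem_filter.2 ⟨Finset.mem_univ _, Or.inl rfl⟩
    · exact Finset.mem_filter.2 ⟨Finset.mem_univ _, Or.inr (Or.inl rfl)⟩
    · exact fun h => hij (hp h)
    · rintro u hu ⟨h7, h8⟩
      have hu' : u ∈ side p c i j := (Finset.mem_filter.1 hu).2
      rcases hu' with h9 | h9 | h9
      · exact absurd h9 h7
      · exact absurd h9 h8
      · rw [(hψ u none).2 (ev_none_zero h9.1), mul_zero]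
  have h01 := hpair 0 1 2 3 (by decide) (by decide) (by decide) (by decide) (by decide) (by decide)
  have h02 := hpair 0 2 1 3 (by decide) (by decide) (by decide) (by decide) (by decide) (by decide)
  have h12 := hpair 1 2 0 3 (by decide) (by decide) (by decide) (by decide) (by decide) (by decide)
  have h5 : 2 * (l (p 0) * ψ (p 0) (w none)) = 0 := by
    linear_combination h01 + h02 - h12
  rcases mul_eq_zero.1 ((mul_eq_zero.1 h5).resolve_left h2) with h | h
  · exact hall _ h
  · rw [hψ, ev_none_T hp] at h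
    exact one_ne_zero h

/-- the graft is 3-connected -/
theorem graft_three (h3 : ThreeConn (graft s t p ＼ {none})) (hc : Conn s t)
    (hE : 4 ≤ Nat.card E) (hp : Function.Injective p) : ThreeConn (graft s t p) := by
  refine three_of_delete ev_rep (e := none) (by rw [graft_E]; exact mem_univ _) h3 ?_ ?_
    (ev_none_ne s t p hp) ?_
  · rw [E_eq, ncard_some, Set.ncard_univ]
    exact hE
  · rw [E_eq, ev_none_eq (i := 0) (j := 1) (k := 2) (m := 3) (by decide) (by decide) (by decide)
      (by decide) (by decide) (by decide), Set.image_image]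
    refine add_mem (span_mono (Set.image_mono (subset_univ _))
      (sub_mem_span h3 hc (u := p 2) ?_ ?_))
      (span_mono (Set.image_mono (subset_univ _)) (sub_mem_span h3 hc (u := p 0) ?_ ?_))
    all_goals exact fun h => absurd (hp h) (by decide)
  · intro q hq hev
    rw [E_eq] at hq
    obtain ⟨f, _, rfl⟩ := hq
    have h1 : ∀ i, p i = s f ∨ p i = t f := by
      intro i
      by_contra h
      push Not at h
      have h4 := congrFun hev (p i)
      rw [ev_none_T hp] at h4
      have h5 : ev s t p (some f) (p i) = 0 := vec_zero h.1.symm h.2.symm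
      rw [h5] at h4
      exact one_ne_zero h4
    rcases h1 0 with a | a <;> rcases h1 1 with b | b <;> rcases h1 2 with d | d <;>
      first
        | exact absurd (hp (a.trans b.symm)) (by decide)
        | exact absurd (hp (a.trans d.symm)) (by decide)
        | exact absurd (hp (b.trans d.symm)) (by decide)

end Pool.Agent.H85.TG
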