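import Pool.Agent.H85.TG.Lkg

set_option autoImplicit false
set_option linter.unusedSectionVars false

/-!
# Grafts with four vertices: a component of `G - T` adjacent to all of `T`
-/

open Set Matroid Module Submodule
open scoped Matroid

namespace Pool.Agent.H85.TG

open Pool.Agent.H18.SG (vec linMat linMat_indep linMat_ground gr)
open Pool.Agent.H36.TX (IsRep Rep Regular ThreeConn)
open Pool.Agent.H85.TX (rk indepOn_iff eRk_eq Represents mem_closure_iff)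

variable {V E : Type} [Fintype V] [DecidableEq V] [Finite E]
variable {s t : E → V} {p : Fin 4 → V} {c : V → Fin 4}

/-- the edge `f` joins `a` and `b` -/
def Ed (s t : E → V) (f : E) (a b : V) : Prop := (s f = a ∧ t f = b) ∨ (s f = b ∧ t f = a)

theorem Ed.symm {f : E} {a b : V} (h : Ed s t f a b) : Ed s t f b a := Or.symm h

theorem Ed.eq {f : E} {a b : V} (h : Ed s t f a b) :
    vec (ZMod 2) s t f = Pi.single a 1 + Pi.single b 1 := by
  unfold vec
  rcases h with ⟨h1, h2⟩ | ⟨h1, h2⟩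
  · rw [h1, h2, sub_vec]
  · rw [h1, h2, sub_vec, add_comm]

/-- the edges with both ends outside `T` -/
def KT (s t : E → V) (p : Fin 4 → V) : Set E := {f | (∀ m, p m ≠ s f) ∧ ∀ m, p m ≠ t f}

theorem tri_mem {S : Submodule (ZMod 2) (V → ZMod 2)} {a b d : V}
    (h1 : (Pi.single a 1 + Pi.single b 1 : V → ZMod 2) ∈ S)
    (h2 : (Pi.single a 1 + Pi.single d 1 : V → ZMod 2) ∈ S) :
    (Pi.single b 1 + Pi.single d 1 : V → ZMod 2) ∈ S := by
  have h3 : (Pi.single b 1 + Pi.single d 1 : V → ZMod 2) =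
      (Pi.single a 1 + Pi.single b 1) - (Pi.single a 1 + Pi.single d 1) := by
    rw [← sub_vec (Pi.single b 1)]
    abel
  rw [h3]
  exact sub_mem h1 h2

theorem ext_path {X : Set V} {a b : V} (hab : a ≠ b) (h : Joined s t X a b) :
    (∃ g, Ed s t g a b) ∨ ∃ fa fb ua ub, Ed s t fa ua a ∧ Ed s t fb ub b ∧
      ua ∈ X \ {a, b} ∧ ub ∈ X \ {a, b} ∧
      (Pi.single ua 1 + Pi.single ub 1 : V → ZMod 2) ∈
        span (ZMod 2) (vec (ZMod 2) s t '' {f | s f ∈ X \ {a, b} ∧ t f ∈ X \ {a, b}}) := by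
  by_contra hcon
  push Not at hcon
  obtain ⟨hcon1, hcon2⟩ := hcon
  obtain ⟨Y, hY⟩ : ∃ Y : Set V, Y = X \ {a, b} := ⟨_, rfl⟩
  rw [← hY] at hcon2
  obtain ⟨Z, hZ⟩ : ∃ Z : Set V, Z = {v | v = a ∨ (v ∈ Y ∧ ∃ fa ua, Ed s t fa ua a ∧ ua ∈ Y ∧
    (Pi.single ua 1 + Pi.single v 1 : V → ZMod 2) ∈
      span (ZMod 2) (vec (ZMod 2) s t '' {f | s f ∈ Y ∧ t f ∈ Y}))} := ⟨_, rfl⟩
  have haZ : a ∈ Z := hZ ▸ Or.inl rfl
  have hbY : b ∉ Y := by
    rw [hY]
    exact fun h => h.2 (Or.inr rfl)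
  have hbZ : b ∉ Z := by
    rw [hZ]
    rintro (h | h)
    · exact hab h.symm
    · exact hbY h.1
  have step : ∀ f v v', Ed s t f v v' → v' ∈ X → v ∈ Z → v' ∈ Z := by
    intro f v v' hf hvX' hv
    have hv' : v' = a ∨ v' = b ∨ v' ∈ Y := by
      by_cases h1 : v' = a
      · exact Or.inl h1
      by_cases h2 : v' = b
      · exact Or.inr (Or.inl h2)
      · right
        right
        rw [hY]
        refine ⟨hvX', ?_⟩
        rintro (h3 | h3)
        · exact h1 h3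
        · exact h2 h3
    rw [hZ] at hv ⊢
    rcases hv' with h1 | h1 | h1
    · exact Or.inl h1
    · exfalso
      rcases hv with h2 | ⟨h2, fa, ua, h3, h4, h5⟩
      · exact hcon1 f (by rw [← h2, ← h1]; exact hf)
      · exact hcon2 fa f ua v h3 (by rw [← h1]; exact hf) h4 h2 h5
    · right
      refine ⟨h1, ?_⟩
      rcases hv with h2 | ⟨h2, fa, ua, h3, h4, h5⟩
      · exact ⟨f, v', by rw [← h2]; exact hf.symm, h1, by rw [add_self_vec]; exact zero_mem _⟩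
      · refine ⟨fa, ua, h3, h4, ?_⟩
        have h6 : (Pi.single v 1 + Pi.single v' 1 : V → ZMod 2) ∈
            span (ZMod 2) (vec (ZMod 2) s t '' {f | s f ∈ Y ∧ t f ∈ Y}) := by
          rw [← hf.eq]
          refine subset_span ⟨f, ?_, rfl⟩
          rcases hf with ⟨h7, h8⟩ | ⟨h7, h8⟩
          · exact ⟨by rw [h7]; exact h2, by rw [h8]; exact h1⟩
          · exact ⟨by rw [h7]; exact h1, by rw [h8]; exact h2⟩
        rw [add_comm] at h5
        exact tri_mem h5 h6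
  obtain ⟨f, hs, ht, h1⟩ := h Z haZ hbZ
  rcases h1 with ⟨h1, h2⟩ | ⟨h1, h2⟩
  · exact h2 (step f (s f) (t f) (Or.inl ⟨rfl, rfl⟩) ht h1)
  · exact h2 (step f (t f) (s f) (Or.inr ⟨rfl, rfl⟩) hs h1)

/-- `C` is a component of `G - T` which is adjacent to all vertices of `T` -/
structure Comp (s t : E → V) (p : Fin 4 → V) (C : Set V) : Prop where
  disj : ∀ m, p m ∉ C
  closed : ∀ f ∈ KT s t p, (s f ∈ C ↔ t f ∈ C)
  conn : ∀ a ∈ C, ∀ b ∈ C, (Pi.single a 1 + Pi.single b 1 : V → ZMod 2) ∈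
    span (ZMod 2) (vec (ZMod 2) s t '' KT s t p)
  adj : ∀ m, ∃ f u, u ∈ C ∧ Ed s t f u (p m)

theorem exists_comp (h : ¬ ∃ c, Coloured s t p c) : ∃ C, Comp s t p C := by
  classical
  by_contra hcon
  apply h
  obtain ⟨cp, hcp⟩ : ∃ cp : V → Set V, ∀ u, cp u = {v | (∀ m, p m ≠ v) ∧
      (Pi.single u 1 + Pi.single v 1 : V → ZMod 2) ∈
        span (ZMod 2) (vec (ZMod 2) s t '' KT s t p)} := ⟨_, fun _ => rfl⟩
  obtain ⟨g, hg⟩ : ∃ g : Set V → Fin 4, ∀ C, (∃ m, ∀ f u, u ∈ C → ¬ Ed s t f u (p m)) →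
      ∀ f u, u ∈ C → ¬ Ed s t f u (p (g C)) :=
    ⟨fun C => if h : ∃ m, ∀ f u, u ∈ C → ¬ Ed s t f u (p m) then h.choose else 0, fun C h => by
      simp only [dif_pos h]
      exact h.choose_spec⟩
  have hedge : ∀ f ∈ KT s t p, (Pi.single (s f) 1 + Pi.single (t f) 1 : V → ZMod 2) ∈
      span (ZMod 2) (vec (ZMod 2) s t '' KT s t p) := by
    intro f hf
    have h1 : Ed s t f (s f) (t f) := Or.inl ⟨rfl, rfl⟩
    rw [← h1.eq]
    exact subset_span ⟨f, hf, rfl⟩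
  have hmiss : ∀ u, ∃ m, ∀ f v, v ∈ cp u → ¬ Ed s t f v (p m) := by
    intro u
    by_contra h1
    push Not at h1
    apply hcon
    refine ⟨cp u, ?_, ?_, ?_, ?_⟩
    · intro m hm
      rw [hcp] at hm
      exact hm.1 m rfl
    · intro f hf
      rw [hcp]
      constructor
      · rintro ⟨_, h2⟩
        refine ⟨hf.2, ?_⟩
        rw [add_comm] at h2
        exact tri_mem h2 (hedge f hf)
      · rintro ⟨_, h2⟩
        refine ⟨hf.1, ?_⟩
        rw [add_comm] at h2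
        have h3 := hedge f hf
        rw [add_comm] at h3
        exact tri_mem h2 h3
    · intro a ha b hb
      rw [hcp] at ha hb
      exact tri_mem ha.2 hb.2
    · intro m
      obtain ⟨f, v, hv, hE⟩ := h1 m
      exact ⟨f, v, hv, hE⟩
  have hself : ∀ u, (∀ m, p m ≠ u) → u ∈ cp u := by
    intro u hu
    rw [hcp]
    exact ⟨hu, by rw [add_self_vec]; exact zero_mem _⟩
  refine ⟨fun u => g (cp u), fun f => ⟨?_, ?_, ?_⟩⟩
  · intro hs ht
    have h1 : cp (s f) = cp (t f) := by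
      have h2 := hedge f ⟨hs, ht⟩
      ext v
      rw [hcp, hcp]
      constructor
      · rintro ⟨h3, h4⟩
        exact ⟨h3, tri_mem h2 h4⟩
      · rintro ⟨h3, h4⟩
        rw [add_comm] at h2
        exact ⟨h3, tri_mem h2 h4⟩
    show g (cp (s f)) = g (cp (t f))
    rw [h1]
  · intro i hi ht hci
    have h2 := hg (cp (t f)) (hmiss (t f)) f (t f) (hself _ ht)
    apply h2
    rw [show g (cp (t f)) = i from hci]
    exact Or.inr ⟨hi.symm, rfl⟩
  · intro i hi hs hci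
    have h2 := hg (cp (s f)) (hmiss (s f)) f (s f) (hself _ hs)
    apply h2
    rw [show g (cp (s f)) = i from hci]
    exact Or.inl ⟨rfl, hi.symm⟩

theorem not_mem_of_cut {Z : Set V} {X : Set E} {f : E}
    (he : ∀ χ : (V → ZMod 2) →ₗ[ZMod 2] ZMod 2, (∀ u, u ∈ Z → χ (Pi.single u 1) = 1) →
      (∀ u, u ∉ Z → χ (Pi.single u 1) = 0) → χ (ev s t p none) = 0)
    (hX : ∀ g ∈ X, (s g ∈ Z ↔ t g ∈ Z)) (hf : ¬ (s f ∈ Z ↔ t f ∈ Z)) :
    vec (ZMod 2) s t f ∉ span (ZMod 2) (insert (ev s t p none) (vec (ZMod 2) s t '' X)) := by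
  intro hcon
  obtain ⟨χ, h1, h2⟩ := exists_chi (ZMod 2) Z
  have h3 : span (ZMod 2) (insert (ev s t p none) (vec (ZMod 2) s t '' X)) ≤ LinearMap.ker χ := by
    rw [span_le]
    rintro _ (rfl | ⟨g, hg, rfl⟩)
    · exact he χ h1 h2
    · show χ (Pi.single (s g) 1 - Pi.single (t g) 1) = 0
      rw [map_sub]
      by_cases h4 : s g ∈ Z
      · rw [h1 _ h4, h1 _ ((hX g hg).1 h4), sub_self]
      · rw [h2 _ h4, h2 _ (fun h5 => h4 ((hX g hg).2 h5)), sub_self]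
  have h4 : χ (Pi.single (s f) 1 - Pi.single (t f) 1) = 0 := h3 hcon
  rw [map_sub] at h4
  by_cases h5 : s f ∈ Z
  · by_cases h6 : t f ∈ Z
    · exact hf (iff_of_true h5 h6)
    · rw [h1 _ h5, h2 _ h6, sub_zero] at h4
      exact one_ne_zero h4
  · by_cases h6 : t f ∈ Z
    · rw [h2 _ h5, h1 _ h6, zero_sub] at h4
      exact neg_ne_zero.2 one_ne_zero h4
    · exact hf (iff_of_false h5 h6)

theorem he_pair {Z : Set V} {i j k l : Fin 4} (hd : Dist i j k l) (hi : p i ∈ Z) (hj : p j ∈ Z)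
    (hk : p k ∉ Z) (hl : p l ∉ Z) :
    ∀ χ : (V → ZMod 2) →ₗ[ZMod 2] ZMod 2, (∀ u, u ∈ Z → χ (Pi.single u 1) = 1) →
      (∀ u, u ∉ Z → χ (Pi.single u 1) = 0) → χ (ev s t p none) = 0 := by
  intro χ h1 h2
  obtain ⟨hij, hik, hil, hjk, hjl, hkl⟩ := hd
  rw [ev_none_eq hij hik hil hjk hjl hkl, map_add, map_sub, map_sub, h1 _ hi, h1 _ hj, h2 _ hk,
    h2 _ hl]
  decide

theorem he_all {Z : Set V} (h : ∀ m, p m ∈ Z) :
    ∀ χ : (V → ZMod 2) →ₗ[ZMod 2] ZMod 2, (∀ u, u ∈ Z → χ (Pi.single u 1) = 1) →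
      (∀ u, u ∉ Z → χ (Pi.single u 1) = 0) → χ (ev s t p none) = 0 := by
  intro χ h1 h2
  rw [ev_none_eq (i := 0) (j := 1) (k := 2) (m := 3) (by decide) (by decide) (by decide)
      (by decide) (by decide) (by decide), map_add, map_sub, map_sub, h1 _ (h 0), h1 _ (h 1),
      h1 _ (h 2), h1 _ (h 3)]
  decide

end Pool.Agent.H85.TG
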