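import Pool.Agent.H85.TG.Minor

set_option autoImplicit false
set_option linter.unusedSectionVars false

/-!
# A single-element extension of a 3-connected binary matroid is 3-connected
-/

open Set Matroid Module Submodule
open scoped Matroid

namespace Pool.Agent.H85.TG

open Pool.Agent.H36.TX (IsRep Rep Regular ThreeConn)
open Pool.Agent.H85.TX (rk indepOn_iff eRk_eq Represents)

variable {α W : Type} [Finite α] [AddCommGroup W] [Module (ZMod 2) W]

theorem zmod_one {a : ZMod 2} (h : a ≠ 0) : a = 1 := by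
  revert a
  decide

theorem rk_mono {v : α → W} {X Y : Set α} (h : X ⊆ Y) :
    rk (ZMod 2) v X ≤ rk (ZMod 2) v Y :=
  Submodule.finrank_mono (span_mono (Set.image_mono h))

theorem rk_le_ncard (v : α → W) (X : Set α) : rk (ZMod 2) v X ≤ X.ncard := by
  classical
  have : Fintype (v '' X) := Fintype.ofFinite _
  have h1 := finrank_span_le_card (R := ZMod 2) (v '' X)
  rw [← Set.ncard_eq_toFinset_card'] at h1
  exact h1.trans (Set.ncard_image_le (Set.toFinite X))

section N

variable {N : Matroid α} {v : α → W}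

theorem three_nat (hv : Represents (ZMod 2) v N) (h3 : ThreeConn N) (k : ℕ) (hk : k = 1 ∨ k = 2)
    (X Y : Set α) (hXY : X ∪ Y = N.E)
    (hd : Disjoint X Y) (hX : k ≤ X.ncard) (hY : k ≤ Y.ncard) :
    rk (ZMod 2) v N.E + k ≤ rk (ZMod 2) v X + rk (ZMod 2) v Y := by
  have h := h3 k hk X Y hXY hd
    (by rw [← (Set.toFinite X).cast_ncard_eq]; exact_mod_cast hX)
    (by rw [← (Set.toFinite Y).cast_ncard_eq]; exact_mod_cast hY)
  rw [← eRk_ground, eRk_eq hv subset_rfl, eRk_eq hv (hXY ▸ subset_union_left),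
    eRk_eq hv (hXY ▸ subset_union_right)] at h
  exact_mod_cast h

theorem ncard_compl {X : Set α} (hX : X ⊆ N.E) : (N.E \ X).ncard + X.ncard = N.E.ncard :=
  Set.ncard_sdiff_add_ncard_of_subset hX

theorem ne_zero (hv : Represents (ZMod 2) v N) (h3 : ThreeConn N) (h4 : 4 ≤ N.E.ncard)
    {a : α} (ha : a ∈ N.E) : v a ≠ 0 := by
  intro h0
  have h1 : ({a} : Set α) ⊆ N.E := by simpa using ha
  have h2 := ncard_compl h1
  rw [Set.ncard_singleton] at h2
  have h5 := three_nat hv h3 1 (Or.inl rfl) {a} (N.E \ {a})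
    (Set.union_sdiff_cancel h1) disjoint_sdiff_right (by simp) (by omega)
  have h6 : rk (ZMod 2) v (N.E \ {a}) ≤ rk (ZMod 2) v N.E := rk_mono sdiff_subset
  have h7 : rk (ZMod 2) v {a} = 0 := by
    unfold rk
    rw [Set.image_singleton, h0, span_zero_singleton, finrank_bot]
  omega

theorem rk_compl (hv : Represents (ZMod 2) v N) (h3 : ThreeConn N) (h4 : 4 ≤ N.E.ncard)
    {a : α} (ha : a ∈ N.E) : rk (ZMod 2) v N.E ≤ rk (ZMod 2) v (N.E \ {a}) := by
  have h1 : ({a} : Set α) ⊆ N.E := by simpa using ha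
  have h2 := ncard_compl h1
  rw [Set.ncard_singleton] at h2
  have h5 := three_nat hv h3 1 (Or.inl rfl) {a} (N.E \ {a})
    (Set.union_sdiff_cancel h1) disjoint_sdiff_right (by simp) (by omega)
  have h6 := rk_le_ncard v {a}
  rw [Set.ncard_singleton] at h6
  omega

end N

theorem three_of_delete {M : Matroid α} {v : α → W} (hv : Represents (ZMod 2) v M) {e : α}
    (he : e ∈ M.E) (h3 : ThreeConn (M ＼ {e})) (h4 : 4 ≤ (M ＼ {e}).E.ncard)
    (hspan : v e ∈ span (ZMod 2) (v '' (M ＼ {e}).E)) (h0 : v e ≠ 0)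
    (hne : ∀ p ∈ (M ＼ {e}).E, v e ≠ v p) : ThreeConn M := by
  have hNE : (M ＼ {e}).E = M.E \ {e} := rfl
  have hEM : (M ＼ {e}).E ⊆ M.E := sdiff_subset
  have hME : M.E = insert e (M ＼ {e}).E := by
    rw [hNE, Set.insert_sdiff_singleton, Set.insert_eq_of_mem he]
  have heN : e ∉ (M ＼ {e}).E := fun h => h.2 rfl
  have hvN : Represents (ZMod 2) v (M ＼ {e}) := by
    intro I hI
    rw [deleteElem_indep_iff, hv I (hI.trans hEM)]
    exact and_iff_left fun h => heN (hI h)
  obtain ⟨N, hN⟩ : ∃ N, N = M ＼ {e} := ⟨_, rfl⟩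
  rw [← hN] at h3 h4 hspan hne hEM hME heN hvN
  have hrE : rk (ZMod 2) v M.E = rk (ZMod 2) v N.E := by
    unfold rk
    rw [hME, Set.image_insert_eq, span_insert_eq_span hspan]
  have hpair : ∀ p ∈ N.E, 2 ≤ rk (ZMod 2) v {e, p} := by
    intro p hp
    have hep : e ≠ p := fun h => heN (h ▸ hp)
    have h1 : LinearIndepOn (ZMod 2) v {e, p} := by
      rw [linearIndepOn_insert (by simpa using hep)]
      refine ⟨LinearIndepOn.singleton (ne_zero hvN h3 h4 hp), ?_⟩
      rw [Set.image_singleton, mem_span_singleton]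
      rintro ⟨c, hc⟩
      by_cases hc0 : c = 0
      · rw [hc0, zero_smul] at hc
        exact h0 hc.symm
      · rw [zmod_one hc0, one_smul] at hc
        exact hne p hp hc.symm
    rw [(indepOn_iff _).1 h1, Set.ncard_pair hep]
  have key : ∀ k : ℕ, (k = 1 ∨ k = 2) → ∀ X Y : Set α, X ∪ Y = M.E → Disjoint X Y →
      k ≤ X.ncard → k ≤ Y.ncard → e ∈ X →
        rk (ZMod 2) v N.E + k ≤ rk (ZMod 2) v X + rk (ZMod 2) v Y := by
    intro k hk X Y hXY hd hX hY heX
    have heY : e ∉ Y := Set.disjoint_left.1 hd heX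
    have hXc : (X \ {e}).ncard + 1 = X.ncard := Set.ncard_sdiff_singleton_add_one heX
    have hU : (X \ {e}) ∪ Y = N.E := by
      ext i
      have h1 : i ∈ X ∪ Y ↔ i ∈ insert e N.E := by rw [hXY, hME]
      simp only [mem_union, mem_insert_iff, mem_sdiff, mem_singleton_iff] at h1 ⊢
      by_cases hie : i = e
      · subst hie
        simp [heY, heN]
      · simp only [hie, not_false_eq_true, and_true, false_or] at h1 ⊢
        exact h1
    have hd' : Disjoint (X \ {e}) Y := hd.mono_left sdiff_subset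
    have hmono : rk (ZMod 2) v (X \ {e}) ≤ rk (ZMod 2) v X := rk_mono sdiff_subset
    by_cases hle : k ≤ (X \ {e}).ncard
    · have h1 := three_nat hvN h3 k hk _ Y hU hd' hle hY
      omega
    · have hcard : (X \ {e}).ncard = k - 1 := by omega
      rcases hk with rfl | rfl
      · have h1 : X \ {e} = ∅ := (Set.ncard_eq_zero (Set.toFinite _)).1 hcard
        rw [h1, empty_union] at hU
        have h2 : 1 ≤ rk (ZMod 2) v X := by
          have h3 : rk (ZMod 2) v {e} ≤ rk (ZMod 2) v X := rk_mono (by simpa using heX)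
          have h4 : rk (ZMod 2) v {e} = 1 := by
            rw [(indepOn_iff _).1 (LinearIndepOn.singleton h0), Set.ncard_singleton]
          omega
        rw [hU]
        omega
      · obtain ⟨p, hp⟩ := Set.ncard_eq_one.1 hcard
        have hpE : p ∈ N.E := by
          rw [← hU, hp]
          simp
        have h2 : 2 ≤ rk (ZMod 2) v X := by
          refine (hpair p hpE).trans (rk_mono ?_)
          rintro i (rfl | rfl)
          · exact heX
          · have : i ∈ X \ {e} := by rw [hp]; rfl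
            exact this.1
        have h5 : Y = N.E \ {p} := by
          rw [← hU, hp, Set.union_sdiff_left, sdiff_eq_left.2]
          rw [← hp]
          exact hd'.symm
        have h6 := rk_compl hvN h3 h4 hpE
        rw [h5]
        omega
  intro k hk X Y hXY hd hX hY
  have hXM : X ⊆ M.E := hXY ▸ subset_union_left
  have hYM : Y ⊆ M.E := hXY ▸ subset_union_right
  rw [← eRk_ground, eRk_eq hv subset_rfl, eRk_eq hv hXM, eRk_eq hv hYM, hrE]
  rw [← (Set.toFinite X).cast_ncard_eq] at hX
  rw [← (Set.toFinite Y).cast_ncard_eq] at hY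
  have hX' : k ≤ X.ncard := by exact_mod_cast hX
  have hY' : k ≤ Y.ncard := by exact_mod_cast hY
  have heXY : e ∈ X ∪ Y := by
    rw [hXY]
    exact he
  rcases heXY with h | h
  · have h1 := key k hk X Y hXY hd hX' hY' h
    exact_mod_cast h1
  · have h1 := key k hk Y X (by rw [union_comm, hXY]) hd.symm hY' hX' h
    have h2 : rk (ZMod 2) v N.E + k ≤ rk (ZMod 2) v X + rk (ZMod 2) v Y := by omega
    exact_mod_cast h2

end Pool.Agent.H85.TG
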