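import Pool.Agent.H85.TG.Defs

/-!
# [H85 TG WA] rules for the expectation, 60-100 lines

`Ex w (k + 1) f = av w fun i => Ex w k fun g => f (g * w.s i)` by definition; everything is an induction on `k` (generalising
`f`).
* `ex_lin`: a linear map commutes with `av` (`map_smul`, `map_sum`).
* `ex_left`: induction: `Ex (k+2) f = av i, Ex (k+1) (g ↦ f (g s i)) = av i, av j, Ex k (g ↦ f (s j g s i))` and exchange of the
  averages (`Finset.sum_comm`).
* `ex_time`: `Ex (j + k) f = Ex j (g ↦ Ex k (h ↦ f (g h)))`: induction on `k`: `Ex (j + (k+1)) f = av i, Ex (j + k) (g ↦ f (g s i)) =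
  av i, Ex j (g ↦ Ex k (h ↦ f (g h s i)))`, and `av` commutes with `Ex j` (`ex_sum`, `ex_smul`).
* `ex_inv`: induction: `Ex (k+1) (f ∘ inv) = av i, Ex k (g ↦ f ((g s i)⁻¹)) = av i, Ex k (g ↦ f ((s i)⁻¹ g⁻¹)) =
  av i, Ex k (g ↦ f ((s i)⁻¹ g)) = av i, Ex k (g ↦ f (s (σ i) g)) = Ex (k+1) f` (`Equiv.sum_comp`, `ex_left`).
* `ex_norm`: `norm_smul`, `norm_sum_le`.
* `ex_cs`: Cauchy-Schwarz: from `ex_nonneg` applied to `(a f + b g)^2` for all real `a`, `b` (discriminant), or by induction with
  `Finset.sum_mul_sq_le_sq_mul_sq` (the induction is easy: `(av_i x_i)^2 ≤ (av_i sqrt (A_i B_i))^2 ≤ (av A_i) (av B_i)`).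
-/

set_option autoImplicit false

universe u v

namespace H85.TG

variable {Q : Type u} [Group Q] (w : Walk Q) {V : Type v} [AddCommGroup V] [Module ℝ V]

theorem ex_zero (f : Q → V) : Ex w 0 f = f 1 := rfl

theorem ex_succ (k : ℕ) (f : Q → V) :
    Ex w (k + 1) f = av w fun i => Ex w k fun g => f (g * w.s i) := rfl

theorem av_add (f g : w.I → V) : av w (fun i => f i + g i) = av w f + av w g := by
  simp [av, Finset.sum_add_distrib]

theorem av_smul (c : ℝ) (f : w.I → V) : av w (fun i => c • f i) = c • av w f := by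
  simp only [av, ← Finset.smul_sum]
  rw [smul_comm]

theorem av_const (c : V) : av w (fun _ => c) = c := by
  have := w.nonempty
  have h : (Fintype.card w.I : ℝ) ≠ 0 := by
    exact_mod_cast Fintype.card_ne_zero
  rw [av, Finset.sum_const, Finset.card_univ, ← Nat.cast_smul_eq_nsmul ℝ, smul_smul,
    inv_mul_cancel₀ h, one_smul]

theorem ex_add (k : ℕ) (f g : Q → V) : Ex w k (fun x => f x + g x) = Ex w k f + Ex w k g := by
  induction k generalizing f g with
  | zero => rfl
  | succ k ih =>
    rw [ex_succ, ex_succ, ex_succ, ← av_add]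
    congr 1
    funext i
    exact ih _ _

theorem ex_smul (k : ℕ) (c : ℝ) (f : Q → V) : Ex w k (fun x => c • f x) = c • Ex w k f := by
  induction k generalizing f with
  | zero => rfl
  | succ k ih =>
    rw [ex_succ, ex_succ, ← av_smul]
    congr 1
    funext i
    exact ih _

theorem ex_const (k : ℕ) (c : V) : Ex w k (fun _ => c) = c := by
  induction k with
  | zero => rfl
  | succ k ih =>
    rw [ex_succ]
    have h : (fun i : w.I => Ex w k fun _ : Q => c) = fun _ => c := by
      funext i
      exact ih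
    rw [h, av_const]

theorem ex_sum {ι : Type*} (k : ℕ) (S : Finset ι) (f : ι → Q → V) :
    Ex w k (fun x => ∑ i ∈ S, f i x) = ∑ i ∈ S, Ex w k (f i) := by
  classical
  induction S using Finset.induction_on with
  | empty =>
    simp only [Finset.sum_empty]
    exact ex_const w k 0
  | insert a S ha ih =>
    simp only [Finset.sum_insert ha]
    rw [ex_add, ih]

theorem ex_lin {W : Type*} [AddCommGroup W] [Module ℝ W] (L : V →ₗ[ℝ] W) (k : ℕ) (f : Q → V) :
    L (Ex w k f) = Ex w k fun x => L (f x) := by
  induction k generalizing f with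
  | zero => rfl
  | succ k ih =>
    rw [ex_succ, ex_succ, av, map_smul, map_sum, av]
    congr 1
    exact Finset.sum_congr rfl fun i _ => ih _

theorem ex_mono (k : ℕ) {f g : Q → ℝ} (h : ∀ x, f x ≤ g x) : Ex w k f ≤ Ex w k g := by
  induction k generalizing f g with
  | zero => exact h 1
  | succ k ih =>
    rw [ex_succ, ex_succ, av, av, smul_eq_mul, smul_eq_mul]
    exact mul_le_mul_of_nonneg_left (Finset.sum_le_sum fun i _ => ih fun x => h _)
      (by positivity)

theorem ex_nonneg (k : ℕ) {f : Q → ℝ} (h : ∀ x, 0 ≤ f x) : 0 ≤ Ex w k f := by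
  have h1 := ex_mono w k h
  rwa [ex_const] at h1

theorem ex_left (k : ℕ) (f : Q → V) :
    Ex w (k + 1) f = av w fun i => Ex w k fun g => f (w.s i * g) := by
  induction k generalizing f with
  | zero =>
    rw [ex_succ]
    congr 1
    funext i
    rw [ex_zero, ex_zero, one_mul, mul_one]
  | succ k ih =>
    rw [ex_succ]
    have h1 : (fun i => Ex w (k + 1) fun g => f (g * w.s i)) =
        fun i => av w fun j => Ex w k fun g => f (w.s j * g * w.s i) := by
      funext i
      exact ih _
    have h2 : (fun i => Ex w (k + 1) fun g => f (w.s i * g)) =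
        fun i => av w fun j => Ex w k fun g => f (w.s i * g * w.s j) := by
      funext i
      rw [ex_succ]
      congr 1
      funext j
      congr 1
      funext g
      rw [mul_assoc]
    rw [h1, h2]
    simp only [av]
    simp only [← Finset.smul_sum]
    rw [Finset.sum_comm]

theorem ex_time (j k : ℕ) (f : Q → V) :
    Ex w (j + k) f = Ex w j fun g => Ex w k fun h => f (g * h) := by
  induction k generalizing f with
  | zero =>
    rw [Nat.add_zero]
    congr 1
    funext g
    rw [ex_zero, mul_one]
  | succ k ih =>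
    rw [← Nat.add_assoc, ex_succ]
    have h1 : (fun i => Ex w (j + k) fun g => f (g * w.s i)) =
        fun i => Ex w j fun g => Ex w k fun h => f (g * h * w.s i) := by
      funext i
      exact ih _
    have h2 : (fun g => Ex w (k + 1) fun h => f (g * h)) =
        fun g => ((Fintype.card w.I : ℝ)⁻¹) • ∑ i, Ex w k fun h => f (g * h * w.s i) := by
      funext g
      rw [ex_succ, av]
      congr 1
      refine Finset.sum_congr rfl fun i _ => ?_
      congr 1
      funext h
      rw [mul_assoc]
    rw [h1, h2, ex_smul, ex_sum, av]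

theorem ex_inv (k : ℕ) (f : Q → V) : Ex w k (fun g => f g⁻¹) = Ex w k f := by
  induction k generalizing f with
  | zero =>
    rw [ex_zero, ex_zero, inv_one]
  | succ k ih =>
    rw [ex_left w k f, ex_succ]
    have h1 : (fun i => Ex w k fun g => f (g * w.s i)⁻¹) =
        fun i => Ex w k fun g => f (w.s (w.σ i) * g) := by
      funext i
      rw [← ih fun g => f (w.s (w.σ i) * g)]
      congr 1
      funext g
      rw [w.inv, mul_inv_rev]
    rw [h1, av, av, Equiv.sum_comp w.σ fun i => Ex w k fun g => f (w.s i * g)]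

theorem ex_norm {W : Type*} [NormedAddCommGroup W] [NormedSpace ℝ W] (k : ℕ) (f : Q → W) :
    ‖Ex w k f‖ ≤ Ex w k fun x => ‖f x‖ := by
  induction k generalizing f with
  | zero => exact le_rfl
  | succ k ih =>
    rw [ex_succ, ex_succ, av, av, norm_smul, smul_eq_mul, norm_inv, Real.norm_natCast]
    exact mul_le_mul_of_nonneg_left
      ((norm_sum_le _ _).trans (Finset.sum_le_sum fun i _ => ih _)) (by positivity)

theorem ex_cs (k : ℕ) (f g : Q → ℝ) :
    (Ex w k fun x => f x * g x) ^ 2 ≤ (Ex w k fun x => f x ^ 2) * (Ex w k fun x => g x ^ 2) := by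
  induction k generalizing f g with
  | zero =>
    rw [ex_zero, ex_zero, ex_zero, mul_pow]
  | succ k ih =>
    rw [ex_succ, ex_succ, ex_succ, av, av, av, smul_eq_mul, smul_eq_mul, smul_eq_mul, mul_pow]
    have h1 := Finset.sum_sq_le_sum_mul_sum_of_sq_le_mul (Finset.univ : Finset w.I)
      (r := fun i => Ex w k fun x => f (x * w.s i) * g (x * w.s i))
      (f := fun i => Ex w k fun x => f (x * w.s i) ^ 2)
      (g := fun i => Ex w k fun x => g (x * w.s i) ^ 2)
      (fun i _ => ex_nonneg w k fun x => sq_nonneg _)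
      (fun i _ => ex_nonneg w k fun x => sq_nonneg _) (fun i _ => ih _ _)
    have h2 := mul_le_mul_of_nonneg_left h1 (sq_nonneg ((Fintype.card w.I : ℝ)⁻¹))
    refine h2.trans (le_of_eq ?_)
    ring

/-- two steps -/
theorem ex_sq (k : ℕ) (f : Q → V) : Ex w.sq k f = Ex w (2 * k) f := by
  induction k generalizing f with
  | zero => rfl
  | succ k ih =>
    rw [show 2 * (k + 1) = 2 * k + 1 + 1 by ring, ex_succ, ex_succ]
    have h1 : (fun i => Ex w (2 * k + 1) fun g => f (g * w.s i)) =
        fun i => av w fun j => Ex w (2 * k) fun g => f (g * w.s j * w.s i) := by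
      funext i
      exact ex_succ w (2 * k) _
    have h2 : (fun i : w.sq.I => Ex w.sq k fun g => f (g * w.sq.s i)) =
        fun i : w.I × w.I => Ex w (2 * k) fun g => f (g * w.s i.1 * w.s i.2) := by
      funext i
      rw [ih]
      congr 1
      funext g
      change f (g * (w.s i.1 * w.s i.2)) = _
      rw [mul_assoc]
    rw [h1, h2]
    simp only [av]
    rw [← Finset.smul_sum, smul_smul]
    have h3 : (Fintype.card w.sq.I : ℝ)⁻¹ = (Fintype.card w.I : ℝ)⁻¹ * (Fintype.card w.I : ℝ)⁻¹ := by
      have : Fintype.card w.sq.I = Fintype.card w.I * Fintype.card w.I := Fintype.card_prod _ _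
      rw [this, Nat.cast_mul, mul_inv]
    rw [h3]
    congr 1
    exact Fintype.sum_prod_type_right fun i : w.I × w.I =>
      Ex w (2 * k) fun g => f (g * w.s i.1 * w.s i.2)

end H85.TG
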