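import Pool.Agent.H85.TG.Wa

/-!
# [H85 TG WB] transition probabilities, 90-140 lines

`p w k x = Ex w k (g ↦ if g = x then 1 else 0)`.
* `ex_supp`: `Ex w k f = ∑ x ∈ Supp w k, p w k x * f x`: `Ex w k f` depends only on the values of `f` on `Supp w k` (induction), on
  which `f g = ∑ x ∈ Supp w k, (if g = x then 1 else 0) * f x`; then `ex_sum`, `ex_smul`. The same for any finite `B ⊇ Supp w k`
  (`ex_fin`; `p w k x = 0` off `Supp w k`).
* `p_conv`: `p w (j + k) x = Ex w j (g ↦ p w k (g⁻¹ x))` (`ex_time`, `g h = x ↔ h = g⁻¹ x`).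
* `p_inv`: `ex_inv`.
* `p_pair`: `Ex w j (p w k) = p w (j + k) 1` (`p_conv` with `x = 1` and `p_inv`).
* `p_even_le`: `p (2m) x = Ex m (g ↦ p m (g⁻¹ x)) = ∑_{g ∈ B} p m g * p m (g⁻¹ x) ≤ (∑ (p m g)^2)^{1/2} (∑ (p m (g⁻¹ x))^2)^{1/2}`,
  both sums are at most `∑_{h ∈ Supp} (p m h)^2 = p (2m) 1` (the second by the injection `g ↦ g⁻¹ x`, or take `B` closed enough). Or with
  the inequality `2 a b ≤ a^2 + b^2`.
* `p_anti`: `p (2m + 2) 1 ≤ p (2m) 1`: `p_conv` with `j = 2`: `p (2 + 2m) 1 = Ex 2 (g ↦ p (2m) g⁻¹) ≤ p (2m) 1` (`p_even_le`, `ex_mono`,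
  `ex_const`).
* `p_conv_le`: for all `j`, `k`: `Ex w j (p w k) ≤ ...`; `p_odd_le`: `p (2m + 1) x ≤ p (2m) 1` in the same way.
* `p_low`: `1 = (∑_{x ∈ Supp m} p m x)^2 ≤ |Supp m| ∑ (p m x)^2 = |Supp m| p (2m) 1` (`sq_sum_le_card_mul_sum_sq`).
-/

set_option autoImplicit false

universe u v

namespace H85.TG

variable {Q : Type u} [Group Q] (w : Walk Q)

private theorem ex_congr (k : ℕ) (f f' : Q → ℝ) (h : ∀ x ∈ Supp w k, f x = f' x) :
    Ex w k f = Ex w k f' := by
  classical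
  induction k generalizing f f' with
  | zero =>
    rw [ex_zero, ex_zero]
    exact h 1 (by simp [Supp])
  | succ k ih =>
    rw [ex_succ, ex_succ]
    congr 1
    funext i
    refine ih _ _ fun x hx => h _ ?_
    rw [Supp, Finset.mem_image]
    exact ⟨(x, i), Finset.mem_product.2 ⟨hx, Finset.mem_univ _⟩, rfl⟩

theorem p_nonneg (k : ℕ) (x : Q) : 0 ≤ p w k x := by
  classical
  refine ex_nonneg w k fun g => ?_
  split_ifs
  · exact zero_le_one
  · exact le_refl 0

theorem p_supp (k : ℕ) (x : Q) (hx : x ∉ Supp w k) : p w k x = 0 := by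
  classical
  unfold p
  rw [ex_congr w k _ (fun _ => (0 : ℝ)) fun y hy => ?_, ex_const]
  rw [if_neg]
  rintro rfl
  exact hx hy

theorem ex_fin (k : ℕ) (f : Q → ℝ) (B : Finset Q) (hB : Supp w k ⊆ B) :
    Ex w k f = ∑ x ∈ B, p w k x * f x := by
  classical
  have h1 : Ex w k f = Ex w k fun g => ∑ x ∈ B, (f x) • (if g = x then (1 : ℝ) else 0) := by
    refine ex_congr w k _ _ fun y hy => ?_
    simp only [smul_eq_mul, mul_ite, mul_one, mul_zero]
    rw [Finset.sum_ite_eq, if_pos (hB hy)]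
  rw [h1, ex_sum]
  refine Finset.sum_congr rfl fun x _ => ?_
  rw [ex_smul, smul_eq_mul, mul_comm]
  rfl

theorem sum_p (k : ℕ) (B : Finset Q) (hB : Supp w k ⊆ B) : ∑ x ∈ B, p w k x = 1 := by
  have h1 := ex_fin w k (fun _ => (1 : ℝ)) B hB
  rw [ex_const] at h1
  simp only [mul_one] at h1
  exact h1.symm

theorem sum_p_le (k : ℕ) (B : Finset Q) : ∑ x ∈ B, p w k x ≤ 1 := by
  classical
  rw [← sum_p w k (B ∪ Supp w k) Finset.subset_union_right]
  exact Finset.sum_le_sum_of_subset_of_nonneg Finset.subset_union_left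
    fun x _ _ => p_nonneg w k x

theorem p_conv (j k : ℕ) (x : Q) : p w (j + k) x = Ex w j fun g => p w k (g⁻¹ * x) := by
  classical
  unfold p
  rw [ex_time]
  congr 1
  funext g
  congr 1
  funext h
  simp only [eq_inv_mul_iff_mul_eq]

theorem p_inv (k : ℕ) (x : Q) : p w k x⁻¹ = p w k x := by
  classical
  unfold p
  rw [← ex_inv w k fun g => if g = x then (1 : ℝ) else 0]
  congr 1
  funext g
  simp only [inv_eq_iff_eq_inv]

theorem p_pair (j k : ℕ) : Ex w j (p w k) = p w (j + k) 1 := by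
  rw [p_conv]
  congr 1
  funext g
  rw [mul_one, p_inv]

/-- the scalar product of the distributions at the times `j` and `k`, translated by `g` and `h` -/
theorem p_pair' (j k : ℕ) (g h : Q) (B : Finset Q) (hB : ∀ x, x ∉ B → p w j (g⁻¹ * x) = 0) :
    ∑ x ∈ B, p w j (g⁻¹ * x) * p w k (h⁻¹ * x) = p w (j + k) (g⁻¹ * h) := by
  classical
  let C : Finset Q := B.image fun x => g⁻¹ * x
  have hC : ∀ u, u ∉ C → p w j u = 0 := by
    intro u hu
    have h1 := hB (g * u) fun h2 => hu (Finset.mem_image.2 ⟨g * u, h2, by group⟩)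
    rwa [inv_mul_cancel_left] at h1
  rw [p_conv, ex_fin w j _ (C ∪ Supp w j) Finset.subset_union_right]
  have h1 : ∑ x ∈ C ∪ Supp w j, p w j x * p w k (x⁻¹ * (g⁻¹ * h)) =
      ∑ x ∈ C, p w j x * p w k (x⁻¹ * (g⁻¹ * h)) := by
    symm
    refine Finset.sum_subset Finset.subset_union_left fun x _ hx => ?_
    rw [hC x hx, zero_mul]
  rw [h1, Finset.sum_image fun x _ y _ hxy => mul_left_cancel hxy]
  refine Finset.sum_congr rfl fun x _ => ?_
  congr 1
  rw [← p_inv w k (h⁻¹ * x)]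
  congr 1
  group

theorem p_even_le (m : ℕ) (x : Q) : p w (2 * m) x ≤ p w (2 * m) 1 := by
  classical
  let B : Finset Q := Supp w m ∪ (Supp w m).image fun y => x * y
  have hB1 : ∀ y, y ∉ B → p w m ((1 : Q)⁻¹ * y) = 0 := by
    intro y hy
    rw [inv_one, one_mul]
    exact p_supp w m y fun h => hy (Finset.mem_union_left _ h)
  have hBx : ∀ y, y ∉ B → p w m (x⁻¹ * y) = 0 := by
    intro y hy
    refine p_supp w m _ fun h => hy (Finset.mem_union_right _ ?_)
    exact Finset.mem_image.2 ⟨x⁻¹ * y, h, by group⟩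
  have h1 := p_pair' w m m 1 x B hB1
  have h2 := p_pair' w m m 1 1 B hB1
  have h3 := p_pair' w m m x x B hBx
  rw [inv_one, one_mul, ← two_mul] at h1 h2
  rw [inv_mul_cancel, ← two_mul] at h3
  have h4 : ∑ y ∈ B, 2 * (p w m (1 * y) * p w m (x⁻¹ * y)) ≤
      ∑ y ∈ B, (p w m (1 * y) * p w m (1 * y) + p w m (x⁻¹ * y) * p w m (x⁻¹ * y)) :=
    Finset.sum_le_sum fun y _ => by nlinarith [sq_nonneg (p w m (1 * y) - p w m (x⁻¹ * y))]
  rw [← Finset.mul_sum, Finset.sum_add_distrib, h1, h2, h3] at h4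
  linarith

theorem p_anti (m : ℕ) : p w (2 * (m + 1)) 1 ≤ p w (2 * m) 1 := by
  have h1 : 2 * (m + 1) = 2 + 2 * m := by ring
  rw [h1, p_conv]
  refine (ex_mono w 2 (g := fun _ => p w (2 * m) 1) fun g => p_even_le w m _).trans ?_
  rw [ex_const]

theorem p_low (m : ℕ) : 1 ≤ ((Supp w m).card : ℝ) * p w (2 * m) 1 := by
  have h1 := p_pair' w m m 1 1 (Supp w m) (fun y hy => by
    rw [inv_one, one_mul]
    exact p_supp w m y hy)
  rw [inv_one, one_mul, ← two_mul] at h1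
  simp only [one_mul] at h1
  have h2 := sq_sum_le_card_mul_sum_sq (s := Supp w m) (f := p w m)
  rw [sum_p w m _ (Finset.Subset.refl _)] at h2
  have h3 : ∑ i ∈ Supp w m, p w m i ^ 2 = p w (2 * m) 1 := by
    rw [← h1]
    exact Finset.sum_congr rfl fun x _ => sq _
  rw [h3] at h2
  linarith

theorem p_pos (m : ℕ) : 0 < p w (2 * m) 1 := by
  have h1 := p_low w m
  have h2 := p_nonneg w (2 * m) 1
  rcases h2.lt_or_eq with h3 | h3
  · exact h3
  · rw [← h3, mul_zero] at h1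
    exact absurd h1 (by norm_num)

end H85.TG
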